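import Pool.Agent.LibRest.Defs

/-! **A1.**  Basic facts: continuity, the Euler identity, Klein's inequality. -/

open Matrix Filter Topology
open scoped ComplexOrder

namespace Pool.Agent.LibRest

open Pool.Agent.LibSchP

variable {n : Type} [Fintype n] [DecidableEq n] {ι : Type} [Fintype ι]

theorem cj_conj (d : n → ℝ) (P : Matrix n n ℂ) : cj d P = (dg d)ᴴ * P * dg d := by
  rw [dg_conjTranspose, cj]

theorem cj_psd (d : n → ℝ) (P : Matrix n n ℂ) (hP : P.PosSemidef) : (cj d P).PosSemidef := by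
  rw [cj_conj]
  exact hP.conjTranspose_mul_mul_same _

theorem cj_herm (d : n → ℝ) (P : Matrix n n ℂ) (hP : P.IsHermitian) : (cj d P).IsHermitian := by
  rw [cj_conj]
  exact isHermitian_conjTranspose_mul_mul _ hP

theorem dg_unit (d : n → ℝ) (hd : ∀ i, 0 < d i) : IsUnit (dg d) :=
  IsUnit.of_mul_eq_one _ (dg_mul_inv d hd)

theorem cj_pd (d : n → ℝ) (hd : ∀ i, 0 < d i) (P : Matrix n n ℂ) (hP : P.PosDef) :
    (cj d P).PosDef := by
  rw [cj_conj]
  exact hP.conjTranspose_mul_mul_same (Matrix.mulVec_injective_of_isUnit (dg_unit d hd))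

theorem cj_cj (d e : n → ℝ) (P : Matrix n n ℂ) : cj d (cj e P) = cj (fun i => d i * e i) P := by
  unfold cj
  rw [← dg_mul d e]
  have h : dg e * dg d = dg d * dg e := by
    rw [dg_mul, dg_mul]; congr 1; funext k; ring
  calc dg d * (dg e * P * dg e) * dg d = dg d * dg e * P * (dg e * dg d) := by
        simp only [Matrix.mul_assoc]
    _ = _ := by rw [h]

theorem cj_one (P : Matrix n n ℂ) : cj (fun _ => 1) P = P := by
  unfold cj
  rw [a2_dg_one, Matrix.one_mul, Matrix.mul_one]

theorem cj_cont (d : n → ℝ) : Continuous (cj d : Matrix n n ℂ → Matrix n n ℂ) := by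
  unfold cj
  fun_prop

theorem norm_entry_le_nf {m n : Type} [Fintype m] [Fintype n] (X : Matrix m n ℂ) (i : m) (j : n) :
    ‖X i j‖ ≤ nf X := by
  unfold nf
  apply Real.le_sqrt_of_sq_le
  unfold fr
  calc ‖X i j‖ ^ 2 ≤ ∑ j, ‖X i j‖ ^ 2 :=
        Finset.single_le_sum (f := fun j => ‖X i j‖ ^ 2) (fun _ _ => by positivity)
          (Finset.mem_univ j)
    _ ≤ _ := Finset.single_le_sum (f := fun i => ∑ j, ‖X i j‖ ^ 2)
          (fun _ _ => Finset.sum_nonneg fun _ _ => by positivity) (Finset.mem_univ i)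

theorem nf_cont {m n : Type} [Fintype m] [Fintype n] : Continuous (nf : Matrix m n ℂ → ℝ) := by
  unfold nf fr
  refine Real.continuous_sqrt.comp ?_
  refine continuous_finset_sum _ fun i _ => continuous_finset_sum _ fun j _ => ?_
  have : Continuous fun X : Matrix m n ℂ => X i j :=
    (continuous_apply j).comp (continuous_apply i)
  fun_prop

theorem tendsto_of_nf {α : Type} {l : Filter α} {m n : Type} [Fintype m] [Fintype n]
    (X : α → Matrix m n ℂ) (X₀ : Matrix m n ℂ) (h : Tendsto (fun a => nf (X a - X₀)) l (𝓝 0)) :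
    Tendsto X l (𝓝 X₀) := by
  refine tendsto_pi_nhds.2 fun i => tendsto_pi_nhds.2 fun j => ?_
  rw [tendsto_iff_norm_sub_tendsto_zero]
  exact squeeze_zero (fun _ => norm_nonneg _) (fun a => norm_entry_le_nf (X a - X₀) i j) h

/-- powers `s ≥ 1` are continuous on the positive semidefinite matrices -/
theorem rp_contOn (s : ℝ) (hs : 1 ≤ s) :
    ContinuousOn (rp s : Matrix n n ℂ → Matrix n n ℂ) {P | P.PosSemidef} := by
  intro X₀ hX₀
  refine tendsto_of_nf _ _ ?_
  obtain ⟨L, hL, h⟩ := rp_lip (n := n) s (nf X₀ + 1) hs (by linarith [nf_nonneg X₀])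
  have h1 : Tendsto (fun X : Matrix n n ℂ => L * nf (X - X₀)) (𝓝[{P | P.PosSemidef}] X₀) (𝓝 0) := by
    have : Continuous fun X : Matrix n n ℂ => L * nf (X - X₀) :=
      continuous_const.mul (nf_cont.comp (continuous_id.sub continuous_const))
    have h2 := this.tendsto X₀
    rw [sub_self, nf_zero, mul_zero] at h2
    exact h2.mono_left nhdsWithin_le_nhds
  have h2 : ∀ᶠ X : Matrix n n ℂ in 𝓝[{P | P.PosSemidef}] X₀, nf X ≤ nf X₀ + 1 := by
    have h3 : ∀ᶠ X : Matrix n n ℂ in 𝓝 X₀, nf X < nf X₀ + 1 :=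
      nf_cont.tendsto X₀ (Iio_mem_nhds (by linarith))
    filter_upwards [h3.filter_mono nhdsWithin_le_nhds] with X hX using hX.le
  refine squeeze_zero' (Eventually.of_forall fun _ => nf_nonneg _) ?_ h1
  filter_upwards [h2, self_mem_nhdsWithin] with X hX hX'
  exact h X X₀ hX' hX₀ hX (by linarith)

theorem ND_contOn (s : ℝ) (hs : 1 ≤ s) (d : n → ℝ) :
    ContinuousOn (ND s d : Matrix n n ℂ → ℝ) {P | P.PosSemidef} := by
  have h1 : ContinuousOn (fun P : Matrix n n ℂ => rp s (cj d P)) {P | P.PosSemidef} :=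
    (rp_contOn s hs).comp (cj_cont d).continuousOn fun P hP => cj_psd d P hP
  have h2 : Continuous fun M : Matrix n n ℂ => (trace M).re := by fun_prop
  exact h2.comp_continuousOn h1

theorem FD_contOn (s : ℝ) (hs : 1 ≤ s) (d : ι → n → ℝ) :
    ContinuousOn (FD s d : Matrix n n ℂ → ℝ) {P | P.PosSemidef} := by
  have h2 : Continuous fun M : Matrix n n ℂ => (trace M).re := by fun_prop
  refine (h2.comp_continuousOn (rp_contOn s hs)).sub ?_
  exact continuousOn_finsetSum _ fun k _ => ND_contOn s hs (d k)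

theorem mul_rp_pred (s : ℝ) (hs : 1 < s) (X : Matrix n n ℂ) (hX : X.PosSemidef) :
    X * rp (s - 1) X = rp s X := by
  obtain ⟨V, hV, x, hx, rfl⟩ := ud_exists_nonneg X hX
  rw [rp_ud s V hV, rp_ud (s - 1) V hV, ud_mul V hV]
  congr 1
  funext i
  rcases eq_or_lt_of_le (hx i) with h | h
  · simp only [← h, zero_mul]
    rw [Real.zero_rpow (by linarith)]
  · rw [mul_comm, ← Real.rpow_add_one h.ne']
    congr 1
    ring

/-- `tr P n_D(P) = N_D(P)` -/
theorem trace_mul_nD (s : ℝ) (hs : 1 < s) (d : n → ℝ) (P : Matrix n n ℂ) (hP : P.PosSemidef) :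
    (trace (P * nD s d P)).re = ND s d P := by
  unfold nD ND
  rw [← mul_rp_pred s hs _ (cj_psd d P hP)]
  congr 1
  unfold cj
  calc trace (P * (dg d * rp (s - 1) (dg d * P * dg d) * dg d))
      = trace (P * (dg d * rp (s - 1) (dg d * P * dg d)) * dg d) := by
        simp only [Matrix.mul_assoc]
    _ = trace (dg d * (P * (dg d * rp (s - 1) (dg d * P * dg d)))) := Matrix.trace_mul_comm _ _
    _ = _ := by simp only [Matrix.mul_assoc]

/-- the Euler identity `tr P Y(P) = F(P)` -/
theorem trace_mul_YD (s : ℝ) (hs : 1 < s) (d : ι → n → ℝ) (P : Matrix n n ℂ)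
    (hP : P.PosSemidef) : (trace (P * YD s d P)).re = FD s d P := by
  unfold YD FD
  rw [Matrix.mul_sub, trace_sub, Complex.sub_re, mul_rp_pred s hs P hP, Matrix.mul_sum,
    Matrix.trace_sum, Complex.re_sum]
  congr 1
  exact Finset.sum_congr rfl fun k _ => trace_mul_nD s hs (d k) P hP

theorem nD_psd (s : ℝ) (d : n → ℝ) (P : Matrix n n ℂ) (hP : P.PosSemidef) :
    (nD s d P).PosSemidef := by
  have := cj_psd d (rp (s - 1) (cj d P)) (rp_posSemidef _ _ (cj_psd d P hP))
  exact this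

theorem YD_herm (s : ℝ) (d : ι → n → ℝ) (P : Matrix n n ℂ) : (YD s d P).IsHermitian := by
  unfold YD
  refine (rp_isHermitian _ _).sub ?_
  have h : ∀ k, (nD s (d k) P).IsHermitian := fun k => cj_herm (d k) _ (rp_isHermitian _ _)
  unfold Matrix.IsHermitian
  rw [Matrix.conjTranspose_sum]
  exact Finset.sum_congr rfl fun k _ => h k

/-- Klein's inequality for `N_D` -/
theorem klein_ND (s : ℝ) (hs : 1 < s) (d : n → ℝ) (P Q : Matrix n n ℂ) (hP : P.PosSemidef)
    (hQ : Q.PosSemidef) :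
    ND s d P + s * (trace (nD s d P * (Q - P))).re ≤ ND s d Q := by
  have h := LibSchTw.klein_psd s hs (cj d P) (cj d Q) (cj_psd d P hP) (cj_psd d Q hQ)
  have e : trace (nD s d P * (Q - P)) = trace (rp (s - 1) (cj d P) * (cj d Q - cj d P)) := by
    have e1 : cj d Q - cj d P = dg d * (Q - P) * dg d := by
      unfold cj
      rw [Matrix.mul_sub, Matrix.sub_mul]
    rw [e1]
    unfold nD
    calc trace (dg d * rp (s - 1) (cj d P) * dg d * (Q - P))
        = trace (dg d * (rp (s - 1) (cj d P) * dg d * (Q - P))) := by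
          simp only [Matrix.mul_assoc]
      _ = trace (rp (s - 1) (cj d P) * dg d * (Q - P) * dg d) := Matrix.trace_mul_comm _ _
      _ = _ := by simp only [Matrix.mul_assoc]
  rw [e]
  exact h

/-- upper bound of `F` by its linearisation at `P` -/
theorem FD_le (s : ℝ) (hs : 1 < s) (d : ι → n → ℝ) (P Q : Matrix n n ℂ) (hP : P.PosSemidef)
    (hQ : Q.PosSemidef) :
    FD s d Q ≤ FD s d P + s * (trace (YD s d P * (Q - P))).re +
      s * (trace ((rp (s - 1) Q - rp (s - 1) P) * (Q - P))).re := by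
  have h1 := LibSchTw.klein_psd s hs Q P hQ hP
  have h2 : ∑ k, (ND s (d k) P + s * (trace (nD s (d k) P * (Q - P))).re) ≤ ∑ k, ND s (d k) Q :=
    Finset.sum_le_sum fun k _ => klein_ND s hs (d k) P Q hP hQ
  rw [Finset.sum_add_distrib, ← Finset.mul_sum] at h2
  have e1 : (trace (YD s d P * (Q - P))).re = (trace (rp (s - 1) P * (Q - P))).re -
      ∑ k, (trace (nD s (d k) P * (Q - P))).re := by
    unfold YD
    rw [Matrix.sub_mul, trace_sub, Complex.sub_re, Matrix.sum_mul, Matrix.trace_sum,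
      Complex.re_sum]
  have e2 : (trace ((rp (s - 1) Q - rp (s - 1) P) * (Q - P))).re =
      (trace (rp (s - 1) Q * (Q - P))).re - (trace (rp (s - 1) P * (Q - P))).re := by
    rw [Matrix.sub_mul, trace_sub, Complex.sub_re]
  have e3 : (trace (rp (s - 1) Q * (P - Q))).re = -(trace (rp (s - 1) Q * (Q - P))).re := by
    rw [← neg_sub Q P, Matrix.mul_neg, trace_neg, Complex.neg_re]
  rw [e1, e2]
  unfold FD
  rw [e3] at h1
  have h3 := h1
  nlinarith [h1, h2]

end Pool.Agent.LibRest
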