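import Pool.Agent.LibRest.A1
import Pool.Agent.LibSchP.T4a

/-! **A2.**  Maximisers of `s tr P B - F(P)`: existence, positive definiteness, critical equation. -/

open Matrix Filter Topology
open scoped ComplexOrder

namespace Pool.Agent.LibRest

open Pool.Agent.LibSchP

variable {n : Type} [Fintype n] [DecidableEq n] {ι : Type} [Fintype ι]

theorem isClosed_psd : IsClosed {P : Matrix n n ℂ | P.PosSemidef} := by
  have h : {P : Matrix n n ℂ | P.PosSemidef} =
      {P : Matrix n n ℂ | Pᴴ = P} ∩ ⋂ x : n → ℂ, {P : Matrix n n ℂ | 0 ≤ star x ⬝ᵥ P *ᵥ x} := by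
    ext P
    simp only [Set.mem_setOf_eq, Set.mem_inter_iff, Set.mem_iInter]
    constructor
    · intro h
      exact ⟨h.1, fun x => h.dotProduct_mulVec_nonneg x⟩
    · rintro ⟨h1, h2⟩
      exact PosSemidef.of_dotProduct_mulVec_nonneg h1 h2
  rw [h]
  refine IsClosed.inter ?_ (isClosed_iInter fun x => ?_)
  · exact isClosed_eq (by fun_prop) continuous_id
  · have : Continuous fun P : Matrix n n ℂ => star x ⬝ᵥ P *ᵥ x := by fun_prop
    exact isClosed_Ici.preimage this

theorem isCompact_psd (R : ℝ) : IsCompact {P : Matrix n n ℂ | P.PosSemidef ∧ nf P ≤ R} := by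
  have hK : IsCompact (Set.univ.pi fun _ : n => Set.univ.pi fun _ : n =>
      Metric.closedBall (0 : ℂ) R) :=
    isCompact_univ_pi fun _ => isCompact_univ_pi fun _ => isCompact_closedBall 0 R
  refine hK.of_isClosed_subset ?_ ?_
  · exact isClosed_psd.inter (isClosed_Iic.preimage nf_cont)
  · rintro P ⟨_, hP⟩ i _ j _
    rw [mem_closedBall_zero_iff]
    exact (norm_entry_le_nf P i j).trans hP

theorem nf_ud_le (V : Matrix n n ℂ) (hV : V ∈ unitaryGroup n ℂ) (x : n → ℝ) (hx : ∀ i, 0 ≤ x i) :
    nf (ud V x) ≤ ∑ i, x i := by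
  have hS : 0 ≤ ∑ i, x i := Finset.sum_nonneg fun i _ => hx i
  unfold nf
  rw [Real.sqrt_le_left hS, fr_eq_trace, (ud_isHermitian V x).eq, ud_mul V hV,
    LibSchTw.trace_ud_re V hV, Complex.ofReal_re, sq, Finset.sum_mul]
  refine Finset.sum_le_sum fun i _ => ?_
  exact mul_le_mul_of_nonneg_left (Finset.single_le_sum (f := x) (fun j _ => hx j)
    (Finset.mem_univ i)) (hx i)

theorem rpow_ge_lin (s K x : ℝ) (hs : 1 < s) (hK : 0 ≤ K) (hx : 0 ≤ x) :
    K ^ (s - 1) * (x - K) ≤ x ^ s := by
  rcases le_total K x with h | h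
  · have h1 : x ^ s = x ^ (s - 1) * x := by
      rcases eq_or_lt_of_le hx with h0 | h0
      · rw [← h0, mul_zero, Real.zero_rpow (by linarith)]
      · rw [← Real.rpow_add_one h0.ne']
        congr 1
        ring
    rw [h1]
    calc K ^ (s - 1) * (x - K) ≤ K ^ (s - 1) * x :=
          mul_le_mul_of_nonneg_left (by linarith) (Real.rpow_nonneg hK _)
      _ ≤ _ := mul_le_mul_of_nonneg_right (Real.rpow_le_rpow hK h (by linarith)) hx
  · exact (mul_nonpos_of_nonneg_of_nonpos (Real.rpow_nonneg hK _) (by linarith)).trans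
      (Real.rpow_nonneg hx _)

theorem re_trace_mul_le (P B : Matrix n n ℂ) (hP : P.IsHermitian) :
    (trace (P * B)).re ≤ nf P * nf B := by
  have := re_trace_le P B
  rw [hP.eq] at this
  exact (le_abs_self _).trans this

/-- coercivity: the sublevel sets are bounded -/
theorem coercive_bound (s : ℝ) (hs : 1 < s) (c β : ℝ) (hc : 0 < c) (hβ : 0 ≤ β) :
    ∃ R : ℝ, 0 ≤ R ∧ ∀ (P B : Matrix n n ℂ), P.PosSemidef → nf B ≤ β →
      c * (trace (rp s P)).re ≤ s * (trace (P * B)).re → nf P ≤ R := by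
  have hs1 : 0 < s - 1 := by linarith
  have hA : 0 < s * β + 1 := by
    have : 0 ≤ s * β := mul_nonneg (by linarith) hβ
    linarith
  set K : ℝ := ((s * β + 1) / c) ^ (1 / (s - 1)) with hKd
  have hK : 0 ≤ K := Real.rpow_nonneg (div_nonneg hA.le hc.le) _
  have hKe : c * K ^ (s - 1) = s * β + 1 := by
    rw [hKd, ← Real.rpow_mul (div_nonneg hA.le hc.le), one_div, inv_mul_cancel₀ hs1.ne',
      Real.rpow_one]
    field_simp
  refine ⟨Fintype.card n * K * (s * β + 1), by positivity, fun P B hP hB h => ?_⟩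
  obtain ⟨V, hV, x, hx, rfl⟩ := ud_exists_nonneg P hP
  have h1 := re_trace_mul_le (ud V x) B (ud_isHermitian V x)
  have h2 : nf (ud V x) * nf B ≤ nf (ud V x) * β := mul_le_mul_of_nonneg_left hB (nf_nonneg _)
  have h3 := nf_ud_le V hV x hx
  have h4 : K ^ (s - 1) * (∑ i, x i - Fintype.card n * K) ≤ (trace (rp s (ud V x))).re := by
    rw [rp_ud s V hV, LibSchTw.trace_ud_re V hV, Complex.ofReal_re]
    calc K ^ (s - 1) * (∑ i, x i - Fintype.card n * K) = ∑ i, K ^ (s - 1) * (x i - K) := by
          rw [← Finset.mul_sum, Finset.sum_sub_distrib, Finset.sum_const, Finset.card_univ,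
            nsmul_eq_mul]
      _ ≤ _ := Finset.sum_le_sum fun i _ => rpow_ge_lin s K (x i) hs hK (hx i)
  have h5 : K ^ (s - 1) * (nf (ud V x) - Fintype.card n * K) ≤
      K ^ (s - 1) * (∑ i, x i - Fintype.card n * K) :=
    mul_le_mul_of_nonneg_left (by linarith) (Real.rpow_nonneg hK _)
  have h6 : c * (K ^ (s - 1) * (nf (ud V x) - Fintype.card n * K)) ≤
      s * (nf (ud V x) * β) := by
    calc c * (K ^ (s - 1) * (nf (ud V x) - Fintype.card n * K))
        ≤ c * (trace (rp s (ud V x))).re :=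
          mul_le_mul_of_nonneg_left (h5.trans h4) hc.le
      _ ≤ s * (trace (ud V x * B)).re := h
      _ ≤ _ := mul_le_mul_of_nonneg_left (h1.trans h2) (by linarith)
  rw [← mul_assoc, hKe] at h6
  nlinarith [h6]

theorem rp_zero_mat (s : ℝ) (hs : 0 < s) : rp s (0 : Matrix n n ℂ) = 0 := by
  have h : (0 : Matrix n n ℂ) = ud 1 (fun _ => 0) := by
    rw [ud_one_fun]
    unfold dg
    simp
  rw [h, rp_ud s 1 (one_mem _)]
  congr 1
  funext _
  exact Real.zero_rpow hs.ne'

theorem FD_zero (s : ℝ) (hs : 0 < s) (d : ι → n → ℝ) : FD s d (0 : Matrix n n ℂ) = 0 := by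
  unfold FD ND cj
  simp [rp_zero_mat s hs]

/-- existence of a maximiser -/
theorem exists_max (s : ℝ) (hs : 1 < s) (d : ι → n → ℝ) (c : ℝ) (hc : 0 < c)
    (hco : ∀ P : Matrix n n ℂ, P.PosSemidef → c * (trace (rp s P)).re ≤ FD s d P)
    (B : Matrix n n ℂ) :
    ∃ P : Matrix n n ℂ, P.PosSemidef ∧ ∀ Q : Matrix n n ℂ, Q.PosSemidef →
      s * (trace (Q * B)).re - FD s d Q ≤ s * (trace (P * B)).re - FD s d P := by
  obtain ⟨R, hR, hb⟩ := coercive_bound (n := n) s hs c (nf B) hc (nf_nonneg _)
  have hcont : ContinuousOn (fun P : Matrix n n ℂ => s * (trace (P * B)).re - FD s d P)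
      {P | P.PosSemidef ∧ nf P ≤ R} := by
    refine ContinuousOn.sub ?_ ((FD_contOn s hs.le d).mono fun P hP => hP.1)
    exact Continuous.continuousOn (by fun_prop)
  have h0 : (0 : Matrix n n ℂ) ∈ {P : Matrix n n ℂ | P.PosSemidef ∧ nf P ≤ R} :=
    ⟨PosSemidef.zero, by rw [nf_zero]; exact hR⟩
  obtain ⟨P, hP, hmax⟩ := (isCompact_psd (n := n) R).exists_isMaxOn ⟨0, h0⟩ hcont
  refine ⟨P, hP.1, fun Q hQ => ?_⟩
  by_cases hq : c * (trace (rp s Q)).re ≤ s * (trace (Q * B)).re
  · exact hmax ⟨hQ, hb Q B hQ le_rfl hq⟩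
  · push Not at hq
    have h1 := hco Q hQ
    have h2 := hmax h0
    simp only [Set.mem_setOf_eq, Matrix.zero_mul, trace_zero, Complex.zero_re, mul_zero,
      FD_zero s (by linarith : 0 < s), sub_zero] at h2
    linarith

/-- `Y(P) ≥ B` at a maximiser, in the weak form -/
theorem max_dir (s : ℝ) (hs : 2 ≤ s) (d : ι → n → ℝ) (B : Matrix n n ℂ)
    (P : Matrix n n ℂ) (hP : P.PosSemidef)
    (hmax : ∀ Q : Matrix n n ℂ, Q.PosSemidef →
      s * (trace (Q * B)).re - FD s d Q ≤ s * (trace (P * B)).re - FD s d P)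
    (H : Matrix n n ℂ) (hH : ∀ᶠ t : ℝ in 𝓝[>] 0, (P + (t : ℂ) • H).PosSemidef) :
    (trace (H * B)).re ≤ (trace (YD s d P * H)).re := by
  have hs0 : 0 < s := by linarith
  have hcont : Tendsto (fun t : ℝ => (trace ((rp (s - 1) (P + (t : ℂ) • H) - rp (s - 1) P) * H)).re)
      (𝓝[>] 0) (𝓝 0) := by
    have h1 : Tendsto (fun t : ℝ => rp (s - 1) (P + (t : ℂ) • H)) (𝓝[>] 0)
        (𝓝 (rp (s - 1) P)) := by
      have h2 : Tendsto (fun t : ℝ => P + (t : ℂ) • H) (𝓝[>] 0)
          (𝓝[{P : Matrix n n ℂ | P.PosSemidef}] P) := by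
        refine tendsto_nhdsWithin_iff.2 ⟨?_, hH⟩
        have h3 : Continuous fun t : ℝ => P + (t : ℂ) • H := by fun_prop
        have h4 := h3.tendsto 0
        simp only [Complex.ofReal_zero, zero_smul, add_zero] at h4
        exact h4.mono_left nhdsWithin_le_nhds
      exact (rp_contOn (s - 1) (by linarith) P hP).tendsto.comp h2
    have h5 : Continuous fun M : Matrix n n ℂ => (trace ((M - rp (s - 1) P) * H)).re := by
      fun_prop
    have h6 := (h5.tendsto (rp (s - 1) P)).comp h1
    simp only [sub_self, Matrix.zero_mul, trace_zero, Complex.zero_re] at h6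
    exact h6
  have key : ∀ᶠ t : ℝ in 𝓝[>] 0, (trace (H * B)).re - (trace (YD s d P * H)).re ≤
      (trace ((rp (s - 1) (P + (t : ℂ) • H) - rp (s - 1) P) * H)).re := by
    filter_upwards [hH, self_mem_nhdsWithin] with t ht htp
    have htp : 0 < t := htp
    have h1 := hmax _ ht
    have h2 := FD_le s (by linarith) d P _ hP ht
    rw [add_sub_cancel_left] at h2
    rw [Matrix.add_mul, trace_add, Complex.add_re, Matrix.smul_mul, trace_smul, smul_eq_mul,
      Complex.re_ofReal_mul] at h1
    rw [Matrix.mul_smul, Matrix.mul_smul, trace_smul, trace_smul, smul_eq_mul, smul_eq_mul,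
      Complex.re_ofReal_mul, Complex.re_ofReal_mul] at h2
    have h3 : s * t * ((trace (H * B)).re - (trace (YD s d P * H)).re) ≤
        s * t * (trace ((rp (s - 1) (P + (t : ℂ) • H) - rp (s - 1) P) * H)).re := by
      nlinarith [h1, h2]
    exact le_of_mul_le_mul_left h3 (mul_pos hs0 htp)
  have := ge_of_tendsto hcont key
  linarith

/-- a maximiser is positive definite and critical -/
theorem max_crit (s : ℝ) (hs : 2 ≤ s) (d : ι → n → ℝ) (B : Matrix n n ℂ) (hB : B.PosDef)
    (P : Matrix n n ℂ) (hP : P.PosSemidef)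
    (hmax : ∀ Q : Matrix n n ℂ, Q.PosSemidef →
      s * (trace (Q * B)).re - FD s d Q ≤ s * (trace (P * B)).re - FD s d P) :
    P.PosDef ∧ YD s d P = B := by
  have hPd : P.PosDef := by
    obtain ⟨V, hV, x, hx, rfl⟩ := ud_exists_nonneg P hP
    refine ud_posDef V hV x fun i => lt_of_le_of_ne (hx i) fun h0 => ?_
    have hHp : (ud V (fun j => if j = i then (1 : ℝ) else 0)).PosSemidef :=
      ud_posSemidef V _ fun j => by split_ifs <;> norm_num
    have h1 := max_dir s hs d B _ hP hmax (ud V (fun j => if j = i then (1 : ℝ) else 0)) (by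
      filter_upwards [self_mem_nhdsWithin] with t ht
      have ht : 0 < t := ht
      exact hP.add (hHp.smul (by exact_mod_cast ht.le)))
    have h2 : (trace (YD s d (ud V x) * ud V (fun j => if j = i then (1 : ℝ) else 0))).re ≤ 0 := by
      unfold YD
      rw [Matrix.sub_mul, trace_sub, Complex.sub_re, Matrix.sum_mul, Matrix.trace_sum,
        Complex.re_sum, rp_ud _ V hV, ud_mul V hV, LibSchTw.trace_ud_re V hV, Complex.ofReal_re]
      have h3 : ∑ j, x j ^ (s - 1) * (if j = i then (1 : ℝ) else 0) = 0 := by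
        refine Finset.sum_eq_zero fun j _ => ?_
        split_ifs with h
        · rw [h, ← h0, Real.zero_rpow (by linarith), zero_mul]
        · rw [mul_zero]
      have h4 : 0 ≤ ∑ k, (trace (nD s (d k) (ud V x) *
          ud V (fun j => if j = i then (1 : ℝ) else 0))).re :=
        Finset.sum_nonneg fun k _ => t4a_trace_nonneg _ (nD_psd s (d k) _ hP) V _ fun j => by
          split_ifs <;> norm_num
      linarith
    have h5 : 0 < (trace (ud V (fun j => if j = i then (1 : ℝ) else 0) * B)).re := by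
      have hVinj : Function.Injective V.mulVec := by
        refine Matrix.mulVec_injective_of_isUnit ?_
        exact IsUnit.of_mul_eq_one _ (a2_uu' V hV)
      have hB' : (Vᴴ * B * V).PosDef := hB.conjTranspose_mul_mul_same hVinj
      have e : trace (ud V (fun j => if j = i then (1 : ℝ) else 0) * B) = (Vᴴ * B * V) i i := by
        unfold ud
        calc trace (V * dg (fun j => if j = i then (1 : ℝ) else 0) * Vᴴ * B)
            = trace (V * (dg (fun j => if j = i then (1 : ℝ) else 0) * (Vᴴ * B))) := by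
              simp only [Matrix.mul_assoc]
          _ = trace (dg (fun j => if j = i then (1 : ℝ) else 0) * (Vᴴ * B) * V) :=
              Matrix.trace_mul_comm _ _
          _ = trace (dg (fun j => if j = i then (1 : ℝ) else 0) * (Vᴴ * B * V)) := by
              simp only [Matrix.mul_assoc]
          _ = _ := by
              unfold dg trace
              simp only [Matrix.diag_apply, Matrix.diagonal_mul]
              rw [Finset.sum_eq_single i]
              · simp
              · intro j _ hj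
                simp [hj]
              · intro h; exact absurd (Finset.mem_univ i) h
      rw [e]
      exact (Complex.pos_iff.1 hB'.diag_pos).1
    linarith
  refine ⟨hPd, ?_⟩
  have hHh : (B - YD s d P).IsHermitian := hB.isHermitian.sub (YD_herm s d P)
  have h1 := max_dir s hs d B P hP hmax (B - YD s d P) (by
    have := LibSchN.posDef_near P _ hPd hHh
    filter_upwards [this.filter_mono nhdsWithin_le_nhds] with t ht using ht.posSemidef)
  have h2 : (trace ((B - YD s d P) * B)).re - (trace (YD s d P * (B - YD s d P))).re =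
      fr (B - YD s d P) := by
    rw [fr_eq_trace, hHh.eq, Matrix.mul_sub (B - YD s d P), trace_sub, Complex.sub_re,
      Matrix.trace_mul_comm (B - YD s d P) (YD s d P)]
  have h3 : nf (B - YD s d P) = 0 := by
    unfold nf
    rw [Real.sqrt_eq_zero (fr_nonneg _)]
    linarith [fr_nonneg (B - YD s d P)]
  have h4 : B - YD s d P = 0 := by
    ext i j
    have := norm_entry_le_nf (B - YD s d P) i j
    rw [h3] at this
    exact norm_le_zero_iff.1 this
  exact (sub_eq_zero.1 h4).symm

/-- **MT1** -/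
theorem exists_max_crit (s : ℝ) (hs : 2 ≤ s) (d : ι → n → ℝ) (c : ℝ) (hc : 0 < c)
    (hco : ∀ P : Matrix n n ℂ, P.PosSemidef → c * (trace (rp s P)).re ≤ FD s d P)
    (B : Matrix n n ℂ) (hB : B.PosDef) :
    ∃ P : Matrix n n ℂ, P.PosDef ∧ YD s d P = B ∧ ∀ Q : Matrix n n ℂ, Q.PosSemidef →
      s * (trace (Q * B)).re - FD s d Q ≤ s * (trace (P * B)).re - FD s d P := by
  obtain ⟨P, hP, hmax⟩ := exists_max s (by linarith) d c hc hco B
  obtain ⟨h1, h2⟩ := max_crit s hs d B hB P hP hmax
  exact ⟨P, h1, h2, hmax⟩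

end Pool.Agent.LibRest
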