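import Pool.Agent.LibRest.A2

/-! **CE.**  Coercivity of `F` from the finite inequality CO. -/

open Matrix Filter Topology
open scoped ComplexOrder

namespace Pool.Agent.LibRest

open Pool.Agent.LibSchP

variable {n : Type} [Fintype n] [DecidableEq n] {ι : Type} [Fintype ι]

theorem ce_smul_ud (c : ℝ) (U : Matrix n n ℂ) (x : n → ℝ) :
    (c : ℂ) • ud U x = ud U fun k => c * x k := by
  have h : (c : ℂ) • dg x = dg fun k => c * x k := by
    unfold dg
    rw [← diagonal_smul]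
    congr 1
    funext k
    simp
  unfold ud
  rw [← h, Matrix.mul_smul, Matrix.smul_mul]

theorem ce_rp_smul (t c : ℝ) (hc : 0 ≤ c) (θ : Matrix n n ℂ) (hθ : θ.PosSemidef) :
    rp t ((c : ℂ) • θ) = ((c ^ t : ℝ) : ℂ) • rp t θ := by
  obtain ⟨U, hU, x, hx, rfl⟩ := ud_exists_nonneg θ hθ
  rw [rp_ud t U hU, ce_smul_ud, rp_ud t U hU, ce_smul_ud]
  congr 1
  funext k
  exact Real.mul_rpow hc (hx k)

omit [Fintype n] [DecidableEq n] in
theorem ce_smul_psd (c : ℝ) (hc : 0 ≤ c) (θ : Matrix n n ℂ) (hθ : θ.PosSemidef) :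
    ((c : ℂ) • θ).PosSemidef := by
  refine hθ.smul ?_
  exact_mod_cast hc

theorem ce_cj_smul (d : n → ℝ) (c : ℂ) (P : Matrix n n ℂ) : cj d (c • P) = c • cj d P := by
  unfold cj
  rw [Matrix.mul_smul, Matrix.smul_mul]

theorem ce_cj_scale (t : ℝ) (d : n → ℝ) (P : Matrix n n ℂ) :
    cj (fun i => t * d i) P = ((t ^ 2 : ℝ) : ℂ) • cj d P := by
  have h : (dg fun i => t * d i) = (t : ℂ) • dg d := by
    unfold dg
    rw [← diagonal_smul]
    congr 1
    funext k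
    simp
  unfold cj
  rw [h, Matrix.smul_mul, Matrix.smul_mul, Matrix.mul_smul, smul_smul]
  congr 1
  push_cast
  ring

/-- `tr P^s` -/
noncomputable def TT (s : ℝ) (P : Matrix n n ℂ) : ℝ := (trace (rp s P)).re

theorem TT_ud (s : ℝ) (U : Matrix n n ℂ) (hU : U ∈ unitaryGroup n ℂ) (x : n → ℝ) :
    TT s (ud U x) = ∑ i, x i ^ s := by
  unfold TT
  rw [rp_ud s U hU, LibSchTw.trace_ud_re U hU, Complex.ofReal_re]

theorem TT_nonneg (s : ℝ) (P : Matrix n n ℂ) (hP : P.PosSemidef) : 0 ≤ TT s P := by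
  obtain ⟨U, hU, x, hx, rfl⟩ := ud_exists_nonneg P hP
  rw [TT_ud s U hU]
  exact Finset.sum_nonneg fun i _ => Real.rpow_nonneg (hx i) _

theorem TT_smul (s c : ℝ) (hc : 0 ≤ c) (P : Matrix n n ℂ) (hP : P.PosSemidef) :
    TT s ((c : ℂ) • P) = c ^ s * TT s P := by
  unfold TT
  rw [ce_rp_smul s c hc P hP, trace_smul, smul_eq_mul, Complex.re_ofReal_mul]

theorem ND_eq (s : ℝ) (d : n → ℝ) (P : Matrix n n ℂ) : ND s d P = TT s (cj d P) := rfl

theorem ce_ND_smul (s c : ℝ) (hc : 0 ≤ c) (d : n → ℝ) (P : Matrix n n ℂ) (hP : P.PosSemidef) :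
    ND s d ((c : ℂ) • P) = c ^ s * ND s d P := by
  rw [ND_eq, ND_eq, ce_cj_smul, TT_smul s c hc _ (cj_psd d P hP)]

theorem FD_smul (s c : ℝ) (hc : 0 ≤ c) (d : ι → n → ℝ) (P : Matrix n n ℂ) (hP : P.PosSemidef) :
    FD s d ((c : ℂ) • P) = c ^ s * FD s d P := by
  have h1 := TT_smul s c hc P hP
  unfold TT at h1
  unfold FD
  rw [h1, mul_sub, Finset.mul_sum]
  congr 1
  exact Finset.sum_congr rfl fun k _ => ce_ND_smul s c hc (d k) P hP

theorem ND_nonneg (s : ℝ) (d : n → ℝ) (P : Matrix n n ℂ) (hP : P.PosSemidef) : 0 ≤ ND s d P :=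
  TT_nonneg s _ (cj_psd d P hP)

theorem ce_pow (s κ : ℝ) (hs : 0 < s) (hκ : 0 < κ) : ((κ ^ (1 / (2 * s))) ^ 2) ^ s = κ := by
  rw [← Real.rpow_natCast (κ ^ (1 / (2 * s))) 2, ← Real.rpow_mul hκ.le, ← Real.rpow_mul hκ.le]
  have : 1 / (2 * s) * ((2 : ℕ) : ℝ) * s = 1 := by
    push_cast
    field_simp
  rw [this, Real.rpow_one]

theorem ce_ND_scale (s κ : ℝ) (hs : 0 < s) (hκ : 0 < κ) (d : n → ℝ) (P : Matrix n n ℂ)
    (hP : P.PosSemidef) : ND s (fun i => κ ^ (1 / (2 * s)) * d i) P = κ * ND s d P := by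
  rw [ND_eq, ce_cj_scale, TT_smul s _ (by positivity) _ (cj_psd d P hP), ce_pow s κ hs hκ, ND_eq]

theorem ce_nD_scale (s κ : ℝ) (hs : 0 < s) (hκ : 0 < κ) (d : n → ℝ) (P : Matrix n n ℂ)
    (hP : P.PosSemidef) :
    nD s (fun i => κ ^ (1 / (2 * s)) * d i) P = ((κ : ℝ) : ℂ) • nD s d P := by
  set t : ℝ := κ ^ (1 / (2 * s)) with ht
  have ht0 : 0 < t := Real.rpow_pos_of_pos hκ _
  have e : ∀ X : Matrix n n ℂ, (dg fun i => t * d i) * X * (dg fun i => t * d i) =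
      ((t ^ 2 : ℝ) : ℂ) • (dg d * X * dg d) := ce_cj_scale t d
  unfold nD
  rw [e, ce_cj_scale, ce_rp_smul (s - 1) _ (by positivity) _ (cj_psd d P hP), Matrix.mul_smul,
    Matrix.smul_mul, smul_smul]
  congr 1
  have h1 : t ^ 2 * (t ^ 2) ^ (s - 1) = κ := by
    have h2 : (t ^ 2) ^ (s - 1 + 1) = (t ^ 2) ^ (s - 1) * (t ^ 2) := by
      rw [Real.rpow_add_one (by positivity)]
    rw [sub_add_cancel, ce_pow s κ hs hκ] at h2
    rw [h2]
    ring
  exact_mod_cast h1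

/-- scaling of the weights -/
noncomputable def sc (s κ : ℝ) (d : ι → n → ℝ) : ι → n → ℝ := fun k i => κ ^ (1 / (2 * s)) * d k i

theorem FD_sc (s κ : ℝ) (hs : 0 < s) (hκ : 0 < κ) (d : ι → n → ℝ) (P : Matrix n n ℂ)
    (hP : P.PosSemidef) : FD s (sc s κ d) P = TT s P - κ * ∑ k, ND s (d k) P := by
  unfold FD
  rw [Finset.mul_sum]
  unfold TT
  congr 1
  exact Finset.sum_congr rfl fun k _ => ce_ND_scale s κ hs hκ (d k) P hP

theorem YD_sc (s κ : ℝ) (hs : 0 < s) (hκ : 0 < κ) (d : ι → n → ℝ) (P : Matrix n n ℂ)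
    (hP : P.PosSemidef) :
    YD s (sc s κ d) P = rp (s - 1) P - ((κ : ℝ) : ℂ) • ∑ k, nD s (d k) P := by
  unfold YD
  rw [Finset.smul_sum]
  congr 1
  exact Finset.sum_congr rfl fun k _ => ce_nD_scale s κ hs hκ (d k) P hP

theorem ce_trace_nonneg (P B : Matrix n n ℂ) (hP : P.PosSemidef) (hB : B.PosSemidef) :
    0 ≤ (trace (P * B)).re := by
  obtain ⟨W, hW, y, hy, rfl⟩ := ud_exists_nonneg B hB
  set S : Matrix n n ℂ := W * dg fun k => √(y k) with hS
  have h1 : ud W y = S * Sᴴ := by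
    unfold ud
    rw [hS, conjTranspose_mul, dg_conjTranspose]
    have h2 : (dg fun k => √(y k)) * (dg fun k => √(y k)) = dg y := by
      rw [dg_mul]; congr 1; funext k; exact Real.mul_self_sqrt (hy k)
    rw [← h2]
    simp only [Matrix.mul_assoc]
  rw [h1, ← Matrix.mul_assoc, trace_mul_comm, ← Matrix.mul_assoc]
  have h3 := (hP.conjTranspose_mul_mul_same S).trace_nonneg
  exact (Complex.le_def.1 h3).1

omit [DecidableEq n] in
theorem ce_min (x : n → ℝ) (hx : ∀ k, 0 < x k) : ∃ m₀ : ℝ, 0 < m₀ ∧ ∀ k, m₀ ≤ x k := by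
  rcases isEmpty_or_nonempty n with he | hne
  · exact ⟨1, one_pos, fun k => (he.false k).elim⟩
  · obtain ⟨k₀, hk₀⟩ := Finite.exists_min x
    exact ⟨x k₀, hx k₀, hk₀⟩

/-- a positive definite matrix dominates a positive multiple of the identity -/
theorem ce_low (B : Matrix n n ℂ) (hB : B.PosDef) :
    ∃ b : ℝ, 0 < b ∧ ∀ Q : Matrix n n ℂ, Q.PosSemidef →
      b * (trace Q).re ≤ (trace (Q * B)).re := by
  obtain ⟨U, hU, x, hx, rfl⟩ := ud_exists_pos B hB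
  obtain ⟨m₀, hm₀, hmx⟩ := ce_min x hx
  refine ⟨m₀, hm₀, fun Q hQ => ?_⟩
  have h1 : (ud U fun k => x k - m₀) = ud U x - (m₀ : ℂ) • 1 := by
    have h2 : (dg fun k => x k - m₀) = dg x - (m₀ : ℂ) • 1 := by
      unfold dg
      ext i j
      by_cases hij : i = j
      · subst hij
        simp
      · simp [hij]
    unfold ud
    rw [h2, Matrix.mul_sub, Matrix.sub_mul, Matrix.mul_smul, Matrix.smul_mul, Matrix.mul_one,
      a2_uu' U hU]
  have h3 := ce_trace_nonneg Q (ud U fun k => x k - m₀) hQ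
    (ud_posSemidef U _ fun k => sub_nonneg.2 (hmx k))
  rw [h1, Matrix.mul_sub, trace_sub, Complex.sub_re, Matrix.mul_smul, Matrix.mul_one, trace_smul,
    smul_eq_mul, Complex.re_ofReal_mul] at h3
  linarith

omit [DecidableEq n] in
theorem ce_le_norm (s : ℝ) (hs : 1 ≤ s) (x : n → ℝ) (hx : ∀ i, 0 ≤ x i) (i : n) :
    x i ≤ (∑ j, x j ^ s) ^ (1 / s) := by
  have h1 : x i ^ s ≤ ∑ j, x j ^ s :=
    Finset.single_le_sum (f := fun j => x j ^ s) (fun j _ => Real.rpow_nonneg (hx j) _)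
      (Finset.mem_univ i)
  have h2 := Real.rpow_le_rpow (Real.rpow_nonneg (hx i) s) h1 (show 0 ≤ 1 / s by positivity)
  rwa [← Real.rpow_mul (hx i), mul_one_div_cancel (by linarith), Real.rpow_one] at h2

omit [DecidableEq n] in
theorem ce_norm_le (s : ℝ) (hs : 1 ≤ s) (x : n → ℝ) (hx : ∀ i, 0 ≤ x i) :
    (∑ j, x j ^ s) ^ (1 / s) ≤ ∑ j, x j := by
  set t : ℝ := (∑ j, x j ^ s) ^ (1 / s) with ht
  have hS : 0 ≤ ∑ j, x j ^ s := Finset.sum_nonneg fun j _ => Real.rpow_nonneg (hx j) _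
  have ht0 : 0 ≤ t := Real.rpow_nonneg hS _
  have hts : t ^ s = ∑ j, x j ^ s := by
    rw [ht, ← Real.rpow_mul hS, one_div_mul_cancel (by linarith), Real.rpow_one]
  rcases eq_or_lt_of_le ht0 with h0 | h0
  · rw [← h0]
    exact Finset.sum_nonneg fun j _ => hx j
  have h1 : t ^ s ≤ (∑ j, x j) * t ^ (s - 1) := by
    rw [hts, Finset.sum_mul]
    refine Finset.sum_le_sum fun j _ => ?_
    rcases eq_or_lt_of_le (hx j) with h | h
    · rw [← h, zero_mul, Real.zero_rpow (by linarith)]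
    · have h2 : x j ^ s = x j * x j ^ (s - 1) := by
        rw [mul_comm, ← Real.rpow_add_one h.ne', sub_add_cancel]
      rw [h2]
      exact mul_le_mul_of_nonneg_left
        (Real.rpow_le_rpow h.le (ce_le_norm s hs x hx j) (by linarith)) h.le
  have h3 : t ^ s = t * t ^ (s - 1) := by
    rw [mul_comm, ← Real.rpow_add_one h0.ne', sub_add_cancel]
  rw [h3] at h1
  exact le_of_mul_le_mul_right h1 (Real.rpow_pos_of_pos h0 _)

/-- `tr Q ≥ (tr Q^s)^(1/s)` -/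
theorem ce_trace_ge (s : ℝ) (hs : 1 ≤ s) (Q : Matrix n n ℂ) (hQ : Q.PosSemidef) :
    TT s Q ^ (1 / s) ≤ (trace Q).re := by
  obtain ⟨U, hU, x, hx, rfl⟩ := ud_exists_nonneg Q hQ
  rw [TT_ud s U hU, LibSchTw.trace_ud_re U hU, Complex.ofReal_re]
  exact ce_norm_le s hs x hx

/-- `tr Q ≤ n (tr Q^s)^(1/s)` -/
theorem ce_trace_le (s : ℝ) (hs : 1 ≤ s) (Q : Matrix n n ℂ) (hQ : Q.PosSemidef) :
    (trace Q).re ≤ Fintype.card n * TT s Q ^ (1 / s) := by
  obtain ⟨U, hU, x, hx, rfl⟩ := ud_exists_nonneg Q hQ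
  rw [TT_ud s U hU, LibSchTw.trace_ud_re U hU, Complex.ofReal_re]
  calc ∑ j, x j ≤ ∑ _j : n, (∑ j, x j ^ s) ^ (1 / s) :=
        Finset.sum_le_sum fun j _ => ce_le_norm s hs x hx j
    _ = _ := by rw [Finset.sum_const, nsmul_eq_mul]; rfl

omit [Fintype n] [DecidableEq n] in
theorem ce_diag_nonneg (P : Matrix n n ℂ) (hP : P.PosSemidef) (i : n) : 0 ≤ (P i i).re := by
  have h := hP.diag_nonneg (i := i)
  exact (Complex.le_def.1 h).1

theorem ce_trace_cj (d : n → ℝ) (P : Matrix n n ℂ) (hP : P.PosSemidef) :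
    (trace (cj d P)).re ≤ (∑ i, d i ^ 2) * (trace P).re := by
  have h1 : ∀ i, (cj d P i i).re = d i ^ 2 * (P i i).re := by
    intro i
    unfold cj dg
    rw [Matrix.mul_diagonal, Matrix.diagonal_mul]
    have : (d i : ℂ) * P i i * (d i : ℂ) = ((d i ^ 2 : ℝ) : ℂ) * P i i := by
      push_cast; ring
    rw [this, Complex.re_ofReal_mul]
  unfold trace
  rw [Complex.re_sum, Complex.re_sum, Finset.mul_sum]
  refine Finset.sum_le_sum fun i _ => ?_
  simp only [Matrix.diag_apply]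
  rw [h1 i]
  exact mul_le_mul_of_nonneg_right
    (Finset.single_le_sum (f := fun j => d j ^ 2) (fun _ _ => sq_nonneg _) (Finset.mem_univ i))
    (ce_diag_nonneg P hP i)

/-- `tr Q^s ≤ n (tr Q)^s` -/
theorem ce_TT_le (s : ℝ) (hs : 1 ≤ s) (Q : Matrix n n ℂ) (hQ : Q.PosSemidef) :
    TT s Q ≤ Fintype.card n * (trace Q).re ^ s := by
  obtain ⟨U, hU, x, hx, rfl⟩ := ud_exists_nonneg Q hQ
  rw [TT_ud s U hU, LibSchTw.trace_ud_re U hU, Complex.ofReal_re]
  calc ∑ j, x j ^ s ≤ ∑ _j : n, (∑ j, x j) ^ s := Finset.sum_le_sum fun j _ =>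
        Real.rpow_le_rpow (hx j) (Finset.single_le_sum (fun j _ => hx j) (Finset.mem_univ j))
          (by linarith)
    _ = _ := by rw [Finset.sum_const, nsmul_eq_mul]; rfl

theorem ce_ND_le (s : ℝ) (hs : 1 ≤ s) (d : n → ℝ) : ∃ C : ℝ, 0 ≤ C ∧
    ∀ P : Matrix n n ℂ, P.PosSemidef → ND s d P ≤ C * TT s P := by
  refine ⟨Fintype.card n * ((∑ i, d i ^ 2) * Fintype.card n) ^ s, by positivity, fun P hP => ?_⟩
  have hT := TT_nonneg s P hP
  have htr : 0 ≤ (trace (cj d P)).re := by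
    have h3 := (cj_psd d P hP).trace_nonneg
    exact (Complex.le_def.1 h3).1
  have h1 := ce_TT_le s hs (cj d P) (cj_psd d P hP)
  have h2 : (trace (cj d P)).re ≤ ((∑ i, d i ^ 2) * Fintype.card n) * TT s P ^ (1 / s) := by
    refine (ce_trace_cj d P hP).trans ?_
    rw [mul_assoc]
    exact mul_le_mul_of_nonneg_left (ce_trace_le s hs P hP)
      (Finset.sum_nonneg fun _ _ => sq_nonneg _)
  have h3 : (trace (cj d P)).re ^ s ≤ ((∑ i, d i ^ 2) * Fintype.card n) ^ s * TT s P := by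
    have h4 := Real.rpow_le_rpow htr h2 (show 0 ≤ s by linarith)
    rw [Real.mul_rpow (by positivity) (by positivity), ← Real.rpow_mul hT,
      one_div_mul_cancel (by linarith), Real.rpow_one] at h4
    exact h4
  rw [ND_eq]
  calc TT s (cj d P) ≤ Fintype.card n * (trace (cj d P)).re ^ s := h1
    _ ≤ Fintype.card n * (((∑ i, d i ^ 2) * Fintype.card n) ^ s * TT s P) :=
        mul_le_mul_of_nonneg_left h3 (by positivity)
    _ = _ := by ring

theorem ce_S_le (s : ℝ) (hs : 1 ≤ s) (d : ι → n → ℝ) : ∃ C : ℝ, 0 < C ∧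
    ∀ P : Matrix n n ℂ, P.PosSemidef → ∑ k, ND s (d k) P ≤ C * TT s P := by
  choose C hC h using fun k => ce_ND_le (n := n) s hs (d k)
  refine ⟨∑ k, C k + 1, by linarith [Finset.sum_nonneg fun k (_ : k ∈ Finset.univ) => hC k],
    fun P hP => ?_⟩
  rw [add_mul, Finset.sum_mul, one_mul]
  linarith [Finset.sum_le_sum fun k (_ : k ∈ Finset.univ) => h k P hP, TT_nonneg s P hP]

/-- stepping -/
theorem stepping {X : Type*} (T S : X → ℝ) (hT : ∀ x, 0 ≤ T x) (hS : ∀ x, 0 ≤ S x) (C₀ : ℝ)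
    (hC₀ : 0 < C₀) (hST : ∀ x, S x ≤ C₀ * T x) (c₁ : ℝ) (hc₁ : 0 < c₁)
    (h : ∀ θ : ℝ, 0 < θ → θ ≤ 1 → (∃ η : ℝ, 0 < η ∧ ∀ x, η * T x ≤ T x - θ * S x) →
      ∀ x, c₁ * T x ≤ T x - θ * S x) : ∀ x, c₁ * T x ≤ T x - S x := by
  set c₂ : ℝ := min c₁ 1 with hc₂
  have hc₂0 : 0 < c₂ := lt_min hc₁ one_pos
  set δ : ℝ := c₂ / (2 * C₀) with hδ
  have hδ0 : 0 < δ := by positivity
  have key : ∀ k : ℕ, ∃ η : ℝ, 0 < η ∧ ∀ x, η * T x ≤ T x - min 1 (k * δ) * S x := by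
    intro k
    induction k with
    | zero =>
      refine ⟨1, one_pos, fun x => ?_⟩
      simp
    | succ k ih =>
      refine ⟨c₂ / 2, by positivity, fun x => ?_⟩
      have h1 : c₂ * T x ≤ T x - min 1 (k * δ) * S x := by
        rcases Nat.eq_zero_or_pos k with hk | hk
        · subst hk
          simp only [Nat.cast_zero, zero_mul]
          rw [min_eq_right (by norm_num), zero_mul, sub_zero]
          calc c₂ * T x ≤ 1 * T x := mul_le_mul_of_nonneg_right (min_le_right _ _) (hT x)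
            _ = T x := one_mul _
        · have hk' : (0 : ℝ) < k := by exact_mod_cast hk
          have h2 := h (min 1 (k * δ)) (lt_min one_pos (by positivity)) (min_le_left _ _) ih x
          refine le_trans ?_ h2
          exact mul_le_mul_of_nonneg_right (min_le_left _ _) (hT x)
      have h3 : min 1 (((k + 1 : ℕ) : ℝ) * δ) ≤ min 1 (k * δ) + δ := by
        rcases le_total 1 ((k : ℝ) * δ) with h4 | h4
        · rw [min_eq_left h4]
          exact (min_le_left _ _).trans (by linarith)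
        · rw [min_eq_right h4]
          refine (min_le_right _ _).trans ?_
          push_cast
          linarith
      have h5 : min 1 (((k + 1 : ℕ) : ℝ) * δ) * S x ≤ (min 1 (k * δ) + δ) * S x :=
        mul_le_mul_of_nonneg_right h3 (hS x)
      have h6 : δ * S x ≤ c₂ / 2 * T x := by
        calc δ * S x ≤ δ * (C₀ * T x) := mul_le_mul_of_nonneg_left (hST x) hδ0.le
          _ = c₂ / 2 * T x := by rw [hδ]; field_simp
      nlinarith [h1, h5, h6]
  obtain ⟨k, hk⟩ := exists_nat_gt (1 / δ)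
  obtain ⟨η, hη, hηx⟩ := key k
  have h1 : 1 ≤ (k : ℝ) * δ := by
    rw [div_lt_iff₀ hδ0] at hk
    exact hk.le
  rw [min_eq_left h1] at hηx
  intro x
  have := h 1 one_pos le_rfl ⟨η, hη, hηx⟩ x
  rwa [one_mul] at this

/-- **CE** -/
theorem coercive (s : ℝ) (hs : 2 ≤ s)
    (hCO : ∀ d : ι → n → ℝ, (∀ k i, 0 < d k i) → ∀ P₀ P₁ : Matrix n n ℂ, P₀.PosDef → P₁.PosDef →
      (YD s d P₀).PosSemidef → (YD s d P₁).PosSemidef →
      s * (trace (P₁ * YD s d P₀)).re ≤ FD s d P₁ + (s - 1) * FD s d P₀)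
    (d : ι → n → ℝ) (hd : ∀ k i, 0 < d k i) (P₀ : Matrix n n ℂ) (hP₀ : P₀.PosDef)
    (hY : (YD s d P₀).PosDef) :
    ∃ c : ℝ, 0 < c ∧ ∀ P : Matrix n n ℂ, P.PosSemidef → c * (trace (rp s P)).re ≤ FD s d P := by
  have hs0 : 0 < s := by linarith
  have hs1 : 1 < s := by linarith
  obtain ⟨C₀, hC₀, hS⟩ := ce_S_le (n := n) s (by linarith) d
  obtain ⟨b, hb, hbQ⟩ := ce_low (YD s d P₀) hY
  set B : Matrix n n ℂ := YD s d P₀ with hB
  set M : ℝ := (s - 1) * TT s P₀ with hM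
  have hM0 : 0 ≤ M := mul_nonneg (by linarith) (TT_nonneg s P₀ hP₀.posSemidef)
  set μ : ℝ := (M + 1) / (s * b) with hμ
  have hμ0 : 0 < μ := by positivity
  have hμs : 0 < μ ^ s := Real.rpow_pos_of_pos hμ0 _
  refine ⟨(μ ^ s)⁻¹, inv_pos.2 hμs, ?_⟩
  have hstep := stepping (X := {P : Matrix n n ℂ // P.PosSemidef}) (fun P => TT s P.1)
    (fun P => ∑ k, ND s (d k) P.1) (fun P => TT_nonneg s P.1 P.2)
    (fun P => Finset.sum_nonneg fun k _ => ND_nonneg s (d k) P.1 P.2) C₀ hC₀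
    (fun P => hS P.1 P.2) (μ ^ s)⁻¹ (inv_pos.2 hμs) ?_
  · intro P hP
    exact hstep ⟨P, hP⟩
  · rintro κ hκ0 hκ1 ⟨η, hη, hηx⟩ ⟨Q, hQ⟩
    have hd' : ∀ k i, 0 < sc s κ d k i := fun k i =>
      mul_pos (Real.rpow_pos_of_pos hκ0 _) (hd k i)
    have hco : ∀ P : Matrix n n ℂ, P.PosSemidef →
        η * (trace (rp s P)).re ≤ FD s (sc s κ d) P := by
      intro P hP
      rw [FD_sc s κ hs0 hκ0 d P hP]
      exact hηx ⟨P, hP⟩
    obtain ⟨P₁, hP₁, hY₁, hmax⟩ := exists_max_crit s hs (sc s κ d) η hη hco B hY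
    -- `B ≤ Y^κ(P₀)`
    have hN : (∑ k, nD s (d k) P₀).PosSemidef :=
      Matrix.posSemidef_sum _ fun k _ => nD_psd s (d k) P₀ hP₀.posSemidef
    have hYκ : YD s (sc s κ d) P₀ = B + ((1 - κ : ℝ) : ℂ) • ∑ k, nD s (d k) P₀ := by
      rw [YD_sc s κ hs0 hκ0 d P₀ hP₀.posSemidef, hB]
      unfold YD
      rw [Complex.ofReal_sub, Complex.ofReal_one, sub_smul, one_smul]
      abel
    have hN' : (((1 - κ : ℝ) : ℂ) • ∑ k, nD s (d k) P₀).PosSemidef :=
      ce_smul_psd _ (by linarith) _ hN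
    have hYpsd : (YD s (sc s κ d) P₀).PosSemidef := by
      rw [hYκ]
      exact hY.posSemidef.add hN'
    have hCO1 := hCO (sc s κ d) hd' P₀ P₁ hP₀ hP₁ hYpsd (by rw [hY₁]; exact hY.posSemidef)
    have hEu := trace_mul_YD s hs1 (sc s κ d) P₁ hP₁.posSemidef
    rw [hY₁] at hEu
    have h1 : (trace (P₁ * B)).re ≤ (trace (P₁ * YD s (sc s κ d) P₀)).re := by
      rw [hYκ, Matrix.mul_add, trace_add, Complex.add_re]
      linarith [ce_trace_nonneg P₁ _ hP₁.posSemidef hN']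
    have h2 : FD s (sc s κ d) P₀ ≤ TT s P₀ := by
      rw [FD_sc s κ hs0 hκ0 d P₀ hP₀.posSemidef]
      have := mul_nonneg hκ0.le (Finset.sum_nonneg fun k (_ : k ∈ Finset.univ) =>
        ND_nonneg s (d k) P₀ hP₀.posSemidef)
      linarith
    have hV : s * (trace (P₁ * B)).re - FD s (sc s κ d) P₁ ≤ M := by
      have h3 := mul_le_mul_of_nonneg_left h1 hs0.le
      have h4 := mul_le_mul_of_nonneg_left h2 (show 0 ≤ s - 1 by linarith)
      rw [hM]
      linarith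
    -- all `Q`
    change (μ ^ s)⁻¹ * TT s Q ≤ TT s Q - κ * ∑ k, ND s (d k) Q
    rw [← FD_sc s κ hs0 hκ0 d Q hQ]
    have hT0 := TT_nonneg s Q hQ
    rcases eq_or_lt_of_le hT0 with h0 | h0
    · rw [FD_sc s κ hs0 hκ0 d Q hQ, ← h0, mul_zero]
      have h3 := hS Q hQ
      rw [← h0, mul_zero] at h3
      have h4 : (0 : ℝ) ≤ κ * -(∑ k, ND s (d k) Q) := mul_nonneg hκ0.le (by linarith)
      linarith
    · set r : ℝ := μ * (TT s Q ^ (1 / s))⁻¹ with hr
      have htp : 0 < TT s Q ^ (1 / s) := Real.rpow_pos_of_pos h0 _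
      have hr0 : 0 < r := by positivity
      have h3 := (hmax ((r : ℂ) • Q) (ce_smul_psd r hr0.le Q hQ)).trans hV
      rw [FD_smul s r hr0.le _ Q hQ, Matrix.smul_mul, trace_smul, smul_eq_mul,
        Complex.re_ofReal_mul] at h3
      have h4 : b * TT s Q ^ (1 / s) ≤ (trace (Q * B)).re :=
        (mul_le_mul_of_nonneg_left (ce_trace_ge s (by linarith) Q hQ) hb.le).trans (hbQ Q hQ)
      have h5 : M + 1 ≤ s * (r * (trace (Q * B)).re) := by
        have h6 : s * (r * (b * TT s Q ^ (1 / s))) = M + 1 := by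
          rw [hr, hμ]
          field_simp
        rw [← h6]
        exact mul_le_mul_of_nonneg_left (mul_le_mul_of_nonneg_left h4 hr0.le) hs0.le
      have h6 : r ^ s = μ ^ s * (TT s Q)⁻¹ := by
        rw [hr, Real.mul_rpow hμ0.le (inv_nonneg.2 htp.le), Real.inv_rpow htp.le,
          ← Real.rpow_mul hT0, one_div_mul_cancel (by linarith), Real.rpow_one]
      rw [h6] at h3
      have h7 : 1 ≤ μ ^ s * (TT s Q)⁻¹ * FD s (sc s κ d) Q := by linarith
      have h8 : 0 ≤ (μ ^ s)⁻¹ * TT s Q := by positivity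
      calc (μ ^ s)⁻¹ * TT s Q = (μ ^ s)⁻¹ * TT s Q * 1 := (mul_one _).symm
        _ ≤ (μ ^ s)⁻¹ * TT s Q * (μ ^ s * (TT s Q)⁻¹ * FD s (sc s κ d) Q) :=
            mul_le_mul_of_nonneg_left h7 h8
        _ = FD s (sc s κ d) Q := by field_simp

end Pool.Agent.LibRest
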