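import Pool.Agent.LibRest.A1

/-! **DB.**  The double basis of two positive definite matrices and a real diagonal scaling. -/

open Matrix Filter Topology
open scoped ComplexOrder

namespace Pool.Agent.LibRest

open Pool.Agent.LibSchP

variable {n : Type} [Fintype n] [DecidableEq n] {ι : Type} [Fintype ι]

/-- `rp k (C Cᴴ) = C rp (k-1) (Cᴴ C) Cᴴ` for invertible `C` -/
theorem rp_CCH (k : ℝ) (C : Matrix n n ℂ) (hC : IsUnit C) :
    rp k (C * Cᴴ) = C * rp (k - 1) (Cᴴ * C) * Cᴴ := by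
  have hA : (Cᴴ * C).PosDef := by
    have h := (Matrix.PosDef.one : (1 : Matrix n n ℂ).PosDef).conjTranspose_mul_mul_same
      (Matrix.mulVec_injective_of_isUnit hC)
    rwa [Matrix.mul_one] at h
  obtain ⟨V, hV, a, ha, hVa⟩ := ud_exists_pos _ hA
  set U : Matrix n n ℂ := C * V * dg (fun j => (a j) ^ (-(1 / 2) : ℝ)) with hU
  have hd : dg (fun j => (a j) ^ (-(1 / 2) : ℝ)) * dg a * dg (fun j => (a j) ^ (-(1 / 2) : ℝ))
      = (1 : Matrix n n ℂ) := by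
    rw [dg_mul, dg_mul, ← a2_dg_one]
    congr 1
    funext j
    have hp := ha j
    calc a j ^ (-(1 / 2) : ℝ) * a j * a j ^ (-(1 / 2) : ℝ)
        = a j ^ (-(1 / 2) : ℝ) * a j ^ (1 : ℝ) * a j ^ (-(1 / 2) : ℝ) := by rw [Real.rpow_one]
      _ = 1 := by
        rw [← Real.rpow_add hp, ← Real.rpow_add hp]
        norm_num
  have hUU : Uᴴ * U = 1 := by
    rw [hU, conjTranspose_mul, conjTranspose_mul, dg_conjTranspose]
    calc dg (fun j => (a j) ^ (-(1 / 2) : ℝ)) * (Vᴴ * Cᴴ) * (C * V * dg (fun j => (a j) ^ (-(1 / 2) : ℝ)))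
        = dg (fun j => (a j) ^ (-(1 / 2) : ℝ)) * (Vᴴ * (Cᴴ * C) * V) * dg (fun j => (a j) ^ (-(1 / 2) : ℝ)) := by
          simp only [Matrix.mul_assoc]
      _ = 1 := by rw [hVa, a2_back V hV, hd]
  have hUm : U ∈ unitaryGroup n ℂ := by
    rw [mem_unitaryGroup_iff']
    exact hUU
  have hS : C * Cᴴ = ud U a := by
    have e1 : U * dg a * Uᴴ = C * V * (dg (fun j => (a j) ^ (-(1 / 2) : ℝ)) * dg a * dg (fun j => (a j) ^ (-(1 / 2) : ℝ))) * Vᴴ * Cᴴ := by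
      rw [hU, conjTranspose_mul, conjTranspose_mul, dg_conjTranspose]
      simp only [Matrix.mul_assoc]
    unfold ud
    rw [e1, hd, Matrix.mul_one]
    calc C * Cᴴ = C * 1 * Cᴴ := by rw [Matrix.mul_one]
      _ = C * (V * Vᴴ) * Cᴴ := by rw [a2_uu' V hV]
      _ = _ := by simp only [Matrix.mul_assoc]
  rw [hS, rp_ud k U hUm, hVa, rp_ud (k - 1) V hV]
  unfold ud
  rw [hU, conjTranspose_mul, conjTranspose_mul, dg_conjTranspose]
  have e2 : dg (fun j => (a j) ^ (-(1 / 2) : ℝ)) * dg (fun j => a j ^ k) * dg (fun j => (a j) ^ (-(1 / 2) : ℝ))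
      = (dg (fun j => a j ^ (k - 1)) : Matrix n n ℂ) := by
    rw [dg_mul, dg_mul]
    congr 1
    funext j
    have hp := ha j
    rw [← Real.rpow_add hp, ← Real.rpow_add hp]
    congr 1
    ring
  calc C * V * dg (fun j => (a j) ^ (-(1 / 2) : ℝ)) * dg (fun j => a j ^ k) *
        (dg (fun j => (a j) ^ (-(1 / 2) : ℝ)) * (Vᴴ * Cᴴ))
      = C * V * (dg (fun j => (a j) ^ (-(1 / 2) : ℝ)) * dg (fun j => a j ^ k) *
        dg (fun j => (a j) ^ (-(1 / 2) : ℝ))) * Vᴴ * Cᴴ := by simp only [Matrix.mul_assoc]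
    _ = C * (V * dg (fun j => a j ^ (k - 1)) * Vᴴ) * Cᴴ := by
        rw [e2]
        simp only [Matrix.mul_assoc]

/-- trace of a product in a double basis -/
theorem trace_db (U V : Matrix n n ℂ) (f h : n → ℝ) (X Y : Matrix n n ℂ) :
    trace (ud U f * X * ud V h * Yᴴ) =
      ∑ i, ∑ j, ((f i * h j : ℝ) : ℂ) * ((Uᴴ * X * V) i j * star ((Uᴴ * Y * V) i j)) := by
  have h1 : trace (ud U f * X * ud V h * Yᴴ)
      = trace (dg f * (Uᴴ * X * V) * dg h * (Uᴴ * Y * V)ᴴ) := by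
    unfold ud
    rw [conjTranspose_mul, conjTranspose_mul, conjTranspose_conjTranspose]
    have h2 : U * dg f * Uᴴ * X * (V * dg h * Vᴴ) * Yᴴ = U * (dg f * Uᴴ * X * (V * dg h * Vᴴ) * Yᴴ) := by
      simp only [Matrix.mul_assoc]
    rw [h2, trace_mul_comm]
    simp only [Matrix.mul_assoc]
  rw [h1]
  simp only [trace, diag_apply]
  refine Finset.sum_congr rfl fun i _ => ?_
  rw [Matrix.mul_apply]
  refine Finset.sum_congr rfl fun j _ => ?_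
  rw [conjTranspose_apply]
  have e : (dg f * (Uᴴ * X * V) * dg h) i j = ((f i : ℝ) : ℂ) * (Uᴴ * X * V) i j * ((h j : ℝ) : ℂ) := by
    unfold dg
    rw [Matrix.mul_diagonal, Matrix.diagonal_mul]
  rw [e]
  push_cast
  ring

theorem rp_half_mul_neg (P : Matrix n n ℂ) (hP : P.PosDef) :
    rp (1 / 2) P * rp (-(1 / 2)) P = 1 := by
  rw [rp_mul _ _ P hP]
  obtain ⟨U, hU, x, hx, rfl⟩ := ud_exists_pos P hP
  rw [rp_ud _ U hU]
  unfold ud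
  have : (dg fun k => x k ^ ((1 / 2 : ℝ) + -(1 / 2))) = (1 : Matrix n n ℂ) := by
    rw [← a2_dg_one]
    congr 1
    funext k
    norm_num
  rw [this, Matrix.mul_one, a2_uu' U hU]

theorem rp_neg_mul_half (P : Matrix n n ℂ) (hP : P.PosDef) :
    rp (-(1 / 2)) P * rp (1 / 2) P = 1 :=
  mul_eq_one_comm.1 (rp_half_mul_neg P hP)

/-- `Ω g = P₁^{1/2} g P₀^{-1/2}` -/
noncomputable def Om (P₀ P₁ : Matrix n n ℂ) (g : n → ℝ) : Matrix n n ℂ :=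
  rp (1 / 2) P₁ * dg g * rp (-(1 / 2)) P₀

/-- `Ω' g = P₁^{-1/2} g P₀^{1/2}` -/
noncomputable def Om' (P₀ P₁ : Matrix n n ℂ) (g : n → ℝ) : Matrix n n ℂ :=
  rp (-(1 / 2)) P₁ * dg g * rp (1 / 2) P₀

/-- `S_D(P) = P^{1/2} D² P^{1/2}` -/
noncomputable def SD (d : n → ℝ) (P : Matrix n n ℂ) : Matrix n n ℂ :=
  rp (1 / 2) P * dg d * dg d * rp (1 / 2) P

omit [Fintype n] in
theorem dg_add (a b : n → ℝ) : dg (fun i => a i + b i) = dg a + dg b := by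
  unfold dg
  rw [Matrix.diagonal_add]
  congr 1
  funext i
  push_cast
  rfl

omit [Fintype n] in
theorem dg_smul (c : ℝ) (a : n → ℝ) : dg (fun i => c * a i) = (c : ℂ) • dg a := by
  unfold dg
  rw [← Matrix.diagonal_smul]
  congr 1
  funext i
  simp

theorem Om_add (P₀ P₁ : Matrix n n ℂ) (g h : n → ℝ) :
    Om P₀ P₁ (fun i => g i + h i) = Om P₀ P₁ g + Om P₀ P₁ h := by
  unfold Om
  rw [dg_add, Matrix.mul_add, Matrix.add_mul]

theorem Om'_add (P₀ P₁ : Matrix n n ℂ) (g h : n → ℝ) :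
    Om' P₀ P₁ (fun i => g i + h i) = Om' P₀ P₁ g + Om' P₀ P₁ h := by
  unfold Om'
  rw [dg_add, Matrix.mul_add, Matrix.add_mul]

theorem Om_smul (P₀ P₁ : Matrix n n ℂ) (c : ℝ) (g : n → ℝ) :
    Om P₀ P₁ (fun i => c * g i) = (c : ℂ) • Om P₀ P₁ g := by
  unfold Om
  rw [dg_smul, Matrix.mul_smul, Matrix.smul_mul]

theorem Om'_smul (P₀ P₁ : Matrix n n ℂ) (c : ℝ) (g : n → ℝ) :
    Om' P₀ P₁ (fun i => c * g i) = (c : ℂ) • Om' P₀ P₁ g := by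
  unfold Om'
  rw [dg_smul, Matrix.mul_smul, Matrix.smul_mul]

theorem Om_conj (P₀ P₁ : Matrix n n ℂ) (g : n → ℝ) :
    (Om P₀ P₁ g)ᴴ = rp (-(1 / 2)) P₀ * dg g * rp (1 / 2) P₁ := by
  unfold Om
  rw [conjTranspose_mul, conjTranspose_mul, dg_conjTranspose, (rp_isHermitian _ _).eq,
    (rp_isHermitian _ _).eq, Matrix.mul_assoc]

theorem Om'_conj (P₀ P₁ : Matrix n n ℂ) (g : n → ℝ) :
    (Om' P₀ P₁ g)ᴴ = rp (1 / 2) P₀ * dg g * rp (-(1 / 2)) P₁ := by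
  unfold Om'
  rw [conjTranspose_mul, conjTranspose_mul, dg_conjTranspose, (rp_isHermitian _ _).eq,
    (rp_isHermitian _ _).eq, Matrix.mul_assoc]

theorem dg_comm (a b : n → ℝ) : (dg a * dg b : Matrix n n ℂ) = dg b * dg a := by
  rw [dg_mul, dg_mul]
  congr 1
  funext i
  ring

theorem isUnit_rp (r : ℝ) (P : Matrix n n ℂ) (hP : P.PosDef) : IsUnit (rp r P) :=
  (rp_posDef r P hP).isUnit

theorem isUnit_dg (d : n → ℝ) (hd : ∀ i, 0 < d i) : IsUnit (dg d) :=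
  IsUnit.of_mul_eq_one _ (dg_mul_inv d hd)

theorem SD_eq (d : n → ℝ) (P : Matrix n n ℂ) :
    SD d P = (rp (1 / 2) P * dg d) * (rp (1 / 2) P * dg d)ᴴ := by
  unfold SD
  rw [conjTranspose_mul, dg_conjTranspose, (rp_isHermitian _ _).eq]
  simp only [Matrix.mul_assoc]

theorem SD_posDef (d : n → ℝ) (hd : ∀ i, 0 < d i) (P : Matrix n n ℂ) (hP : P.PosDef) :
    (SD d P).PosDef := by
  rw [SD_eq]
  have hC : IsUnit (rp (1 / 2) P * dg d) := (isUnit_rp _ P hP).mul (isUnit_dg d hd)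
  have hC' : IsUnit (rp (1 / 2) P * dg d)ᴴ := by
    rw [Matrix.isUnit_iff_isUnit_det, Matrix.det_conjTranspose]
    exact ((Matrix.isUnit_iff_isUnit_det _).1 hC).star
  have h := (Matrix.PosDef.one : (1 : Matrix n n ℂ).PosDef).conjTranspose_mul_mul_same
    (Matrix.mulVec_injective_of_isUnit hC')
  rwa [Matrix.mul_one, conjTranspose_conjTranspose] at h

/-- `rp s (S_D P) = P^{1/2} n_D(P) P^{1/2}` -/
theorem rp_SD (s : ℝ) (d : n → ℝ) (hd : ∀ i, 0 < d i) (P : Matrix n n ℂ) (hP : P.PosDef) :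
    rp s (SD d P) = rp (1 / 2) P * nD s d P * rp (1 / 2) P := by
  have hC : IsUnit (rp (1 / 2) P * dg d) := (isUnit_rp _ P hP).mul (isUnit_dg d hd)
  rw [SD_eq, rp_CCH s _ hC]
  have e : (rp (1 / 2) P * dg d)ᴴ * (rp (1 / 2) P * dg d) = cj d P := by
    rw [conjTranspose_mul, dg_conjTranspose, (rp_isHermitian _ _).eq]
    unfold cj
    calc dg d * rp (1 / 2) P * (rp (1 / 2) P * dg d) = dg d * (rp (1 / 2) P * rp (1 / 2) P) * dg d := by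
          simp only [Matrix.mul_assoc]
      _ = _ := by rw [rp_half_mul P hP.posSemidef]
  rw [e]
  unfold nD
  rw [conjTranspose_mul, dg_conjTranspose, (rp_isHermitian _ _).eq]
  simp only [Matrix.mul_assoc]

/-- `n_D(P) = P^{-1/2} (S_D P)^s P^{-1/2}` -/
theorem nD_eq (s : ℝ) (d : n → ℝ) (hd : ∀ i, 0 < d i) (P : Matrix n n ℂ) (hP : P.PosDef) :
    nD s d P = rp (-(1 / 2)) P * rp s (SD d P) * rp (-(1 / 2)) P := by
  rw [rp_SD s d hd P hP]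
  have h1 := rp_neg_mul_half P hP
  have h2 := rp_half_mul_neg P hP
  calc nD s d P = 1 * nD s d P * 1 := by rw [Matrix.one_mul, Matrix.mul_one]
    _ = (rp (-(1 / 2)) P * rp (1 / 2) P) * nD s d P * (rp (1 / 2) P * rp (-(1 / 2)) P) := by
        rw [h1, h2]
    _ = _ := by simp only [Matrix.mul_assoc]

theorem Om_SD (d g : n → ℝ) (P₀ P₁ : Matrix n n ℂ) (h₀ : P₀.PosDef) (h₁ : P₁.PosDef) :
    Om P₀ P₁ g * SD d P₀ = SD d P₁ * Om' P₀ P₁ g := by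
  unfold Om Om' SD
  have e0 := rp_neg_mul_half P₀ h₀
  have e1 := rp_half_mul_neg P₁ h₁
  calc rp (1 / 2) P₁ * dg g * rp (-(1 / 2)) P₀ * (rp (1 / 2) P₀ * dg d * dg d * rp (1 / 2) P₀)
      = rp (1 / 2) P₁ * dg g * (rp (-(1 / 2)) P₀ * rp (1 / 2) P₀) * dg d * dg d * rp (1 / 2) P₀ := by
        simp only [Matrix.mul_assoc]
    _ = rp (1 / 2) P₁ * (dg g * dg d * dg d) * rp (1 / 2) P₀ := by
        rw [e0, Matrix.mul_one]
        simp only [Matrix.mul_assoc]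
    _ = rp (1 / 2) P₁ * (dg d * dg d * dg g) * rp (1 / 2) P₀ := by
        congr 2
        rw [dg_mul, dg_mul, dg_mul, dg_mul]
        congr 1
        funext i
        ring
    _ = rp (1 / 2) P₁ * dg d * dg d * (rp (1 / 2) P₁ * rp (-(1 / 2)) P₁) * dg g * rp (1 / 2) P₀ := by
        rw [e1, Matrix.mul_one]
        simp only [Matrix.mul_assoc]
    _ = _ := by simp only [Matrix.mul_assoc]


omit [DecidableEq n] in
theorem trA (P R T G Q : Matrix n n ℂ) (hR : R * R = P) :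
    trace (P * G * (T * Q * T) * G) = trace (Q * (T * G * R) * (R * G * T)) := by
  rw [← hR]
  have a1 : R * R * G * (T * Q * T) * G = R * (R * G * T * Q * T * G) := by
    simp only [Matrix.mul_assoc]
  have a2 : R * G * T * Q * T * G * R = (R * G * T) * (Q * (T * G * R)) := by
    simp only [Matrix.mul_assoc]
  rw [a1, trace_mul_comm, a2, trace_mul_comm]

omit [DecidableEq n] in
theorem trB (P R T G Q : Matrix n n ℂ) (hR : R * R = P) :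
    trace (P * G * (T * Q * T) * G) = trace ((R * G * T) * Q * (T * G * R)) := by
  rw [← hR]
  have a1 : R * R * G * (T * Q * T) * G = R * (R * G * T * Q * T * G) := by
    simp only [Matrix.mul_assoc]
  have a2 : R * G * T * Q * T * G * R = (R * G * T) * Q * (T * G * R) := by
    simp only [Matrix.mul_assoc]
  rw [a1, trace_mul_comm, a2]

theorem trC (P R T R0 T0 G Q : Matrix n n ℂ) (hR : R * R = P) (hT : R * T = 1) (hT0 : R0 * T0 = 1) :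
    trace (G * G * P * (T * Q * T)) = trace (Q * (T * G * R0) * (T0 * G * R)) := by
  have a0 : P * (T * Q * T) = R * Q * T := by
    rw [← hR]
    calc R * R * (T * Q * T) = R * (R * T) * Q * T := by simp only [Matrix.mul_assoc]
      _ = _ := by rw [hT, Matrix.mul_one]
  have a1 : G * G * P * (T * Q * T) = (G * G * R) * (Q * T) := by
    rw [Matrix.mul_assoc (G * G), a0]
    simp only [Matrix.mul_assoc]
  have a2 : Q * T * (G * G * R) = Q * (T * G * R0) * (T0 * G * R) := by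
    calc Q * T * (G * G * R) = Q * T * G * 1 * (G * R) := by
          rw [Matrix.mul_one]
          simp only [Matrix.mul_assoc]
      _ = Q * T * G * (R0 * T0) * (G * R) := by rw [hT0]
      _ = _ := by simp only [Matrix.mul_assoc]
  rw [a1, trace_mul_comm, a2]

theorem trD (P R T R1 T1 G Q : Matrix n n ℂ) (hR : R * R = P) (hT : R * T = 1) (hT1 : R1 * T1 = 1) :
    trace (G * G * P * (T * Q * T)) = trace ((T1 * G * R) * Q * (T * G * R1)) := by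
  have a0 : P * (T * Q * T) = R * Q * T := by
    rw [← hR]
    calc R * R * (T * Q * T) = R * (R * T) * Q * T := by simp only [Matrix.mul_assoc]
      _ = _ := by rw [hT, Matrix.mul_one]
  have a1 : G * G * P * (T * Q * T) = G * (G * R * Q * T) := by
    rw [Matrix.mul_assoc (G * G), a0]
    simp only [Matrix.mul_assoc]
  have a2 : G * R * Q * T * G = R1 * (T1 * G * R * Q * T * G) := by
    calc G * R * Q * T * G = (R1 * T1) * (G * R * Q * T * G) := by rw [hT1, Matrix.one_mul]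
      _ = _ := by simp only [Matrix.mul_assoc]
  have a3 : T1 * G * R * Q * T * G * R1 = (T1 * G * R) * Q * (T * G * R1) := by
    simp only [Matrix.mul_assoc]
  rw [a1, trace_mul_comm, a2, trace_mul_comm, a3]

theorem db_hone (W : Matrix n n ℂ) (hW : W ∈ unitaryGroup n ℂ) : ud W (fun _ => (1 : ℝ)) = 1 := by
  unfold ud
  rw [a2_dg_one, Matrix.mul_one, a2_uu' W hW]

theorem db_star (z : ℂ) : z * star z = ((‖z‖ ^ 2 : ℝ) : ℂ) := by
  rw [Complex.star_def, Complex.mul_conj, Complex.normSq_eq_norm_sq]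

theorem sumG (U V : Matrix n n ℂ) (f h : n → ℝ) (X Y : Matrix n n ℂ) (c : n → n → ℝ)
    (hc : ∀ i j, (Uᴴ * X * V) i j = ((c i j : ℝ) : ℂ) * (Uᴴ * Y * V) i j) :
    (trace (ud U f * X * ud V h * Yᴴ)).re = ∑ i, ∑ j, f i * h j * c i j * ‖(Uᴴ * Y * V) i j‖ ^ 2 := by
  rw [trace_db, Complex.re_sum]
  refine Finset.sum_congr rfl fun i _ => ?_
  rw [Complex.re_sum]
  refine Finset.sum_congr rfl fun j _ => ?_
  rw [hc, mul_assoc, db_star, ← Complex.ofReal_mul, ← Complex.ofReal_mul, Complex.ofReal_re]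
  ring

theorem sumA (U V : Matrix n n ℂ) (hV : V ∈ unitaryGroup n ℂ) (f : n → ℝ) (X Y : Matrix n n ℂ)
    (c : n → n → ℝ) (hc : ∀ i j, (Uᴴ * X * V) i j = ((c i j : ℝ) : ℂ) * (Uᴴ * Y * V) i j) :
    (trace (ud U f * X * Yᴴ)).re = ∑ i, ∑ j, f i * c i j * ‖(Uᴴ * Y * V) i j‖ ^ 2 := by
  have h := sumG U V f (fun _ => 1) X Y c hc
  rw [db_hone V hV, Matrix.mul_one] at h
  rw [h]
  refine Finset.sum_congr rfl fun i _ => Finset.sum_congr rfl fun j _ => ?_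
  ring

theorem sumB (U V : Matrix n n ℂ) (hU : U ∈ unitaryGroup n ℂ) (h : n → ℝ) (X Y : Matrix n n ℂ)
    (c : n → n → ℝ) (hc : ∀ i j, (Uᴴ * X * V) i j = ((c i j : ℝ) : ℂ) * (Uᴴ * Y * V) i j) :
    (trace (X * ud V h * Yᴴ)).re = ∑ i, ∑ j, h j * c i j * ‖(Uᴴ * Y * V) i j‖ ^ 2 := by
  have h := sumG U V (fun _ => 1) h X Y c hc
  rw [db_hone U hU, Matrix.one_mul] at h
  rw [h]
  refine Finset.sum_congr rfl fun i _ => Finset.sum_congr rfl fun j _ => ?_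
  ring

/-- the double basis of a pair `P₀`, `P₁` and a scaling `d` -/
structure DBasis (s : ℝ) (d : n → ℝ) (P₀ P₁ : Matrix n n ℂ) (U V : Matrix n n ℂ) (l r : n → ℝ) : Prop where
  hU : U ∈ unitaryGroup n ℂ
  hV : V ∈ unitaryGroup n ℂ
  hl : ∀ i, 0 < l i
  hr : ∀ i, 0 < r i
  S1 : SD d P₁ = ud U l
  S0 : SD d P₀ = ud V r
  /-- `P₁^{1/2} n_D(P₁) P₁^{1/2} = U l^s U^*` -/
  Q1 : rp (1 / 2) P₁ * nD s d P₁ * rp (1 / 2) P₁ = ud U fun i => l i ^ s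
  Q0 : rp (1 / 2) P₀ * nD s d P₀ * rp (1 / 2) P₀ = ud V fun i => r i ^ s
  /-- (i) -/
  rel : ∀ (g : n → ℝ) (i j : n), (Uᴴ * Om' P₀ P₁ g * V) i j = ((r j / l i : ℝ) : ℂ) * (Uᴴ * Om P₀ P₁ g * V) i j
  T1 : ∀ g : n → ℝ, (trace (P₀ * dg g * nD s d P₁ * dg g)).re
      = ∑ i, ∑ j, l i ^ s * ‖(Uᴴ * Om' P₀ P₁ g * V) i j‖ ^ 2
  T2 : ∀ g : n → ℝ, (trace (P₁ * dg g * nD s d P₀ * dg g)).re
      = ∑ i, ∑ j, r j ^ s * ‖(Uᴴ * Om P₀ P₁ g * V) i j‖ ^ 2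
  T3 : ∀ g : n → ℝ, (trace (dg g * dg g * P₁ * nD s d P₁)).re
      = ∑ i, ∑ j, l i ^ (s - 1) * r j * ‖(Uᴴ * Om P₀ P₁ g * V) i j‖ ^ 2
  T4 : ∀ g : n → ℝ, (trace (dg g * dg g * P₀ * nD s d P₀)).re
      = ∑ i, ∑ j, (l i)⁻¹ * r j ^ (s + 1) * ‖(Uᴴ * Om P₀ P₁ g * V) i j‖ ^ 2
  /-- `tr n_D(P₁) P₁` as a double sum -/
  T5 : ND s d P₁ = ∑ i, ∑ j, l i ^ (s - 1) * r j * ‖(Uᴴ * Om P₀ P₁ (fun _ => 1) * V) i j‖ ^ 2
  T6 : ND s d P₀ = ∑ i, ∑ j, (l i)⁻¹ * r j ^ (s + 1) * ‖(Uᴴ * Om P₀ P₁ (fun _ => 1) * V) i j‖ ^ 2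

theorem db_rel (d : n → ℝ) (P₀ P₁ : Matrix n n ℂ) (h₀ : P₀.PosDef) (h₁ : P₁.PosDef)
    (U V : Matrix n n ℂ) (hU : U ∈ unitaryGroup n ℂ) (hV : V ∈ unitaryGroup n ℂ) (l r : n → ℝ)
    (hl : ∀ i, 0 < l i) (hS1 : SD d P₁ = ud U l) (hS0 : SD d P₀ = ud V r) (g : n → ℝ) (i j : n) :
    (Uᴴ * Om' P₀ P₁ g * V) i j = ((r j / l i : ℝ) : ℂ) * (Uᴴ * Om P₀ P₁ g * V) i j := by
  have h := Om_SD d g P₀ P₁ h₀ h₁
  rw [hS0, hS1] at h
  have h2 : (Uᴴ * Om P₀ P₁ g * V) * dg r = dg l * (Uᴴ * Om' P₀ P₁ g * V) := by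
    have b1 : (Uᴴ * Om P₀ P₁ g * V) * dg r = Uᴴ * (Om P₀ P₁ g * ud V r) * V := by
      unfold ud
      calc (Uᴴ * Om P₀ P₁ g * V) * dg r = Uᴴ * Om P₀ P₁ g * V * dg r * (Vᴴ * V) := by
            rw [a2_uu V hV, Matrix.mul_one]
        _ = _ := by simp only [Matrix.mul_assoc]
    have b2 : Uᴴ * (ud U l * Om' P₀ P₁ g) * V = dg l * (Uᴴ * Om' P₀ P₁ g * V) := by
      unfold ud
      calc Uᴴ * (U * dg l * Uᴴ * Om' P₀ P₁ g) * V = (Uᴴ * U) * dg l * (Uᴴ * Om' P₀ P₁ g * V) := by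
            simp only [Matrix.mul_assoc]
        _ = _ := by rw [a2_uu U hU, Matrix.one_mul]
    rw [b1, h, b2]
  have h3 := congrFun (congrFun h2 i) j
  unfold dg at h3
  rw [Matrix.mul_diagonal, Matrix.diagonal_mul] at h3
  have hli : ((l i : ℝ) : ℂ) ≠ 0 := by exact_mod_cast (hl i).ne'
  rw [Complex.ofReal_div]
  unfold dg at *
  field_simp
  linear_combination -h3

theorem db_T1 (s : ℝ) (d : n → ℝ) (hd : ∀ i, 0 < d i) (P₀ P₁ : Matrix n n ℂ)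
    (h₀ : P₀.PosDef) (h₁ : P₁.PosDef) (U V : Matrix n n ℂ)
    (hV : V ∈ unitaryGroup n ℂ) (l : n → ℝ)
    (hQ1 : rp s (SD d P₁) = ud U fun i => l i ^ s) (g : n → ℝ) :
    (trace (P₀ * dg g * nD s d P₁ * dg g)).re
      = ∑ i, ∑ j, l i ^ s * ‖(Uᴴ * Om' P₀ P₁ g * V) i j‖ ^ 2 := by
  rw [nD_eq s d hd P₁ h₁, hQ1, trA P₀ (rp (1 / 2) P₀) (rp (-(1 / 2)) P₁) (dg g) _
    (rp_half_mul P₀ h₀.posSemidef), ← Om'_conj P₀ P₁ g]
  have h := sumA U V hV (fun i => l i ^ s) (Om' P₀ P₁ g) (Om' P₀ P₁ g) (fun _ _ => 1)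
    (fun i j => by rw [Complex.ofReal_one, one_mul])
  unfold Om' at *
  rw [h]
  refine Finset.sum_congr rfl fun i _ => Finset.sum_congr rfl fun j _ => ?_
  ring

theorem db_T2 (s : ℝ) (d : n → ℝ) (hd : ∀ i, 0 < d i) (P₀ P₁ : Matrix n n ℂ)
    (h₀ : P₀.PosDef) (h₁ : P₁.PosDef) (U V : Matrix n n ℂ)
    (hU : U ∈ unitaryGroup n ℂ) (r : n → ℝ)
    (hQ0 : rp s (SD d P₀) = ud V fun i => r i ^ s) (g : n → ℝ) :
    (trace (P₁ * dg g * nD s d P₀ * dg g)).re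
      = ∑ i, ∑ j, r j ^ s * ‖(Uᴴ * Om P₀ P₁ g * V) i j‖ ^ 2 := by
  rw [nD_eq s d hd P₀ h₀, hQ0, trB P₁ (rp (1 / 2) P₁) (rp (-(1 / 2)) P₀) (dg g) _
    (rp_half_mul P₁ h₁.posSemidef), ← Om_conj P₀ P₁ g]
  have h := sumB U V hU (fun i => r i ^ s) (Om P₀ P₁ g) (Om P₀ P₁ g) (fun _ _ => 1)
    (fun i j => by rw [Complex.ofReal_one, one_mul])
  unfold Om at *
  rw [h]
  refine Finset.sum_congr rfl fun i _ => Finset.sum_congr rfl fun j _ => ?_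
  ring

theorem db_T3 (s : ℝ) (d : n → ℝ) (hd : ∀ i, 0 < d i) (P₀ P₁ : Matrix n n ℂ)
    (h₀ : P₀.PosDef) (h₁ : P₁.PosDef) (U V : Matrix n n ℂ)
    (hU : U ∈ unitaryGroup n ℂ) (hV : V ∈ unitaryGroup n ℂ) (l r : n → ℝ)
    (hl : ∀ i, 0 < l i) (hS1 : SD d P₁ = ud U l) (hS0 : SD d P₀ = ud V r)
    (hQ1 : rp s (SD d P₁) = ud U fun i => l i ^ s) (g : n → ℝ) :
    (trace (dg g * dg g * P₁ * nD s d P₁)).re
      = ∑ i, ∑ j, l i ^ (s - 1) * r j * ‖(Uᴴ * Om P₀ P₁ g * V) i j‖ ^ 2 := by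
  rw [nD_eq s d hd P₁ h₁, hQ1, trC P₁ (rp (1 / 2) P₁) (rp (-(1 / 2)) P₁) (rp (1 / 2) P₀)
    (rp (-(1 / 2)) P₀) (dg g) _ (rp_half_mul P₁ h₁.posSemidef) (rp_half_mul_neg P₁ h₁)
    (rp_half_mul_neg P₀ h₀), ← Om_conj P₀ P₁ g]
  have h := sumA U V hV (fun i => l i ^ s) (Om' P₀ P₁ g) (Om P₀ P₁ g) (fun i j => r j / l i)
    (db_rel d P₀ P₁ h₀ h₁ U V hU hV l r hl hS1 hS0 g)
  unfold Om' at h
  rw [h]
  refine Finset.sum_congr rfl fun i _ => Finset.sum_congr rfl fun j _ => ?_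
  have h4 : l i ^ (s - 1) = l i ^ s / l i := by
    rw [Real.rpow_sub (hl i), Real.rpow_one]
  rw [h4]
  ring

theorem db_T4 (s : ℝ) (d : n → ℝ) (hd : ∀ i, 0 < d i) (P₀ P₁ : Matrix n n ℂ)
    (h₀ : P₀.PosDef) (h₁ : P₁.PosDef) (U V : Matrix n n ℂ)
    (hU : U ∈ unitaryGroup n ℂ) (hV : V ∈ unitaryGroup n ℂ) (l r : n → ℝ)
    (hl : ∀ i, 0 < l i) (hr : ∀ i, 0 < r i) (hS1 : SD d P₁ = ud U l) (hS0 : SD d P₀ = ud V r)
    (hQ0 : rp s (SD d P₀) = ud V fun i => r i ^ s) (g : n → ℝ) :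
    (trace (dg g * dg g * P₀ * nD s d P₀)).re
      = ∑ i, ∑ j, (l i)⁻¹ * r j ^ (s + 1) * ‖(Uᴴ * Om P₀ P₁ g * V) i j‖ ^ 2 := by
  rw [nD_eq s d hd P₀ h₀, hQ0, trD P₀ (rp (1 / 2) P₀) (rp (-(1 / 2)) P₀) (rp (1 / 2) P₁)
    (rp (-(1 / 2)) P₁) (dg g) _ (rp_half_mul P₀ h₀.posSemidef) (rp_half_mul_neg P₀ h₀)
    (rp_half_mul_neg P₁ h₁), ← Om_conj P₀ P₁ g]
  have h := sumB U V hU (fun i => r i ^ s) (Om' P₀ P₁ g) (Om P₀ P₁ g) (fun i j => r j / l i)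
    (db_rel d P₀ P₁ h₀ h₁ U V hU hV l r hl hS1 hS0 g)
  unfold Om' at h
  rw [h]
  refine Finset.sum_congr rfl fun i _ => Finset.sum_congr rfl fun j _ => ?_
  have h4 : r j ^ (s + 1) = r j ^ s * r j := by
    rw [Real.rpow_add (hr j), Real.rpow_one]
  rw [h4]
  ring

theorem exists_DBasis (s : ℝ) (hs : 1 < s) (d : n → ℝ) (hd : ∀ i, 0 < d i) (P₀ P₁ : Matrix n n ℂ)
    (h₀ : P₀.PosDef) (h₁ : P₁.PosDef) :
    ∃ (U V : Matrix n n ℂ) (l r : n → ℝ), DBasis s d P₀ P₁ U V l r := by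
  obtain ⟨U, hU, l, hl, hS1⟩ := ud_exists_pos _ (SD_posDef d hd P₁ h₁)
  obtain ⟨V, hV, r, hr, hS0⟩ := ud_exists_pos _ (SD_posDef d hd P₀ h₀)
  have hQ1 : rp s (SD d P₁) = ud U fun i => l i ^ s := by rw [hS1, rp_ud s U hU]
  have hQ0 : rp s (SD d P₀) = ud V fun i => r i ^ s := by rw [hS0, rp_ud s V hV]
  have hT3 := db_T3 s d hd P₀ P₁ h₀ h₁ U V hU hV l r hl hS1 hS0 hQ1
  have hT4 := db_T4 s d hd P₀ P₁ h₀ h₁ U V hU hV l r hl hr hS1 hS0 hQ0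
  refine ⟨U, V, l, r, hU, hV, hl, hr, hS1, hS0, ?_, ?_,
    db_rel d P₀ P₁ h₀ h₁ U V hU hV l r hl hS1 hS0,
    db_T1 s d hd P₀ P₁ h₀ h₁ U V hV l hQ1, db_T2 s d hd P₀ P₁ h₀ h₁ U V hU r hQ0,
    hT3, hT4, ?_, ?_⟩
  · rw [← rp_SD s d hd P₁ h₁, hQ1]
  · rw [← rp_SD s d hd P₀ h₀, hQ0]
  · rw [← hT3, ← trace_mul_nD s hs d P₁ h₁.posSemidef, a2_dg_one, Matrix.one_mul, Matrix.one_mul]
  · rw [← hT4, ← trace_mul_nD s hs d P₀ h₀.posSemidef, a2_dg_one, Matrix.one_mul, Matrix.one_mul]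

end Pool.Agent.LibRest
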