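import Pool.Agent.LibSchTw.F1
import Pool.Agent.LibSchTw.L1

/-! Definitions for the REST_F route (helper79's finite inequality FI). -/

open Matrix Filter Topology
open scoped ComplexOrder

namespace Pool.Agent.LibRest

open Pool.Agent.LibSchP

variable {n : Type} [Fintype n] [DecidableEq n] {ι : Type} [Fintype ι]

/-- `D P D`, `D` the real diagonal matrix `d` -/
noncomputable def cj (d : n → ℝ) (P : Matrix n n ℂ) : Matrix n n ℂ := dg d * P * dg d

/-- `tr (D P D)^s` -/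
noncomputable def ND (s : ℝ) (d : n → ℝ) (P : Matrix n n ℂ) : ℝ := (trace (rp s (cj d P))).re

/-- `F(P) = tr P^s - ∑_k tr (D_k P D_k)^s` -/
noncomputable def FD (s : ℝ) (d : ι → n → ℝ) (P : Matrix n n ℂ) : ℝ :=
  (trace (rp s P)).re - ∑ k, ND s (d k) P

/-- `D (D P D)^(s-1) D` -/
noncomputable def nD (s : ℝ) (d : n → ℝ) (P : Matrix n n ℂ) : Matrix n n ℂ :=
  dg d * rp (s - 1) (cj d P) * dg d

/-- `Y(P) = P^(s-1) - ∑_k D_k (D_k P D_k)^(s-1) D_k` -/
noncomputable def YD (s : ℝ) (d : ι → n → ℝ) (P : Matrix n n ℂ) : Matrix n n ℂ :=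
  rp (s - 1) P - ∑ k, nD s (d k) P

end Pool.Agent.LibRest
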