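import Pool.Agent.LibRest.FI41
import Pool.Agent.LibRest.DB

/-! **FI** and **CO** (helper79's finite inequalities), final form. -/

open Matrix
open scoped ComplexOrder

namespace Pool.Agent.LibRest

open Pool.Agent.LibSchP

variable {n : Type} [Fintype n] [DecidableEq n] {ι : Type} [Fintype ι]

theorem exists_DBase (s : ℝ) (d : n → ℝ) (P0 P1 : Matrix n n ℂ) (hs : 1 < s) (hd : ∀ i, 0 < d i)
    (h0 : P0.PosDef) (h1 : P1.PosDef) :
    ∃ (U V : Matrix n n ℂ) (l r : n → ℝ), DBase s d P0 P1 U V l r := by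
  obtain ⟨U, V, l, r, H⟩ := exists_DBasis s hs d hd P0 P1 h0 h1
  exact ⟨U, V, l, r, ⟨H.hU, H.hV, H.hl, H.hr, H.rel, H.T1, H.T2, H.T3, H.T4, H.Q1, H.Q0⟩⟩

/-- **FI** -/
theorem FI (s : ℝ) (hs : 2 ≤ s) (d : ι → n → ℝ) (hd : ∀ k i, 0 < d k i) (P0 P1 : Matrix n n ℂ)
    (h0 : P0.PosDef) (h1 : P1.PosDef) (hY0 : (YD s d P0).PosSemidef)
    (hY1 : (YD s d P1).PosSemidef) (g h : n → ℝ) :
    (trace (P0 * cj g (YD s d P1))).re + (trace (P1 * cj h (YD s d P0))).re ≤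
      (trace (dg (fun i => g i ^ 2) * (P1 * YD s d P1))).re +
      (trace (dg (fun i => h i ^ 2) * (P0 * YD s d P0))).re +
      1 / (2 * (s - 1)) * (trace (dg (fun i => (h i - g i) ^ 2) *
        (P1 * YD s d P1 + P0 * YD s d P0))).re :=
  FI_of_DB exists_DBase s hs d hd P0 P1 h0 h1 hY0 hY1 g h

/-- **CO** -/
theorem CO (s : ℝ) (hs : 2 ≤ s) (d : ι → n → ℝ) (hd : ∀ k i, 0 < d k i) (P0 P1 : Matrix n n ℂ)
    (h0 : P0.PosDef) (h1 : P1.PosDef) (hY0 : (YD s d P0).PosSemidef)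
    (hY1 : (YD s d P1).PosSemidef) :
    s * (trace (P1 * YD s d P0)).re ≤ FD s d P1 + (s - 1) * FD s d P0 :=
  CO_of_DB exists_DBase s hs d hd P0 P1 h0 h1 hY0 hY1

end Pool.Agent.LibRest
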