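import Mathlib

/-! **ID.**  The scalar identities behind `FI` and `CO` (helper79's finite inequality). -/

open MeasureTheory intervalIntegral

namespace Pool.Agent.LibRest

/-- `‖x m - y d‖²` -/
theorem id_nsq (m d : ℂ) (x y : ℝ) : ‖(x : ℂ) * m - (y : ℂ) * d‖ ^ 2 =
    x ^ 2 * ‖m‖ ^ 2 - 2 * (x * y) * (m * (starRingEnd ℂ) d).re + y ^ 2 * ‖d‖ ^ 2 := by
  rw [← Complex.normSq_eq_norm_sq, ← Complex.normSq_eq_norm_sq, ← Complex.normSq_eq_norm_sq]
  simp only [Complex.normSq_apply, Complex.sub_re, Complex.sub_im, Complex.mul_re, Complex.mul_im,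
    Complex.ofReal_re, Complex.ofReal_im, Complex.conj_re, Complex.conj_im]
  ring

theorem id_v_pos {l r t : ℝ} (hl : 0 < l) (hr : 0 < r) (h0 : 0 ≤ t) (h1 : t ≤ 1) :
    0 < t * l + (1 - t) * r := by
  rcases h0.eq_or_lt with h | h
  · rw [← h]; simpa using hr
  · have : 0 ≤ (1 - t) * r := mul_nonneg (by linarith) hr.le
    have : 0 < t * l := mul_pos h hl
    linarith

theorem id_pow1 {v : ℝ} (s : ℝ) (hv : 0 < v) : v ^ (s - 1) = v ^ (s - 2) * v := by
  rw [← Real.rpow_add_one hv.ne']; congr 1; ring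

theorem id_pow2 {v : ℝ} (s : ℝ) (hv : 0 < v) : v ^ s = v ^ (s - 2) * v ^ 2 := by
  rw [← Real.rpow_natCast v 2, ← Real.rpow_add hv]; congr 1; push_cast; ring

/-- the antiderivative -/
theorem id_deriv {s l r t M R D : ℝ} (hs : s ≠ 1) (hv : 0 < t * l + (1 - t) * r) :
    HasDerivAt (fun t : ℝ =>
      (l - r) * (t * l + (1 - t) * r) ^ (s - 1) * (M - 2 * (2 * t - 1) * R + (2 * t - 1) ^ 2 * D) +
      2 / (s - 1) * (2 * t - 1) * (t * l + (1 - t) * r) ^ s * D +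
      2 * s / (s - 1) * (l - r) * (t * (1 - t)) * (t * l + (1 - t) * r) ^ (s - 1) * D)
    ((s - 1) * (t * l + (1 - t) * r) ^ (s - 2) *
      ((l - r) ^ 2 * M - 2 * ((l - r) * ((2 * t - 1) * (l - r) + 2 / (s - 1) *
        (t * l + (1 - t) * r))) * R + ((2 * t - 1) * (l - r) + 2 / (s - 1) *
        (t * l + (1 - t) * r)) ^ 2 * D) +
      2 * s * (t * (1 - t)) * (t * l + (1 - t) * r) ^ (s - 2) * ((l - r) ^ 2 * D)) t := by
  have hs1 : s - 1 ≠ 0 := sub_ne_zero.2 hs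
  have dv : HasDerivAt (fun t : ℝ => t * l + (1 - t) * r) (l - r) t := by
    have h1 := (hasDerivAt_id t).mul_const l
    have h2 := ((hasDerivAt_id t).const_sub 1).mul_const r
    refine (h1.add h2).congr_deriv ?_
    ring
  have dc : HasDerivAt (fun t : ℝ => 2 * t - 1) 2 t := by
    have := ((hasDerivAt_id t).const_mul 2).sub_const 1
    simpa using this
  have dp1 : HasDerivAt (fun t : ℝ => (t * l + (1 - t) * r) ^ (s - 1))
      ((l - r) * (s - 1) * (t * l + (1 - t) * r) ^ (s - 1 - 1)) t :=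
    dv.rpow_const (Or.inl hv.ne')
  have dp2 : HasDerivAt (fun t : ℝ => (t * l + (1 - t) * r) ^ s)
      ((l - r) * s * (t * l + (1 - t) * r) ^ (s - 1)) t :=
    dv.rpow_const (Or.inl hv.ne')
  have dq : HasDerivAt (fun t : ℝ => t * (1 - t)) (1 - 2 * t) t := by
    have := (hasDerivAt_id t).mul ((hasDerivAt_id t).const_sub 1)
    refine this.congr_deriv ?_
    simp only [id]
    ring
  have dm : HasDerivAt (fun t : ℝ => M - 2 * (2 * t - 1) * R + (2 * t - 1) ^ 2 * D)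
      (-4 * R + 4 * (2 * t - 1) * D) t := by
    have h1 := (((dc.const_mul 2).mul_const R).const_sub M)
    have h2 := (dc.pow 2).mul_const D
    refine (h1.add h2).congr_deriv ?_
    push_cast
    ring
  have e1 : (t * l + (1 - t) * r) ^ (s - 1 - 1) = (t * l + (1 - t) * r) ^ (s - 2) := by
    congr 1; ring
  have h1 := (dp1.const_mul (l - r)).mul dm
  have h2 := ((dc.const_mul (2 / (s - 1))).mul dp2).mul_const D
  have h3 := ((dq.const_mul (2 * s / (s - 1) * (l - r))).mul dp1).mul_const D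
  refine ((h1.add h2).add h3).congr_deriv ?_
  simp only [e1]
  rw [id_pow1 s hv, id_pow2 s hv]
  set E := (t * l + (1 - t) * r) ^ (s - 2)
  field_simp
  ring

theorem id_cont {s l r : ℝ} (hl : 0 < l) (hr : 0 < r) :
    ContinuousOn (fun t : ℝ => (t * l + (1 - t) * r) ^ (s - 2)) (Set.Icc 0 1) := by
  refine ContinuousOn.rpow_const (by fun_prop) fun t ht => Or.inl ?_
  exact (id_v_pos hl hr ht.1 ht.2).ne'

/-- the integral of the real form -/
theorem id_int {s l r M R D : ℝ} (hs : s ≠ 1) (hl : 0 < l) (hr : 0 < r) :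
    ∫ t in (0 : ℝ)..1, ((s - 1) * (t * l + (1 - t) * r) ^ (s - 2) *
      ((l - r) ^ 2 * M - 2 * ((l - r) * ((2 * t - 1) * (l - r) + 2 / (s - 1) *
        (t * l + (1 - t) * r))) * R + ((2 * t - 1) * (l - r) + 2 / (s - 1) *
        (t * l + (1 - t) * r)) ^ 2 * D) +
      2 * s * (t * (1 - t)) * (t * l + (1 - t) * r) ^ (s - 2) * ((l - r) ^ 2 * D)) =
    (l - r) * (l ^ (s - 1) * (M - 2 * R + D) - r ^ (s - 1) * (M + 2 * R + D)) +
      2 / (s - 1) * (l ^ s + r ^ s) * D := by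
  have h01 : Set.uIcc (0 : ℝ) 1 = Set.Icc 0 1 := Set.uIcc_of_le zero_le_one
  rw [integral_eq_sub_of_hasDerivAt (f := fun t : ℝ =>
      (l - r) * (t * l + (1 - t) * r) ^ (s - 1) * (M - 2 * (2 * t - 1) * R + (2 * t - 1) ^ 2 * D) +
      2 / (s - 1) * (2 * t - 1) * (t * l + (1 - t) * r) ^ s * D +
      2 * s / (s - 1) * (l - r) * (t * (1 - t)) * (t * l + (1 - t) * r) ^ (s - 1) * D)]
  · simp only [one_mul, sub_self, zero_mul, add_zero, sub_zero, zero_add, mul_zero, mul_one]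
    ring
  · intro t ht
    rw [h01] at ht
    exact id_deriv hs (id_v_pos hl hr ht.1 ht.2)
  · refine ContinuousOn.intervalIntegrable ?_
    rw [h01]
    have h := id_cont (s := s) hl hr
    refine ContinuousOn.add (ContinuousOn.mul (continuousOn_const.mul h) (by fun_prop)) ?_
    exact ContinuousOn.mul (ContinuousOn.mul (by fun_prop) h) (by fun_prop)

/-- `a_t` -/
noncomputable def aa (s t : ℝ) : ℝ := (2 * t - 1) + 2 * t / (s - 1)

/-- `b_t` -/
noncomputable def bb (s t : ℝ) : ℝ := -(2 * t - 1) + 2 * (1 - t) / (s - 1)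

/-- the vector `Om_(m - a_t d) - Om'_(m + b_t d)` in the double eigenbasis, `Om' = (r / l) Om` -/
noncomputable def Vt (s t l r : ℝ) (A B : ℂ) : ℂ :=
  ((A + B) / 2 - (aa s t : ℂ) * ((B - A) / 2)) -
    ((r / l : ℝ) : ℂ) * ((A + B) / 2 + (bb s t : ℂ) * ((B - A) / 2))

theorem Vt_eq {s t l r : ℝ} (hs : s ≠ 1) (hl : 0 < l) (A B : ℂ) :
    Vt s t l r A B = (((l - r) / l : ℝ) : ℂ) * ((A + B) / 2) -
      ((((2 * t - 1) * (l - r) + 2 / (s - 1) * (t * l + (1 - t) * r)) / l : ℝ) : ℂ) *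
        ((B - A) / 2) := by
  have hs1 : (s : ℂ) - 1 ≠ 0 := by
    rw [sub_ne_zero]; exact_mod_cast hs
  have hl1 : (l : ℂ) ≠ 0 := by exact_mod_cast hl.ne'
  unfold Vt aa bb
  push_cast
  field_simp
  ring

/-- **(ID)** the scalar identity behind `FI` -/
theorem id_FI {s l r : ℝ} (hs : 1 < s) (hl : 0 < l) (hr : 0 < r) (A B : ℂ) :
    ∫ t in (0 : ℝ)..1, ((s - 1) * (l * r * (t * l + (1 - t) * r) ^ (s - 2)) *
        ‖Vt s t l r A B‖ ^ 2 +
      2 * s * (t * (1 - t)) * (l * r * (t * l + (1 - t) * r) ^ (s - 2)) *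
        ‖(((l - r) / l : ℝ) : ℂ) * ((B - A) / 2)‖ ^ 2) =
    l ^ (s - 1) * r * ‖A‖ ^ 2 + l⁻¹ * r ^ (s + 1) * ‖B‖ ^ 2 +
      1 / (2 * (s - 1)) * ((l ^ (s - 1) * r + l⁻¹ * r ^ (s + 1)) * ‖B - A‖ ^ 2) -
      l ^ s * ‖((r / l : ℝ) : ℂ) * A‖ ^ 2 - r ^ s * ‖B‖ ^ 2 := by
  have hs1 : s ≠ 1 := hs.ne'
  have hs0 : s - 1 ≠ 0 := sub_ne_zero.2 hs1
  set M := ‖(A + B) / 2‖ ^ 2 with hM
  set D := ‖(B - A) / 2‖ ^ 2 with hD
  set R := ((A + B) / 2 * (starRingEnd ℂ) ((B - A) / 2)).re with hR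
  have hA : ‖A‖ ^ 2 = M - 2 * R + D := by
    have h := id_nsq ((A + B) / 2) ((B - A) / 2) 1 1
    have e : (((1 : ℝ) : ℂ) * ((A + B) / 2) - ((1 : ℝ) : ℂ) * ((B - A) / 2)) = A := by
      push_cast; ring
    rw [e] at h
    rw [h]; ring
  have hB : ‖B‖ ^ 2 = M + 2 * R + D := by
    have h := id_nsq ((A + B) / 2) ((B - A) / 2) 1 (-1)
    have e : (((1 : ℝ) : ℂ) * ((A + B) / 2) - ((-1 : ℝ) : ℂ) * ((B - A) / 2)) = B := by
      push_cast; ring
    rw [e] at h
    rw [h]; ring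
  have hBA : ‖B - A‖ ^ 2 = 4 * D := by
    have e : B - A = 2 * ((B - A) / 2) := by ring
    rw [e, norm_mul, mul_pow, hD]
    norm_num
  have h1 : ∀ t : ℝ, (s - 1) * (l * r * (t * l + (1 - t) * r) ^ (s - 2)) *
        ‖Vt s t l r A B‖ ^ 2 +
      2 * s * (t * (1 - t)) * (l * r * (t * l + (1 - t) * r) ^ (s - 2)) *
        ‖(((l - r) / l : ℝ) : ℂ) * ((B - A) / 2)‖ ^ 2 =
      r / l * ((s - 1) * (t * l + (1 - t) * r) ^ (s - 2) *
      ((l - r) ^ 2 * M - 2 * ((l - r) * ((2 * t - 1) * (l - r) + 2 / (s - 1) *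
        (t * l + (1 - t) * r))) * R + ((2 * t - 1) * (l - r) + 2 / (s - 1) *
        (t * l + (1 - t) * r)) ^ 2 * D) +
      2 * s * (t * (1 - t)) * (t * l + (1 - t) * r) ^ (s - 2) * ((l - r) ^ 2 * D)) := by
    intro t
    rw [Vt_eq hs1 hl, id_nsq, norm_mul, Complex.norm_real, mul_pow, Real.norm_eq_abs, sq_abs,
      ← hM, ← hD, ← hR]
    field_simp
  simp_rw [h1]
  rw [intervalIntegral.integral_const_mul, id_int hs1 hl hr, hA, hB, hBA, norm_mul,
    Complex.norm_real, mul_pow, Real.norm_eq_abs, sq_abs, hA]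
  have e1 : l ^ s = l ^ (s - 1) * l := by rw [← Real.rpow_add_one hl.ne']; congr 1; ring
  have e2 : r ^ s = r ^ (s - 1) * r := by rw [← Real.rpow_add_one hr.ne']; congr 1; ring
  have e3 : r ^ (s + 1) = r ^ (s - 1) * r ^ 2 := by
    rw [← Real.rpow_natCast r 2, ← Real.rpow_add hr]; congr 1; push_cast; ring
  rw [e1, e2, e3]
  field_simp
  ring

/-- the integral behind `CO` (Taylor) -/
theorem id_taylor {s l r : ℝ} (hl : 0 < l) (hr : 0 < r) :
    ∫ t in (0 : ℝ)..1, s * (s - 1) * (l - r) ^ 2 * ((1 - t) * (t * l + (1 - t) * r) ^ (s - 2)) =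
      l ^ s - r ^ s - s * r ^ (s - 1) * (l - r) := by
  have h01 : Set.uIcc (0 : ℝ) 1 = Set.Icc 0 1 := Set.uIcc_of_le zero_le_one
  rw [integral_eq_sub_of_hasDerivAt (f := fun t : ℝ =>
      s * (l - r) * (1 - t) * (t * l + (1 - t) * r) ^ (s - 1) + (t * l + (1 - t) * r) ^ s)]
  · simp only [one_mul, sub_self, zero_mul, add_zero, sub_zero, zero_add, mul_zero, mul_one]
    ring
  · intro t ht
    rw [h01] at ht
    have hv := id_v_pos hl hr ht.1 ht.2
    have dv : HasDerivAt (fun t : ℝ => t * l + (1 - t) * r) (l - r) t := by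
      have h1 := (hasDerivAt_id t).mul_const l
      have h2 := ((hasDerivAt_id t).const_sub 1).mul_const r
      refine (h1.add h2).congr_deriv ?_
      ring
    have dp1 : HasDerivAt (fun t : ℝ => (t * l + (1 - t) * r) ^ (s - 1))
        ((l - r) * (s - 1) * (t * l + (1 - t) * r) ^ (s - 1 - 1)) t :=
      dv.rpow_const (Or.inl hv.ne')
    have dp2 : HasDerivAt (fun t : ℝ => (t * l + (1 - t) * r) ^ s)
        ((l - r) * s * (t * l + (1 - t) * r) ^ (s - 1)) t :=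
      dv.rpow_const (Or.inl hv.ne')
    have d1 : HasDerivAt (fun t : ℝ => s * (l - r) * (1 - t)) (s * (l - r) * (-1)) t :=
      ((hasDerivAt_id t).const_sub 1).const_mul _
    refine ((d1.mul dp1).add dp2).congr_deriv ?_
    have e1 : (t * l + (1 - t) * r) ^ (s - 1 - 1) = (t * l + (1 - t) * r) ^ (s - 2) := by
      congr 1; ring
    simp only [e1]
    rw [id_pow1 s hv]
    ring
  · refine ContinuousOn.intervalIntegrable ?_
    rw [h01]
    exact continuousOn_const.mul (ContinuousOn.mul (by fun_prop) (id_cont hl hr))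

/-- **the scalar identity behind `CO`** -/
theorem id_CO {s l r : ℝ} (hl : 0 < l) (hr : 0 < r) (A : ℂ) :
    ∫ t in (0 : ℝ)..1, s * (s - 1) * (1 - t) * (l * r * (t * l + (1 - t) * r) ^ (s - 2)) *
        ‖(((l - r) / l : ℝ) : ℂ) * A‖ ^ 2 =
    l ^ (s - 1) * r * ‖A‖ ^ 2 + (s - 1) * (l⁻¹ * r ^ (s + 1) * ‖A‖ ^ 2) -
      s * (r ^ s * ‖A‖ ^ 2) := by
  have h1 : ∀ t : ℝ, s * (s - 1) * (1 - t) * (l * r * (t * l + (1 - t) * r) ^ (s - 2)) *
        ‖(((l - r) / l : ℝ) : ℂ) * A‖ ^ 2 = r / l * ‖A‖ ^ 2 *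
      (s * (s - 1) * (l - r) ^ 2 * ((1 - t) * (t * l + (1 - t) * r) ^ (s - 2))) := by
    intro t
    rw [norm_mul, Complex.norm_real, mul_pow, Real.norm_eq_abs, sq_abs]
    field_simp
  simp_rw [h1]
  rw [intervalIntegral.integral_const_mul, id_taylor hl hr]
  have e1 : l ^ s = l ^ (s - 1) * l := by rw [← Real.rpow_add_one hl.ne']; congr 1; ring
  have e2 : r ^ s = r ^ (s - 1) * r := by rw [← Real.rpow_add_one hr.ne']; congr 1; ring
  have e3 : r ^ (s + 1) = r ^ (s - 1) * r ^ 2 := by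
    rw [← Real.rpow_natCast r 2, ← Real.rpow_add hr]; congr 1; push_cast; ring
  rw [e1, e2, e3]
  field_simp
  ring

theorem id_FI_int {s l r : ℝ} (hs : 1 < s) (hl : 0 < l) (hr : 0 < r) (A B : ℂ) :
    IntervalIntegrable (fun t : ℝ => (s - 1) * (l * r * (t * l + (1 - t) * r) ^ (s - 2)) *
        ‖Vt s t l r A B‖ ^ 2 +
      2 * s * (t * (1 - t)) * (l * r * (t * l + (1 - t) * r) ^ (s - 2)) *
        ‖(((l - r) / l : ℝ) : ℂ) * ((B - A) / 2)‖ ^ 2) volume 0 1 := by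
  refine ContinuousOn.intervalIntegrable ?_
  rw [Set.uIcc_of_le zero_le_one]
  have h := id_cont (s := s) hl hr
  have hV : Continuous (fun t : ℝ => ‖Vt s t l r A B‖ ^ 2) := by
    unfold Vt aa bb
    fun_prop
  refine ContinuousOn.add ?_ ?_
  · exact ContinuousOn.mul (continuousOn_const.mul (continuousOn_const.mul h)) hV.continuousOn
  · exact ContinuousOn.mul (ContinuousOn.mul (by fun_prop) (continuousOn_const.mul h))
      continuousOn_const

theorem id_CO_int {s l r : ℝ} (hl : 0 < l) (hr : 0 < r) (A : ℂ) :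
    IntervalIntegrable (fun t : ℝ => s * (s - 1) * (1 - t) *
      (l * r * (t * l + (1 - t) * r) ^ (s - 2)) * ‖(((l - r) / l : ℝ) : ℂ) * A‖ ^ 2)
      volume 0 1 := by
  refine ContinuousOn.intervalIntegrable ?_
  rw [Set.uIcc_of_le zero_le_one]
  have h := id_cont (s := s) hl hr
  exact ContinuousOn.mul (ContinuousOn.mul (by fun_prop) (continuousOn_const.mul h))
      continuousOn_const

end Pool.Agent.LibRest
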