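import Pool.Agent.LibSchRA75.A1

/-!
# The class of superadditive forms

`ff f V a U w K = ∑ |(Vᴴ K U)_ij|² f(a_i, w_j)` is a function of `A = V diag(a) Vᴴ`,
`W = U diag(w) Uᴴ`.  The class `Cl` of the functions `f ≥ 0` for which it is superadditive in
`(A, W)` contains `x`, `y` and is closed under sums, parallel sums, geometric means, limits.
-/

open Matrix MeasureTheory Set Filter Topology
open scoped ComplexOrder

namespace SchRA

open Pool.Agent.LibSchP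

/-- `∑ |(Vᴴ K U)_ij|² f(a_i, w_j)` -/
noncomputable def ff {n m : Type} [Fintype n] [DecidableEq n] [Fintype m] [DecidableEq m]
    (f : ℝ → ℝ → ℝ) (V : Matrix n n ℂ) (a : n → ℝ) (U : Matrix m m ℂ) (w : m → ℝ)
    (K : Matrix n m ℂ) : ℝ :=
  ∑ i, ∑ j, ‖(Vᴴ * K * U) i j‖ ^ 2 * f (a i) (w j)

/-- two families with `A ≥ ∑ A_k`, `W ≥ ∑ W_k` -/
structure Dat (n m ι : Type) [Fintype n] [DecidableEq n] [Fintype m] [DecidableEq m]
    [Fintype ι] where
  V : Matrix n n ℂ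
  U : Matrix m m ℂ
  a : n → ℝ
  w : m → ℝ
  V' : ι → Matrix n n ℂ
  U' : ι → Matrix m m ℂ
  a' : ι → n → ℝ
  w' : ι → m → ℝ
  hV : V ∈ unitaryGroup n ℂ
  hU : U ∈ unitaryGroup m ℂ
  ha : ∀ i, 0 < a i
  hw : ∀ j, 0 < w j
  hV' : ∀ k, V' k ∈ unitaryGroup n ℂ
  hU' : ∀ k, U' k ∈ unitaryGroup m ℂ
  ha' : ∀ k i, 0 < a' k i
  hw' : ∀ k j, 0 < w' k j
  hA : (ud V a - ∑ k, ud (V' k) (a' k)).PosSemidef
  hW : (ud U w - ∑ k, ud (U' k) (w' k)).PosSemidef

/-- the class of superadditive forms -/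
structure Cl (f : ℝ → ℝ → ℝ) : Prop where
  nonneg : ∀ x y, 0 < x → 0 < y → 0 ≤ f x y
  sup : ∀ {n m ι : Type} [Fintype n] [DecidableEq n] [Fintype m] [DecidableEq m] [Fintype ι]
    (D : Dat n m ι) (K : Matrix n m ℂ),
    ∑ k, ff f (D.V' k) (D.a' k) (D.U' k) (D.w' k) K ≤ ff f D.V D.a D.U D.w K

section

variable {n m ι : Type} [Fintype n] [DecidableEq n] [Fintype m] [DecidableEq m] [Fintype ι]

theorem ff_congr {f g : ℝ → ℝ → ℝ} {V : Matrix n n ℂ} {a : n → ℝ} {U : Matrix m m ℂ}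
    {w : m → ℝ} {K : Matrix n m ℂ} (h : ∀ i j, f (a i) (w j) = g (a i) (w j)) :
    ff f V a U w K = ff g V a U w K := by
  unfold ff
  exact Finset.sum_congr rfl fun i _ => Finset.sum_congr rfl fun j _ => by rw [h]

theorem ff_add (f g : ℝ → ℝ → ℝ) (V : Matrix n n ℂ) (a : n → ℝ) (U : Matrix m m ℂ)
    (w : m → ℝ) (K : Matrix n m ℂ) :
    ff (fun x y => f x y + g x y) V a U w K = ff f V a U w K + ff g V a U w K := by
  unfold ff
  rw [← Finset.sum_add_distrib]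
  refine Finset.sum_congr rfl fun i _ => ?_
  rw [← Finset.sum_add_distrib]
  exact Finset.sum_congr rfl fun j _ => by ring

theorem ff_smul (c : ℝ) (f : ℝ → ℝ → ℝ) (V : Matrix n n ℂ) (a : n → ℝ) (U : Matrix m m ℂ)
    (w : m → ℝ) (K : Matrix n m ℂ) :
    ff (fun x y => c * f x y) V a U w K = c * ff f V a U w K := by
  unfold ff
  rw [Finset.mul_sum]
  refine Finset.sum_congr rfl fun i _ => ?_
  rw [Finset.mul_sum]
  exact Finset.sum_congr rfl fun j _ => by ring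

end

theorem Cl.congr {f g : ℝ → ℝ → ℝ} (hf : Cl f) (h : ∀ x y, 0 < x → 0 < y → f x y = g x y) :
    Cl g := by
  refine ⟨fun x y hx hy => h x y hx hy ▸ hf.nonneg x y hx hy, fun D K => ?_⟩
  rw [← ff_congr (fun i j => h _ _ (D.ha i) (D.hw j))]
  refine le_trans (le_of_eq ?_) (hf.sup D K)
  exact Finset.sum_congr rfl fun k _ => (ff_congr fun i j => h _ _ (D.ha' k i) (D.hw' k j)).symm

theorem Cl.fst : Cl (fun x _ => x) := by
  refine ⟨fun x y hx _ => hx.le, fun D K => ?_⟩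
  have e : ∀ {n m : Type} [Fintype n] [DecidableEq n] [Fintype m] [DecidableEq m]
      (V : Matrix n n ℂ) (a : n → ℝ) (U : Matrix m m ℂ) (hU : U ∈ unitaryGroup m ℂ) (w : m → ℝ)
      (K : Matrix n m ℂ), ff (fun x _ => x) V a U w K = (trace (Kᴴ * ud V a * K)).re :=
    fun V a U hU w K => (tr1 V U hU a K).symm
  rw [e _ _ _ D.hU, Finset.sum_congr rfl fun k _ => e _ _ _ (D.hU' k) _ _]
  have h := (Complex.nonneg_iff.1 (D.hA.conjTranspose_mul_mul_same K).trace_nonneg).1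
  rw [Matrix.mul_sub, Matrix.sub_mul, trace_sub, Complex.sub_re, Matrix.mul_sum, Matrix.sum_mul,
    trace_sum, Complex.re_sum] at h
  linarith

theorem Cl.snd : Cl (fun _ y => y) := by
  refine ⟨fun x y _ hy => hy.le, fun D K => ?_⟩
  have e : ∀ {n m : Type} [Fintype n] [DecidableEq n] [Fintype m] [DecidableEq m]
      (V : Matrix n n ℂ) (hV : V ∈ unitaryGroup n ℂ) (a : n → ℝ) (U : Matrix m m ℂ) (w : m → ℝ)
      (K : Matrix n m ℂ), ff (fun _ y => y) V a U w K = (trace (K * ud U w * Kᴴ)).re :=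
    fun V hV a U w K => (tr2 V hV U w K).symm
  rw [e _ D.hV, Finset.sum_congr rfl fun k _ => e _ (D.hV' k) _ _ _ _]
  have h := (Complex.nonneg_iff.1 (D.hW.mul_mul_conjTranspose_same K).trace_nonneg).1
  rw [Matrix.mul_sub, Matrix.sub_mul, trace_sub, Complex.sub_re, Matrix.mul_sum, Matrix.sum_mul,
    trace_sum, Complex.re_sum] at h
  linarith

theorem Cl.add {f g : ℝ → ℝ → ℝ} (hf : Cl f) (hg : Cl g) : Cl (fun x y => f x y + g x y) := by
  refine ⟨fun x y hx hy => add_nonneg (hf.nonneg x y hx hy) (hg.nonneg x y hx hy),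
    fun D K => ?_⟩
  simp_rw [ff_add]
  rw [Finset.sum_add_distrib]
  exact add_le_add (hf.sup D K) (hg.sup D K)

theorem Cl.smul {f : ℝ → ℝ → ℝ} {c : ℝ} (hc : 0 ≤ c) (hf : Cl f) : Cl (fun x y => c * f x y) := by
  refine ⟨fun x y hx hy => mul_nonneg hc (hf.nonneg x y hx hy), fun D K => ?_⟩
  simp_rw [ff_smul]
  rw [← Finset.mul_sum]
  exact mul_le_mul_of_nonneg_left (hf.sup D K) hc

/-- parallel sum -/
theorem Cl.par {f g : ℝ → ℝ → ℝ} {ρ : ℝ} (hρ : 0 < ρ) (hf : Cl f) (hg : Cl g) :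
    Cl (fun x y => f x y * g x y / (f x y + ρ * g x y)) := by
  refine ⟨fun x y hx hy => ?_, fun D K => ?_⟩
  · have h1 := hf.nonneg x y hx hy
    have h2 := hg.nonneg x y hx hy
    positivity
  set K₁' : Matrix _ _ ℂ := Matrix.of fun i j =>
    ((ρ * g (D.a i) (D.w j) / (f (D.a i) (D.w j) + ρ * g (D.a i) (D.w j)) : ℝ) : ℂ) *
      (D.Vᴴ * K * D.U) i j with hK₁'
  set K₁ := D.V * K₁' * D.Uᴴ with hK₁
  have e : D.Vᴴ * K₁ * D.U = K₁' := by
    calc D.Vᴴ * (D.V * K₁' * D.Uᴴ) * D.U = (D.Vᴴ * D.V) * K₁' * (D.Uᴴ * D.U) := by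
          simp only [Matrix.mul_assoc]
      _ = K₁' := by rw [a2_uu D.V D.hV, a2_uu D.U D.hU, Matrix.one_mul, Matrix.mul_one]
  -- the total
  have htot : ff (fun x y => f x y * g x y / (f x y + ρ * g x y)) D.V D.a D.U D.w K =
      ρ⁻¹ * ff f D.V D.a D.U D.w K₁ + ff g D.V D.a D.U D.w (K - K₁) := by
    unfold ff
    rw [Finset.mul_sum, ← Finset.sum_add_distrib]
    refine Finset.sum_congr rfl fun i _ => ?_
    rw [Finset.mul_sum, ← Finset.sum_add_distrib]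
    refine Finset.sum_congr rfl fun j _ => ?_
    rw [Matrix.mul_sub, Matrix.sub_mul, Matrix.sub_apply, e]
    beta_reduce
    set k := (D.Vᴴ * K * D.U) i j
    have h1 : K₁' i j = ((ρ * g (D.a i) (D.w j) / (f (D.a i) (D.w j) +
      ρ * g (D.a i) (D.w j)) : ℝ) : ℂ) * k := rfl
    have h2 := hf.nonneg _ _ (D.ha i) (D.hw j)
    have h3 := hg.nonneg _ _ (D.ha i) (D.hw j)
    rw [h1]
    generalize f (D.a i) (D.w j) = x at *
    generalize g (D.a i) (D.w j) = y at *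
    have hρy : 0 ≤ ρ * y := by positivity
    rcases (add_nonneg h2 hρy).eq_or_lt with h | h
    · have h4 : x = 0 := by linarith
      have h5 : y = 0 := by
        have : ρ * y = 0 := by linarith
        rcases mul_eq_zero.1 this with h6 | h6
        · exact absurd h6 hρ.ne'
        · exact h6
      rw [h4, h5]
      simp
    · have h4 : k - ((ρ * y / (x + ρ * y) : ℝ) : ℂ) * k = ((x / (x + ρ * y) : ℝ) : ℂ) * k := by
        have : ((x / (x + ρ * y) : ℝ) : ℂ) = 1 - ((ρ * y / (x + ρ * y) : ℝ) : ℂ) := by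
          rw [← Complex.ofReal_one, ← Complex.ofReal_sub]
          congr 1
          field_simp
          ring
        rw [this]
        ring
      rw [h4, norm_mul, norm_mul, Complex.norm_real, Complex.norm_real, Real.norm_eq_abs,
        Real.norm_eq_abs, mul_pow, mul_pow, sq_abs, sq_abs]
      have e6 : ∀ q S : ℝ, S ≠ 0 → S = x + ρ * y → q * (x * y / S) =
          ρ⁻¹ * ((ρ * y / S) ^ 2 * q * x) + (x / S) ^ 2 * q * y := by
        intro q S hS hSe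
        have hρ' := hρ.ne'
        field_simp
        rw [hSe]
        ring
      have e7 := e6 (‖k‖ ^ 2) _ h.ne' rfl
      rw [e7]
  -- each part
  have hk : ∀ k, ff (fun x y => f x y * g x y / (f x y + ρ * g x y)) (D.V' k) (D.a' k) (D.U' k)
      (D.w' k) K ≤ ρ⁻¹ * ff f (D.V' k) (D.a' k) (D.U' k) (D.w' k) K₁ +
        ff g (D.V' k) (D.a' k) (D.U' k) (D.w' k) (K - K₁) := by
    intro k
    unfold ff
    rw [Finset.mul_sum, ← Finset.sum_add_distrib]
    refine Finset.sum_le_sum fun i _ => ?_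
    rw [Finset.mul_sum, ← Finset.sum_add_distrib]
    refine Finset.sum_le_sum fun j _ => ?_
    have h := pair_le hρ (hf.nonneg _ _ (D.ha' k i) (D.hw' k j))
      (hg.nonneg _ _ (D.ha' k i) (D.hw' k j)) (((D.V' k)ᴴ * K * D.U' k) i j)
      (((D.V' k)ᴴ * K₁ * D.U' k) i j)
    rw [Matrix.mul_sub, Matrix.sub_mul, Matrix.sub_apply]
    refine h.trans (le_of_eq ?_)
    ring
  rw [htot]
  refine (Finset.sum_le_sum fun k _ => hk k).trans ?_
  rw [Finset.sum_add_distrib, ← Finset.mul_sum]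
  exact add_le_add (mul_le_mul_of_nonneg_left (hf.sup D K₁) (inv_pos.2 hρ).le)
    (hg.sup D (K - K₁))

section

variable {n m : Type} [Fintype n] [DecidableEq n] [Fintype m] [DecidableEq m]

theorem int_ff {f g : ℝ → ℝ → ℝ} {θ : ℝ} (h0 : 0 < θ) (h1 : θ < 1) (V : Matrix n n ℂ)
    (a : n → ℝ) (U : Matrix m m ℂ) (w : m → ℝ) (hf : ∀ i j, 0 ≤ f (a i) (w j))
    (hg : ∀ i j, 0 ≤ g (a i) (w j)) (K : Matrix n m ℂ) :
    IntegrableOn (fun ρ : ℝ => ff (fun x y => f x y * g x y / (f x y + ρ * g x y)) V a U w K *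
      ρ ^ (θ - 1)) (Ioi 0) ∧
      ∫ ρ in Ioi (0 : ℝ), ff (fun x y => f x y * g x y / (f x y + ρ * g x y)) V a U w K *
        ρ ^ (θ - 1) = cst θ * ff (fun x y => f x y ^ θ * g x y ^ (1 - θ)) V a U w K := by
  have e : (fun ρ : ℝ => ff (fun x y => f x y * g x y / (f x y + ρ * g x y)) V a U w K *
      ρ ^ (θ - 1)) = fun ρ : ℝ => ∑ i, ∑ j, ‖(Vᴴ * K * U) i j‖ ^ 2 *
      (f (a i) (w j) * g (a i) (w j) / (f (a i) (w j) + ρ * g (a i) (w j)) * ρ ^ (θ - 1)) := by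
    funext ρ
    rw [ff, Finset.sum_mul]
    refine Finset.sum_congr rfl fun i _ => ?_
    rw [Finset.sum_mul]
    refine Finset.sum_congr rfl fun j _ => ?_
    ring
  have hI : ∀ i j, IntegrableOn (fun ρ : ℝ => ‖(Vᴴ * K * U) i j‖ ^ 2 *
      (f (a i) (w j) * g (a i) (w j) / (f (a i) (w j) + ρ * g (a i) (w j)) * ρ ^ (θ - 1)))
      (Ioi 0) := fun i j => (int_pair h0 h1 (hf i j) (hg i j)).1.const_mul _
  rw [e]
  refine ⟨integrable_finsetSum _ fun i _ => integrable_finsetSum _ fun j _ => hI i j, ?_⟩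
  rw [integral_finsetSum _ fun i _ => integrable_finsetSum _ fun j _ => hI i j, ff,
    Finset.mul_sum]
  refine Finset.sum_congr rfl fun i _ => ?_
  rw [integral_finsetSum _ fun j _ => hI i j, Finset.mul_sum]
  refine Finset.sum_congr rfl fun j _ => ?_
  rw [integral_const_mul, (int_pair h0 h1 (hf i j) (hg i j)).2]
  ring

end

/-- geometric mean -/
theorem Cl.geo {f g : ℝ → ℝ → ℝ} {θ : ℝ} (h0 : 0 < θ) (h1 : θ < 1) (hf : Cl f) (hg : Cl g) :
    Cl (fun x y => f x y ^ θ * g x y ^ (1 - θ)) := by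
  refine ⟨fun x y hx hy => mul_nonneg (Real.rpow_nonneg (hf.nonneg x y hx hy) _)
    (Real.rpow_nonneg (hg.nonneg x y hx hy) _), fun D K => ?_⟩
  have hc := cst_pos θ h0 h1
  refine le_of_mul_le_mul_left ?_ hc
  rw [Finset.mul_sum]
  have h2 := fun k => int_ff (f := f) (g := g) h0 h1 (D.V' k) (D.a' k) (D.U' k) (D.w' k)
    (fun i j => hf.nonneg _ _ (D.ha' k i) (D.hw' k j))
    (fun i j => hg.nonneg _ _ (D.ha' k i) (D.hw' k j)) K
  have h3 := int_ff (f := f) (g := g) h0 h1 D.V D.a D.U D.w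
    (fun i j => hf.nonneg _ _ (D.ha i) (D.hw j)) (fun i j => hg.nonneg _ _ (D.ha i) (D.hw j)) K
  simp_rw [← fun k => (h2 k).2]
  rw [← h3.2, ← integral_finsetSum _ fun k _ => (h2 k).1]
  refine setIntegral_mono_on (integrable_finsetSum _ fun k _ => (h2 k).1) h3.1 measurableSet_Ioi
    fun ρ hρ => ?_
  rw [← Finset.sum_mul]
  exact mul_le_mul_of_nonneg_right ((Cl.par hρ hf hg).sup D K) (Real.rpow_nonneg (le_of_lt hρ) _)

/-- limits -/
theorem Cl.lim {F : ℕ → ℝ → ℝ → ℝ} {f : ℝ → ℝ → ℝ} (hF : ∀ N, Cl (F N))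
    (h : ∀ x y, 0 < x → 0 < y → Tendsto (fun N => F N x y) atTop (𝓝 (f x y))) : Cl f := by
  refine ⟨fun x y hx hy => ge_of_tendsto' (h x y hx hy) fun N => (hF N).nonneg x y hx hy,
    fun D K => ?_⟩
  have key : ∀ {n m : Type} [Fintype n] [DecidableEq n] [Fintype m] [DecidableEq m]
      (V : Matrix n n ℂ) (a : n → ℝ) (U : Matrix m m ℂ) (w : m → ℝ) (K : Matrix n m ℂ),
      (∀ i, 0 < a i) → (∀ j, 0 < w j) →
      Tendsto (fun N => ff (F N) V a U w K) atTop (𝓝 (ff f V a U w K)) := by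
    intro n m _ _ _ _ V a U w K ha hw
    unfold ff
    exact tendsto_finsetSum _ fun i _ => tendsto_finsetSum _ fun j _ =>
      (h _ _ (ha i) (hw j)).const_mul _
  exact le_of_tendsto_of_tendsto'
    (tendsto_finsetSum _ fun k _ => key (D.V' k) (D.a' k) (D.U' k) (D.w' k) K (D.ha' k) (D.hw' k))
    (key D.V D.a D.U D.w K D.ha D.hw) fun N => (hF N).sup D K

/-- the power mean of `x`, `y` -/
noncomputable def pm (s t x y : ℝ) : ℝ := (t * x ^ (1 / s) + (1 - t) * y ^ (1 / s)) ^ s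

theorem pm_base_pos {s t x y : ℝ} (ht : 0 ≤ t) (ht' : t ≤ 1) (hx : 0 < x) (hy : 0 < y) :
    0 < t * x ^ (1 / s) + (1 - t) * y ^ (1 / s) := by
  have h1 := Real.rpow_pos_of_pos hx (1 / s)
  have h2 := Real.rpow_pos_of_pos hy (1 / s)
  rcases ht.eq_or_lt with h | h
  · rw [← h]
    simpa using h2
  · have : 0 ≤ 1 - t := by linarith
    positivity

theorem Cl.pm {s t : ℝ} (hs : 1 < s) (ht : 0 ≤ t) (ht' : t ≤ 1) : Cl (pm s t) := by
  have hs0 : 0 < s := by linarith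
  set w : ℝ := 1 - 1 / s with hw
  have hsi : 0 < 1 / s := by positivity
  have hsi1 : 1 / s < 1 := by rw [div_lt_one hs0]; exact hs
  have hw0 : 0 < w := by linarith
  have hw1 : w < 1 := by linarith
  have hcl : ∀ N : ℕ, Cl (fun x y => SchRA.pm s t x y ^ (1 - w ^ N) * x ^ (w ^ N)) := by
    intro N
    induction N with
    | zero =>
      refine Cl.fst.congr fun x y hx hy => ?_
      simp
    | succ N ih =>
      have h1 := Cl.geo hw0 hw1 ih Cl.fst
      have h2 := Cl.geo hw0 hw1 ih Cl.snd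
      refine ((Cl.smul ht h1).add (Cl.smul (sub_nonneg.2 ht') h2)).congr fun x y hx hy => ?_
      have hM := pm_base_pos (s := s) ht ht' hx hy
      have hP : 0 < SchRA.pm s t x y := Real.rpow_pos_of_pos hM s
      have e1 : 1 - w = 1 / s := by rw [hw]; ring
      have e2 : (SchRA.pm s t x y ^ (1 - w ^ N) * x ^ w ^ N) ^ w =
          SchRA.pm s t x y ^ (w - w ^ (N + 1)) * x ^ (w ^ (N + 1)) := by
        rw [Real.mul_rpow (Real.rpow_nonneg hP.le _) (Real.rpow_nonneg hx.le _),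
          ← Real.rpow_mul hP.le, ← Real.rpow_mul hx.le]
        congr 2 <;> ring
      have e3 : SchRA.pm s t x y ^ (1 / s) = t * x ^ (1 / s) + (1 - t) * y ^ (1 / s) := by
        rw [SchRA.pm, ← Real.rpow_mul hM.le, mul_one_div_cancel hs0.ne', Real.rpow_one]
      rw [e2, e1]
      have e4 : SchRA.pm s t x y ^ (1 - w ^ (N + 1)) =
          SchRA.pm s t x y ^ (w - w ^ (N + 1)) * SchRA.pm s t x y ^ (1 / s) := by
        rw [← Real.rpow_add hP]
        congr 1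
        rw [hw]
        ring
      rw [e4, e3]
      ring
  refine Cl.lim hcl fun x y hx hy => ?_
  have hM := pm_base_pos (s := s) ht ht' hx hy
  have hP : 0 < SchRA.pm s t x y := Real.rpow_pos_of_pos hM s
  have h1 : Tendsto (fun N : ℕ => w ^ N) atTop (𝓝 0) :=
    tendsto_pow_atTop_nhds_zero_of_lt_one hw0.le hw1
  have h2 : Tendsto (fun N : ℕ => SchRA.pm s t x y ^ (1 - w ^ N)) atTop
      (𝓝 (SchRA.pm s t x y ^ (1 - 0 : ℝ))) :=
    (Real.continuousAt_const_rpow hP.ne').tendsto.comp (tendsto_const_nhds.sub h1)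
  have h3 : Tendsto (fun N : ℕ => x ^ (w ^ N)) atTop (𝓝 (x ^ (0 : ℝ))) :=
    (Real.continuousAt_const_rpow hx.ne').tendsto.comp h1
  have h4 := h2.mul h3
  rwa [sub_zero, Real.rpow_one, Real.rpow_zero, mul_one] at h4

/-- `λ ρ (t λ + (1 - t) ρ)^(s-2)` -/
noncomputable def Gt (s t l r : ℝ) : ℝ := l * r * (t * l + (1 - t) * r) ^ (s - 2)

theorem Cl.G {s t : ℝ} (hs : 2 ≤ s) (ht : 0 ≤ t) (ht' : t ≤ 1) :
    Cl (fun x y => Gt s t (x ^ (1 / s)) (y ^ (1 / s))) := by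
  have hs0 : 0 < s := by linarith
  have hgm : Cl (fun x y => x ^ (1 / 2 : ℝ) * y ^ (1 / 2 : ℝ)) := by
    refine (Cl.geo (θ := 1 / 2) (by norm_num) (by norm_num) Cl.fst Cl.snd).congr
      fun x y _ _ => ?_
    norm_num
  rcases hs.eq_or_lt with h | h
  · subst h
    refine hgm.congr fun x y _ _ => ?_
    rw [Gt, sub_self, Real.rpow_zero, mul_one]
  · have h0 : 0 < 2 / s := by positivity
    have h1 : 2 / s < 1 := by rw [div_lt_one hs0]; exact h
    refine (Cl.geo h0 h1 hgm (Cl.pm (s := s) (by linarith) ht ht')).congr fun x y hx hy => ?_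
    have hM := pm_base_pos (s := s) ht ht' hx hy
    have e1 : (x ^ (1 / 2 : ℝ) * y ^ (1 / 2 : ℝ)) ^ (2 / s) = x ^ (1 / s) * y ^ (1 / s) := by
      rw [Real.mul_rpow (Real.rpow_nonneg hx.le _) (Real.rpow_nonneg hy.le _),
        ← Real.rpow_mul hx.le, ← Real.rpow_mul hy.le]
      congr 2 <;> ring
    have e2 : SchRA.pm s t x y ^ (1 - 2 / s) =
        (t * x ^ (1 / s) + (1 - t) * y ^ (1 / s)) ^ (s - 2) := by
      rw [SchRA.pm, ← Real.rpow_mul hM.le]
      congr 1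
      field_simp
    rw [e1, e2, Gt]

/-- **(SUP)** -/
theorem sup_G {n m ι : Type} [Fintype n] [DecidableEq n] [Fintype m] [DecidableEq m] [Fintype ι]
    {s t : ℝ} (hs : 2 ≤ s) (ht : 0 ≤ t) (ht' : t ≤ 1) {V : Matrix n n ℂ}
    (hV : V ∈ unitaryGroup n ℂ) {U : Matrix m m ℂ} (hU : U ∈ unitaryGroup m ℂ) {a : n → ℝ}
    (ha : ∀ i, 0 < a i) {w : m → ℝ} (hw : ∀ j, 0 < w j) {V' : ι → Matrix n n ℂ}
    (hV' : ∀ k, V' k ∈ unitaryGroup n ℂ) {U' : ι → Matrix m m ℂ}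
    (hU' : ∀ k, U' k ∈ unitaryGroup m ℂ) {a' : ι → n → ℝ} (ha' : ∀ k i, 0 < a' k i)
    {w' : ι → m → ℝ} (hw' : ∀ k j, 0 < w' k j)
    (hA : (ud V a - ∑ k, ud (V' k) (a' k)).PosSemidef)
    (hW : (ud U w - ∑ k, ud (U' k) (w' k)).PosSemidef) (K : Matrix n m ℂ) :
    ∑ k, ff (fun x y => Gt s t (x ^ (1 / s)) (y ^ (1 / s))) (V' k) (a' k) (U' k) (w' k) K ≤
      ff (fun x y => Gt s t (x ^ (1 / s)) (y ^ (1 / s))) V a U w K :=
  (Cl.G hs ht ht').sup ⟨V, U, a, w, V', U', a', w', hV, hU, ha, hw, hV', hU', ha', hw', hA, hW⟩ K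

/-- **(SUP)** in terms of the eigenvalues `l` of `Q^(1/s)` -/
theorem sup_Gs {n m ι : Type} [Fintype n] [DecidableEq n] [Fintype m] [DecidableEq m]
    [Fintype ι] {s t : ℝ} (hs : 2 ≤ s) (ht : 0 ≤ t) (ht' : t ≤ 1) {V : Matrix n n ℂ}
    (hV : V ∈ unitaryGroup n ℂ) {U : Matrix m m ℂ} (hU : U ∈ unitaryGroup m ℂ) {l : n → ℝ}
    (hl : ∀ i, 0 < l i) {r : m → ℝ} (hr : ∀ j, 0 < r j) {V' : ι → Matrix n n ℂ}
    (hV' : ∀ k, V' k ∈ unitaryGroup n ℂ) {U' : ι → Matrix m m ℂ}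
    (hU' : ∀ k, U' k ∈ unitaryGroup m ℂ) {l' : ι → n → ℝ} (hl' : ∀ k i, 0 < l' k i)
    {r' : ι → m → ℝ} (hr' : ∀ k j, 0 < r' k j)
    (hA : ((ud V fun i => l i ^ s) - ∑ k, ud (V' k) fun i => l' k i ^ s).PosSemidef)
    (hW : ((ud U fun j => r j ^ s) - ∑ k, ud (U' k) fun j => r' k j ^ s).PosSemidef)
    (K : Matrix n m ℂ) :
    ∑ k, ∑ i, ∑ j, ‖((V' k)ᴴ * K * U' k) i j‖ ^ 2 * Gt s t (l' k i) (r' k j) ≤
      ∑ i, ∑ j, ‖(Vᴴ * K * U) i j‖ ^ 2 * Gt s t (l i) (r j) := by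
  have hs0 : s ≠ 0 := by linarith
  have h := sup_G hs ht ht' hV hU (fun i => Real.rpow_pos_of_pos (hl i) s)
    (fun j => Real.rpow_pos_of_pos (hr j) s) hV' hU' (fun k i => Real.rpow_pos_of_pos (hl' k i) s)
    (fun k j => Real.rpow_pos_of_pos (hr' k j) s) hA hW K
  have e : ∀ x : ℝ, 0 < x → (x ^ s) ^ (1 / s) = x := fun x hx => by
    rw [← Real.rpow_mul hx.le, mul_one_div_cancel hs0, Real.rpow_one]
  unfold ff at h
  simp only [e _ (hl _), e _ (hr _), e _ (hl' _ _), e _ (hr' _ _)] at h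
  exact h

end SchRA
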