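import Pool.Agent.LibRest.A1
import Pool.Agent.LibRest.ID41
import Pool.Agent.LibRest.SUP

/-! **FI, CO** from the double basis, the superadditivity and the scalar identities. -/

open Matrix MeasureTheory intervalIntegral
open scoped ComplexOrder

namespace Pool.Agent.LibRest

open Pool.Agent.LibSchP

variable {n : Type} [Fintype n] [DecidableEq n] {ι : Type} [Fintype ι]

/-- `P₁^(1/2) g P₀^(-1/2)` -/
noncomputable def OmF (P0 P1 : Matrix n n ℂ) (g : n → ℝ) : Matrix n n ℂ :=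
  rp (1 / 2) P1 * dg g * rp (-(1 / 2)) P0

/-- `P₁^(-1/2) g P₀^(1/2)` -/
noncomputable def OmG (P0 P1 : Matrix n n ℂ) (g : n → ℝ) : Matrix n n ℂ :=
  rp (-(1 / 2)) P1 * dg g * rp (1 / 2) P0

/-- the double basis of `P₁^(1/2) D² P₁^(1/2)`, `P₀^(1/2) D² P₀^(1/2)` -/
structure DBase (s : ℝ) (d : n → ℝ) (P0 P1 U V : Matrix n n ℂ) (l r : n → ℝ) : Prop where
  hU : U ∈ unitaryGroup n ℂ
  hV : V ∈ unitaryGroup n ℂ
  hl : ∀ i, 0 < l i
  hr : ∀ j, 0 < r j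
  rel : ∀ (g : n → ℝ) (i j : n), (Uᴴ * OmG P0 P1 g * V) i j =
    ((r j / l i : ℝ) : ℂ) * (Uᴴ * OmF P0 P1 g * V) i j
  T1 : ∀ g : n → ℝ, (trace (P0 * dg g * nD s d P1 * dg g)).re =
    ∑ i, ∑ j, l i ^ s * ‖(Uᴴ * OmG P0 P1 g * V) i j‖ ^ 2
  T2 : ∀ g : n → ℝ, (trace (P1 * dg g * nD s d P0 * dg g)).re =
    ∑ i, ∑ j, r j ^ s * ‖(Uᴴ * OmF P0 P1 g * V) i j‖ ^ 2
  T3 : ∀ g : n → ℝ, (trace (dg g * dg g * P1 * nD s d P1)).re =
    ∑ i, ∑ j, l i ^ (s - 1) * r j * ‖(Uᴴ * OmF P0 P1 g * V) i j‖ ^ 2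
  T4 : ∀ g : n → ℝ, (trace (dg g * dg g * P0 * nD s d P0)).re =
    ∑ i, ∑ j, (l i)⁻¹ * r j ^ (s + 1) * ‖(Uᴴ * OmF P0 P1 g * V) i j‖ ^ 2
  q1 : rp (1 / 2) P1 * nD s d P1 * rp (1 / 2) P1 = ud U fun i => l i ^ s
  q0 : rp (1 / 2) P0 * nD s d P0 * rp (1 / 2) P0 = ud V fun j => r j ^ s

/-- the form with the kernel `G_t` -/
noncomputable def gf (s t : ℝ) (U : Matrix n n ℂ) (l : n → ℝ) (V : Matrix n n ℂ) (r : n → ℝ)
    (K : Matrix n n ℂ) : ℝ :=
  ∑ i, ∑ j, ‖(Uᴴ * K * V) i j‖ ^ 2 * (l i * r j * (t * l i + (1 - t) * r j) ^ (s - 2))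

theorem dg_lin (x y : ℝ) (g h : n → ℝ) :
    (dg (fun i => x * g i + y * h i) : Matrix n n ℂ) = (x : ℂ) • dg g + (y : ℂ) • dg h := by
  unfold dg
  ext i j
  by_cases e : i = j
  · subst e; simp
  · simp [e]

theorem OmF_lin (P0 P1 : Matrix n n ℂ) (x y : ℝ) (g h : n → ℝ) :
    OmF P0 P1 (fun i => x * g i + y * h i) = (x : ℂ) • OmF P0 P1 g + (y : ℂ) • OmF P0 P1 h := by
  unfold OmF
  rw [dg_lin, Matrix.mul_add, Matrix.add_mul, Matrix.mul_smul, Matrix.mul_smul, Matrix.smul_mul,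
    Matrix.smul_mul]

theorem OmG_lin (P0 P1 : Matrix n n ℂ) (x y : ℝ) (g h : n → ℝ) :
    OmG P0 P1 (fun i => x * g i + y * h i) = (x : ℂ) • OmG P0 P1 g + (y : ℂ) • OmG P0 P1 h := by
  unfold OmG
  rw [dg_lin, Matrix.mul_add, Matrix.add_mul, Matrix.mul_smul, Matrix.mul_smul, Matrix.smul_mul,
    Matrix.smul_mul]

theorem W_lin (U V A B : Matrix n n ℂ) (x y : ℂ) (i j : n) :
    (Uᴴ * (x • A + y • B) * V) i j = x * (Uᴴ * A * V) i j + y * (Uᴴ * B * V) i j := by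
  rw [Matrix.mul_add, Matrix.add_mul, Matrix.mul_smul, Matrix.mul_smul, Matrix.smul_mul,
    Matrix.smul_mul]
  rfl

/-- `Om_(m - a_t d) - Om'_(m + b_t d)` -/
noncomputable def KT (s t : ℝ) (P0 P1 : Matrix n n ℂ) (g h : n → ℝ) : Matrix n n ℂ :=
  OmF P0 P1 (fun i => (1 + aa s t) / 2 * g i + (1 - aa s t) / 2 * h i) -
    OmG P0 P1 (fun i => (1 - bb s t) / 2 * g i + (1 + bb s t) / 2 * h i)

/-- `Om_d - Om'_d` -/
noncomputable def KD (P0 P1 : Matrix n n ℂ) (g h : n → ℝ) : Matrix n n ℂ :=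
  OmF P0 P1 (fun i => (-1 / 2) * g i + (1 / 2) * h i) -
    OmG P0 P1 (fun i => (-1 / 2) * g i + (1 / 2) * h i)

theorem W_sub (U V A B : Matrix n n ℂ) (i j : n) :
    (Uᴴ * (A - B) * V) i j = (Uᴴ * A * V) i j - (Uᴴ * B * V) i j := by
  rw [Matrix.mul_sub, Matrix.sub_mul]
  rfl

variable {s : ℝ} {d : n → ℝ} {P0 P1 U V : Matrix n n ℂ} {l r : n → ℝ}

theorem W_KT (H : DBase s d P0 P1 U V l r) (t : ℝ) (g h : n → ℝ) (i j : n) :
    (Uᴴ * KT s t P0 P1 g h * V) i j =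
      Vt s t (l i) (r j) ((Uᴴ * OmF P0 P1 g * V) i j) ((Uᴴ * OmF P0 P1 h * V) i j) := by
  unfold KT
  rw [W_sub, H.rel, OmF_lin, OmF_lin, W_lin, W_lin]
  unfold Vt
  push_cast
  ring

theorem W_KD (H : DBase s d P0 P1 U V l r) (g h : n → ℝ) (i j : n) :
    (Uᴴ * KD P0 P1 g h * V) i j = (((l i - r j) / l i : ℝ) : ℂ) *
      (((Uᴴ * OmF P0 P1 h * V) i j - (Uᴴ * OmF P0 P1 g * V) i j) / 2) := by
  unfold KD
  rw [W_sub, H.rel, OmF_lin, W_lin]
  have hl : (l i : ℂ) ≠ 0 := by exact_mod_cast (H.hl i).ne'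
  push_cast
  field_simp
  ring

theorem W_sq (H : DBase s d P0 P1 U V l r) (g : n → ℝ) (i j : n) :
    ‖(Uᴴ * OmG P0 P1 g * V) i j‖ ^ 2 = ‖((r j / l i : ℝ) : ℂ) * (Uᴴ * OmF P0 P1 g * V) i j‖ ^ 2 := by
  rw [H.rel]

/-- the integrand of one `D` -/
noncomputable def Psi (s : ℝ) (U : Matrix n n ℂ) (l : n → ℝ) (V : Matrix n n ℂ) (r : n → ℝ)
    (P0 P1 : Matrix n n ℂ) (g h : n → ℝ) (t : ℝ) : ℝ :=
  (s - 1) * gf s t U l V r (KT s t P0 P1 g h) +
    2 * s * (t * (1 - t)) * gf s t U l V r (KD P0 P1 g h)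

theorem Psi_eq (H : DBase s d P0 P1 U V l r) (g h : n → ℝ) (t : ℝ) :
    Psi s U l V r P0 P1 g h t = ∑ i, ∑ j,
      ((s - 1) * (l i * r j * (t * l i + (1 - t) * r j) ^ (s - 2)) *
        ‖Vt s t (l i) (r j) ((Uᴴ * OmF P0 P1 g * V) i j) ((Uᴴ * OmF P0 P1 h * V) i j)‖ ^ 2 +
      2 * s * (t * (1 - t)) * (l i * r j * (t * l i + (1 - t) * r j) ^ (s - 2)) *
        ‖(((l i - r j) / l i : ℝ) : ℂ) *
          (((Uᴴ * OmF P0 P1 h * V) i j - (Uᴴ * OmF P0 P1 g * V) i j) / 2)‖ ^ 2) := by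
  unfold Psi gf
  rw [Finset.mul_sum, Finset.mul_sum, ← Finset.sum_add_distrib]
  refine Finset.sum_congr rfl fun i _ => ?_
  rw [Finset.mul_sum, Finset.mul_sum, ← Finset.sum_add_distrib]
  refine Finset.sum_congr rfl fun j _ => ?_
  rw [W_KT H, W_KD H]
  ring

/-- the trace expression of one `D` in `FI` -/
noncomputable def EF (s : ℝ) (P0 P1 N0 N1 : Matrix n n ℂ) (g h : n → ℝ) : ℝ :=
  (trace (dg g * dg g * P1 * N1)).re + (trace (dg h * dg h * P0 * N0)).re +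
    1 / (2 * (s - 1)) * ((trace (dg (fun i => h i - g i) * dg (fun i => h i - g i) * P1 * N1)).re +
      (trace (dg (fun i => h i - g i) * dg (fun i => h i - g i) * P0 * N0)).re) -
    (trace (P0 * dg g * N1 * dg g)).re - (trace (P1 * dg h * N0 * dg h)).re

theorem ss_intble {f : n → n → ℝ → ℝ} (hf : ∀ i j, IntervalIntegrable (f i j) volume 0 1) :
    IntervalIntegrable (fun t => ∑ i, ∑ j, f i j t) volume 0 1 := by
  have h : IntervalIntegrable (∑ i, ∑ j, f i j) volume 0 1 :=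
    IntervalIntegrable.sum _ fun i _ => IntervalIntegrable.sum _ fun j _ => hf i j
  have e : (∑ i, ∑ j, f i j) = fun t => ∑ i, ∑ j, f i j t := by
    funext t
    simp only [Finset.sum_apply]
  rwa [e] at h

theorem ss_int {f : n → n → ℝ → ℝ} (hf : ∀ i j, IntervalIntegrable (f i j) volume 0 1) :
    ∫ t in (0 : ℝ)..1, (∑ i, ∑ j, f i j t) = ∑ i, ∑ j, ∫ t in (0 : ℝ)..1, f i j t := by
  rw [intervalIntegral.integral_finsetSum]
  · refine Finset.sum_congr rfl fun i _ => ?_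
    rw [intervalIntegral.integral_finsetSum]
    exact fun j _ => hf i j
  · intro i _
    have h : IntervalIntegrable (∑ j, f i j) volume 0 1 :=
      IntervalIntegrable.sum _ fun j _ => hf i j
    have e : (∑ j, f i j) = fun t => ∑ j, f i j t := by
      funext t
      simp only [Finset.sum_apply]
    rwa [e] at h

theorem Psi_intble (hs : 1 < s) (H : DBase s d P0 P1 U V l r) (g h : n → ℝ) :
    IntervalIntegrable (Psi s U l V r P0 P1 g h) volume 0 1 := by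
  rw [funext fun t => Psi_eq H g h t]
  exact ss_intble fun i j => id_FI_int hs (H.hl i) (H.hr j) _ _

theorem Psi_int (hs : 1 < s) (H : DBase s d P0 P1 U V l r) (g h : n → ℝ) :
    ∫ t in (0 : ℝ)..1, Psi s U l V r P0 P1 g h t = EF s P0 P1 (nD s d P0) (nD s d P1) g h := by
  rw [funext fun t => Psi_eq H g h t]
  have h0 := ss_int (f := fun i j t => ((s - 1) * (l i * r j * (t * l i + (1 - t) * r j) ^ (s - 2)) *
        ‖Vt s t (l i) (r j) ((Uᴴ * OmF P0 P1 g * V) i j) ((Uᴴ * OmF P0 P1 h * V) i j)‖ ^ 2 +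
      2 * s * (t * (1 - t)) * (l i * r j * (t * l i + (1 - t) * r j) ^ (s - 2)) *
        ‖(((l i - r j) / l i : ℝ) : ℂ) *
          (((Uᴴ * OmF P0 P1 h * V) i j - (Uᴴ * OmF P0 P1 g * V) i j) / 2)‖ ^ 2))
    (fun i j => id_FI_int hs (H.hl i) (H.hr j) _ _)
  refine h0.trans ?_
  have hW : ∀ i j, (Uᴴ * OmF P0 P1 (fun i => h i - g i) * V) i j =
      (Uᴴ * OmF P0 P1 h * V) i j - (Uᴴ * OmF P0 P1 g * V) i j := by
    intro i j
    have e : (fun i => h i - g i) = fun i => 1 * h i + (-1) * g i := by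
      funext i; ring
    rw [e, OmF_lin, W_lin]
    push_cast
    ring
  have h1 : ∀ i j, ∫ t in (0 : ℝ)..1, ((s - 1) *
        (l i * r j * (t * l i + (1 - t) * r j) ^ (s - 2)) *
        ‖Vt s t (l i) (r j) ((Uᴴ * OmF P0 P1 g * V) i j) ((Uᴴ * OmF P0 P1 h * V) i j)‖ ^ 2 +
      2 * s * (t * (1 - t)) * (l i * r j * (t * l i + (1 - t) * r j) ^ (s - 2)) *
        ‖(((l i - r j) / l i : ℝ) : ℂ) *
          (((Uᴴ * OmF P0 P1 h * V) i j - (Uᴴ * OmF P0 P1 g * V) i j) / 2)‖ ^ 2) =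
      l i ^ (s - 1) * r j * ‖(Uᴴ * OmF P0 P1 g * V) i j‖ ^ 2 +
      (l i)⁻¹ * r j ^ (s + 1) * ‖(Uᴴ * OmF P0 P1 h * V) i j‖ ^ 2 +
      1 / (2 * (s - 1)) *
        (l i ^ (s - 1) * r j * ‖(Uᴴ * OmF P0 P1 (fun i => h i - g i) * V) i j‖ ^ 2 +
        (l i)⁻¹ * r j ^ (s + 1) * ‖(Uᴴ * OmF P0 P1 (fun i => h i - g i) * V) i j‖ ^ 2) -
      l i ^ s * ‖(Uᴴ * OmG P0 P1 g * V) i j‖ ^ 2 -
      r j ^ s * ‖(Uᴴ * OmF P0 P1 h * V) i j‖ ^ 2 := by
    intro i j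
    rw [id_FI hs (H.hl i) (H.hr j), hW, H.rel, add_mul]
  unfold EF
  rw [H.T1, H.T2, H.T3, H.T4, H.T3, H.T4]
  calc _ = ∑ i, ∑ j, (l i ^ (s - 1) * r j * ‖(Uᴴ * OmF P0 P1 g * V) i j‖ ^ 2 +
      (l i)⁻¹ * r j ^ (s + 1) * ‖(Uᴴ * OmF P0 P1 h * V) i j‖ ^ 2 +
      1 / (2 * (s - 1)) *
        (l i ^ (s - 1) * r j * ‖(Uᴴ * OmF P0 P1 (fun i => h i - g i) * V) i j‖ ^ 2 +
        (l i)⁻¹ * r j ^ (s + 1) * ‖(Uᴴ * OmF P0 P1 (fun i => h i - g i) * V) i j‖ ^ 2) -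
      l i ^ s * ‖(Uᴴ * OmG P0 P1 g * V) i j‖ ^ 2 -
      r j ^ s * ‖(Uᴴ * OmF P0 P1 h * V) i j‖ ^ 2) :=
        Finset.sum_congr rfl fun i _ => Finset.sum_congr rfl fun j _ => h1 i j
    _ = _ := by
        simp only [Finset.sum_sub_distrib, Finset.sum_add_distrib, ← Finset.mul_sum]

theorem nD_one (s : ℝ) (P : Matrix n n ℂ) : nD s (fun _ => 1) P = rp (s - 1) P := by
  unfold nD
  rw [cj_one, a2_dg_one, Matrix.one_mul, Matrix.mul_one]

theorem YD_eq (s : ℝ) (d : ι → n → ℝ) (P : Matrix n n ℂ) :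
    YD s d P = nD s (fun _ => 1) P - ∑ k, nD s (d k) P := by
  unfold YD
  rw [nD_one]

theorem gf_sup {s t : ℝ} (hs : 2 ≤ s) (ht : 0 ≤ t) (ht' : t ≤ 1) {d : ι → n → ℝ}
    {P0 P1 U V : Matrix n n ℂ} {l r : n → ℝ} {U' V' : ι → Matrix n n ℂ} {l' r' : ι → n → ℝ}
    (H : DBase s (fun _ => 1) P0 P1 U V l r)
    (H' : ∀ k, DBase s (d k) P0 P1 (U' k) (V' k) (l' k) (r' k))
    (hY0 : (YD s d P0).PosSemidef) (hY1 : (YD s d P1).PosSemidef) (K : Matrix n n ℂ) :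
    ∑ k, gf s t (U' k) (l' k) (V' k) (r' k) K ≤ gf s t U l V r K := by
  have h1 : ∀ (P : Matrix n n ℂ), (YD s d P).PosSemidef →
      (rp (1 / 2) P * nD s (fun _ => 1) P * rp (1 / 2) P -
        ∑ k, rp (1 / 2) P * nD s (d k) P * rp (1 / 2) P).PosSemidef := by
    intro P hP
    have e : rp (1 / 2) P * nD s (fun _ => 1) P * rp (1 / 2) P -
        ∑ k, rp (1 / 2) P * nD s (d k) P * rp (1 / 2) P =
        rp (1 / 2) P * YD s d P * (rp (1 / 2) P)ᴴ := by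
      rw [(rp_isHermitian (1 / 2) P).eq, YD_eq, Matrix.mul_sub, Matrix.sub_mul, Finset.mul_sum,
        Finset.sum_mul]
    rw [e]
    exact hP.mul_mul_conjTranspose_same _
  have hA := h1 P1 hY1
  have hW := h1 P0 hY0
  rw [H.q1] at hA
  rw [H.q0] at hW
  simp only [fun k => (H' k).q1] at hA
  simp only [fun k => (H' k).q0] at hW
  exact SchRA.sup_Gs hs ht ht' H.hU H.hV H.hl H.hr (fun k => (H' k).hU) (fun k => (H' k).hV)
    (fun k => (H' k).hl) (fun k => (H' k).hr) hA hW K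

theorem EF_sub (s : ℝ) (P0 P1 N0 N1 : Matrix n n ℂ) (M0 M1 : ι → Matrix n n ℂ) (g h : n → ℝ) :
    EF s P0 P1 (N0 - ∑ k, M0 k) (N1 - ∑ k, M1 k) g h =
      EF s P0 P1 N0 N1 g h - ∑ k, EF s P0 P1 (M0 k) (M1 k) g h := by
  have a1 : ∀ (X N : Matrix n n ℂ) (M : ι → Matrix n n ℂ), (trace (X * (N - ∑ k, M k))).re =
      (trace (X * N)).re - ∑ k, (trace (X * M k)).re := by
    intro X N M
    rw [Matrix.mul_sub, Finset.mul_sum, trace_sub, trace_sum, Complex.sub_re, Complex.re_sum]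
  have a2 : ∀ (X Z N : Matrix n n ℂ) (M : ι → Matrix n n ℂ),
      (trace (X * (N - ∑ k, M k) * Z)).re =
      (trace (X * N * Z)).re - ∑ k, (trace (X * M k * Z)).re := by
    intro X Z N M
    rw [Matrix.mul_sub, Finset.mul_sum, Matrix.sub_mul, Finset.sum_mul, trace_sub, trace_sum,
      Complex.sub_re, Complex.re_sum]
  unfold EF
  simp only [a1, a2]
  simp only [Finset.sum_sub_distrib, Finset.sum_add_distrib, ← Finset.mul_sum]
  ring

/-- **FI** in the form `0 ≤ EF` -/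
theorem EF_nonneg {s : ℝ} (hs : 2 ≤ s) {d : ι → n → ℝ}
    {P0 P1 U V : Matrix n n ℂ} {l r : n → ℝ} {U' V' : ι → Matrix n n ℂ} {l' r' : ι → n → ℝ}
    (H : DBase s (fun _ => 1) P0 P1 U V l r)
    (H' : ∀ k, DBase s (d k) P0 P1 (U' k) (V' k) (l' k) (r' k))
    (hY0 : (YD s d P0).PosSemidef) (hY1 : (YD s d P1).PosSemidef) (g h : n → ℝ) :
    0 ≤ EF s P0 P1 (YD s d P0) (YD s d P1) g h := by
  have hs1 : 1 < s := by linarith
  rw [YD_eq, YD_eq, EF_sub, sub_nonneg, ← Psi_int hs1 H]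
  simp only [← fun k => Psi_int hs1 (H' k) g h]
  rw [← intervalIntegral.integral_finsetSum fun k _ => Psi_intble hs1 (H' k) g h]
  refine intervalIntegral.integral_mono_on zero_le_one ?_ (Psi_intble hs1 H g h) ?_
  · have h1 : IntervalIntegrable (∑ k, Psi s (U' k) (l' k) (V' k) (r' k) P0 P1 g h) volume 0 1 :=
      IntervalIntegrable.sum _ fun k _ => Psi_intble hs1 (H' k) g h
    have e : (∑ k, Psi s (U' k) (l' k) (V' k) (r' k) P0 P1 g h) =
        fun t => ∑ k, Psi s (U' k) (l' k) (V' k) (r' k) P0 P1 g h t := by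
      funext t
      simp only [Finset.sum_apply]
    rwa [e] at h1
  · intro t ht
    unfold Psi
    rw [Finset.sum_add_distrib, ← Finset.mul_sum, ← Finset.mul_sum]
    have c1 := gf_sup hs ht.1 ht.2 H H' hY0 hY1 (KT s t P0 P1 g h)
    have c2 := gf_sup hs ht.1 ht.2 H H' hY0 hY1 (KD P0 P1 g h)
    have p1 : 0 ≤ s - 1 := by linarith
    have p2 : 0 ≤ 2 * s * (t * (1 - t)) := by
      have := mul_nonneg ht.1 (sub_nonneg.2 ht.2)
      positivity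
    exact add_le_add (mul_le_mul_of_nonneg_left c1 p1) (mul_le_mul_of_nonneg_left c2 p2)

/-- **FI** from the double bases -/
theorem FI_of_DB (hDB : ∀ (s : ℝ) (d : n → ℝ) (P0 P1 : Matrix n n ℂ), 1 < s → (∀ i, 0 < d i) →
      P0.PosDef → P1.PosDef → ∃ (U V : Matrix n n ℂ) (l r : n → ℝ), DBase s d P0 P1 U V l r)
    (s : ℝ) (hs : 2 ≤ s) (d : ι → n → ℝ) (hd : ∀ k i, 0 < d k i) (P0 P1 : Matrix n n ℂ)
    (h0 : P0.PosDef) (h1 : P1.PosDef) (hY0 : (YD s d P0).PosSemidef)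
    (hY1 : (YD s d P1).PosSemidef) (g h : n → ℝ) :
    (trace (P0 * cj g (YD s d P1))).re + (trace (P1 * cj h (YD s d P0))).re ≤
      (trace (dg (fun i => g i ^ 2) * (P1 * YD s d P1))).re +
      (trace (dg (fun i => h i ^ 2) * (P0 * YD s d P0))).re +
      1 / (2 * (s - 1)) * (trace (dg (fun i => (h i - g i) ^ 2) *
        (P1 * YD s d P1 + P0 * YD s d P0))).re := by
  obtain ⟨U, V, l, r, H⟩ := hDB s (fun _ => 1) P0 P1 (by linarith) (fun _ => zero_lt_one) h0 h1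
  choose U' V' l' r' H' using fun k => hDB s (d k) P0 P1 (by linarith) (hd k) h0 h1
  have key := EF_nonneg hs H H' hY0 hY1 g h
  unfold EF at key
  have e1 : ∀ f : n → ℝ, (dg (fun i => f i ^ 2) : Matrix n n ℂ) = dg f * dg f := by
    intro f
    rw [dg_mul]
    congr 1
    funext i
    ring
  rw [e1, e1, e1 fun i => h i - g i, Matrix.mul_add, trace_add, Complex.add_re]
  unfold cj
  simp only [Matrix.mul_assoc] at key ⊢
  linarith

/-- the integrand of one `D` in `CO` -/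
noncomputable def PsiC (s : ℝ) (U : Matrix n n ℂ) (l : n → ℝ) (V : Matrix n n ℂ) (r : n → ℝ)
    (P0 P1 : Matrix n n ℂ) (t : ℝ) : ℝ :=
  s * (s - 1) * (1 - t) * gf s t U l V r (OmF P0 P1 (fun _ => 1) - OmG P0 P1 (fun _ => 1))

theorem PsiC_eq (H : DBase s d P0 P1 U V l r) (t : ℝ) :
    PsiC s U l V r P0 P1 t = ∑ i, ∑ j,
      s * (s - 1) * (1 - t) * (l i * r j * (t * l i + (1 - t) * r j) ^ (s - 2)) *
        ‖(((l i - r j) / l i : ℝ) : ℂ) * (Uᴴ * OmF P0 P1 (fun _ => 1) * V) i j‖ ^ 2 := by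
  unfold PsiC gf
  rw [Finset.mul_sum]
  refine Finset.sum_congr rfl fun i _ => ?_
  rw [Finset.mul_sum]
  refine Finset.sum_congr rfl fun j _ => ?_
  rw [W_sub, H.rel]
  have hl : (l i : ℂ) ≠ 0 := by exact_mod_cast (H.hl i).ne'
  have e : (Uᴴ * OmF P0 P1 (fun _ => 1) * V) i j -
      ((r j / l i : ℝ) : ℂ) * (Uᴴ * OmF P0 P1 (fun _ => 1) * V) i j =
      (((l i - r j) / l i : ℝ) : ℂ) * (Uᴴ * OmF P0 P1 (fun _ => 1) * V) i j := by
    push_cast
    field_simp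
  rw [e]
  ring

theorem PsiC_intble (H : DBase s d P0 P1 U V l r) :
    IntervalIntegrable (PsiC s U l V r P0 P1) volume 0 1 := by
  rw [funext fun t => PsiC_eq H t]
  exact ss_intble fun i j => id_CO_int (H.hl i) (H.hr j) _

theorem PsiC_int (H : DBase s d P0 P1 U V l r) :
    ∫ t in (0 : ℝ)..1, PsiC s U l V r P0 P1 t = (trace (P1 * nD s d P1)).re +
      (s - 1) * (trace (P0 * nD s d P0)).re - s * (trace (P1 * nD s d P0)).re := by
  rw [funext fun t => PsiC_eq H t]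
  have h0 := ss_int (f := fun i j t =>
      s * (s - 1) * (1 - t) * (l i * r j * (t * l i + (1 - t) * r j) ^ (s - 2)) *
        ‖(((l i - r j) / l i : ℝ) : ℂ) * (Uᴴ * OmF P0 P1 (fun _ => 1) * V) i j‖ ^ 2)
    (fun i j => id_CO_int (H.hl i) (H.hr j) _)
  refine h0.trans ?_
  have e1 : (dg (fun _ => (1 : ℝ)) : Matrix n n ℂ) = 1 := a2_dg_one
  have t2 := H.T2 fun _ => 1
  have t3 := H.T3 fun _ => 1
  have t4 := H.T4 fun _ => 1
  rw [e1, Matrix.mul_one, Matrix.mul_one] at t2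
  rw [e1, Matrix.one_mul, Matrix.one_mul] at t3 t4
  rw [t2, t3, t4]
  simp_rw [fun i j => id_CO (s := s) (H.hl i) (H.hr j)
    ((Uᴴ * OmF P0 P1 (fun _ => 1) * V) i j)]
  simp only [Finset.sum_sub_distrib, Finset.sum_add_distrib, ← Finset.mul_sum]

/-- **CO** from the double bases -/
theorem CO_of_DB (hDB : ∀ (s : ℝ) (d : n → ℝ) (P0 P1 : Matrix n n ℂ), 1 < s → (∀ i, 0 < d i) →
      P0.PosDef → P1.PosDef → ∃ (U V : Matrix n n ℂ) (l r : n → ℝ), DBase s d P0 P1 U V l r)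
    (s : ℝ) (hs : 2 ≤ s) (d : ι → n → ℝ) (hd : ∀ k i, 0 < d k i) (P0 P1 : Matrix n n ℂ)
    (h0 : P0.PosDef) (h1 : P1.PosDef) (hY0 : (YD s d P0).PosSemidef)
    (hY1 : (YD s d P1).PosSemidef) :
    s * (trace (P1 * YD s d P0)).re ≤ FD s d P1 + (s - 1) * FD s d P0 := by
  obtain ⟨U, V, l, r, H⟩ := hDB s (fun _ => 1) P0 P1 (by linarith) (fun _ => zero_lt_one) h0 h1
  choose U' V' l' r' H' using fun k => hDB s (d k) P0 P1 (by linarith) (hd k) h0 h1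
  have hs1 : 1 < s := by linarith
  have a1 : ∀ (X N : Matrix n n ℂ) (M : ι → Matrix n n ℂ), (trace (X * (N - ∑ k, M k))).re =
      (trace (X * N)).re - ∑ k, (trace (X * M k)).re := by
    intro X N M
    rw [Matrix.mul_sub, Finset.mul_sum, trace_sub, trace_sum, Complex.sub_re, Complex.re_sum]
  have key : ∑ k, ((trace (P1 * nD s (d k) P1)).re +
      (s - 1) * (trace (P0 * nD s (d k) P0)).re - s * (trace (P1 * nD s (d k) P0)).re) ≤
      (trace (P1 * nD s (fun _ => 1) P1)).re +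
      (s - 1) * (trace (P0 * nD s (fun _ => 1) P0)).re -
        s * (trace (P1 * nD s (fun _ => 1) P0)).re := by
    rw [← PsiC_int H]
    simp only [← fun k => PsiC_int (H' k)]
    rw [← intervalIntegral.integral_finsetSum fun k _ => PsiC_intble (H' k)]
    refine intervalIntegral.integral_mono_on zero_le_one ?_ (PsiC_intble H) ?_
    · have h1 : IntervalIntegrable (∑ k, PsiC s (U' k) (l' k) (V' k) (r' k) P0 P1) volume 0 1 :=
        IntervalIntegrable.sum _ fun k _ => PsiC_intble (H' k)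
      have e : (∑ k, PsiC s (U' k) (l' k) (V' k) (r' k) P0 P1) =
          fun t => ∑ k, PsiC s (U' k) (l' k) (V' k) (r' k) P0 P1 t := by
        funext t
        simp only [Finset.sum_apply]
      rwa [e] at h1
    · intro t ht
      unfold PsiC
      rw [← Finset.mul_sum]
      have c1 := gf_sup hs ht.1 ht.2 H H' hY0 hY1
        (OmF P0 P1 (fun _ => 1) - OmG P0 P1 (fun _ => 1))
      have p1 : 0 ≤ s * (s - 1) * (1 - t) := by
        have := sub_nonneg.2 ht.2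
        have : 0 ≤ s - 1 := by linarith
        positivity
      exact mul_le_mul_of_nonneg_left c1 p1
  rw [← trace_mul_YD s hs1 d P1 h1.posSemidef, ← trace_mul_YD s hs1 d P0 h0.posSemidef,
    YD_eq, YD_eq, a1, a1, a1]
  simp only [Finset.sum_sub_distrib, Finset.sum_add_distrib, ← Finset.mul_sum] at key
  linarith

end Pool.Agent.LibRest
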