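import Pool.Agent.LibRest.S0
import Pool.Agent.LibSchP.T4a

/-! **R5c.**  Real powers of block scalar matrices `[[x 1, r V], [r Vᴴ, y 1]]`, `V` unitary. -/

open Matrix
open scoped ComplexOrder

namespace Pool.Agent.LibRest

open Pool.Agent.LibSchP

section gen

variable {n : Type} [Fintype n] [DecidableEq n]

theorem ud_affine (U : Matrix n n ℂ) (hU : U ∈ unitaryGroup n ℂ) (x : n → ℝ) (A B : ℝ) :
    ud U (fun i => A + B * x i) = (A : ℂ) • (1 : Matrix n n ℂ) + (B : ℂ) • ud U x := by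
  have h1 : dg (fun i => A + B * x i) = (A : ℂ) • (1 : Matrix n n ℂ) + (B : ℂ) • dg x := by
    ext i j
    rw [dg_apply, Matrix.add_apply, Matrix.smul_apply, Matrix.smul_apply, dg_apply,
      Matrix.one_apply]
    split_ifs <;> simp
  unfold ud
  rw [h1, Matrix.mul_add, Matrix.add_mul, Matrix.mul_smul, Matrix.mul_smul, Matrix.smul_mul,
    Matrix.smul_mul, Matrix.mul_one, a2_uu' U hU]

/-- the eigenvalues of a Hermitian matrix with `H² = θ H - d` -/
theorem quad_eig (θ d : ℝ) (U : Matrix n n ℂ) (hU : U ∈ unitaryGroup n ℂ) (x : n → ℝ)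
    (h : ud U x * ud U x = (θ : ℂ) • ud U x - (d : ℂ) • (1 : Matrix n n ℂ)) (i : n) :
    x i ^ 2 - θ * x i + d = 0 := by
  have h1 : Uᴴ * (ud U x * ud U x) * U = dg fun k => x k * x k := by
    rw [ud_mul U hU, a2_back U hU]
  have h2 : Uᴴ * ((θ : ℂ) • ud U x - (d : ℂ) • (1 : Matrix n n ℂ)) * U =
      (θ : ℂ) • dg x - (d : ℂ) • (1 : Matrix n n ℂ) := by
    rw [Matrix.mul_sub, Matrix.sub_mul, Matrix.mul_smul, Matrix.mul_smul, Matrix.smul_mul,
      Matrix.smul_mul, a2_back U hU, Matrix.mul_one, a2_uu U hU]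
  rw [h, h2] at h1
  have h3 := congrFun (congrFun h1 i) i
  rw [Matrix.sub_apply, Matrix.smul_apply, Matrix.smul_apply, dg_apply, dg_apply, if_pos rfl,
    if_pos rfl, Matrix.one_apply_eq, smul_eq_mul, smul_eq_mul, mul_one] at h3
  have h4 : θ * x i - d = x i * x i := by exact_mod_cast h3
  nlinarith

/-- powers of a Hermitian matrix with two eigenvalues -/
theorem rp_quad (κ l₁ l₂ A B : ℝ) (H : Matrix n n ℂ) (hH : H.IsHermitian)
    (h : H * H = ((l₁ + l₂ : ℝ) : ℂ) • H - ((l₁ * l₂ : ℝ) : ℂ) • (1 : Matrix n n ℂ))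
    (h1 : l₁ ^ κ = A + B * l₁) (h2 : l₂ ^ κ = A + B * l₂) :
    rp κ H = (A : ℂ) • (1 : Matrix n n ℂ) + (B : ℂ) • H := by
  obtain ⟨U, hU, x, hx⟩ : ∃ U ∈ unitaryGroup n ℂ, ∃ x : n → ℝ, H = ud U x :=
    ⟨_, (hH.eigenvectorUnitary).2, _, ud_exists H hH⟩
  subst hx
  rw [rp_ud κ U hU, ← ud_affine U hU]
  congr 1
  funext i
  have h3 := quad_eig _ _ U hU x h i
  have h4 : (x i - l₁) * (x i - l₂) = 0 := by linarith [h3, (by ring : (x i - l₁) * (x i - l₂) = x i ^ 2 - (l₁ + l₂) * x i + l₁ * l₂)]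
  rcases mul_eq_zero.1 h4 with h5 | h5
  · rw [sub_eq_zero.1 h5, h1]
  · rw [sub_eq_zero.1 h5, h2]

theorem posDef_quad (θ d : ℝ) (hθ : 0 < θ) (hd : 0 < d) (H : Matrix n n ℂ) (hH : H.IsHermitian)
    (h : H * H = (θ : ℂ) • H - (d : ℂ) • (1 : Matrix n n ℂ)) : H.PosDef := by
  obtain ⟨U, hU, x, hx⟩ : ∃ U ∈ unitaryGroup n ℂ, ∃ x : n → ℝ, H = ud U x :=
    ⟨_, (hH.eigenvectorUnitary).2, _, ud_exists H hH⟩
  subst hx
  refine ud_posDef U hU x fun i => ?_
  have h3 := quad_eig _ _ U hU x h i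
  by_contra hc
  push Not at hc
  nlinarith [mul_nonneg hθ.le (neg_nonneg.2 hc), sq_nonneg (x i)]

theorem posSemidef_quad (θ d : ℝ) (hθ : 0 ≤ θ) (hd : 0 ≤ d) (H : Matrix n n ℂ)
    (hH : H.IsHermitian)
    (h : H * H = (θ : ℂ) • H - (d : ℂ) • (1 : Matrix n n ℂ)) : H.PosSemidef := by
  obtain ⟨U, hU, x, hx⟩ : ∃ U ∈ unitaryGroup n ℂ, ∃ x : n → ℝ, H = ud U x :=
    ⟨_, (hH.eigenvectorUnitary).2, _, ud_exists H hH⟩
  subst hx
  refine ud_posSemidef U x fun i => ?_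
  have h3 := quad_eig _ _ U hU x h i
  by_contra hc
  push Not at hc
  nlinarith [mul_nonneg hθ (neg_nonneg.2 hc.le), mul_pos (neg_pos.2 hc) (neg_pos.2 hc)]

end gen

section bs

variable {m : Type} [Fintype m] [DecidableEq m]

/-- block scalar matrix `[[x 1, r V], [r Vᴴ, y 1]]` -/
def bs (V : Matrix m m ℂ) (x r y : ℝ) : Matrix (m ⊕ m) (m ⊕ m) ℂ :=
  fromBlocks ((x : ℂ) • 1) ((r : ℂ) • V) ((r : ℂ) • Vᴴ) ((y : ℂ) • 1)

omit [Fintype m] in
theorem bs_herm (V : Matrix m m ℂ) (x r y : ℝ) : (bs V x r y).IsHermitian := by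
  unfold bs
  rw [Matrix.IsHermitian, fromBlocks_conjTranspose]
  simp only [conjTranspose_smul, conjTranspose_one, conjTranspose_conjTranspose,
    Complex.star_def, Complex.conj_ofReal]

theorem bs_mul (V : Matrix m m ℂ) (hV : V ∈ unitaryGroup m ℂ) (x r y x' r' y' : ℝ) :
    bs V x r y * bs V x' r' y' = fromBlocks (((x * x' + r * r' : ℝ) : ℂ) • 1)
      (((x * r' + r * y' : ℝ) : ℂ) • V) (((r * x' + y * r' : ℝ) : ℂ) • Vᴴ)
      (((r * r' + y * y' : ℝ) : ℂ) • 1) := by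
  unfold bs
  rw [fromBlocks_multiply]
  simp only [Matrix.smul_mul, Matrix.mul_smul, Matrix.mul_one, Matrix.one_mul, smul_smul,
    a2_uu' V hV, a2_uu V hV, ← add_smul]
  congr 1 <;> congr 1 <;> push_cast <;> ring

omit [Fintype m] in
theorem bs_add (V : Matrix m m ℂ) (x r y x' r' y' : ℝ) :
    bs V x r y + bs V x' r' y' = bs V (x + x') (r + r') (y + y') := by
  unfold bs
  rw [fromBlocks_add]
  simp only [← add_smul, Complex.ofReal_add]

omit [Fintype m] in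
theorem bs_sub (V : Matrix m m ℂ) (x r y x' r' y' : ℝ) :
    bs V x r y - bs V x' r' y' = bs V (x - x') (r - r') (y - y') := by
  rw [sub_eq_iff_eq_add, bs_add]
  congr 1 <;> ring

omit [Fintype m] in
theorem bs_smul (V : Matrix m m ℂ) (c x r y : ℝ) :
    (c : ℂ) • bs V x r y = bs V (c * x) (c * r) (c * y) := by
  unfold bs
  rw [fromBlocks_smul]
  simp only [smul_smul, Complex.ofReal_mul]

omit [Fintype m] in
theorem bs_one (V : Matrix m m ℂ) : (1 : Matrix (m ⊕ m) (m ⊕ m) ℂ) = bs V 1 0 1 := by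
  unfold bs
  simp [fromBlocks_one]

theorem bs_quad (V : Matrix m m ℂ) (hV : V ∈ unitaryGroup m ℂ) (x r y : ℝ) :
    bs V x r y * bs V x r y = ((x + y : ℝ) : ℂ) • bs V x r y -
      ((x * y - r ^ 2 : ℝ) : ℂ) • (1 : Matrix (m ⊕ m) (m ⊕ m) ℂ) := by
  rw [bs_mul V hV, bs_smul, bs_one V, bs_smul, bs_sub]
  unfold bs
  congr 1 <;> congr 1 <;> push_cast <;> ring

theorem bs_posDef (V : Matrix m m ℂ) (hV : V ∈ unitaryGroup m ℂ) (x r y : ℝ) (hx : 0 < x)
    (h : r ^ 2 < x * y) : (bs V x r y).PosDef := by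
  have hy : 0 < y := by
    by_contra hc
    push Not at hc
    nlinarith [sq_nonneg r, mul_nonneg hx.le (neg_nonneg.2 hc)]
  exact posDef_quad (x + y) (x * y - r ^ 2) (by linarith) (by linarith) _ (bs_herm V x r y)
    (bs_quad V hV x r y)

theorem bs_posSemidef (V : Matrix m m ℂ) (hV : V ∈ unitaryGroup m ℂ) (x r y : ℝ) (hx : 0 ≤ x)
    (hy : 0 ≤ y) (h : r ^ 2 ≤ x * y) : (bs V x r y).PosSemidef :=
  posSemidef_quad (x + y) (x * y - r ^ 2) (by linarith) (by linarith) _ (bs_herm V x r y)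
    (bs_quad V hV x r y)

theorem cj_bs (V : Matrix m m ℂ) (x r y α β : ℝ) :
    dg (Sum.elim (fun _ : m => α) (fun _ : m => β)) * bs V x r y *
      dg (Sum.elim (fun _ : m => α) (fun _ : m => β)) =
      bs V (α ^ 2 * x) (α * β * r) (β ^ 2 * y) := by
  have h : dg (Sum.elim (fun _ : m => α) (fun _ : m => β)) =
      fromBlocks ((α : ℂ) • 1) 0 0 ((β : ℂ) • (1 : Matrix m m ℂ)) := by
    ext i j
    rw [dg_apply]
    rcases i with i | i <;> rcases j with j | j <;>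
      simp [Matrix.one_apply]
  rw [h]
  unfold bs
  rw [fromBlocks_multiply, fromBlocks_multiply]
  simp only [Matrix.smul_mul, Matrix.mul_smul, Matrix.mul_one, Matrix.one_mul, smul_smul,
    Matrix.zero_mul, Matrix.mul_zero, add_zero, zero_add, smul_zero]
  congr 1 <;> congr 1 <;> push_cast <;> ring

theorem lamP_sub_lamM (x y w : ℝ) :
    LibSch.lamP x y w - LibSch.lamM x y w = √((x - y) ^ 2 + 4 * w ^ 2) := by
  unfold LibSch.lamP LibSch.lamM; ring

theorem lamP_add_lamM (x y w : ℝ) : LibSch.lamP x y w + LibSch.lamM x y w = x + y := by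
  unfold LibSch.lamP LibSch.lamM; ring

theorem lamP_mul_lamM (x y w : ℝ) : LibSch.lamP x y w * LibSch.lamM x y w = x * y - w ^ 2 := by
  unfold LibSch.lamP LibSch.lamM
  have h := Real.sq_sqrt (by positivity : (0 : ℝ) ≤ (x - y) ^ 2 + 4 * w ^ 2)
  nlinarith

theorem lam_pos {x y w : ℝ} (hx : 0 < x) (h : w ^ 2 < x * y) :
    0 < LibSch.lamM x y w ∧ 0 < LibSch.lamP x y w := by
  have hy : 0 < y := by
    by_contra hc
    push Not at hc
    nlinarith [sq_nonneg w, mul_nonneg hx.le (neg_nonneg.2 hc)]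
  have h1 := lamP_add_lamM x y w
  have h2 := lamP_mul_lamM x y w
  have h3 : 0 ≤ LibSch.lamP x y w - LibSch.lamM x y w := by
    rw [lamP_sub_lamM]; exact Real.sqrt_nonneg _
  have h4 : 0 < LibSch.lamP x y w := by linarith
  refine ⟨?_, h4⟩
  by_contra hc
  push Not at hc
  nlinarith [mul_nonneg h4.le (neg_nonneg.2 hc)]

/-- **R5c**: powers of block scalar matrices -/
theorem rp_bs (V : Matrix m m ℂ) (hV : V ∈ unitaryGroup m ℂ) (s x r y : ℝ) (hx : 0 < x)
    (hr : r ≠ 0) (h : r ^ 2 < x * y) :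
    rp (s - 1) (bs V x r y) = bs V (qk s x y r - qk (s - 1) x y r * y) (qk (s - 1) x y r * r)
      (qk s x y r - qk (s - 1) x y r * x) := by
  obtain ⟨hl2, hl1⟩ := lam_pos hx h
  have hne : LibSch.lamP x y r - LibSch.lamM x y r ≠ 0 := by
    rw [lamP_sub_lamM]
    have : 0 < (x - y) ^ 2 + 4 * r ^ 2 := by positivity
    positivity
  have hsum := lamP_add_lamM x y r
  have hprod := lamP_mul_lamM x y r
  have hp1 : LibSch.lamP x y r ^ s = LibSch.lamP x y r ^ (s - 1) * LibSch.lamP x y r := by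
    rw [← Real.rpow_add_one hl1.ne']; ring_nf
  have hp2 : LibSch.lamM x y r ^ s = LibSch.lamM x y r ^ (s - 1) * LibSch.lamM x y r := by
    rw [← Real.rpow_add_one hl2.ne']; ring_nf
  rw [rp_quad (s - 1) (LibSch.lamP x y r) (LibSch.lamM x y r)
    (qk s x y r - qk (s - 1) x y r * (x + y)) (qk (s - 1) x y r) (bs V x r y) (bs_herm V x r y)
    (by rw [bs_quad V hV, hsum, hprod])
    (by
      rw [← hsum]
      unfold qk
      rw [hp1, hp2]
      field_simp
      ring)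
    (by
      rw [← hsum]
      unfold qk
      rw [hp1, hp2]
      field_simp
      ring)]
  rw [bs_one V, bs_smul, bs_smul, bs_add]
  congr 1 <;> ring

end bs

end Pool.Agent.LibRest
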