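import Pool.Agent.LibRest.A1
import Pool.Agent.LibRest.R5c

/-! **R5d.**  `rest_path` for block scalar data. -/

open Matrix Filter Topology
open scoped ComplexOrder

namespace Pool.Agent.LibRest

open Pool.Agent.LibSchP

/-- the statement of `rest_path` with two groups -/
def RestPath (s : ℝ) : Prop :=
  ∀ (n : Type) [Fintype n] [DecidableEq n] (d : Fin 2 → n → ℝ), (∀ k i, 0 < d k i) →
    ∀ E : Matrix n n ℂ, E.PosDef → ∀ x0 x1 : n → ℝ, (∀ i, 0 < x0 i) → (∀ i, 0 < x1 i) →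
    ∀ P0 : Matrix n n ℂ, P0.PosDef →
    YD s d P0 = cj (fun i => x0 i ^ ((s - 1) / (2 * s))) E →
    ∑ i, (x1 i - x0 i) / x0 i * ((P0 * YD s d P0) i i).re ≤ 0 →
    ∀ P : Matrix n n ℂ, P.PosSemidef →
      s * (trace (P * cj (fun i => x1 i ^ ((s - 1) / (2 * s))) E)).re - FD s d P ≤
        (s - 1) * FD s d P0

section gen

variable {n : Type} [Fintype n] [DecidableEq n]

theorem smul_ud' (c : ℝ) (U : Matrix n n ℂ) (x : n → ℝ) :
    (c : ℂ) • ud U x = ud U (fun i => c * x i) := by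
  have h1 : dg (fun i => c * x i) = (c : ℂ) • dg x := by
    ext i j
    rw [dg_apply, Matrix.smul_apply, dg_apply]
    split_ifs <;> simp
  unfold ud
  rw [h1, Matrix.mul_smul, Matrix.smul_mul]

theorem rp_smul' (κ c : ℝ) (hc : 0 < c) (H : Matrix n n ℂ) (hH : H.PosSemidef) :
    rp κ ((c : ℂ) • H) = ((c ^ κ : ℝ) : ℂ) • rp κ H := by
  obtain ⟨U, hU, x, hx, rfl⟩ := ud_exists_nonneg H hH
  rw [smul_ud', rp_ud κ U hU, rp_ud κ U hU, smul_ud']
  congr 1
  funext i
  exact Real.mul_rpow hc.le (hx i)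

theorem dg_scale (κ : ℝ) (e : n → ℝ) : dg (fun i => κ * e i) = (κ : ℂ) • dg e := by
  ext i j
  rw [dg_apply, Matrix.smul_apply, dg_apply]
  split_ifs <;> simp

theorem cj_scale (κ : ℝ) (e : n → ℝ) (P : Matrix n n ℂ) :
    cj (fun i => κ * e i) P = ((κ ^ 2 : ℝ) : ℂ) • cj e P := by
  unfold cj
  rw [dg_scale]
  simp only [Matrix.smul_mul, Matrix.mul_smul, smul_smul]
  congr 1
  push_cast
  ring

theorem cj_smul (c : ℂ) (e : n → ℝ) (P : Matrix n n ℂ) : cj e (c • P) = c • cj e P := by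
  unfold cj
  rw [Matrix.mul_smul, Matrix.smul_mul]

theorem cj_add (e : n → ℝ) (P Q : Matrix n n ℂ) : cj e (P + Q) = cj e P + cj e Q := by
  unfold cj
  rw [Matrix.mul_add, Matrix.add_mul]

theorem nD_scale (s κ : ℝ) (hκ : 0 < κ) (e : n → ℝ) (P : Matrix n n ℂ) (hP : P.PosSemidef) :
    nD s (fun i => κ * e i) P = ((κ ^ (2 * s) : ℝ) : ℂ) • nD s e P := by
  unfold nD
  rw [cj_scale, rp_smul' _ _ (by positivity) _ (cj_psd e P hP), dg_scale]
  simp only [Matrix.smul_mul, Matrix.mul_smul, smul_smul]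
  congr 1
  have h : κ ^ (2 * s) = κ * ((κ ^ 2) ^ (s - 1) * κ) := by
    rw [show 2 * s = 2 * (s - 1) + 1 + 1 by ring, Real.rpow_add_one hκ.ne',
      Real.rpow_add_one hκ.ne', ← Real.rpow_natCast κ 2, ← Real.rpow_mul hκ.le]
    push_cast
    ring
  rw [h]
  push_cast
  ring

theorem ND_scale (s κ : ℝ) (hκ : 0 < κ) (e : n → ℝ) (P : Matrix n n ℂ) (hP : P.PosSemidef) :
    ND s (fun i => κ * e i) P = κ ^ (2 * s) * ND s e P := by
  unfold ND
  rw [cj_scale, rp_smul' _ _ (by positivity) _ (cj_psd e P hP), trace_smul, smul_eq_mul,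
    Complex.re_ofReal_mul]
  congr 1
  rw [← Real.rpow_natCast κ 2, ← Real.rpow_mul hκ.le]
  congr 1

theorem ND_smul (s c : ℝ) (hc : 0 < c) (e : n → ℝ) (P : Matrix n n ℂ) (hP : P.PosSemidef) :
    ND s e ((c : ℂ) • P) = c ^ s * ND s e P := by
  unfold ND
  rw [cj_smul, rp_smul' _ _ hc _ (cj_psd e P hP), trace_smul, smul_eq_mul,
    Complex.re_ofReal_mul]

/-- `Re tr P Q ≥ 0` -/
theorem trace_mul_psd (P Q : Matrix n n ℂ) (hP : P.PosSemidef) (hQ : Q.PosSemidef) :
    0 ≤ (trace (P * Q)).re := by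
  obtain ⟨U, hU, x, hx, rfl⟩ := ud_exists_nonneg Q hQ
  exact t4a_trace_nonneg P hP U x hx

theorem cj_continuous_left {α : Type} [TopologicalSpace α] (f : α → n → ℝ) (hf : Continuous f)
    (E : Matrix n n ℂ) : Continuous fun θ => cj (f θ) E := by
  unfold cj
  have h : Continuous fun θ => dg (f θ) := by
    refine continuous_matrix fun i j => ?_
    simp only [dg_apply]
    split_ifs
    · have : Continuous fun θ => f θ i := (continuous_apply i).comp hf
      exact Complex.continuous_ofReal.comp this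
    · exact continuous_const
  exact (h.mul continuous_const).mul h

end gen

section sc

/-- the numbers `n11, n12, n22` at `t = 0` form a positive definite matrix -/
theorem n_pd {s p r w : ℝ} (hp : 0 < p) (hr : 0 < r) (h : r ^ 2 < p * w) :
    0 < n11 s p r w 0 ∧ 0 < n22 s p r w 0 ∧
      n12 s p r w 0 ^ 2 < n11 s p r w 0 * n22 s p r w 0 := by
  obtain ⟨hl2, hl1⟩ := lam_pos hp h
  have hne : LibSch.lamP p w r - LibSch.lamM p w r ≠ 0 := by
    rw [lamP_sub_lamM]
    have : 0 < (p - w) ^ 2 + 4 * r ^ 2 := by positivity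
    positivity
  have hsum := lamP_add_lamM p w r
  have hprod := lamP_mul_lamM p w r
  have hp1 : LibSch.lamP p w r ^ s = LibSch.lamP p w r ^ (s - 1) * LibSch.lamP p w r := by
    rw [← Real.rpow_add_one hl1.ne']; ring_nf
  have hp2 : LibSch.lamM p w r ^ s = LibSch.lamM p w r ^ (s - 1) * LibSch.lamM p w r := by
    rw [← Real.rpow_add_one hl2.ne']; ring_nf
  obtain ⟨A, hA⟩ : ∃ A, A = qk s p w r - qk (s - 1) p w r * (p + w) := ⟨_, rfl⟩
  obtain ⟨B, hB⟩ : ∃ B, B = qk (s - 1) p w r := ⟨_, rfl⟩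
  have e1 : LibSch.lamP p w r ^ (s - 1) = A + B * LibSch.lamP p w r := by
    rw [hA, hB, ← hsum]
    unfold qk
    rw [hp1, hp2]
    field_simp
    ring
  have e2 : LibSch.lamM p w r ^ (s - 1) = A + B * LibSch.lamM p w r := by
    rw [hA, hB, ← hsum]
    unfold qk
    rw [hp1, hp2]
    field_simp
    ring
  have h11 : n11 s p r w 0 = A + B * p := by
    rw [hA, hB]; unfold n11; simp only [neg_zero, Real.exp_zero, one_mul]; ring
  have h12 : n12 s p r w 0 = B * r := by
    rw [hB]; unfold n12; simp only [neg_zero, Real.exp_zero, one_mul]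
  have h22 : n22 s p r w 0 = A + B * w := by
    rw [hA, hB]; unfold n22; simp only [neg_zero, Real.exp_zero, one_mul]; ring
  have q1 : 0 < LibSch.lamP p w r ^ (s - 1) := Real.rpow_pos_of_pos hl1 _
  have q2 : 0 < LibSch.lamM p w r ^ (s - 1) := Real.rpow_pos_of_pos hl2 _
  have hs : 0 < n11 s p r w 0 + n22 s p r w 0 := by
    have : n11 s p r w 0 + n22 s p r w 0 =
        LibSch.lamP p w r ^ (s - 1) + LibSch.lamM p w r ^ (s - 1) := by
      rw [h11, h22, e1, e2]
      linear_combination (-B) * hsum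
    rw [this]; linarith
  have hd : 0 < n11 s p r w 0 * n22 s p r w 0 - n12 s p r w 0 ^ 2 := by
    have : n11 s p r w 0 * n22 s p r w 0 - n12 s p r w 0 ^ 2 =
        LibSch.lamP p w r ^ (s - 1) * LibSch.lamM p w r ^ (s - 1) := by
      rw [h11, h22, h12, e1, e2]
      linear_combination (-A * B) * hsum - B ^ 2 * hprod
    rw [this]; exact mul_pos q1 q2
  have h3 : 0 < n11 s p r w 0 * n22 s p r w 0 := by nlinarith [sq_nonneg (n12 s p r w 0)]
  have h4 : 0 < n11 s p r w 0 := by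
    by_contra hc
    push Not at hc
    rcases hc.eq_or_lt with h5 | h5
    · rw [h5, zero_mul] at h3; exact lt_irrefl _ h3
    · have h6 : n22 s p r w 0 < 0 := by
        by_contra hc2
        push Not at hc2
        nlinarith
      linarith
  refine ⟨h4, (pos_iff_pos_of_mul_pos h3).1 h4, by linarith⟩

end sc

section bs

variable {m : Type} [Fintype m] [DecidableEq m]

/-- the vector `e^(t/2), e^(-t/2)` -/
noncomputable def et (m : Type) (t : ℝ) : m ⊕ m → ℝ :=
  Sum.elim (fun _ => Real.exp (t / 2)) (fun _ => Real.exp (-t / 2))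

omit [Fintype m] [DecidableEq m] in
theorem et_pos (t : ℝ) (i : m ⊕ m) : 0 < et m t i := by
  unfold et
  rcases i with i | i <;> simp [Real.exp_pos]

theorem nD_bs (V : Matrix m m ℂ) (hV : V ∈ unitaryGroup m ℂ) (s p r w t : ℝ) (hp : 0 < p)
    (hr : 0 < r) (h : r ^ 2 < p * w) :
    nD s (et m t) (bs V p r w) = bs V (n11 s p r w t) (n12 s p r w t) (n22 s p r w t) := by
  have e1 : Real.exp (t / 2) ^ 2 = Real.exp t := by
    rw [← Real.exp_nat_mul]; congr 1; push_cast; ring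
  have e2 : Real.exp (-t / 2) ^ 2 = Real.exp (-t) := by
    rw [← Real.exp_nat_mul]; congr 1; push_cast; ring
  have e3 : Real.exp (t / 2) * Real.exp (-t / 2) = 1 := by
    rw [← Real.exp_add]
    have : t / 2 + -t / 2 = 0 := by ring
    rw [this, Real.exp_zero]
  have e4 : Real.exp t * Real.exp (-t) = 1 := by
    rw [← Real.exp_add, add_neg_cancel, Real.exp_zero]
  unfold nD cj et
  rw [cj_bs, e1, e2, e3, one_mul, rp_bs V hV s _ _ _ (by positivity) hr.ne' (by
    have : Real.exp t * p * (Real.exp (-t) * w) = p * w := by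
      linear_combination (p * w) * e4
    rw [this]; exact h), cj_bs, e1, e2, e3, one_mul]
  unfold n11 n12 n22
  congr 1
  · linear_combination (-(qk (s - 1) (Real.exp t * p) (Real.exp (-t) * w) r * w)) * e4
  · linear_combination (-(qk (s - 1) (Real.exp t * p) (Real.exp (-t) * w) r * p)) * e4

theorem rp_bs0 (V : Matrix m m ℂ) (hV : V ∈ unitaryGroup m ℂ) (s p r w : ℝ) (hp : 0 < p)
    (hr : 0 < r) (h : r ^ 2 < p * w) :
    rp (s - 1) (bs V p r w) = bs V (n11 s p r w 0) (n12 s p r w 0) (n22 s p r w 0) := by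
  rw [rp_bs V hV s _ _ _ hp hr.ne' h]
  unfold n11 n12 n22
  simp only [neg_zero, Real.exp_zero, one_mul, mul_one]

/-- `Y(P₀)` for block scalar data -/
theorem YD_bs (V : Matrix m m ℂ) (hV : V ∈ unitaryGroup m ℂ) (s p r w t κ₀ κ₁ : ℝ) (hp : 0 < p)
    (hr : 0 < r) (h : r ^ 2 < p * w) (h0 : 0 < κ₀) (h1 : 0 < κ₁) :
    YD s ![fun i => κ₀ * et m t i, fun i => κ₁ * et m (-t) i] (bs V p r w) =
      bs V (n11 s p r w 0 - κ₀ ^ (2 * s) * n11 s p r w t - κ₁ ^ (2 * s) * n11 s p r w (-t))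
        (n12 s p r w 0 - κ₀ ^ (2 * s) * n12 s p r w t - κ₁ ^ (2 * s) * n12 s p r w (-t))
        (n22 s p r w 0 - κ₀ ^ (2 * s) * n22 s p r w t - κ₁ ^ (2 * s) * n22 s p r w (-t)) := by
  have hP := (bs_posDef V hV p r w hp h).posSemidef
  unfold YD
  rw [Fin.sum_univ_two]
  simp only [Matrix.cons_val_zero, Matrix.cons_val_one]
  rw [nD_scale s κ₀ h0 _ _ hP, nD_scale s κ₁ h1 _ _ hP, nD_bs V hV s p r w t hp hr h,
    nD_bs V hV s p r w (-t) hp hr h, rp_bs0 V hV s p r w hp hr h, bs_smul, bs_smul, bs_add, bs_sub]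
  congr 1 <;> ring

theorem trace_bs_mul (V : Matrix m m ℂ) (hV : V ∈ unitaryGroup m ℂ) (x r y x' r' y' : ℝ) :
    (trace (bs V x r y * bs V x' r' y')).re =
      Fintype.card m * (x * x' + 2 * (r * r') + y * y') := by
  rw [bs_mul V hV]
  unfold trace
  rw [Fintype.sum_sum_type]
  simp only [Matrix.diag_apply, fromBlocks_apply₁₁, fromBlocks_apply₂₂, Matrix.smul_apply,
    Matrix.one_apply_eq, smul_eq_mul, mul_one, Finset.sum_const, Finset.card_univ, nsmul_eq_mul,
    Complex.add_re]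
  rw [← Complex.ofReal_natCast, ← Complex.ofReal_mul, ← Complex.ofReal_mul, Complex.ofReal_re,
    Complex.ofReal_re]
  ring

theorem diag_bs_mul_inl (V : Matrix m m ℂ) (hV : V ∈ unitaryGroup m ℂ) (x r y x' r' y' : ℝ)
    (i : m) : ((bs V x r y * bs V x' r' y') (Sum.inl i) (Sum.inl i)).re = x * x' + r * r' := by
  rw [bs_mul V hV, fromBlocks_apply₁₁, Matrix.smul_apply, Matrix.one_apply_eq, smul_eq_mul,
    mul_one, Complex.ofReal_re]

theorem diag_bs_mul_inr (V : Matrix m m ℂ) (hV : V ∈ unitaryGroup m ℂ) (x r y x' r' y' : ℝ)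
    (i : m) : ((bs V x r y * bs V x' r' y') (Sum.inr i) (Sum.inr i)).re = r * r' + y * y' := by
  rw [bs_mul V hV, fromBlocks_apply₂₂, Matrix.smul_apply, Matrix.one_apply_eq, smul_eq_mul,
    mul_one, Complex.ofReal_re]

end bs

end Pool.Agent.LibRest
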