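import Pool.Agent.LibRest.R5d
import Pool.Agent.LibSchTri.S13

/-! **R5e.**  The column form of `rest_path` (operator row of R5). -/

open Matrix Filter Topology
open scoped ComplexOrder

namespace Pool.Agent.LibRest

open Pool.Agent.LibSchP Pool.Agent.LibSchG

section core

variable {m : Type} [Fintype m] [DecidableEq m]

omit [Fintype m] [DecidableEq m] in
/-- `tr` of the product of a positive semidefinite matrix with an adjugate -/
theorem psd2 {A B C a b c : ℝ} (hA : 0 ≤ A) (hB : 0 ≤ B) (h : C ^ 2 ≤ A * B) (ha : 0 ≤ a)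
    (hb : 0 ≤ b) (h' : c ^ 2 ≤ a * b) : 2 * (C * c) ≤ A * b + B * a := by
  by_contra hc
  push Not at hc
  have h1 : 0 ≤ A * b + B * a := by positivity
  have h2 : C ^ 2 * c ^ 2 ≤ (A * B) * (a * b) :=
    mul_le_mul h h' (sq_nonneg c) (by positivity)
  nlinarith [sq_nonneg (A * b - B * a)]

/-- with the parameters `η, θ > 0` -/
theorem core1 [Nonempty m] {a p r w y₁ y₂ Y₁₁ Y₁₂ Y₂₂ M cp cm t η : ℝ} (hR : RestPath (1 / a)) (ha : 0 < a)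
    (ha' : 2 * a < 1) (hp : 0 < p) (hr : 0 < r) (hpw : r ^ 2 < p * w) (hy₁ : 0 < y₁)
    (hy₂ : 0 < y₂) (hcp : 0 < cp) (hcm : 0 < cm) (hM : 0 < M) (hη : 0 < η)
    (h11 : M * n11 (1 / a) p r w 0 - cp * n11 (1 / a) p r w t - cm * n11 (1 / a) p r w (-t) = Y₁₁)
    (h12 : M * n12 (1 / a) p r w 0 - cp * n12 (1 / a) p r w t - cm * n12 (1 / a) p r w (-t) = Y₁₂)
    (h22 : M * n22 (1 / a) p r w 0 - cp * n22 (1 / a) p r w t - cm * n22 (1 / a) p r w (-t) = Y₂₂)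
    (hY₁ : y₁ ^ 2 ≤ Y₁₁) (hY₂ : y₂ ^ 2 ≤ Y₂₂)
    (hYY : (Y₁₂ - y₁ * y₂) ^ 2 ≤ (Y₁₁ - y₁ ^ 2) * (Y₂₂ - y₂ ^ 2))
    {q : ℝ} (hq : q = 2 / (1 - a)) (V : Matrix m m ℂ) (hV : V ∈ unitaryGroup m ℂ)
    (α β : m → ℝ) (hα : ∀ i, 0 ≤ α i) (hβ : ∀ i, 0 ≤ β i) (hαs : ∑ i, α i ^ q = y₁ ^ q)
    (hβs : ∑ i, β i ^ q = y₂ ^ q) (P : Matrix (m ⊕ m) (m ⊕ m) ℂ) (hP : P.PosSemidef) :
    1 / a * ((Fintype.card m : ℝ) ^ (1 - a) *
        (trace (P * cj (Sum.elim α β) (bs V 1 1 1))).re) ≤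
      (M + η) * (trace (rp (1 / a) P)).re - cp * ND (1 / a) (et m t) P -
        cm * ND (1 / a) (et m (-t)) P +
        (1 / a - 1) * (Fintype.card m * (p * (Y₁₁ + η * n11 (1 / a) p r w 0) +
          2 * (r * (Y₁₂ + η * n12 (1 / a) p r w 0)) +
          w * (Y₂₂ + η * n22 (1 / a) p r w 0))) := by
  obtain ⟨s, hs⟩ : ∃ s, s = 1 / a := ⟨_, rfl⟩
  rw [← hs] at h11 h12 h22 hR ⊢
  have hs2 : 2 < s := by rw [hs, lt_div_iff₀ ha]; exact ha'
  have h1a : 0 < 1 - a := by linarith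
  have hq0 : 0 < q := by rw [hq]; positivity
  obtain ⟨u, hu⟩ : ∃ u, u = (s - 1) / (2 * s) := ⟨_, rfl⟩
  have hua : 2 * u = 1 - a := by rw [hu, hs]; field_simp
  have hqu : q * u = 1 := by
    have : u = (1 - a) / 2 := by linarith
    rw [this, hq]; field_simp
  have hu0 : 0 < u := by linarith
  obtain ⟨N, hN⟩ : ∃ N : ℝ, N = Fintype.card m := ⟨_, rfl⟩
  have hN0 : 0 < N := by rw [hN]; exact_mod_cast Fintype.card_pos
  rw [← hN]
  obtain ⟨M', hM'⟩ : ∃ M', M' = M + η := ⟨_, rfl⟩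
  have hM'0 : 0 < M' := by rw [hM']; linarith
  rw [← hM']
  obtain ⟨k11, hk11⟩ : ∃ k, k = n11 s p r w 0 := ⟨_, rfl⟩
  obtain ⟨k12, hk12⟩ : ∃ k, k = n12 s p r w 0 := ⟨_, rfl⟩
  obtain ⟨k22, hk22⟩ : ∃ k, k = n22 s p r w 0 := ⟨_, rfl⟩
  obtain ⟨g1, g2, g3⟩ := n_pd (s := s) hp hr hpw
  rw [← hk11, ← hk22, ← hk12] at g3
  rw [← hk11] at g1 h11 ⊢
  rw [← hk22] at g2 h22 ⊢
  rw [← hk12] at h12 ⊢
  -- the twists
  obtain ⟨κ₀, hκ₀⟩ : ∃ κ, κ = (cp / M') ^ (a / 2) := ⟨_, rfl⟩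
  obtain ⟨κ₁, hκ₁⟩ : ∃ κ, κ = (cm / M') ^ (a / 2) := ⟨_, rfl⟩
  have hκ₀0 : 0 < κ₀ := by rw [hκ₀]; positivity
  have hκ₁0 : 0 < κ₁ := by rw [hκ₁]; positivity
  have has : a / 2 * (2 * s) = 1 := by rw [hs]; field_simp
  have hκ₀s : κ₀ ^ (2 * s) = cp / M' := by
    rw [hκ₀, ← Real.rpow_mul (by positivity), has, Real.rpow_one]
  have hκ₁s : κ₁ ^ (2 * s) = cm / M' := by
    rw [hκ₁, ← Real.rpow_mul (by positivity), has, Real.rpow_one]
  obtain ⟨d, hd⟩ : ∃ d : Fin 2 → (m ⊕ m) → ℝ,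
      d = ![fun i => κ₀ * et m t i, fun i => κ₁ * et m (-t) i] := ⟨_, rfl⟩
  have hdpos : ∀ k i, 0 < d k i := by
    intro k i
    rw [hd]
    fin_cases k
    · exact mul_pos hκ₀0 (et_pos t i)
    · exact mul_pos hκ₁0 (et_pos (-t) i)
  obtain ⟨P0, hP0⟩ : ∃ P0, P0 = bs V p r w := ⟨_, rfl⟩
  have hP0pd : P0.PosDef := by rw [hP0]; exact bs_posDef V hV p r w hp hpw
  have hYD : YD s d P0 = bs V ((Y₁₁ + η * k11) / M') ((Y₁₂ + η * k12) / M')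
      ((Y₂₂ + η * k22) / M') := by
    rw [hd, hP0, YD_bs V hV s p r w t κ₀ κ₁ hp hr hpw hκ₀0 hκ₁0, hκ₀s, hκ₁s, ← hk11, ← hk12,
      ← hk22, ← h11, ← h12, ← h22]
    congr 1 <;> (rw [hM']; rw [hM'] at hM'0; field_simp; ring)
  -- the matrix `E`
  obtain ⟨K, hK⟩ : ∃ K, K = N ^ (1 - a) / M' := ⟨_, rfl⟩
  have hK0 : 0 < K := by rw [hK]; positivity
  have hNa : N ^ (1 - a) = (N ^ u) ^ 2 := by
    rw [← hua, ← Real.rpow_natCast (N ^ u) 2, ← Real.rpow_mul hN0.le]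
    congr 1
    push_cast
    ring
  obtain ⟨ν, hν⟩ : ∃ ν, ν = N ^ u := ⟨_, rfl⟩
  have hν0 : 0 < ν := by rw [hν]; positivity
  rw [← hν] at hNa
  obtain ⟨E, hE⟩ : ∃ E, E = bs V (K * ((Y₁₁ + η * k11) / y₁ ^ 2))
      (K * ((Y₁₂ + η * k12) / (y₁ * y₂))) (K * ((Y₂₂ + η * k22) / y₂ ^ 2)) := ⟨_, rfl⟩
  have hY11 : 0 < Y₁₁ := lt_of_lt_of_le (by positivity) hY₁
  have hY22 : 0 < Y₂₂ := lt_of_lt_of_le (by positivity) hY₂
  have hdY : Y₁₂ ^ 2 ≤ Y₁₁ * Y₂₂ := by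
    have h := psd2 (sub_nonneg.2 hY₁) (sub_nonneg.2 hY₂) hYY (sq_nonneg y₁) (sq_nonneg y₂)
      (c := y₁ * y₂) (by rw [mul_pow])
    nlinarith
  have hEpd : E.PosDef := by
    rw [hE]
    refine bs_posDef V hV _ _ _ (by positivity) ?_
    have e1 : K * ((Y₁₁ + η * k11) / y₁ ^ 2) * (K * ((Y₂₂ + η * k22) / y₂ ^ 2)) -
        (K * ((Y₁₂ + η * k12) / (y₁ * y₂))) ^ 2 =
        K ^ 2 / (y₁ ^ 2 * y₂ ^ 2) * ((Y₁₁ * Y₂₂ - Y₁₂ ^ 2) +
          η * (Y₁₁ * k22 + Y₂₂ * k11 - 2 * (Y₁₂ * k12)) +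
          η ^ 2 * (k11 * k22 - k12 ^ 2)) := by
      field_simp
      ring
    have e2 : 2 * (Y₁₂ * k12) ≤ Y₁₁ * k22 + Y₂₂ * k11 :=
      psd2 hY11.le hY22.le hdY g1.le g2.le g3.le
    have e3 : 0 < k11 * k22 - k12 ^ 2 := by linarith
    have e4 : 0 < K ^ 2 / (y₁ ^ 2 * y₂ ^ 2) * ((Y₁₁ * Y₂₂ - Y₁₂ ^ 2) +
          η * (Y₁₁ * k22 + Y₂₂ * k11 - 2 * (Y₁₂ * k12)) +
          η ^ 2 * (k11 * k22 - k12 ^ 2)) := by
      have i1 : 0 < η ^ 2 * (k11 * k22 - k12 ^ 2) := by positivity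
      have i2 : 0 ≤ η * (Y₁₁ * k22 + Y₂₂ * k11 - 2 * (Y₁₂ * k12)) :=
        mul_nonneg hη.le (by linarith)
      have i3 : 0 ≤ Y₁₁ * Y₂₂ - Y₁₂ ^ 2 := by linarith
      have i4 : 0 < (Y₁₁ * Y₂₂ - Y₁₂ ^ 2) +
          η * (Y₁₁ * k22 + Y₂₂ * k11 - 2 * (Y₁₂ * k12)) +
          η ^ 2 * (k11 * k22 - k12 ^ 2) := by linarith
      positivity
    linarith
  obtain ⟨x0, hx0⟩ : ∃ x0 : m ⊕ m → ℝ,
      x0 = Sum.elim (fun _ => y₁ ^ q / N) (fun _ => y₂ ^ q / N) := ⟨_, rfl⟩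
  have hx0pos : ∀ i, 0 < x0 i := by
    intro i
    rw [hx0]
    rcases i with i | i
    · simp only [Sum.elim_inl]; positivity
    · simp only [Sum.elim_inr]; positivity
  have hpow : ∀ y : ℝ, 0 < y → (y ^ q / N) ^ u = y / ν := by
    intro y hy
    rw [Real.div_rpow (by positivity) hN0.le, ← Real.rpow_mul hy.le, hqu, Real.rpow_one, hν]
  have hx0u : (fun i => x0 i ^ ((s - 1) / (2 * s))) =
      Sum.elim (fun _ => y₁ / ν) (fun _ => y₂ / ν) := by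
    funext i
    rw [← hu, hx0]
    rcases i with i | i
    · simp only [Sum.elim_inl]; exact hpow y₁ hy₁
    · simp only [Sum.elim_inr]; exact hpow y₂ hy₂
  have hYE : YD s d P0 = cj (fun i => x0 i ^ ((s - 1) / (2 * s))) E := by
    rw [hYD, hx0u, hE]
    unfold cj
    rw [cj_bs, hK, hNa]
    congr 1 <;> field_simp
  -- the path to `x1`
  obtain ⟨ζ, hζ⟩ : ∃ ζ : m ⊕ m → ℝ, ζ = Sum.elim (fun i => α i ^ q) (fun i => β i ^ q) := ⟨_, rfl⟩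
  have hζ0 : ∀ i, 0 ≤ ζ i := by
    intro i
    rw [hζ]
    rcases i with i | i
    · simp only [Sum.elim_inl]; exact Real.rpow_nonneg (hα i) q
    · simp only [Sum.elim_inr]; exact Real.rpow_nonneg (hβ i) q
  have key : ∀ θ : ℝ, 0 < θ → θ ≤ 1 →
      s * (trace (P * cj (fun i => ((1 - θ) * ζ i + θ * x0 i) ^ ((s - 1) / (2 * s))) E)).re -
        FD s d P ≤ (s - 1) * FD s d P0 := by
    intro θ hθ hθ1
    refine hR (m ⊕ m) d hdpos E hEpd x0 (fun i => (1 - θ) * ζ i + θ * x0 i) hx0pos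
      (fun i => ?_) P0 hP0pd hYE (le_of_eq ?_) P hP
    · have h1 := hζ0 i
      have h2 := hx0pos i
      have h3 : 0 ≤ 1 - θ := by linarith
      positivity
    · rw [hYD, hP0, Fintype.sum_sum_type]
      simp only [diag_bs_mul_inl V hV, diag_bs_mul_inr V hV]
      rw [← Finset.sum_mul, ← Finset.sum_mul]
      have hsum1 : ∑ i : m, ((1 - θ) * ζ (Sum.inl i) + θ * x0 (Sum.inl i) - x0 (Sum.inl i)) /
          x0 (Sum.inl i) = 0 := by
        rw [hx0, hζ]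
        simp only [Sum.elim_inl]
        rw [← Finset.sum_div]
        have : ∑ i : m, ((1 - θ) * α i ^ q + θ * (y₁ ^ q / N) - y₁ ^ q / N) = 0 := by
          rw [Finset.sum_sub_distrib, Finset.sum_add_distrib, ← Finset.mul_sum, hαs]
          simp only [Finset.sum_const, Finset.card_univ, nsmul_eq_mul]
          rw [← hN]
          field_simp
          ring
        rw [this, zero_div]
      have hsum2 : ∑ i : m, ((1 - θ) * ζ (Sum.inr i) + θ * x0 (Sum.inr i) - x0 (Sum.inr i)) /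
          x0 (Sum.inr i) = 0 := by
        rw [hx0, hζ]
        simp only [Sum.elim_inr]
        rw [← Finset.sum_div]
        have : ∑ i : m, ((1 - θ) * β i ^ q + θ * (y₂ ^ q / N) - y₂ ^ q / N) = 0 := by
          rw [Finset.sum_sub_distrib, Finset.sum_add_distrib, ← Finset.mul_sum, hβs]
          simp only [Finset.sum_const, Finset.card_univ, nsmul_eq_mul]
          rw [← hN]
          field_simp
          ring
        rw [this, zero_div]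
      rw [hsum1, hsum2, zero_mul, zero_mul, add_zero]
  -- `θ → 0`
  have hcont : Continuous fun θ : ℝ =>
      s * (trace (P * cj (fun i => ((1 - θ) * ζ i + θ * x0 i) ^ ((s - 1) / (2 * s))) E)).re -
        FD s d P := by
    have h1 : Continuous fun θ : ℝ => (fun i => ((1 - θ) * ζ i + θ * x0 i) ^ ((s - 1) / (2 * s)) :
        m ⊕ m → ℝ) := by
      refine continuous_pi fun i => ?_
      refine Continuous.rpow_const (by fun_prop) (fun _ => Or.inr ?_)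
      rw [← hu]; exact hu0.le
    have h2 := cj_continuous_left _ h1 E
    have h3 : Continuous fun X : Matrix (m ⊕ m) (m ⊕ m) ℂ => (trace (P * X)).re := by fun_prop
    exact ((h3.comp h2).const_mul s).sub continuous_const
  have hlim := (hcont.tendsto 0).mono_left (nhdsWithin_le_nhds (s := Set.Ioi (0 : ℝ)))
  have h0 := le_of_tendsto hlim (by
    filter_upwards [Ioo_mem_nhdsGT (show (0 : ℝ) < 1 by norm_num)] with θ hθ
    exact key θ hθ.1 hθ.2.le)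
  have hζu : (fun i => ((1 - (0 : ℝ)) * ζ i + 0 * x0 i) ^ ((s - 1) / (2 * s))) =
      Sum.elim α β := by
    funext i
    rw [← hu, hζ]
    rcases i with i | i
    · simp only [Sum.elim_inl, sub_zero, one_mul, zero_mul, add_zero]
      rw [← Real.rpow_mul (hα i), hqu, Real.rpow_one]
    · simp only [Sum.elim_inr, sub_zero, one_mul, zero_mul, add_zero]
      rw [← Real.rpow_mul (hβ i), hqu, Real.rpow_one]
  rw [hζu] at h0
  -- compare `E` with `K • bs V 1 1 1`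
  have hcmp : K * (trace (P * cj (Sum.elim α β) (bs V 1 1 1))).re ≤
      (trace (P * cj (Sum.elim α β) E)).re := by
    have e1 : E = (K : ℂ) • bs V 1 1 1 + (K : ℂ) • bs V ((Y₁₁ - y₁ ^ 2 + η * k11) / y₁ ^ 2)
        ((Y₁₂ - y₁ * y₂ + η * k12) / (y₁ * y₂)) ((Y₂₂ - y₂ ^ 2 + η * k22) / y₂ ^ 2) := by
      rw [hE, bs_smul, bs_smul, bs_add]
      congr 1 <;> (field_simp; ring)
    have e2 : (bs V ((Y₁₁ - y₁ ^ 2 + η * k11) / y₁ ^ 2)
        ((Y₁₂ - y₁ * y₂ + η * k12) / (y₁ * y₂)) ((Y₂₂ - y₂ ^ 2 + η * k22) / y₂ ^ 2)).PosSemidef := by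
      have j1 : 0 ≤ Y₁₁ - y₁ ^ 2 := sub_nonneg.2 hY₁
      have j2 : 0 ≤ Y₂₂ - y₂ ^ 2 := sub_nonneg.2 hY₂
      refine bs_posSemidef V hV _ _ _ (by positivity) (by positivity) ?_
      rw [div_pow, div_mul_div_comm, ← mul_pow]
      have j3 : 2 * ((Y₁₂ - y₁ * y₂) * k12) ≤ (Y₁₁ - y₁ ^ 2) * k22 + (Y₂₂ - y₂ ^ 2) * k11 :=
        psd2 j1 j2 hYY g1.le g2.le g3.le
      have j4 : 0 ≤ k11 * k22 - k12 ^ 2 := by linarith
      have j5 : (Y₁₂ - y₁ * y₂ + η * k12) ^ 2 ≤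
          (Y₁₁ - y₁ ^ 2 + η * k11) * (Y₂₂ - y₂ ^ 2 + η * k22) := by
        nlinarith [mul_nonneg hη.le (sub_nonneg.2 j3), mul_nonneg (sq_nonneg η) j4]
      gcongr
    rw [e1, cj_add, cj_smul, cj_smul, Matrix.mul_add, Matrix.mul_smul, Matrix.mul_smul,
      trace_add, trace_smul, trace_smul, smul_eq_mul, smul_eq_mul, Complex.add_re,
      Complex.re_ofReal_mul, Complex.re_ofReal_mul]
    have e3 := trace_mul_psd P _ hP (cj_psd (Sum.elim α β) _ e2)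
    have e4 := mul_nonneg hK0.le e3
    linarith
  -- the values of `F`
  have hFP : FD s d P = (trace (rp s P)).re - cp / M' * ND s (et m t) P -
      cm / M' * ND s (et m (-t)) P := by
    unfold FD
    rw [Fin.sum_univ_two, hd]
    simp only [Matrix.cons_val_zero, Matrix.cons_val_one]
    rw [ND_scale s κ₀ hκ₀0 _ _ hP, ND_scale s κ₁ hκ₁0 _ _ hP, hκ₀s, hκ₁s]
    ring
  have hFP0 : FD s d P0 = N * (p * ((Y₁₁ + η * k11) / M') +
      2 * (r * ((Y₁₂ + η * k12) / M')) + w * ((Y₂₂ + η * k22) / M')) := by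
    rw [← trace_mul_YD s (by linarith) d P0 hP0pd.posSemidef, hYD, hP0, trace_bs_mul V hV, ← hN]
  rw [hFP, hFP0] at h0
  have h1 : s * (K * (trace (P * cj (Sum.elim α β) (bs V 1 1 1))).re) ≤
      s * (trace (P * cj (Sum.elim α β) E)).re := by
    gcongr
  have h2 := h1.trans (sub_le_iff_le_add.1 h0)
  have h3 := mul_le_mul_of_nonneg_left h2 hM'0.le
  have e5 : M' * (s * (K * (trace (P * cj (Sum.elim α β) (bs V 1 1 1))).re)) =
      s * (N ^ (1 - a) * (trace (P * cj (Sum.elim α β) (bs V 1 1 1))).re) := by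
    rw [hK]; field_simp
  rw [e5] at h3
  refine h3.trans (le_of_eq ?_)
  field_simp
  ring

/-- `η → 0` -/
theorem core2 [Nonempty m] {a p r w y₁ y₂ Y₁₁ Y₁₂ Y₂₂ M cp cm t : ℝ} (hR : RestPath (1 / a)) (ha : 0 < a)
    (ha' : 2 * a < 1) (hp : 0 < p) (hr : 0 < r) (hpw : r ^ 2 < p * w) (hy₁ : 0 < y₁)
    (hy₂ : 0 < y₂) (hcp : 0 < cp) (hcm : 0 < cm) (hM : 0 < M)
    (h11 : M * n11 (1 / a) p r w 0 - cp * n11 (1 / a) p r w t - cm * n11 (1 / a) p r w (-t) = Y₁₁)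
    (h12 : M * n12 (1 / a) p r w 0 - cp * n12 (1 / a) p r w t - cm * n12 (1 / a) p r w (-t) = Y₁₂)
    (h22 : M * n22 (1 / a) p r w 0 - cp * n22 (1 / a) p r w t - cm * n22 (1 / a) p r w (-t) = Y₂₂)
    (hY₁ : y₁ ^ 2 ≤ Y₁₁) (hY₂ : y₂ ^ 2 ≤ Y₂₂)
    (hYY : (Y₁₂ - y₁ * y₂) ^ 2 ≤ (Y₁₁ - y₁ ^ 2) * (Y₂₂ - y₂ ^ 2))
    {q : ℝ} (hq : q = 2 / (1 - a)) (V : Matrix m m ℂ) (hV : V ∈ unitaryGroup m ℂ)
    (α β : m → ℝ) (hα : ∀ i, 0 ≤ α i) (hβ : ∀ i, 0 ≤ β i) (hαs : ∑ i, α i ^ q = y₁ ^ q)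
    (hβs : ∑ i, β i ^ q = y₂ ^ q) (P : Matrix (m ⊕ m) (m ⊕ m) ℂ) (hP : P.PosSemidef) :
    1 / a * ((Fintype.card m : ℝ) ^ (1 - a) *
        (trace (P * cj (Sum.elim α β) (bs V 1 1 1))).re) ≤
      M * (trace (rp (1 / a) P)).re - cp * ND (1 / a) (et m t) P -
        cm * ND (1 / a) (et m (-t)) P +
        (1 / a - 1) * (Fintype.card m * (p * Y₁₁ + 2 * (r * Y₁₂) + w * Y₂₂)) := by
  obtain ⟨f, hf⟩ : ∃ f : ℝ → ℝ, f = fun η => (M + η) * (trace (rp (1 / a) P)).re -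
      cp * ND (1 / a) (et m t) P - cm * ND (1 / a) (et m (-t)) P +
        (1 / a - 1) * (Fintype.card m * (p * (Y₁₁ + η * n11 (1 / a) p r w 0) +
          2 * (r * (Y₁₂ + η * n12 (1 / a) p r w 0)) +
          w * (Y₂₂ + η * n22 (1 / a) p r w 0))) := ⟨_, rfl⟩
  have hc : Continuous f := by rw [hf]; fun_prop
  have hlim := (hc.tendsto 0).mono_left (nhdsWithin_le_nhds (s := Set.Ioi (0 : ℝ)))
  have h0 := ge_of_tendsto (b := 1 / a * ((Fintype.card m : ℝ) ^ (1 - a) *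
        (trace (P * cj (Sum.elim α β) (bs V 1 1 1))).re)) hlim (by
    filter_upwards [self_mem_nhdsWithin] with η hη
    rw [hf]
    exact core1 hR ha ha' hp hr hpw hy₁ hy₂ hcp hcm hM hη h11 h12 h22 hY₁ hY₂ hYY hq V hV α β hα hβ hαs hβs
      P hP)
  refine h0.trans (le_of_eq ?_)
  rw [hf]
  ring_nf

/-- scaling -/
theorem core3 [Nonempty m] {a p r w y₁ y₂ Y₁₁ Y₁₂ Y₂₂ M cp cm t : ℝ} (hR : RestPath (1 / a)) (ha : 0 < a)
    (ha' : 2 * a < 1) (hp : 0 < p) (hr : 0 < r) (hpw : r ^ 2 < p * w) (hy₁ : 0 < y₁)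
    (hy₂ : 0 < y₂) (hcp : 0 < cp) (hcm : 0 < cm) (hM : 0 < M)
    (h11 : M * n11 (1 / a) p r w 0 - cp * n11 (1 / a) p r w t - cm * n11 (1 / a) p r w (-t) = Y₁₁)
    (h12 : M * n12 (1 / a) p r w 0 - cp * n12 (1 / a) p r w t - cm * n12 (1 / a) p r w (-t) = Y₁₂)
    (h22 : M * n22 (1 / a) p r w 0 - cp * n22 (1 / a) p r w t - cm * n22 (1 / a) p r w (-t) = Y₂₂)
    (hY₁ : y₁ ^ 2 ≤ Y₁₁) (hY₂ : y₂ ^ 2 ≤ Y₂₂)
    (hYY : (Y₁₂ - y₁ * y₂) ^ 2 ≤ (Y₁₁ - y₁ ^ 2) * (Y₂₂ - y₂ ^ 2))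
    {q : ℝ} (hq : q = 2 / (1 - a)) (V : Matrix m m ℂ) (hV : V ∈ unitaryGroup m ℂ)
    (α β : m → ℝ) (hα : ∀ i, 0 ≤ α i) (hβ : ∀ i, 0 ≤ β i) (hαs : ∑ i, α i ^ q = y₁ ^ q)
    (hβs : ∑ i, β i ^ q = y₂ ^ q) (P : Matrix (m ⊕ m) (m ⊕ m) ℂ) (hP : P.PosSemidef) :
    1 / a * (trace (P * cj (Sum.elim α β) (bs V 1 1 1))).re ≤
      M * (trace (rp (1 / a) P)).re - cp * ND (1 / a) (et m t) P -
        cm * ND (1 / a) (et m (-t)) P +
        (1 / a - 1) * (p * Y₁₁ + 2 * (r * Y₁₂) + w * Y₂₂) := by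
  obtain ⟨N, hN⟩ : ∃ N : ℝ, N = Fintype.card m := ⟨_, rfl⟩
  have hN0 : 0 < N := by rw [hN]; exact_mod_cast Fintype.card_pos
  have hNa : 0 < N ^ a := Real.rpow_pos_of_pos hN0 a
  have hPs : (((N ^ a : ℝ) : ℂ) • P).PosSemidef := by
    obtain ⟨U, hU, x, hx, rfl⟩ := ud_exists_nonneg P hP
    rw [smul_ud']
    exact ud_posSemidef U _ fun i => mul_nonneg hNa.le (hx i)
  have h := core2 hR ha ha' hp hr hpw hy₁ hy₂ hcp hcm hM h11 h12 h22 hY₁ hY₂ hYY hq V hV α β hα hβ hαs hβs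
    _ hPs
  have e1 : (N ^ a) ^ (1 / a) = N := by
    rw [← Real.rpow_mul hN0.le, mul_one_div_cancel ha.ne', Real.rpow_one]
  rw [ND_smul _ _ hNa _ _ hP, ND_smul _ _ hNa _ _ hP, rp_smul' _ _ hNa _ hP, trace_smul,
    smul_eq_mul, Complex.re_ofReal_mul, Matrix.smul_mul, trace_smul, smul_eq_mul,
    Complex.re_ofReal_mul, e1, ← hN] at h
  have e2 : N ^ (1 - a) * (N ^ a * (trace (P * cj (Sum.elim α β) (bs V 1 1 1))).re) =
      N * (trace (P * cj (Sum.elim α β) (bs V 1 1 1))).re := by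
    rw [← mul_assoc, ← Real.rpow_add hN0, sub_add_cancel, Real.rpow_one]
  rw [e2] at h
  have h2 : N * (1 / a * (trace (P * cj (Sum.elim α β) (bs V 1 1 1))).re) ≤
      N * (M * (trace (rp (1 / a) P)).re - cp * ND (1 / a) (et m t) P -
        cm * ND (1 / a) (et m (-t)) P +
        (1 / a - 1) * (p * Y₁₁ + 2 * (r * Y₁₂) + w * Y₂₂)) := by
    calc N * (1 / a * (trace (P * cj (Sum.elim α β) (bs V 1 1 1))).re)
        = 1 / a * (N * (trace (P * cj (Sum.elim α β) (bs V 1 1 1))).re) := by ring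
      _ ≤ _ := h
      _ = _ := by ring
  exact le_of_mul_le_mul_left h2 hN0

/-- singular value decomposition in the form used here -/
theorem svd_form (A : Matrix m m ℂ) (q : ℝ) (hq : 0 < q) :
    ∃ U ∈ unitaryGroup m ℂ, ∃ V ∈ unitaryGroup m ℂ, ∃ α : m → ℝ, (∀ i, 0 ≤ α i) ∧
      A = U * dg α * Vᴴ ∧ LibSch.pw q A = ∑ i, α i ^ q := by
  obtain ⟨U, V, b, hb, h⟩ := LibSchTri.svd_sq A
  have hU := U.2
  have hV := V.2
  have hUs : star (U : Matrix m m ℂ) ∈ unitaryGroup m ℂ := Unitary.star_mem hU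
  have hA : A = (U : Matrix m m ℂ)ᴴ * dg b * (V : Matrix m m ℂ)ᴴ := by
    have h' : (U : Matrix m m ℂ) * A * (V : Matrix m m ℂ) = dg b := h
    rw [← h']
    calc A = ((U : Matrix m m ℂ)ᴴ * (U : Matrix m m ℂ)) * A *
          ((V : Matrix m m ℂ) * (V : Matrix m m ℂ)ᴴ) := by
          rw [a2_uu _ hU, a2_uu' _ hV, Matrix.one_mul, Matrix.mul_one]
      _ = _ := by simp only [Matrix.mul_assoc]
  refine ⟨(U : Matrix m m ℂ)ᴴ, hUs, V, hV, b, hb, hA, ?_⟩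
  have h1 : Aᴴ * A = ud (V : Matrix m m ℂ) fun k => b k * b k := by
    have h2 : Aᴴ = (V : Matrix m m ℂ) * dg b * (U : Matrix m m ℂ) := by
      rw [hA]
      simp only [conjTranspose_mul, conjTranspose_conjTranspose, dg_conjTranspose,
        Matrix.mul_assoc]
    rw [h2]
    conv_lhs => rw [hA]
    unfold ud
    rw [← dg_mul]
    calc (V : Matrix m m ℂ) * dg b * (U : Matrix m m ℂ) *
          ((U : Matrix m m ℂ)ᴴ * dg b * (V : Matrix m m ℂ)ᴴ)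
        = (V : Matrix m m ℂ) * dg b * ((U : Matrix m m ℂ) * (U : Matrix m m ℂ)ᴴ) * dg b *
          (V : Matrix m m ℂ)ᴴ := by simp only [Matrix.mul_assoc]
      _ = _ := by
        rw [a2_uu' _ hU, Matrix.mul_one]
        simp only [Matrix.mul_assoc]
  rw [pw_ud q A V hV _ h1]
  refine Finset.sum_congr rfl fun k _ => ?_
  rw [← sq, ← Real.rpow_natCast, ← Real.rpow_mul (hb k)]
  congr 1
  push_cast
  ring

omit [Fintype m] in
theorem Dt_eq (t : ℝ) : Dt m t = dg (et m t) := rfl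

end core

/-- **the column form of `rest_path`** -/
theorem col_form {a p r w y₁ y₂ Y₁₁ Y₁₂ Y₂₂ M cp cm t : ℝ} (hR : RestPath (1 / a)) (ha : 0 < a)
    (ha' : 2 * a < 1) (hp : 0 < p) (hr : 0 < r) (hpw : r ^ 2 < p * w) (hy₁ : 0 < y₁)
    (hy₂ : 0 < y₂) (hcp : 0 < cp) (hcm : 0 < cm) (hM : 0 < M)
    (h11 : M * n11 (1 / a) p r w 0 - cp * n11 (1 / a) p r w t - cm * n11 (1 / a) p r w (-t) = Y₁₁)
    (h12 : M * n12 (1 / a) p r w 0 - cp * n12 (1 / a) p r w t - cm * n12 (1 / a) p r w (-t) = Y₁₂)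
    (h22 : M * n22 (1 / a) p r w 0 - cp * n22 (1 / a) p r w t - cm * n22 (1 / a) p r w (-t) = Y₂₂)
    (hY₁ : y₁ ^ 2 ≤ Y₁₁) (hY₂ : y₂ ^ 2 ≤ Y₂₂)
    (hYY : (Y₁₂ - y₁ * y₂) ^ 2 ≤ (Y₁₁ - y₁ ^ 2) * (Y₂₂ - y₂ ^ 2))
    {q : ℝ} (hq : q = 2 / (1 - a)) (m : Type) [Fintype m] [DecidableEq m] (A B : Matrix m m ℂ)
    (hA : LibSch.pw q A = y₁ ^ q) (hB : LibSch.pw q B = y₂ ^ q) (P : Matrix (m ⊕ m) (m ⊕ m) ℂ)
    (hP : P.PosSemidef) :
    1 / a * (trace ((fromRows A B)ᴴ * P * fromRows A B)).re ≤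
      M * (trace (rp (1 / a) P)).re - cp * (trace (rp (1 / a) (Dt m t * P * Dt m t))).re -
        cm * (trace (rp (1 / a) (Dt m (-t) * P * Dt m (-t)))).re +
        (1 / a - 1) * (p * Y₁₁ + 2 * (r * Y₁₂) + w * Y₂₂) := by
  have hq0 : 0 < q := by
    rw [hq]
    have : 0 < 1 - a := by linarith
    positivity
  have hne : Nonempty m := by
    by_contra hc
    rw [not_nonempty_iff] at hc
    have h1 : LibSch.pw q A = 0 := by
      unfold LibSch.pw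
      exact Finset.sum_of_isEmpty _
    rw [h1] at hA
    exact (Real.rpow_pos_of_pos hy₁ q).ne hA
  obtain ⟨U₁, hU₁, V₁, hV₁, α, hα, hA1, hA2⟩ := svd_form A q hq0
  obtain ⟨U₂, hU₂, V₂, hV₂, β, hβ, hB1, hB2⟩ := svd_form B q hq0
  obtain ⟨Z, hZ⟩ : ∃ Z : Matrix (m ⊕ m) (m ⊕ m) ℂ, Z = fromBlocks U₁ 0 0 U₂ := ⟨_, rfl⟩
  have hZu : Z ∈ unitaryGroup (m ⊕ m) ℂ := by
    rw [mem_unitaryGroup_iff, star_eq_conjTranspose, hZ, fromBlocks_conjTranspose,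
      fromBlocks_multiply]
    simp only [conjTranspose_zero, Matrix.mul_zero, Matrix.zero_mul, add_zero, zero_add,
      a2_uu' _ hU₁, a2_uu' _ hU₂, fromBlocks_one]
  obtain ⟨V, hVdef⟩ : ∃ V, V = V₁ᴴ * V₂ := ⟨_, rfl⟩
  have hV : V ∈ unitaryGroup m ℂ := by
    rw [mem_unitaryGroup_iff, star_eq_conjTranspose, hVdef, conjTranspose_mul,
      conjTranspose_conjTranspose]
    calc V₁ᴴ * V₂ * (V₂ᴴ * V₁) = V₁ᴴ * (V₂ * V₂ᴴ) * V₁ := by simp only [Matrix.mul_assoc]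
      _ = 1 := by rw [a2_uu' _ hV₂, Matrix.mul_one, a2_uu _ hV₁]
  have hS : fromRows A B = Z * (dg (Sum.elim α β) * fromRows V₁ᴴ V₂ᴴ) := by
    have hd : dg (Sum.elim α β) = fromBlocks (dg α) 0 0 (dg β) := by
      ext i j
      rw [dg_apply]
      rcases i with i | i <;> rcases j with j | j <;> simp [dg_apply]
    rw [hd, fromBlocks_mul_fromRows, hZ, fromBlocks_mul_fromRows, hA1, hB1]
    simp only [Matrix.zero_mul, add_zero, zero_add, Matrix.mul_assoc]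
  have hRR : fromRows V₁ᴴ V₂ᴴ * (fromRows V₁ᴴ V₂ᴴ)ᴴ = bs V 1 1 1 := by
    rw [conjTranspose_fromRows_eq_fromCols_conjTranspose, fromRows_mul_fromCols]
    unfold bs
    simp only [conjTranspose_conjTranspose, a2_uu _ hV₁, a2_uu _ hV₂, Complex.ofReal_one,
      one_smul, hVdef, conjTranspose_mul]
  obtain ⟨P', hP'⟩ : ∃ P', P' = Zᴴ * P * Z := ⟨_, rfl⟩
  have hP's : P'.PosSemidef := by rw [hP']; exact hP.conjTranspose_mul_mul_same Z
  have hPP : P = Z * P' * Zᴴ := by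
    rw [hP']
    calc P = (Z * Zᴴ) * P * (Z * Zᴴ) := by
          rw [a2_uu' _ hZu, Matrix.one_mul, Matrix.mul_one]
      _ = _ := by simp only [Matrix.mul_assoc]
  have hαs : ∑ i, α i ^ q = y₁ ^ q := by rw [← hA2, hA]
  have hβs : ∑ i, β i ^ q = y₂ ^ q := by rw [← hB2, hB]
  have h := core3 hR ha ha' hp hr hpw hy₁ hy₂ hcp hcm hM h11 h12 h22 hY₁ hY₂ hYY hq V hV α β hα hβ hαs hβs
    P' hP's
  have e1 : trace ((fromRows A B)ᴴ * P * fromRows A B) =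
      trace (P' * cj (Sum.elim α β) (bs V 1 1 1)) := by
    have f1 : cj (Sum.elim α β) (bs V 1 1 1) = dg (Sum.elim α β) * fromRows V₁ᴴ V₂ᴴ *
        (dg (Sum.elim α β) * fromRows V₁ᴴ V₂ᴴ)ᴴ := by
      rw [conjTranspose_mul, dg_conjTranspose, cj, ← hRR]
      simp only [Matrix.mul_assoc]
    rw [f1, hS, hP', conjTranspose_mul]
    calc trace ((dg (Sum.elim α β) * fromRows V₁ᴴ V₂ᴴ)ᴴ * Zᴴ * P *
          (Z * (dg (Sum.elim α β) * fromRows V₁ᴴ V₂ᴴ)))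
        = trace ((dg (Sum.elim α β) * fromRows V₁ᴴ V₂ᴴ)ᴴ *
          (Zᴴ * P * Z * (dg (Sum.elim α β) * fromRows V₁ᴴ V₂ᴴ))) := by
          simp only [Matrix.mul_assoc]
      _ = trace (Zᴴ * P * Z * (dg (Sum.elim α β) * fromRows V₁ᴴ V₂ᴴ) *
          (dg (Sum.elim α β) * fromRows V₁ᴴ V₂ᴴ)ᴴ) := Matrix.trace_mul_comm _ _
      _ = _ := by simp only [Matrix.mul_assoc]
  have htr : ∀ H : Matrix (m ⊕ m) (m ⊕ m) ℂ, H.IsHermitian →
      (trace (rp (1 / a) (Z * H * Zᴴ))).re = (trace (rp (1 / a) H)).re := by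
    intro H hH
    rw [rp_conj _ Z hZu H hH, Matrix.trace_mul_comm, ← Matrix.mul_assoc, a2_uu _ hZu,
      Matrix.one_mul]
  have e2 : (trace (rp (1 / a) P)).re = (trace (rp (1 / a) P')).re := by
    rw [hPP]; exact htr P' hP's.isHermitian
  have e3 : ∀ τ : ℝ, (trace (rp (1 / a) (Dt m τ * P * Dt m τ))).re =
      ND (1 / a) (et m τ) P' := by
    intro τ
    have f1 : Dt m τ * Z = Z * Dt m τ := by
      have hD : Dt m τ = fromBlocks (((Real.exp (τ / 2) : ℝ) : ℂ) • 1) 0 0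
          (((Real.exp (-τ / 2) : ℝ) : ℂ) • (1 : Matrix m m ℂ)) := by
        rw [Dt_eq]
        unfold et
        ext i j
        rw [dg_apply]
        rcases i with i | i <;> rcases j with j | j <;> simp [Matrix.one_apply]
      rw [hD, hZ, fromBlocks_multiply, fromBlocks_multiply]
      simp only [Matrix.mul_zero, Matrix.zero_mul, add_zero, zero_add, Matrix.smul_mul,
        Matrix.mul_smul, Matrix.one_mul, Matrix.mul_one, smul_zero]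
    have f2 : Zᴴ * Dt m τ = Dt m τ * Zᴴ := by
      have f3 := congrArg conjTranspose f1
      rw [conjTranspose_mul, conjTranspose_mul, Dt_eq, dg_conjTranspose] at f3
      rw [Dt_eq]
      exact f3
    have f4 : Dt m τ * P * Dt m τ = Z * (Dt m τ * P' * Dt m τ) * Zᴴ := by
      rw [hPP]
      calc Dt m τ * (Z * P' * Zᴴ) * Dt m τ = (Dt m τ * Z) * P' * (Zᴴ * Dt m τ) := by
            simp only [Matrix.mul_assoc]
        _ = _ := by
          rw [f1, f2]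
          simp only [Matrix.mul_assoc]
    have f5 : Dt m τ * P' * Dt m τ = cj (et m τ) P' := rfl
    rw [f4, f5, htr _ (cj_herm (et m τ) P' hP's.isHermitian)]
    rfl
  rw [e1, e2, e3, e3]
  exact h

end Pool.Agent.LibRest
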