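import Pool.Agent.LibSchG.G0

/-! **S0.**  The `2 × 2` family `n_t = D_t (D_t π D_t)^(s-1) D_t` in closed form, and two elementary
lemmas. -/

open Filter Topology

namespace Pool.Agent.LibRest

/-- `(λ₊^k - λ₋^k) / (λ₊ - λ₋)` for the symmetric matrix `!![x, w; w, y]` -/
noncomputable def qk (k x y w : ℝ) : ℝ :=
  (LibSch.lamP x y w ^ k - LibSch.lamM x y w ^ k) / (LibSch.lamP x y w - LibSch.lamM x y w)

/-- `(n_t)₁₁`, `π = !![p, r; r, w]` -/
noncomputable def n11 (s p r w t : ℝ) : ℝ :=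
  qk s (Real.exp t * p) (Real.exp (-t) * w) r * Real.exp t -
    qk (s - 1) (Real.exp t * p) (Real.exp (-t) * w) r * w

/-- `(n_t)₁₂` -/
noncomputable def n12 (s p r w t : ℝ) : ℝ :=
  qk (s - 1) (Real.exp t * p) (Real.exp (-t) * w) r * r

/-- `(n_t)₂₂` -/
noncomputable def n22 (s p r w t : ℝ) : ℝ :=
  qk s (Real.exp t * p) (Real.exp (-t) * w) r * Real.exp (-t) -
    qk (s - 1) (Real.exp t * p) (Real.exp (-t) * w) r * p

/-- symmetric differences of first and second order -/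
theorem sym_limits (f f1 : ℝ → ℝ) (f2 : ℝ) (h1 : ∀ t, HasDerivAt f (f1 t) t)
    (h2 : HasDerivAt f1 f2 0) :
    Tendsto (fun t => (f t + f (-t) - 2 * f 0) / t ^ 2) (𝓝[>] 0) (𝓝 f2) ∧
      Tendsto (fun t => (f t - f (-t)) / t) (𝓝[>] 0) (𝓝 (2 * f1 0)) := by
  have hneg : ∀ t, HasDerivAt (fun x => f (-x)) (-(f1 (-t))) t := by
    intro t
    exact (HasDerivAt.comp t (h1 (-t)) (hasDerivAt_neg t)).congr_deriv (by ring)
  constructor
  · have hF : ∀ t, HasDerivAt (fun x => f x + f (-x) - 2 * f 0) (f1 t - f1 (-t)) t := by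
      intro t
      exact (((h1 t).add (hneg t)).sub_const (2 * f 0)).congr_deriv (by ring)
    have hG : ∀ t : ℝ, HasDerivAt (fun x : ℝ => x ^ 2) (2 * t) t := by
      intro t
      have := hasDerivAt_pow 2 t
      simpa using this
    have hlim : Tendsto (fun t => (f1 t - f1 (-t)) / (2 * t)) (𝓝[>] 0) (𝓝 f2) := by
      have hs : HasDerivAt (fun x => f1 x - f1 (-x)) (2 * f2) 0 := by
        have h3 : HasDerivAt (fun x => f1 (-x)) (-f2) 0 := by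
          have h2' : HasDerivAt f1 f2 (-0) := by simpa using h2
          exact (HasDerivAt.comp (0 : ℝ) h2' (hasDerivAt_neg (0 : ℝ))).congr_deriv (by ring)
        exact (h2.sub h3).congr_deriv (by ring)
      have h4 := hs.tendsto_slope_zero_right
      have h5 : Tendsto (fun t : ℝ => (t⁻¹ • ((f1 (0 + t) - f1 (-(0 + t))) - (f1 0 - f1 (-0)))) / 2)
          (𝓝[>] 0) (𝓝 (2 * f2 / 2)) := h4.div_const 2
      have e : 2 * f2 / 2 = f2 := by ring
      rw [e] at h5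
      refine h5.congr' ?_
      filter_upwards [self_mem_nhdsWithin] with t ht
      have ht' : t ≠ 0 := (ne_of_gt ht)
      simp only [zero_add, neg_zero, sub_self, sub_zero, smul_eq_mul]
      field_simp
    refine HasDerivAt.lhopital_zero_nhdsGT (f := fun x => f x + f (-x) - 2 * f 0)
      (g := fun x => x ^ 2) (f' := fun t => f1 t - f1 (-t)) (g' := fun t => 2 * t) ?_ ?_ ?_ ?_ ?_ hlim
    · exact Eventually.of_forall fun t => hF t
    · exact Eventually.of_forall fun t => hG t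
    · filter_upwards [self_mem_nhdsWithin] with t ht
      have : (0 : ℝ) < t := ht
      positivity
    · have h := (hF 0).continuousAt.tendsto
      have e : f 0 + f (-0) - 2 * f 0 = 0 := by rw [neg_zero]; ring
      rw [e] at h
      exact h.mono_left nhdsWithin_le_nhds
    · have h := (hG 0).continuousAt.tendsto
      have e : (0 : ℝ) ^ 2 = 0 := by norm_num
      rw [e] at h
      exact h.mono_left nhdsWithin_le_nhds
  · have hs : HasDerivAt (fun x => f x - f (-x)) (2 * f1 0) 0 := by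
      exact ((h1 0).sub (hneg 0)).congr_deriv (by rw [neg_zero]; ring)
    have h4 := hs.tendsto_slope_zero_right
    refine h4.congr' ?_
    filter_upwards [self_mem_nhdsWithin] with t ht
    have ht' : t ≠ 0 := (ne_of_gt ht)
    simp only [zero_add, neg_zero, sub_self, sub_zero, smul_eq_mul]
    field_simp

/-- `3 × 3` determinant with rows `a`, `b`, `c` -/
def det3 (a₁ a₂ a₃ b₁ b₂ b₃ c₁ c₂ c₃ : ℝ) : ℝ :=
  c₁ * (a₂ * b₃ - a₃ * b₂) + c₂ * (a₃ * b₁ - a₁ * b₃) + c₃ * (a₁ * b₂ - a₂ * b₁)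

/-- the limiting linear system -/
theorem lin_solve {a₁ a₂ a₃ b₁ b₂ b₃ z₁ z₂ z₃ y₁ y₂ y₃ : ℝ}
    (hy : 0 < det3 a₁ a₂ a₃ b₁ b₂ b₃ y₁ y₂ y₃) (hz : det3 a₁ a₂ a₃ b₁ b₂ b₃ z₁ z₂ z₃ < 0) :
    ∃ τ k₀ k₁ : ℝ, 0 < τ ∧ τ * y₁ = k₀ * a₁ - 2 * k₁ * b₁ - z₁ / 2 ∧
      τ * y₂ = k₀ * a₂ - 2 * k₁ * b₂ - z₂ / 2 ∧ τ * y₃ = k₀ * a₃ - 2 * k₁ * b₃ - z₃ / 2 := by
  set Dy := det3 a₁ a₂ a₃ b₁ b₂ b₃ y₁ y₂ y₃ with hDy
  set Dz := det3 a₁ a₂ a₃ b₁ b₂ b₃ z₁ z₂ z₃ with hDz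
  set τ := -Dz / (2 * Dy) with hτ
  have hτ0 : 0 < τ := by
    rw [hτ]
    exact div_pos (by linarith) (by linarith)
  have hτe : 2 * Dy * τ = -Dz := by
    rw [hτ]
    field_simp
  set u₁ := τ * y₁ + z₁ / 2 with hu₁
  set u₂ := τ * y₂ + z₂ / 2 with hu₂
  set u₃ := τ * y₃ + z₃ / 2 with hu₃
  have hu : det3 a₁ a₂ a₃ b₁ b₂ b₃ u₁ u₂ u₃ = 0 := by
    have : det3 a₁ a₂ a₃ b₁ b₂ b₃ u₁ u₂ u₃ = τ * Dy + Dz / 2 := by
      rw [hu₁, hu₂, hu₃, hDy, hDz]
      unfold det3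
      ring
    rw [this]; linarith
  set α := det3 u₁ u₂ u₃ b₁ b₂ b₃ y₁ y₂ y₃ with hα
  set β := det3 a₁ a₂ a₃ u₁ u₂ u₃ y₁ y₂ y₃ with hβ
  have c1 : Dy * u₁ = α * a₁ + β * b₁ + det3 a₁ a₂ a₃ b₁ b₂ b₃ u₁ u₂ u₃ * y₁ := by
    rw [hDy, hα, hβ]; unfold det3; ring
  have c2 : Dy * u₂ = α * a₂ + β * b₂ + det3 a₁ a₂ a₃ b₁ b₂ b₃ u₁ u₂ u₃ * y₂ := by
    rw [hDy, hα, hβ]; unfold det3; ring
  have c3 : Dy * u₃ = α * a₃ + β * b₃ + det3 a₁ a₂ a₃ b₁ b₂ b₃ u₁ u₂ u₃ * y₃ := by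
    rw [hDy, hα, hβ]; unfold det3; ring
  rw [hu] at c1 c2 c3
  refine ⟨τ, α / Dy, -(β / Dy) / 2, hτ0, ?_, ?_, ?_⟩
  · have : u₁ = α / Dy * a₁ + β / Dy * b₁ := by field_simp; linarith
    linarith
  · have : u₂ = α / Dy * a₂ + β / Dy * b₂ := by field_simp; linarith
    linarith
  · have : u₃ = α / Dy * a₃ + β / Dy * b₃ := by field_simp; linarith
    linarith

/-- one component of the approximate equation -/
theorem comp_limit (f f1 : ℝ → ℝ) (f2 τ k₀ k₁ y : ℝ) (h1 : ∀ t, HasDerivAt f (f1 t) t)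
    (h2 : HasDerivAt f1 f2 0) (hτ : 0 < τ) (hy : τ * y = k₀ * f 0 - 2 * k₁ * f1 0 - f2 / 2) :
    Tendsto (fun t => (f 0 - (1 / 2 - k₀ * t ^ 2 / 2 + k₁ * t) * f t -
      (1 / 2 - k₀ * t ^ 2 / 2 - k₁ * t) * f (-t)) / (τ * t ^ 2)) (𝓝[>] 0) (𝓝 y) := by
  obtain ⟨l1, l2⟩ := sym_limits f f1 f2 h1 h2
  have l3 : Tendsto (fun t => f t + f (-t)) (𝓝[>] 0) (𝓝 (2 * f 0)) := by
    have hc : ContinuousAt (fun t => f t + f (-t)) 0 := by
      have a1 : ContinuousAt f 0 := (h1 0).continuousAt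
      have a2 : ContinuousAt (fun t => f (-t)) 0 := by
        have : ContinuousAt f (-0) := by simpa using a1
        exact this.comp continuous_neg.continuousAt
      exact a1.add a2
    have := hc.tendsto
    have e : f 0 + f (-0) = 2 * f 0 := by rw [neg_zero]; ring
    rw [e] at this
    exact this.mono_left nhdsWithin_le_nhds
  have l4 := (((l1.const_mul (-1 / 2)).add (l3.const_mul (k₀ / 2))).sub (l2.const_mul k₁)).div_const τ
  have e : (-1 / 2 * f2 + k₀ / 2 * (2 * f 0) - k₁ * (2 * f1 0)) / τ = y := by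
    rw [div_eq_iff hτ.ne']
    linarith
  rw [e] at l4
  refine l4.congr' ?_
  filter_upwards [self_mem_nhdsWithin] with t ht
  have ht' : t ≠ 0 := (ne_of_gt ht)
  field_simp
  ring

end Pool.Agent.LibRest
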