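import Pool.Agent.LibRest.S0

/-! **S1.**  `qk` in hyperbolic form and the derivatives of `t ↦ qk s`, `t ↦ qk (s-1) / qk s`. -/

open Filter Topology Real

namespace Pool.Agent.LibRest

/-! ### hyperbolic functions -/

theorem sinh_mul_ge {s x : ℝ} (hs : 1 ≤ s) (hx : 0 ≤ x) : s * sinh x ≤ sinh (s * x) := by
  have hmono : MonotoneOn (fun x => sinh (s * x) - s * sinh x) (Set.Ici 0) := by
    refine monotoneOn_of_deriv_nonneg (convex_Ici 0) (by fun_prop) (by fun_prop) ?_
    intro y hy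
    rw [interior_Ici] at hy
    have hy0 : 0 < y := hy
    have h1 : HasDerivAt (fun x => sinh (s * x) - s * sinh x) (cosh (s * y) * (s * 1) -
        s * cosh y) y := by
      have a := ((hasDerivAt_id y).const_mul s).sinh
      exact a.sub ((hasDerivAt_sinh y).const_mul s)
    rw [h1.deriv]
    have h2 : cosh y ≤ cosh (s * y) := by
      rw [cosh_le_cosh, abs_of_pos hy0, abs_of_nonneg (by positivity)]
      nlinarith
    nlinarith
  have := hmono (Set.mem_Ici.2 le_rfl) (Set.mem_Ici.2 hx) hx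
  simp only [mul_zero, sinh_zero, sub_zero] at this
  linarith

theorem tanh_mul_le {s x : ℝ} (hs : 1 ≤ s) (hx : 0 ≤ x) :
    cosh x * sinh (s * x) ≤ s * (sinh x * cosh (s * x)) := by
  have hmono : MonotoneOn (fun x => s * (sinh x * cosh (s * x)) - cosh x * sinh (s * x))
      (Set.Ici 0) := by
    refine monotoneOn_of_deriv_nonneg (convex_Ici 0) (by fun_prop) (by fun_prop) ?_
    intro y hy
    rw [interior_Ici] at hy
    have hy0 : 0 < y := hy
    have a := ((hasDerivAt_id y).const_mul s).cosh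
    have b := ((hasDerivAt_id y).const_mul s).sinh
    have h1 : HasDerivAt (fun x => s * (sinh x * cosh (s * x)) - cosh x * sinh (s * x))
        (s * (cosh y * cosh (s * y) + sinh y * (sinh (s * y) * (s * 1))) -
          (sinh y * sinh (s * y) + cosh y * (cosh (s * y) * (s * 1)))) y :=
      (((hasDerivAt_sinh y).mul a).const_mul s).sub ((hasDerivAt_cosh y).mul b)
    rw [h1.deriv]
    have h2 : 0 < sinh y := sinh_pos_iff.2 hy0
    have h3 : 0 < sinh (s * y) := sinh_pos_iff.2 (by positivity)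
    nlinarith [mul_pos h2 h3, mul_nonneg (mul_nonneg (by linarith : (0:ℝ) ≤ s - 1)
      (by linarith : (0:ℝ) ≤ s + 1)) (mul_pos h2 h3).le]
  have := hmono (Set.mem_Ici.2 le_rfl) (Set.mem_Ici.2 hx) hx
  simp only [mul_zero, sinh_zero, zero_mul, mul_zero, sub_zero, cosh_zero] at this
  linarith

/-- `G(l) = sinh ((s-1) l) / sinh (s l)` -/
noncomputable def Gl (s l : ℝ) : ℝ := cosh l - sinh l * (cosh (s * l) / sinh (s * l))
noncomputable def Gl1 (s l : ℝ) : ℝ :=
  sinh l - cosh l * (cosh (s * l) / sinh (s * l)) + s * sinh l / sinh (s * l) ^ 2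
noncomputable def Gl2 (s l : ℝ) : ℝ :=
  cosh l - sinh l * (cosh (s * l) / sinh (s * l)) + 2 * s * cosh l / sinh (s * l) ^ 2 -
    2 * s ^ 2 * sinh l * cosh (s * l) / sinh (s * l) ^ 3

theorem coth_deriv {s l : ℝ} (hs : 0 < s) (hl : 0 < l) :
    HasDerivAt (fun l => cosh (s * l) / sinh (s * l)) (-s / sinh (s * l) ^ 2) l := by
  have hp : sinh (s * l) ≠ 0 := (sinh_pos_iff.2 (by positivity)).ne'
  have a := ((hasDerivAt_id l).const_mul s).cosh
  have b := ((hasDerivAt_id l).const_mul s).sinh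
  refine (a.div b hp).congr_deriv ?_
  have h := cosh_sq (s * l)
  simp only [id]
  field_simp
  rw [h]
  ring

theorem Gl_deriv {s l : ℝ} (hs : 0 < s) (hl : 0 < l) : HasDerivAt (Gl s) (Gl1 s l) l := by
  have h := coth_deriv hs hl
  refine ((hasDerivAt_cosh l).sub ((hasDerivAt_sinh l).mul h)).congr_deriv ?_
  unfold Gl1
  ring

theorem Gl1_deriv {s l : ℝ} (hs : 0 < s) (hl : 0 < l) : HasDerivAt (Gl1 s) (Gl2 s l) l := by
  have h := coth_deriv hs hl
  have hp : sinh (s * l) ≠ 0 := (sinh_pos_iff.2 (by positivity)).ne'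
  have b := (((hasDerivAt_id l).const_mul s).sinh).pow 2
  have c := (((hasDerivAt_sinh l).const_mul s).div b (pow_ne_zero 2 hp))
  refine (((hasDerivAt_sinh l).sub ((hasDerivAt_cosh l).mul h)).add c).congr_deriv ?_
  unfold Gl2
  simp only [id, Pi.pow_apply]
  field_simp
  push_cast
  ring

theorem Gl_eq {s l : ℝ} (hs : 0 < s) (hl : 0 < l) :
    Gl s l = sinh ((s - 1) * l) / sinh (s * l) := by
  have hp : sinh (s * l) ≠ 0 := (sinh_pos_iff.2 (by positivity)).ne'
  unfold Gl
  rw [show (s - 1) * l = s * l - l by ring, sinh_sub]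
  field_simp

theorem Gl_pos {s l : ℝ} (hs : 1 < s) (hl : 0 < l) : 0 < Gl s l := by
  rw [Gl_eq (by linarith) hl]
  exact div_pos (sinh_pos_iff.2 (mul_pos (by linarith) hl)) (sinh_pos_iff.2 (by positivity))

theorem Gl1_nonpos {s l : ℝ} (hs : 1 < s) (hl : 0 < l) : Gl1 s l ≤ 0 := by
  have hp : 0 < sinh (s * l) := sinh_pos_iff.2 (by positivity)
  have e : Gl1 s l = (s * sinh l - sinh (s * l) * cosh ((s - 1) * l)) / sinh (s * l) ^ 2 := by
    unfold Gl1
    rw [show (s - 1) * l = s * l - l by ring, cosh_sub]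
    field_simp
    ring
  rw [e]
  refine div_nonpos_of_nonpos_of_nonneg ?_ (by positivity)
  have h1 := sinh_mul_ge hs.le hl.le
  have h2 : 1 ≤ cosh ((s - 1) * l) := one_le_cosh _
  nlinarith

theorem Gl_sub {s l : ℝ} (hs : 1 < s) (hl : 0 < l) : 0 ≤ Gl s l - Gl2 s l := by
  have hp : 0 < sinh (s * l) := sinh_pos_iff.2 (by positivity)
  have e : Gl s l - Gl2 s l = 2 * s / sinh (s * l) ^ 3 *
      (s * (sinh l * cosh (s * l)) - cosh l * sinh (s * l)) := by
    unfold Gl Gl2
    field_simp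
    ring
  rw [e]
  have := tanh_mul_le hs.le hl.le
  have h2 : 0 ≤ s * (sinh l * cosh (s * l)) - cosh l * sinh (s * l) := by linarith
  have hs0 : 0 < s := by linarith
  positivity

/-- `A(l) = sinh (s l) / sinh l` -/
noncomputable def Al (s l : ℝ) : ℝ := sinh (s * l) / sinh l
noncomputable def Al1 (s l : ℝ) : ℝ :=
  (cosh (s * l) * s * sinh l - sinh (s * l) * cosh l) / sinh l ^ 2

theorem Al_deriv {s l : ℝ} (hl : 0 < l) : HasDerivAt (Al s) (Al1 s l) l := by
  have hp : sinh l ≠ 0 := (sinh_pos_iff.2 hl).ne'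
  have b := ((hasDerivAt_id l).const_mul s).sinh
  refine (b.div (hasDerivAt_sinh l) hp).congr_deriv ?_
  unfold Al1
  simp only [id, mul_one]

theorem Al1_diff {s l : ℝ} (hl : 0 < l) : DifferentiableAt ℝ (Al1 s) l := by
  have hp : sinh l ^ 2 ≠ 0 := pow_ne_zero 2 (sinh_pos_iff.2 hl).ne'
  unfold Al1
  refine DifferentiableAt.div ?_ ?_ hp <;> fun_prop

theorem Al_pos {s l : ℝ} (hs : 0 < s) (hl : 0 < l) : 0 < Al s l :=
  div_pos (sinh_pos_iff.2 (by positivity)) (sinh_pos_iff.2 hl)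

end Pool.Agent.LibRest
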