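import Pool.Agent.LibRest.S1

/-! **S2.**  `qk` along `t ↦ (exp t * p, exp (-t) * w, r)`. -/

open Filter Topology Real

namespace Pool.Agent.LibRest

/-- the data of a positive definite `π = !![p, r; r, w]`, `r ≠ 0` -/
structure PD2 (s p r w : ℝ) : Prop where
  hs : 1 < s
  hp : 0 < p
  hr : 0 < r
  hw : 0 < w
  hd : r ^ 2 < p * w

noncomputable def rad (p r w t : ℝ) : ℝ := √((exp t * p - exp (-t) * w) ^ 2 + 4 * r ^ 2)
noncomputable def rho (p r w : ℝ) : ℝ := √(p * w - r ^ 2)
noncomputable def ll (p r w t : ℝ) : ℝ := log (LibSch.lamP (exp t * p) (exp (-t) * w) r / rho p r w)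
noncomputable def ll1 (p r w t : ℝ) : ℝ := (exp t * p - exp (-t) * w) / rad p r w t
noncomputable def ll2 (p r w t : ℝ) : ℝ :=
  (exp t * p + exp (-t) * w) / rad p r w t -
    (exp t * p - exp (-t) * w) ^ 2 * (exp t * p + exp (-t) * w) / rad p r w t ^ 3

variable {s p r w : ℝ}

theorem PD2.rad (H : PD2 s p r w) (t : ℝ) : 0 < rad p r w t := by
  unfold LibRest.rad
  have := H.hr
  positivity

theorem PD2.rad_sq (H : PD2 s p r w) (t : ℝ) :
    LibRest.rad p r w t ^ 2 = (exp t * p - exp (-t) * w) ^ 2 + 4 * r ^ 2 := by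
  unfold LibRest.rad
  rw [sq_sqrt (by positivity)]

theorem PD2.rho (H : PD2 s p r w) : 0 < rho p r w := by
  unfold LibRest.rho
  exact sqrt_pos.2 (by linarith [H.hd])

theorem PD2.rho_sq (H : PD2 s p r w) : LibRest.rho p r w ^ 2 = p * w - r ^ 2 := by
  unfold LibRest.rho
  rw [sq_sqrt (by linarith [H.hd])]

theorem exp_mul_neg (t : ℝ) : exp t * exp (-t) = 1 := by rw [← exp_add]; simp

theorem lamP_eq (p r w t : ℝ) : LibSch.lamP (exp t * p) (exp (-t) * w) r =
    (exp t * p + exp (-t) * w + rad p r w t) / 2 := rfl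

theorem lamM_eq (p r w t : ℝ) : LibSch.lamM (exp t * p) (exp (-t) * w) r =
    (exp t * p + exp (-t) * w - rad p r w t) / 2 := rfl

theorem PD2.prod (H : PD2 s p r w) (t : ℝ) : LibSch.lamP (exp t * p) (exp (-t) * w) r *
    LibSch.lamM (exp t * p) (exp (-t) * w) r = LibRest.rho p r w ^ 2 := by
  rw [lamP_eq, lamM_eq, H.rho_sq]
  have h1 := H.rad_sq t
  have h2 := exp_mul_neg t
  linear_combination (-1 / 4) * h1 + p * w * h2

theorem PD2.lamP (H : PD2 s p r w) (t : ℝ) : 0 < LibSch.lamP (exp t * p) (exp (-t) * w) r := by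
  rw [lamP_eq]
  have h1 := H.rad t
  have h2 := exp_pos t
  have h3 := exp_pos (-t)
  have := H.hp
  have := H.hw
  positivity

theorem PD2.lamM (H : PD2 s p r w) (t : ℝ) : 0 < LibSch.lamM (exp t * p) (exp (-t) * w) r := by
  have h1 := H.prod t
  have h2 := H.lamP t
  have h3 : 0 < LibRest.rho p r w ^ 2 := by have := H.rho; positivity
  rw [← h1] at h3
  exact (pos_iff_pos_of_mul_pos h3).1 h2

theorem PD2.ratio (H : PD2 s p r w) (t : ℝ) :
    1 < LibSch.lamP (exp t * p) (exp (-t) * w) r / LibRest.rho p r w := by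
  have h0 := H.rho
  rw [one_lt_div h0]
  have h1 := H.prod t
  have h2 := H.lamP t
  have h3 := H.lamM t
  have h4 := H.rad t
  have h5 : LibSch.lamM (exp t * p) (exp (-t) * w) r < LibSch.lamP (exp t * p) (exp (-t) * w) r := by
    rw [lamP_eq, lamM_eq]; linarith
  by_contra h
  push Not at h
  nlinarith

theorem PD2.ll (H : PD2 s p r w) (t : ℝ) : 0 < ll p r w t := log_pos (H.ratio t)

theorem PD2.exp_ll (H : PD2 s p r w) (t : ℝ) :
    LibSch.lamP (exp t * p) (exp (-t) * w) r = LibRest.rho p r w * exp (LibRest.ll p r w t) := by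
  unfold LibRest.ll
  rw [exp_log (by linarith [H.ratio t])]
  have := H.rho
  field_simp

theorem PD2.exp_neg_ll (H : PD2 s p r w) (t : ℝ) :
    LibSch.lamM (exp t * p) (exp (-t) * w) r = LibRest.rho p r w * exp (-LibRest.ll p r w t) := by
  have h1 := H.prod t
  have h2 := H.exp_ll t
  have h3 := H.lamP t
  have h4 := exp_mul_neg (LibRest.ll p r w t)
  have h5 : LibSch.lamP (exp t * p) (exp (-t) * w) r *
      (LibSch.lamM (exp t * p) (exp (-t) * w) r - LibRest.rho p r w * exp (-LibRest.ll p r w t)) =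
      0 := by
    rw [mul_sub, h1]
    conv_lhs => rw [h2]
    linear_combination (-(LibRest.rho p r w) ^ 2) * h4
  rcases mul_eq_zero.1 h5 with h | h
  · exact absurd h h3.ne'
  · linarith

theorem PD2.rad_eq (H : PD2 s p r w) (t : ℝ) :
    LibRest.rad p r w t = 2 * LibRest.rho p r w * sinh (LibRest.ll p r w t) := by
  have h1 := H.exp_ll t
  have h2 := H.exp_neg_ll t
  rw [lamP_eq] at h1
  rw [lamM_eq] at h2
  rw [sinh_eq]
  linarith

theorem PD2.tr_eq (H : PD2 s p r w) (t : ℝ) :
    exp t * p + exp (-t) * w = 2 * LibRest.rho p r w * cosh (LibRest.ll p r w t) := by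
  have h1 := H.exp_ll t
  have h2 := H.exp_neg_ll t
  rw [lamP_eq] at h1
  rw [lamM_eq] at h2
  rw [cosh_eq]
  linarith

theorem PD2.qk (H : PD2 s p r w) (k t : ℝ) : qk k (exp t * p) (exp (-t) * w) r =
    LibRest.rho p r w ^ (k - 1) * (sinh (k * LibRest.ll p r w t) / sinh (LibRest.ll p r w t)) := by
  have h0 := H.rho
  have hl := H.ll t
  have hs : 0 < sinh (LibRest.ll p r w t) := sinh_pos_iff.2 hl
  have e1 : ∀ x : ℝ, (LibRest.rho p r w * exp x) ^ k = LibRest.rho p r w ^ k * exp (k * x) := by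
    intro x
    rw [mul_rpow h0.le (exp_pos x).le, ← Real.exp_mul, mul_comm x k]
  unfold LibRest.qk
  rw [H.exp_ll t, H.exp_neg_ll t, e1, e1]
  have e2 : LibRest.rho p r w ^ k = LibRest.rho p r w ^ (k - 1) * LibRest.rho p r w := by
    rw [← rpow_add_one h0.ne']; ring_nf
  rw [e2, sinh_eq, sinh_eq, show k * -LibRest.ll p r w t = -(k * LibRest.ll p r w t) by ring]
  have hs' : exp (LibRest.ll p r w t) - exp (-LibRest.ll p r w t) ≠ 0 := by
    rw [sinh_eq] at hs
    linarith
  field_simp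

theorem PD2.exp_deriv (p w t : ℝ) : HasDerivAt (fun t => exp t * p - exp (-t) * w)
    (exp t * p + exp (-t) * w) t := by
  have a := (hasDerivAt_exp t).mul_const p
  have b := ((hasDerivAt_neg t).exp).mul_const w
  exact (a.sub b).congr_deriv (by ring)

theorem PD2.exp_deriv' (p w t : ℝ) : HasDerivAt (fun t => exp t * p + exp (-t) * w)
    (exp t * p - exp (-t) * w) t := by
  have a := (hasDerivAt_exp t).mul_const p
  have b := ((hasDerivAt_neg t).exp).mul_const w
  exact (a.add b).congr_deriv (by ring)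

theorem PD2.rad_deriv (H : PD2 s p r w) (t : ℝ) : HasDerivAt (LibRest.rad p r w)
    ((exp t * p - exp (-t) * w) * (exp t * p + exp (-t) * w) / LibRest.rad p r w t) t := by
  have h1 := H.rad t
  have h2 : (exp t * p - exp (-t) * w) ^ 2 + 4 * r ^ 2 ≠ 0 := by
    rw [← H.rad_sq t]; positivity
  have a := ((PD2.exp_deriv p w t).pow 2).add_const (4 * r ^ 2)
  have b := a.sqrt h2
  refine b.congr_deriv ?_
  change _ / (2 * LibRest.rad p r w t) = _
  push_cast
  field_simp

theorem PD2.ll_deriv (H : PD2 s p r w) (t : ℝ) :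
    HasDerivAt (LibRest.ll p r w) (ll1 p r w t) t := by
  have h0 := H.rho
  have h1 := H.rad t
  have h2 := H.lamP t
  have a := (((PD2.exp_deriv' p w t).add (H.rad_deriv t)).div_const 2).div_const
    (LibRest.rho p r w)
  have hne : (exp t * p + exp (-t) * w + LibRest.rad p r w t) / 2 / LibRest.rho p r w ≠ 0 := by
    rw [lamP_eq] at h2
    positivity
  have b := a.log hne
  refine b.congr_deriv ?_
  unfold ll1
  rw [lamP_eq] at h2
  simp only [Pi.add_apply]
  have h3 : exp t * p + exp (-t) * w + LibRest.rad p r w t ≠ 0 := by linarith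
  field_simp
  ring

theorem PD2.ll1_deriv (H : PD2 s p r w) (t : ℝ) :
    HasDerivAt (LibRest.ll1 p r w) (ll2 p r w t) t := by
  have h1 := H.rad t
  have a := (PD2.exp_deriv p w t).div (H.rad_deriv t) h1.ne'
  refine a.congr_deriv ?_
  unfold ll2
  field_simp

/-- `ph = qk s` -/
noncomputable def phf (s p r w t : ℝ) : ℝ := rho p r w ^ (s - 1) * Al s (ll p r w t)
noncomputable def phf1 (s p r w t : ℝ) : ℝ :=
  rho p r w ^ (s - 1) * (Al1 s (ll p r w t) * ll1 p r w t)
noncomputable def omf (s p r w t : ℝ) : ℝ := Gl s (ll p r w t) / rho p r w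
noncomputable def omf1 (s p r w t : ℝ) : ℝ := Gl1 s (ll p r w t) * ll1 p r w t / rho p r w
noncomputable def omf2 (s p r w t : ℝ) : ℝ :=
  (Gl2 s (ll p r w t) * ll1 p r w t * ll1 p r w t + Gl1 s (ll p r w t) * ll2 p r w t) / rho p r w

theorem PD2.phf_eq (H : PD2 s p r w) (t : ℝ) : LibRest.qk s (exp t * p) (exp (-t) * w) r =
    phf s p r w t := H.qk s t

theorem PD2.phf_pos (H : PD2 s p r w) (t : ℝ) : 0 < phf s p r w t := by
  have h0 := H.rho
  have := Al_pos (s := s) (by linarith [H.hs]) (H.ll t)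
  unfold phf
  positivity

theorem PD2.om_eq (H : PD2 s p r w) (t : ℝ) : LibRest.qk (s - 1) (exp t * p) (exp (-t) * w) r =
    omf s p r w t * phf s p r w t := by
  have h0 := H.rho
  have hs : 0 < s := by linarith [H.hs]
  have hl := H.ll t
  have h1 : 0 < sinh (s * LibRest.ll p r w t) := sinh_pos_iff.2 (by positivity)
  have h2 : 0 < sinh (LibRest.ll p r w t) := sinh_pos_iff.2 hl
  rw [H.qk (s - 1) t]
  unfold omf phf Al
  rw [Gl_eq hs hl]
  have e2 : LibRest.rho p r w ^ (s - 1) = LibRest.rho p r w ^ (s - 1 - 1) * LibRest.rho p r w := by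
    rw [← rpow_add_one h0.ne']; ring_nf
  rw [e2]
  field_simp

theorem PD2.phf_deriv (H : PD2 s p r w) (t : ℝ) : HasDerivAt (phf s p r w) (phf1 s p r w t) t :=
  (((Al_deriv (H.ll t)).comp t (H.ll_deriv t))).const_mul _

theorem PD2.phf1_diff (H : PD2 s p r w) (t : ℝ) : DifferentiableAt ℝ (phf1 s p r w) t := by
  have a : DifferentiableAt ℝ (fun t => Al1 s (LibRest.ll p r w t)) t :=
    (Al1_diff (H.ll t)).comp t (H.ll_deriv t).differentiableAt
  have b := (H.ll1_deriv t).differentiableAt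
  exact (a.mul b).const_mul _

theorem PD2.omf_deriv (H : PD2 s p r w) (t : ℝ) : HasDerivAt (omf s p r w) (omf1 s p r w t) t :=
  ((Gl_deriv (by linarith [H.hs]) (H.ll t)).comp t (H.ll_deriv t)).div_const _

theorem PD2.omf1_deriv (H : PD2 s p r w) (t : ℝ) :
    HasDerivAt (omf1 s p r w) (omf2 s p r w t) t := by
  have a := (Gl1_deriv (s := s) (by linarith [H.hs]) (H.ll t)).comp t (H.ll_deriv t)
  have b := (a.mul (H.ll1_deriv t)).div_const (LibRest.rho p r w)
  exact b

/-- `ω - ω'' > 0` -/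
theorem PD2.om_pos (H : PD2 s p r w) (t : ℝ) : 0 < omf s p r w t - omf2 s p r w t := by
  have h0 := H.rho
  have hl := H.ll t
  have hR := H.rad t
  have hs : 1 < s := H.hs
  have h1 := Gl_pos hs hl
  have h2 := Gl1_nonpos hs hl
  have h3 := Gl_sub hs hl
  have hsh : 0 < sinh (LibRest.ll p r w t) := sinh_pos_iff.2 hl
  have hch : 0 < cosh (LibRest.ll p r w t) := cosh_pos _
  set l := LibRest.ll p r w t with hll
  set u := ll1 p r w t with hu
  have e1 : ll2 p r w t = (1 - u ^ 2) * (cosh l / sinh l) := by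
    have : cosh l / sinh l = (exp t * p + exp (-t) * w) / LibRest.rad p r w t := by
      rw [H.tr_eq t, H.rad_eq t, ← hll]
      field_simp
    rw [this, hu]
    unfold ll2 ll1
    field_simp
  have hu1 : u ^ 2 ≤ 1 := by
    rw [hu]
    unfold ll1
    rw [div_pow, div_le_one (by positivity), H.rad_sq t]
    have := sq_nonneg r
    linarith
  have e2 : omf s p r w t - omf2 s p r w t = ((1 - u ^ 2) * (Gl s l - cosh l / sinh l * Gl1 s l) +
      u ^ 2 * (Gl s l - Gl2 s l)) / LibRest.rho p r w := by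
    unfold omf omf2
    rw [← hll, ← hu, e1]
    ring
  rw [e2]
  refine div_pos ?_ h0
  have h4 : 0 < Gl s l - cosh l / sinh l * Gl1 s l := by
    have : cosh l / sinh l * Gl1 s l ≤ 0 := mul_nonpos_of_nonneg_of_nonpos (by positivity) h2
    linarith
  rcases eq_or_lt_of_le hu1 with h5 | h5
  · -- `u² = 1` is impossible since `r > 0`
    exfalso
    rw [hu] at h5
    unfold ll1 at h5
    rw [div_pow, div_eq_one_iff_eq (by positivity), H.rad_sq t] at h5
    have := H.hr
    nlinarith
  · have : 0 < (1 - u ^ 2) * (Gl s l - cosh l / sinh l * Gl1 s l) := mul_pos (by linarith) h4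
    have : 0 ≤ u ^ 2 * (Gl s l - Gl2 s l) := by positivity
    linarith

end Pool.Agent.LibRest
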