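import Pool.Agent.LibRest.S2

/-! **S3.**  The scalar `2 × 2` system (R5s). -/

open Filter Topology Real

namespace Pool.Agent.LibRest

noncomputable def pi11 (a e₁ e₂ c s : ℝ) : ℝ := c ^ 2 * e₁ ^ (2 * a) + s ^ 2 * e₂ ^ (2 * a)
noncomputable def pi22 (a e₁ e₂ c s : ℝ) : ℝ := s ^ 2 * e₁ ^ (2 * a) + c ^ 2 * e₂ ^ (2 * a)
noncomputable def pi12 (a e₁ e₂ c s : ℝ) : ℝ := c * s * (e₁ ^ (2 * a) - e₂ ^ (2 * a))

/-! ### the functions -/

section fns

variable {s p r w : ℝ}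

noncomputable def f11 (s p r w t : ℝ) : ℝ := phf s p r w t * (exp t - omf s p r w t * w)
noncomputable def f12 (s p r w t : ℝ) : ℝ := phf s p r w t * (omf s p r w t * r)
noncomputable def f22 (s p r w t : ℝ) : ℝ := phf s p r w t * (exp (-t) - omf s p r w t * p)

theorem PD2.n11_eq (H : PD2 s p r w) (t : ℝ) : n11 s p r w t = f11 s p r w t := by
  unfold n11 f11
  rw [H.phf_eq, H.om_eq]
  ring

theorem PD2.n12_eq (H : PD2 s p r w) (t : ℝ) : n12 s p r w t = f12 s p r w t := by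
  unfold n12 f12
  rw [H.om_eq]
  ring

theorem PD2.n22_eq (H : PD2 s p r w) (t : ℝ) : n22 s p r w t = f22 s p r w t := by
  unfold n22 f22
  rw [H.phf_eq, H.om_eq]
  ring

theorem PD2.phf1_deriv (H : PD2 s p r w) :
    HasDerivAt (phf1 s p r w) (deriv (phf1 s p r w) 0) 0 := (H.phf1_diff 0).hasDerivAt

theorem exp_neg_deriv (t : ℝ) : HasDerivAt (fun t => exp (-t)) (-exp (-t)) t :=
  ((hasDerivAt_neg t).exp).congr_deriv (by ring)

theorem PD2.f11_deriv (H : PD2 s p r w) (t : ℝ) : HasDerivAt (f11 s p r w)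
    (phf1 s p r w t * (exp t - omf s p r w t * w) +
      phf s p r w t * (exp t - omf1 s p r w t * w)) t :=
  (H.phf_deriv t).mul ((hasDerivAt_exp t).sub ((H.omf_deriv t).mul_const w))

theorem PD2.f12_deriv (H : PD2 s p r w) (t : ℝ) : HasDerivAt (f12 s p r w)
    (phf1 s p r w t * (omf s p r w t * r) + phf s p r w t * (omf1 s p r w t * r)) t :=
  (H.phf_deriv t).mul ((H.omf_deriv t).mul_const r)

theorem PD2.f22_deriv (H : PD2 s p r w) (t : ℝ) : HasDerivAt (f22 s p r w)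
    (phf1 s p r w t * (exp (-t) - omf s p r w t * p) +
      phf s p r w t * (-exp (-t) - omf1 s p r w t * p)) t :=
  (H.phf_deriv t).mul ((exp_neg_deriv t).sub ((H.omf_deriv t).mul_const p))

theorem PD2.f11_deriv2 (H : PD2 s p r w) : HasDerivAt (fun t =>
    phf1 s p r w t * (exp t - omf s p r w t * w) + phf s p r w t * (exp t - omf1 s p r w t * w))
    (deriv (phf1 s p r w) 0 * (1 - omf s p r w 0 * w) +
      2 * (phf1 s p r w 0 * (1 - omf1 s p r w 0 * w)) +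
      phf s p r w 0 * (1 - omf2 s p r w 0 * w)) 0 := by
  have a := H.phf1_deriv.mul ((hasDerivAt_exp 0).sub ((H.omf_deriv 0).mul_const w))
  have b := (H.phf_deriv 0).mul ((hasDerivAt_exp 0).sub ((H.omf1_deriv 0).mul_const w))
  refine (a.add b).congr_deriv ?_
  simp only [Pi.sub_apply, exp_zero]
  ring

theorem PD2.f12_deriv2 (H : PD2 s p r w) : HasDerivAt (fun t =>
    phf1 s p r w t * (omf s p r w t * r) + phf s p r w t * (omf1 s p r w t * r))
    (deriv (phf1 s p r w) 0 * (omf s p r w 0 * r) + 2 * (phf1 s p r w 0 * (omf1 s p r w 0 * r)) +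
      phf s p r w 0 * (omf2 s p r w 0 * r)) 0 := by
  have a := H.phf1_deriv.mul ((H.omf_deriv 0).mul_const r)
  have b := (H.phf_deriv 0).mul ((H.omf1_deriv 0).mul_const r)
  refine (a.add b).congr_deriv ?_
  ring

theorem PD2.f22_deriv2 (H : PD2 s p r w) : HasDerivAt (fun t =>
    phf1 s p r w t * (exp (-t) - omf s p r w t * p) +
      phf s p r w t * (-exp (-t) - omf1 s p r w t * p))
    (deriv (phf1 s p r w) 0 * (1 - omf s p r w 0 * p) +
      2 * (phf1 s p r w 0 * (-1 - omf1 s p r w 0 * p)) +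
      phf s p r w 0 * (1 - omf2 s p r w 0 * p)) 0 := by
  have a := H.phf1_deriv.mul ((exp_neg_deriv 0).sub ((H.omf_deriv 0).mul_const p))
  have b := (H.phf_deriv 0).mul ((exp_neg_deriv 0).neg.sub ((H.omf1_deriv 0).mul_const p))
  refine (a.add b).congr_deriv ?_
  simp only [Pi.sub_apply, Pi.neg_apply, neg_zero, exp_zero]
  ring

/-- **the exact solution** for small `t`, given the sign of the determinant of the target -/
theorem PD2.exact (H : PD2 s p r w) {y₁ y₂ y₃ : ℝ}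
    (hy : 0 < det3 (1 - omf s p r w 0 * w) (omf s p r w 0 * r) (1 - omf s p r w 0 * p)
      (1 - omf1 s p r w 0 * w) (omf1 s p r w 0 * r) (-1 - omf1 s p r w 0 * p) y₁ y₂ y₃) :
    ∀ᶠ t in 𝓝[>] (0 : ℝ), ∃ M cp cm : ℝ, 0 < M ∧ 0 < cp ∧ 0 < cm ∧
      M * n11 s p r w 0 - cp * n11 s p r w t - cm * n11 s p r w (-t) = y₁ ∧
      M * n12 s p r w 0 - cp * n12 s p r w t - cm * n12 s p r w (-t) = y₂ ∧
      M * n22 s p r w 0 - cp * n22 s p r w t - cm * n22 s p r w (-t) = y₃ := by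
  have hph := H.phf_pos 0
  have hom := H.om_pos 0
  have hr := H.hr
  obtain ⟨q1, d1⟩ := sym_limits _ _ _ H.f11_deriv H.f11_deriv2
  obtain ⟨q2, d2⟩ := sym_limits _ _ _ H.f12_deriv H.f12_deriv2
  obtain ⟨q3, d3⟩ := sym_limits _ _ _ H.f22_deriv H.f22_deriv2
  have e1 : f11 s p r w 0 = phf s p r w 0 * (1 - omf s p r w 0 * w) := by
    unfold f11; rw [exp_zero]
  have e2 : f12 s p r w 0 = phf s p r w 0 * (omf s p r w 0 * r) := rfl
  have e3 : f22 s p r w 0 = phf s p r w 0 * (1 - omf s p r w 0 * p) := by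
    unfold f22; rw [neg_zero, exp_zero]
  have g1 : phf1 s p r w 0 * (exp 0 - omf s p r w 0 * w) + phf s p r w 0 *
      (exp 0 - omf1 s p r w 0 * w) = phf1 s p r w 0 * (1 - omf s p r w 0 * w) +
      phf s p r w 0 * (1 - omf1 s p r w 0 * w) := by rw [exp_zero]
  have g3 : phf1 s p r w 0 * (exp (-0) - omf s p r w 0 * p) + phf s p r w 0 *
      (-exp (-0) - omf1 s p r w 0 * p) = phf1 s p r w 0 * (1 - omf s p r w 0 * p) +
      phf s p r w 0 * (-1 - omf1 s p r w 0 * p) := by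
    rw [neg_zero, exp_zero]
  rw [g1] at d1
  rw [g3] at d3
  set P := phf s p r w 0 with hP
  set P1 := phf1 s p r w 0 with hP1
  set P2 := deriv (phf1 s p r w) 0 with hP2
  set o := omf s p r w 0 with ho
  set o1 := omf1 s p r w 0 with ho1
  set o2 := omf2 s p r w 0 with ho2
  -- the moving vectors
  set D1 : ℝ → ℝ := fun t => (f11 s p r w t - f11 s p r w (-t)) / t with hD1
  set D2 : ℝ → ℝ := fun t => (f12 s p r w t - f12 s p r w (-t)) / t with hD2
  set D3 : ℝ → ℝ := fun t => (f22 s p r w t - f22 s p r w (-t)) / t with hD3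
  set Q1 : ℝ → ℝ := fun t => (f11 s p r w t + f11 s p r w (-t) - 2 * f11 s p r w 0) / t ^ 2 with hQ1
  set Q2 : ℝ → ℝ := fun t => (f12 s p r w t + f12 s p r w (-t) - 2 * f12 s p r w 0) / t ^ 2 with hQ2
  set Q3 : ℝ → ℝ := fun t => (f22 s p r w t + f22 s p r w (-t) - 2 * f22 s p r w 0) / t ^ 2 with hQ3
  set N1 := f11 s p r w 0 with hN1
  set N2 := f12 s p r w 0 with hN2
  set N3 := f22 s p r w 0 with hN3
  -- the determinants
  have lΔ : Tendsto (fun t => det3 N1 N2 N3 (D1 t) (D2 t) (D3 t) (Q1 t) (Q2 t) (Q3 t)) (𝓝[>] 0)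
      (𝓝 (-(2 * (P ^ 3 * (2 * r * (o - o2)))))) := by
    have h := (((q1.mul ((d3.const_mul N2).sub (d2.const_mul N3)))).add
      (q2.mul ((d1.const_mul N3).sub (d3.const_mul N1)))).add
      (q3.mul ((d2.const_mul N1).sub (d1.const_mul N2)))
    refine (h.congr' (Eventually.of_forall fun t => ?_)).trans (le_of_eq (congrArg 𝓝 ?_))
    · rfl
    · rw [e1, e2, e3]; ring
  have lΓ : Tendsto (fun t => det3 N1 N2 N3 (D1 t) (D2 t) (D3 t) y₁ y₂ y₃) (𝓝[>] 0)
      (𝓝 (2 * P ^ 2 * det3 (1 - o * w) (o * r) (1 - o * p) (1 - o1 * w) (o1 * r)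
        (-1 - o1 * p) y₁ y₂ y₃)) := by
    have h := ((((d3.const_mul N2).sub (d2.const_mul N3)).const_mul y₁).add
      (((d1.const_mul N3).sub (d3.const_mul N1)).const_mul y₂)).add
      (((d2.const_mul N1).sub (d1.const_mul N2)).const_mul y₃)
    refine (h.congr' (Eventually.of_forall fun t => ?_)).trans (le_of_eq (congrArg 𝓝 ?_))
    · rfl
    · rw [e1, e2, e3]; unfold det3; ring
  have lB : ∃ L, Tendsto (fun t => det3 N1 N2 N3 y₁ y₂ y₃ (Q1 t) (Q2 t) (Q3 t)) (𝓝[>] 0)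
      (𝓝 L) := ⟨_, ((q1.mul_const (N2 * y₃ - N3 * y₂)).add (q2.mul_const (N3 * y₁ - N1 * y₃))).add
        (q3.mul_const (N1 * y₂ - N2 * y₁))⟩
  have lA : ∃ L, Tendsto (fun t => det3 y₁ y₂ y₃ (D1 t) (D2 t) (D3 t) (Q1 t) (Q2 t) (Q3 t))
      (𝓝[>] 0) (𝓝 L) := ⟨_, (((q1.mul ((d3.const_mul y₂).sub (d2.const_mul y₃)))).add
      (q2.mul ((d1.const_mul y₃).sub (d3.const_mul y₁)))).add
      (q3.mul ((d2.const_mul y₁).sub (d1.const_mul y₂)))⟩
  obtain ⟨LB, lB⟩ := lB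
  obtain ⟨LA, lA⟩ := lA
  have hΔ0 : -(2 * (P ^ 3 * (2 * r * (o - o2)))) < 0 := by
    have : 0 < 2 * (P ^ 3 * (2 * r * (o - o2))) := by positivity
    linarith
  have hΓ0 : 0 < 2 * P ^ 2 * det3 (1 - o * w) (o * r) (1 - o * p) (1 - o1 * w) (o1 * r)
        (-1 - o1 * p) y₁ y₂ y₃ := by positivity
  have mΓ := lΓ.div lΔ hΔ0.ne
  have mB := lB.div lΔ hΔ0.ne
  have mA := lA.div lΔ hΔ0.ne
  set g := 2 * P ^ 2 * det3 (1 - o * w) (o * r) (1 - o * p) (1 - o1 * w) (o1 * r)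
        (-1 - o1 * p) y₁ y₂ y₃ / -(2 * (P ^ 3 * (2 * r * (o - o2)))) with hg
  have hg0 : g < 0 := div_neg_of_pos_of_neg hΓ0 hΔ0
  have lt : Tendsto (fun t : ℝ => t) (𝓝[>] 0) (𝓝 0) := tendsto_id.mono_left nhdsWithin_le_nhds
  have lM := ((mA.mul (lt.pow 2)).sub (mΓ.const_mul 2)).eventually_const_lt
    (u := 0) (by simp only [ne_eq, OfNat.ofNat_ne_zero, not_false_eq_true, zero_pow, mul_zero]
                 linarith)
  have lp := ((mB.mul lt).add mΓ).eventually_lt_const (u := 0) (by simp only [mul_zero]; linarith)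
  have lm := ((mB.mul lt).sub mΓ).eventually_const_lt (u := 0) (by simp only [mul_zero]; linarith)
  have lD := lΔ.eventually_lt_const (u := 0) hΔ0
  filter_upwards [lM, lp, lm, lD, self_mem_nhdsWithin] with t h1 h2 h3 h4 h0
  have ht : (0 : ℝ) < t := h0
  simp only [Pi.div_apply] at h1 h2 h3
  set Δ := det3 N1 N2 N3 (D1 t) (D2 t) (D3 t) (Q1 t) (Q2 t) (Q3 t) with hΔ
  set Γ := det3 N1 N2 N3 (D1 t) (D2 t) (D3 t) y₁ y₂ y₃ with hΓ
  set B := det3 N1 N2 N3 y₁ y₂ y₃ (Q1 t) (Q2 t) (Q3 t) with hB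
  set A := det3 y₁ y₂ y₃ (D1 t) (D2 t) (D3 t) (Q1 t) (Q2 t) (Q3 t) with hA
  have hΔn : Δ ≠ 0 := h4.ne
  have c1 : y₁ = A / Δ * N1 + B / Δ * D1 t + Γ / Δ * Q1 t := by
    have : Δ * y₁ = A * N1 + B * D1 t + Γ * Q1 t := by
      rw [hΔ, hA, hB, hΓ]; unfold det3; ring
    field_simp
    linarith
  have c2 : y₂ = A / Δ * N2 + B / Δ * D2 t + Γ / Δ * Q2 t := by
    have : Δ * y₂ = A * N2 + B * D2 t + Γ * Q2 t := by
      rw [hΔ, hA, hB, hΓ]; unfold det3; ring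
    field_simp
    linarith
  have c3 : y₃ = A / Δ * N3 + B / Δ * D3 t + Γ / Δ * Q3 t := by
    have : Δ * y₃ = A * N3 + B * D3 t + Γ * Q3 t := by
      rw [hΔ, hA, hB, hΓ]; unfold det3; ring
    field_simp
    linarith
  refine ⟨A / Δ - 2 * (Γ / Δ) / t ^ 2, -(B / Δ / t + Γ / Δ / t ^ 2), B / Δ / t - Γ / Δ / t ^ 2,
    ?_, ?_, ?_, ?_, ?_, ?_⟩
  · have e : A / Δ - 2 * (Γ / Δ) / t ^ 2 = (A / Δ * t ^ 2 - 2 * (Γ / Δ)) / t ^ 2 := by
      field_simp
    rw [e]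
    exact div_pos h1 (by positivity)
  · have e : -(B / Δ / t + Γ / Δ / t ^ 2) = -(B / Δ * t + Γ / Δ) / t ^ 2 := by
      field_simp
    rw [e]
    exact div_pos (by linarith) (by positivity)
  · have e : B / Δ / t - Γ / Δ / t ^ 2 = (B / Δ * t - Γ / Δ) / t ^ 2 := by
      field_simp
    rw [e]
    exact div_pos h3 (by positivity)
  · rw [H.n11_eq, H.n11_eq, H.n11_eq]
    conv_rhs => rw [c1]
    simp only [hD1, hQ1]
    rw [← hN1]
    generalize A / Δ = A'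
    generalize B / Δ = B'
    generalize Γ / Δ = Γ'
    field_simp
    ring
  · rw [H.n12_eq, H.n12_eq, H.n12_eq]
    conv_rhs => rw [c2]
    simp only [hD2, hQ2]
    rw [← hN2]
    generalize A / Δ = A'
    generalize B / Δ = B'
    generalize Γ / Δ = Γ'
    field_simp
    ring
  · rw [H.n22_eq, H.n22_eq, H.n22_eq]
    conv_rhs => rw [c3]
    simp only [hD3, hQ3]
    rw [← hN3]
    generalize A / Δ = A'
    generalize B / Δ = B'
    generalize Γ / Δ = Γ'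
    field_simp
    ring

end fns

end Pool.Agent.LibRest
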