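import Pool.Agent.LibRest.S3

/-! **S4.**  The scalar `2 × 2` system (R5s): the determinant in terms of `L12` and the solution. -/

open Filter Topology Real

namespace Pool.Agent.LibRest

/-- first reduction of the determinant -/
theorem det_red (c s x₁ x₂ o o1 X Z : ℝ) (hcs : c ^ 2 + s ^ 2 = 1) :
    det3 (1 - o * (s ^ 2 * x₁ + c ^ 2 * x₂)) (o * (c * s * (x₁ - x₂)))
      (1 - o * (c ^ 2 * x₁ + s ^ 2 * x₂)) (1 - o1 * (s ^ 2 * x₁ + c ^ 2 * x₂))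
      (o1 * (c * s * (x₁ - x₂))) (-1 - o1 * (c ^ 2 * x₁ + s ^ 2 * x₂))
      ((c * X - s * Z) ^ 2) ((c * X - s * Z) * (s * X + c * Z)) ((s * X + c * Z) ^ 2) =
    2 * (c * s) * (1 - o * x₁) * X ^ 2 - 2 * (c * s) * (1 - o * x₂) * Z ^ 2 +
      ((c ^ 2 - s ^ 2) * (2 - o * (x₁ + x₂)) + o1 * (x₁ - x₂)) * (X * Z) := by
  have e1 : (c * X - s * Z) ^ 2 + (s * X + c * Z) ^ 2 = X ^ 2 + Z ^ 2 := by
    linear_combination (X ^ 2 + Z ^ 2) * hcs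
  have e2 : (c ^ 2 * x₁ + s ^ 2 * x₂) + (s ^ 2 * x₁ + c ^ 2 * x₂) = x₁ + x₂ := by
    linear_combination (x₁ + x₂) * hcs
  have e3 : det3 (1 - o * (s ^ 2 * x₁ + c ^ 2 * x₂)) (o * (c * s * (x₁ - x₂)))
      (1 - o * (c ^ 2 * x₁ + s ^ 2 * x₂)) (1 - o1 * (s ^ 2 * x₁ + c ^ 2 * x₂))
      (o1 * (c * s * (x₁ - x₂))) (-1 - o1 * (c ^ 2 * x₁ + s ^ 2 * x₂))
      ((c * X - s * Z) ^ 2) ((c * X - s * Z) * (s * X + c * Z)) ((s * X + c * Z) ^ 2) =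
      -(c * s * (x₁ - x₂)) * o * ((c * X - s * Z) ^ 2 + (s * X + c * Z) ^ 2) +
      c * s * (x₁ - x₂) * o1 * ((s * X + c * Z) ^ 2 - (c * X - s * Z) ^ 2) +
      (2 - o * ((c ^ 2 * x₁ + s ^ 2 * x₂) + (s ^ 2 * x₁ + c ^ 2 * x₂)) +
        o1 * ((c ^ 2 - s ^ 2) * (x₁ - x₂))) * ((c * X - s * Z) * (s * X + c * Z)) := by
    unfold det3
    ring
  rw [e3, e1, e2]
  linear_combination (o1 * (x₁ - x₂) * X * Z * (c ^ 2 + s ^ 2 + 1)) * hcs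

/-- the determinant in terms of `L12` -/
theorem det_L12 {a c s x₁ x₂ y₁ y₂ X Z : ℝ} (ha : a ≠ 0) (hx₁ : x₁ ≠ 0) (hx₂ : x₂ ≠ 0)
    (hy₁ : y₁ ≠ 0) (hy₂ : y₂ ≠ 0) (hy : y₁ - y₂ ≠ 0) (hcs : c ^ 2 + s ^ 2 = 1) {o o1 : ℝ}
    (ho : o = (x₂ * y₁ - x₁ * y₂) / (x₁ * x₂ * (y₁ - y₂)))
    (ho1 : o1 = (c ^ 2 - s ^ 2) / (x₁ * x₂) *
      (2 * (1 / a) * (x₁ - x₂) * (y₁ * y₂) / (y₁ - y₂) ^ 2 - (x₁ * y₂ + x₂ * y₁) / (y₁ - y₂))) :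
    det3 (1 - o * (s ^ 2 * x₁ + c ^ 2 * x₂)) (o * (c * s * (x₁ - x₂)))
      (1 - o * (c ^ 2 * x₁ + s ^ 2 * x₂)) (1 - o1 * (s ^ 2 * x₁ + c ^ 2 * x₂))
      (o1 * (c * s * (x₁ - x₂))) (-1 - o1 * (c ^ 2 * x₁ + s ^ 2 * x₂))
      ((c * X - s * Z) ^ 2) ((c * X - s * Z) * (s * X + c * Z)) ((s * X + c * Z) ^ 2) =
    2 * (1 / a) * (x₁ - x₂) * (y₁ * y₂) / (x₁ * x₂ * (y₁ - y₂)) *
      (c * s * (a * (x₁ / y₁) * X ^ 2) - c * s * (a * (x₂ / y₂) * Z ^ 2) +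
        (c ^ 2 - s ^ 2) * ((x₁ - x₂) / (y₁ - y₂) * (X * Z))) := by
  rw [det_red c s x₁ x₂ o o1 X Z hcs]
  have h1 : 1 - o * x₁ = y₂ * (x₁ - x₂) / (x₂ * (y₁ - y₂)) := by
    rw [ho]; field_simp; ring
  have h2 : 1 - o * x₂ = y₁ * (x₁ - x₂) / (x₁ * (y₁ - y₂)) := by
    rw [ho]; field_simp; ring
  have h3 : 2 - o * (x₁ + x₂) = (x₁ - x₂) * (x₂ * y₁ + x₁ * y₂) / (x₁ * x₂ * (y₁ - y₂)) := by
    rw [ho]; field_simp; ring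
  rw [h1, h2, h3, ho1]
  field_simp
  ring

variable {a e₁ e₂ c s : ℝ}

/-- the data -/
theorem pd2 (ha : 0 < a) (ha2 : 2 * a < 1) (he₂ : 0 < e₂) (he : e₂ < e₁) (hc : 0 < c)
    (hs : 0 < s) (hcs : c ^ 2 + s ^ 2 = 1) :
    PD2 (1 / a) (pi11 a e₁ e₂ c s) (pi12 a e₁ e₂ c s) (pi22 a e₁ e₂ c s) := by
  have he₁ : 0 < e₁ := he₂.trans he
  have h1 : 0 < e₁ ^ (2 * a) := rpow_pos_of_pos he₁ _
  have h2 : 0 < e₂ ^ (2 * a) := rpow_pos_of_pos he₂ _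
  have h3 : e₂ ^ (2 * a) < e₁ ^ (2 * a) := rpow_lt_rpow he₂.le he (by linarith)
  refine ⟨?_, ?_, ?_, ?_, ?_⟩
  · rw [lt_div_iff₀ ha]; linarith
  · unfold pi11; positivity
  · unfold pi12
    exact mul_pos (mul_pos hc hs) (by linarith)
  · unfold pi22; positivity
  · have e : pi11 a e₁ e₂ c s * pi22 a e₁ e₂ c s - pi12 a e₁ e₂ c s ^ 2 =
        e₁ ^ (2 * a) * e₂ ^ (2 * a) := by
      unfold pi11 pi22 pi12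
      linear_combination (e₁ ^ (2 * a) * e₂ ^ (2 * a) * (c ^ 2 + s ^ 2 + 1)) * hcs
    have : 0 < e₁ ^ (2 * a) * e₂ ^ (2 * a) := mul_pos h1 h2
    linarith

theorem pi_det (hcs : c ^ 2 + s ^ 2 = 1) :
    pi11 a e₁ e₂ c s * pi22 a e₁ e₂ c s - pi12 a e₁ e₂ c s ^ 2 =
      e₁ ^ (2 * a) * e₂ ^ (2 * a) := by
  unfold pi11 pi22 pi12
  linear_combination (e₁ ^ (2 * a) * e₂ ^ (2 * a) * (c ^ 2 + s ^ 2 + 1)) * hcs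

theorem rad_zero (ha : 0 < a) (he₂ : 0 < e₂) (he : e₂ < e₁) (hcs : c ^ 2 + s ^ 2 = 1) :
    rad (pi11 a e₁ e₂ c s) (pi12 a e₁ e₂ c s) (pi22 a e₁ e₂ c s) 0 =
      e₁ ^ (2 * a) - e₂ ^ (2 * a) := by
  have h3 : e₂ ^ (2 * a) < e₁ ^ (2 * a) := rpow_lt_rpow he₂.le he (by linarith)
  unfold rad
  rw [neg_zero, exp_zero, one_mul, one_mul]
  have e : (pi11 a e₁ e₂ c s - pi22 a e₁ e₂ c s) ^ 2 + 4 * pi12 a e₁ e₂ c s ^ 2 =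
      (e₁ ^ (2 * a) - e₂ ^ (2 * a)) ^ 2 := by
    unfold pi11 pi22 pi12
    linear_combination ((e₁ ^ (2 * a) - e₂ ^ (2 * a)) ^ 2 * (c ^ 2 + s ^ 2 + 1)) * hcs
  rw [e, sqrt_sq (by linarith)]

theorem pi_tr (hcs : c ^ 2 + s ^ 2 = 1) :
    pi11 a e₁ e₂ c s + pi22 a e₁ e₂ c s = e₁ ^ (2 * a) + e₂ ^ (2 * a) := by
  unfold pi11 pi22
  linear_combination (e₁ ^ (2 * a) + e₂ ^ (2 * a)) * hcs

theorem ll_zero (ha : 0 < a) (he₂ : 0 < e₂) (he : e₂ < e₁) (hcs : c ^ 2 + s ^ 2 = 1) :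
    ll (pi11 a e₁ e₂ c s) (pi12 a e₁ e₂ c s) (pi22 a e₁ e₂ c s) 0 = a * log (e₁ / e₂) := by
  have he₁ : 0 < e₁ := he₂.trans he
  have h1 : 0 < e₁ ^ (2 * a) := rpow_pos_of_pos he₁ _
  have h2 : 0 < e₂ ^ (2 * a) := rpow_pos_of_pos he₂ _
  unfold ll
  rw [lamP_eq, rad_zero ha he₂ he hcs, neg_zero, exp_zero, one_mul, one_mul, pi_tr hcs]
  unfold rho
  rw [pi_det hcs]
  have e1 : (e₁ ^ (2 * a) + e₂ ^ (2 * a) + (e₁ ^ (2 * a) - e₂ ^ (2 * a))) / 2 =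
      (e₁ ^ a) ^ 2 := by
    rw [← rpow_natCast, ← rpow_mul he₁.le]
    push_cast
    rw [show a * 2 = 2 * a by ring]
    ring
  have e2 : e₁ ^ (2 * a) * e₂ ^ (2 * a) = (e₁ ^ a * e₂ ^ a) ^ 2 := by
    rw [mul_pow, ← rpow_natCast, ← rpow_natCast, ← rpow_mul he₁.le, ← rpow_mul he₂.le]
    push_cast
    rw [show a * 2 = 2 * a by ring]
  have h3 : 0 < e₁ ^ a := rpow_pos_of_pos he₁ _
  have h4 : 0 < e₂ ^ a := rpow_pos_of_pos he₂ _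
  rw [e1, e2, sqrt_sq (by positivity)]
  have e3 : (e₁ ^ a) ^ 2 / (e₁ ^ a * e₂ ^ a) = (e₁ / e₂) ^ a := by
    rw [div_rpow he₁.le he₂.le]
    field_simp
  rw [e3, log_rpow (by positivity)]

theorem hyp_zero (ha : 0 < a) (he₂ : 0 < e₂) (he : e₂ < e₁) (hcs : c ^ 2 + s ^ 2 = 1) :
    cosh (1 / a * ll (pi11 a e₁ e₂ c s) (pi12 a e₁ e₂ c s) (pi22 a e₁ e₂ c s) 0) =
      (e₁ ^ 2 + e₂ ^ 2) / (2 * (e₁ * e₂)) ∧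
    sinh (1 / a * ll (pi11 a e₁ e₂ c s) (pi12 a e₁ e₂ c s) (pi22 a e₁ e₂ c s) 0) =
      (e₁ ^ 2 - e₂ ^ 2) / (2 * (e₁ * e₂)) := by
  have he₁ : 0 < e₁ := he₂.trans he
  rw [ll_zero ha he₂ he hcs, show 1 / a * (a * log (e₁ / e₂)) = log (e₁ / e₂) by field_simp]
  constructor
  · rw [cosh_log (by positivity)]
    field_simp
  · rw [sinh_log (by positivity)]
    field_simp

theorem om_zero (ha : 0 < a) (ha2 : 2 * a < 1) (he₂ : 0 < e₂) (he : e₂ < e₁) (hc : 0 < c)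
    (hs : 0 < s) (hcs : c ^ 2 + s ^ 2 = 1) :
    omf (1 / a) (pi11 a e₁ e₂ c s) (pi12 a e₁ e₂ c s) (pi22 a e₁ e₂ c s) 0 =
      (e₂ ^ (2 * a) * e₁ ^ 2 - e₁ ^ (2 * a) * e₂ ^ 2) /
        (e₁ ^ (2 * a) * e₂ ^ (2 * a) * (e₁ ^ 2 - e₂ ^ 2)) ∧
    omf1 (1 / a) (pi11 a e₁ e₂ c s) (pi12 a e₁ e₂ c s) (pi22 a e₁ e₂ c s) 0 =
      (c ^ 2 - s ^ 2) / (e₁ ^ (2 * a) * e₂ ^ (2 * a)) *
      (2 * (1 / a) * (e₁ ^ (2 * a) - e₂ ^ (2 * a)) * (e₁ ^ 2 * e₂ ^ 2) / (e₁ ^ 2 - e₂ ^ 2) ^ 2 -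
        (e₁ ^ (2 * a) * e₂ ^ 2 + e₂ ^ (2 * a) * e₁ ^ 2) / (e₁ ^ 2 - e₂ ^ 2)) := by
  have he₁ : 0 < e₁ := he₂.trans he
  have H := pd2 ha ha2 he₂ he hc hs hcs
  have h1 : 0 < e₁ ^ (2 * a) := rpow_pos_of_pos he₁ _
  have h2 : 0 < e₂ ^ (2 * a) := rpow_pos_of_pos he₂ _
  have h3 : e₂ ^ (2 * a) < e₁ ^ (2 * a) := rpow_lt_rpow he₂.le he (by linarith)
  have h4 : 0 < e₁ ^ 2 - e₂ ^ 2 := by nlinarith
  obtain ⟨k1, k2⟩ := hyp_zero ha he₂ he hcs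
  have k3 := H.rad_eq 0
  have k4 := H.tr_eq 0
  have k5 := H.rho_sq
  have k6 := H.rho
  rw [rad_zero ha he₂ he hcs] at k3
  rw [neg_zero, exp_zero, one_mul, one_mul, pi_tr hcs] at k4
  rw [pi_det hcs] at k5
  have k7 : ll1 (pi11 a e₁ e₂ c s) (pi12 a e₁ e₂ c s) (pi22 a e₁ e₂ c s) 0 = c ^ 2 - s ^ 2 := by
    unfold ll1
    rw [rad_zero ha he₂ he hcs, neg_zero, exp_zero, one_mul, one_mul, div_eq_iff (by linarith)]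
    unfold pi11 pi22
    ring
  unfold omf omf1 Gl Gl1
  rw [k1, k2, k7]
  generalize ll (pi11 a e₁ e₂ c s) (pi12 a e₁ e₂ c s) (pi22 a e₁ e₂ c s) 0 = l at *
  generalize rho (pi11 a e₁ e₂ c s) (pi12 a e₁ e₂ c s) (pi22 a e₁ e₂ c s) = ρ at *
  have k8 : sinh l = (e₁ ^ (2 * a) - e₂ ^ (2 * a)) / (2 * ρ) := by
    rw [k3]; field_simp
  have k9 : cosh l = (e₁ ^ (2 * a) + e₂ ^ (2 * a)) / (2 * ρ) := by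
    rw [k4]; field_simp
  rw [k8, k9, ← k5]
  generalize e₁ ^ (2 * a) = x₁ at *
  generalize e₂ ^ (2 * a) = x₂ at *
  constructor
  · field_simp
    ring
  · field_simp
    ring

/-- **R5s.** -/
theorem scal {a e₁ e₂ c s X Z : ℝ} (ha : 0 < a) (ha2 : 2 * a < 1) (he₂ : 0 < e₂) (he : e₂ < e₁)
    (hc : 0 < c) (hs : 0 < s) (hcs : c ^ 2 + s ^ 2 = 1)
    (hL : 0 < LibSchG.L12 a e₁ e₂ c s X Z) :
    ∀ᶠ t in 𝓝[>] (0 : ℝ), ∃ M cp cm : ℝ, 0 < M ∧ 0 < cp ∧ 0 < cm ∧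
      M * n11 (1 / a) (pi11 a e₁ e₂ c s) (pi12 a e₁ e₂ c s) (pi22 a e₁ e₂ c s) 0 -
          cp * n11 (1 / a) (pi11 a e₁ e₂ c s) (pi12 a e₁ e₂ c s) (pi22 a e₁ e₂ c s) t -
          cm * n11 (1 / a) (pi11 a e₁ e₂ c s) (pi12 a e₁ e₂ c s) (pi22 a e₁ e₂ c s) (-t) =
        (c * X - s * Z) ^ 2 ∧
      M * n12 (1 / a) (pi11 a e₁ e₂ c s) (pi12 a e₁ e₂ c s) (pi22 a e₁ e₂ c s) 0 -
          cp * n12 (1 / a) (pi11 a e₁ e₂ c s) (pi12 a e₁ e₂ c s) (pi22 a e₁ e₂ c s) t -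
          cm * n12 (1 / a) (pi11 a e₁ e₂ c s) (pi12 a e₁ e₂ c s) (pi22 a e₁ e₂ c s) (-t) =
        (c * X - s * Z) * (s * X + c * Z) ∧
      M * n22 (1 / a) (pi11 a e₁ e₂ c s) (pi12 a e₁ e₂ c s) (pi22 a e₁ e₂ c s) 0 -
          cp * n22 (1 / a) (pi11 a e₁ e₂ c s) (pi12 a e₁ e₂ c s) (pi22 a e₁ e₂ c s) t -
          cm * n22 (1 / a) (pi11 a e₁ e₂ c s) (pi12 a e₁ e₂ c s) (pi22 a e₁ e₂ c s) (-t) =
        (s * X + c * Z) ^ 2 := by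
  have he₁ : 0 < e₁ := he₂.trans he
  have H := pd2 ha ha2 he₂ he hc hs hcs
  refine H.exact ?_
  have h1 : 0 < e₁ ^ (2 * a) := rpow_pos_of_pos he₁ _
  have h2 : 0 < e₂ ^ (2 * a) := rpow_pos_of_pos he₂ _
  have h3 : e₂ ^ (2 * a) < e₁ ^ (2 * a) := rpow_lt_rpow he₂.le he (by linarith)
  have h4 : 0 < e₁ ^ 2 - e₂ ^ 2 := by nlinarith
  obtain ⟨k1, k2⟩ := om_zero ha ha2 he₂ he hc hs hcs
  have k3 := det_L12 (X := X) (Z := Z) ha.ne' h1.ne' h2.ne' (pow_pos he₁ 2).ne' (pow_pos he₂ 2).ne'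
    h4.ne' hcs k1 k2
  have k4 : LibSchG.L12 a e₁ e₂ c s X Z = c * s * (a * (e₁ ^ (2 * a) / e₁ ^ 2) * X ^ 2) -
      c * s * (a * (e₂ ^ (2 * a) / e₂ ^ 2) * Z ^ 2) +
        (c ^ 2 - s ^ 2) * ((e₁ ^ (2 * a) - e₂ ^ (2 * a)) / (e₁ ^ 2 - e₂ ^ 2) * (X * Z)) := by
    unfold LibSchG.L12
    rw [rpow_sub he₁, rpow_sub he₂, rpow_two, rpow_two]
  rw [← k4] at k3
  have k5 : 0 < 2 * (1 / a) * (e₁ ^ (2 * a) - e₂ ^ (2 * a)) * (e₁ ^ 2 * e₂ ^ 2) /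
      (e₁ ^ (2 * a) * e₂ ^ (2 * a) * (e₁ ^ 2 - e₂ ^ 2)) * LibSchG.L12 a e₁ e₂ c s X Z := by
    have : 0 < e₁ ^ (2 * a) - e₂ ^ (2 * a) := by linarith
    positivity
  rw [← k3] at k5
  exact k5

end Pool.Agent.LibRest
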