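import Pool.Agent.LibRest.S4
import Pool.Agent.LibSchG.G7e

/-! **S5.**  The model function `fm` in terms of `n11`, `n12`, `n22`. -/

open Matrix Filter Topology Real

namespace Pool.Agent.LibRest

variable {s p r w : ℝ}

/-- `tr (D π D)^s = tr π n_t` -/
theorem PD2.FF_n (H : PD2 s p r w) (t : ℝ) :
    LibSch.FF s (exp t * p) (exp (-t) * w) r =
      p * n11 s p r w t + 2 * (r * n12 s p r w t) + w * n22 s p r w t := by
  have h1 := H.lamP t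
  have h2 := H.lamM t
  have h3 := H.prod t
  rw [H.rho_sq] at h3
  have h4 : LibSch.lamP (exp t * p) (exp (-t) * w) r + LibSch.lamM (exp t * p) (exp (-t) * w) r =
      exp t * p + exp (-t) * w := by
    rw [lamP_eq, lamM_eq]; ring
  have h5 : 0 < LibSch.lamP (exp t * p) (exp (-t) * w) r -
      LibSch.lamM (exp t * p) (exp (-t) * w) r := by
    rw [lamP_eq, lamM_eq]
    linarith [H.rad t]
  unfold n11 n12 n22 LibRest.qk LibSch.FF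
  generalize LibSch.lamP (exp t * p) (exp (-t) * w) r = P at *
  generalize LibSch.lamM (exp t * p) (exp (-t) * w) r = M at *
  have e : p * ((P ^ s - M ^ s) / (P - M) * exp t - (P ^ (s - 1) - M ^ (s - 1)) / (P - M) * w) +
      2 * (r * ((P ^ (s - 1) - M ^ (s - 1)) / (P - M) * r)) +
      w * ((P ^ s - M ^ s) / (P - M) * exp (-t) - (P ^ (s - 1) - M ^ (s - 1)) / (P - M) * p) =
      (P ^ s - M ^ s) / (P - M) * (exp t * p + exp (-t) * w) -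
        2 * ((P ^ (s - 1) - M ^ (s - 1)) / (P - M)) * (p * w - r ^ 2) := by ring
  rw [e, ← h4, ← h3, rpow_sub_one h1.ne', rpow_sub_one h2.ne']
  field_simp
  ring

variable {a e₁ e₂ c : ℝ}

theorem fm_n {s : ℝ} (ha : 0 < a) (ha2 : 2 * a < 1) (he₂ : 0 < e₂) (he : e₂ < e₁) (hc : 0 < c)
    (hs : 0 < s) (hcs : c ^ 2 + s ^ 2 = 1) (t : ℝ) :
    LibSchG.fm a e₁ e₂ c s t =
      pi11 a e₁ e₂ c s * n11 (1 / a) (pi11 a e₁ e₂ c s) (pi12 a e₁ e₂ c s) (pi22 a e₁ e₂ c s) t +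
      2 * (pi12 a e₁ e₂ c s *
        n12 (1 / a) (pi11 a e₁ e₂ c s) (pi12 a e₁ e₂ c s) (pi22 a e₁ e₂ c s) t) +
      pi22 a e₁ e₂ c s * n22 (1 / a) (pi11 a e₁ e₂ c s) (pi12 a e₁ e₂ c s) (pi22 a e₁ e₂ c s) t :=
  (pd2 ha ha2 he₂ he hc hs hcs).FF_n t

theorem fm_zero {s : ℝ} (ha : 0 < a) (ha2 : 2 * a < 1) (he₂ : 0 < e₂) (he : e₂ < e₁) (hc : 0 < c)
    (hs : 0 < s) (hcs : c ^ 2 + s ^ 2 = 1) : LibSchG.fm a e₁ e₂ c s 0 = e₁ ^ 2 + e₂ ^ 2 := by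
  have he₁ : 0 < e₁ := he₂.trans he
  have H := pd2 ha ha2 he₂ he hc hs hcs
  have h1 := H.exp_ll 0
  unfold LibSchG.fm LibSch.FF
  have e0 : ∀ x : ℝ, 0 < x → (x ^ (2 * a)) ^ (1 / a) = x ^ 2 := by
    intro x hx
    rw [← rpow_mul hx.le, show 2 * a * (1 / a) = 2 by field_simp, rpow_two]
  have e1 : LibSch.lamP (exp 0 * (c ^ 2 * e₁ ^ (2 * a) + s ^ 2 * e₂ ^ (2 * a)))
      (exp (-0) * (s ^ 2 * e₁ ^ (2 * a) + c ^ 2 * e₂ ^ (2 * a)))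
      (c * s * (e₁ ^ (2 * a) - e₂ ^ (2 * a))) = e₁ ^ (2 * a) := by
    have h := lamP_eq (pi11 a e₁ e₂ c s) (pi12 a e₁ e₂ c s) (pi22 a e₁ e₂ c s) 0
    rw [rad_zero ha he₂ he hcs] at h
    unfold pi11 pi22 pi12 at h
    rw [h]
    rw [neg_zero, exp_zero]
    linear_combination ((e₁ ^ (2 * a) + e₂ ^ (2 * a)) / 2) * hcs
  have e2 : LibSch.lamM (exp 0 * (c ^ 2 * e₁ ^ (2 * a) + s ^ 2 * e₂ ^ (2 * a)))
      (exp (-0) * (s ^ 2 * e₁ ^ (2 * a) + c ^ 2 * e₂ ^ (2 * a)))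
      (c * s * (e₁ ^ (2 * a) - e₂ ^ (2 * a))) = e₂ ^ (2 * a) := by
    have h := lamM_eq (pi11 a e₁ e₂ c s) (pi12 a e₁ e₂ c s) (pi22 a e₁ e₂ c s) 0
    rw [rad_zero ha he₂ he hcs] at h
    unfold pi11 pi22 pi12 at h
    rw [h]
    rw [neg_zero, exp_zero]
    linear_combination ((e₁ ^ (2 * a) + e₂ ^ (2 * a)) / 2) * hcs
  rw [e1, e2, e0 e₁ he₁, e0 e₂ he₂]

end Pool.Agent.LibRest
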