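import Pool.Agent.LibRest.S5
import Pool.Agent.LibRest.R5e

/-! **S6.**  The bridge: `RestPath`, `col_form` and `scal` give the minimiser form. -/

open Matrix Filter Topology
open scoped ComplexOrder

namespace Pool.Agent.LibRest

open Pool.Agent.LibSchP Pool.Agent.LibSchG

/-- helper98's interface -/
def Rst96 (a : ℝ) : Prop :=
  ∀ e₁ e₂ c s X Z : ℝ, 0 < e₂ → e₂ < e₁ → 0 < c → 0 < s → c ^ 2 + s ^ 2 = 1 →
    0 < c * X - s * Z → 0 < s * X + c * Z → 0 < L12 a e₁ e₂ c s X Z → ∀ η : ℝ, 0 < η →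
    ∃ t cp cm τ T : ℝ, 0 < t ∧ t < η ∧ 0 ≤ cp ∧ 0 ≤ cm ∧ 0 < τ ∧
      |T - (X ^ 2 * e₁ ^ (2 * a) + Z ^ 2 * e₂ ^ (2 * a))| < η ∧
      e₁ ^ 2 + e₂ ^ 2 - cp * fm a e₁ e₂ c s t - cm * fm a e₁ e₂ c s (-t) = τ * T ∧
      ∀ (q : ℝ) (m : Type) [Fintype m] [DecidableEq m] (A B : Matrix m m ℂ), q = 2 / (1 - a) →
        LibSch.pw q A = (c * X - s * Z) ^ q → LibSch.pw q B = (s * X + c * Z) ^ q →
        ∀ (W : Matrix (m ⊕ m) (m ⊕ m) ℂ), W ∈ unitaryGroup (m ⊕ m) ℂ → ∀ (μ : m ⊕ m → ℝ),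
        (∀ i, 0 ≤ μ i) →
        1 / a * τ * cE W (fun i => μ i ^ (2 * a)) A B ≤
          ∑ i, μ i ^ 2 - cp * Fp a W μ t - cm * Fp a W μ (-t) + (1 / a - 1) * τ * T

theorem Fp_eq96 {m : Type} [Fintype m] [DecidableEq m] (a : ℝ) (ha : 0 < a)
    (W : Matrix (m ⊕ m) (m ⊕ m) ℂ) (hW : W ∈ unitaryGroup (m ⊕ m) ℂ) (μ : m ⊕ m → ℝ)
    (hμ : ∀ i, 0 ≤ μ i) (t : ℝ) :
    Fp a W μ t = (trace (rp (1 / a) (Dt m t * (ud W fun i => μ i ^ (2 * a)) * Dt m t))).re := by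
  have h3 : Dt m t = dg (fun k => Real.exp (t * sgf m k / 2)) := by
    unfold Dt
    congr 1
    funext k
    rcases k with k | k <;> simp [sgf]
  rw [Fp_tw a ha W hW μ hμ, LibSchTw.tw_eq, h3]

theorem rst96 {a : ℝ} (ha : 0 < a) (ha2 : 2 * a < 1) (hR : RestPath (1 / a)) : Rst96 a := by
  intro e₁ e₂ c s X Z he₂ he hc hs hcs hy₁ hy₂ hL η hη
  have h := (scal ha ha2 he₂ he hc hs hcs hL).and
    ((eventually_nhdsWithin_of_eventually_nhds (Iio_mem_nhds hη)).and self_mem_nhdsWithin)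
  obtain ⟨t, ⟨M, cp, cm, hM, hcp, hcm, e1, e2, e3⟩, h4, h5⟩ := h.exists
  have ht : t < η := h4
  have ht0 : 0 < t := h5
  have H := pd2 ha ha2 he₂ he hc hs hcs
  set p := pi11 a e₁ e₂ c s with hp
  set r := pi12 a e₁ e₂ c s with hr
  set w := pi22 a e₁ e₂ c s with hw
  set y₁ := c * X - s * Z with hy1
  set y₂ := s * X + c * Z with hy2
  have hV : p * y₁ ^ 2 + 2 * (r * (y₁ * y₂)) + w * y₂ ^ 2 =
      X ^ 2 * e₁ ^ (2 * a) + Z ^ 2 * e₂ ^ (2 * a) := by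
    rw [hp, hr, hw, hy1, hy2]
    unfold pi11 pi12 pi22
    generalize e₁ ^ (2 * a) = x₁
    generalize e₂ ^ (2 * a) = x₂
    linear_combination ((X ^ 2 * x₁ + Z ^ 2 * x₂) * (c ^ 2 + s ^ 2 + 1)) * hcs
  have hfm : ∀ t, fm a e₁ e₂ c s t = p * n11 (1 / a) p r w t + 2 * (r * n12 (1 / a) p r w t) +
      w * n22 (1 / a) p r w t := fun t => fm_n ha ha2 he₂ he hc hs hcs t
  have hf0 : e₁ ^ 2 + e₂ ^ 2 = p * n11 (1 / a) p r w 0 + 2 * (r * n12 (1 / a) p r w 0) +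
      w * n22 (1 / a) p r w 0 := by
    rw [← hfm, fm_zero ha ha2 he₂ he hc hs hcs]
  refine ⟨t, cp / M, cm / M, 1 / M, X ^ 2 * e₁ ^ (2 * a) + Z ^ 2 * e₂ ^ (2 * a), ht0, ht,
    (div_pos hcp hM).le, (div_pos hcm hM).le, one_div_pos.2 hM, ?_, ?_, ?_⟩
  · rw [sub_self, abs_zero]; exact hη
  · rw [hfm, hfm, hf0, ← hV, ← e1, ← e2, ← e3]
    field_simp
    ring
  · intro q m _ _ A B hq hA hB W hW μ hμ
    have hPs : (ud W fun i => μ i ^ (2 * a)).PosSemidef :=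
      ud_posSemidef W _ fun i => Real.rpow_nonneg (hμ i) _
    have hcf := col_form hR ha ha2 H.hp H.hr H.hd hy₁ hy₂ hcp hcm hM e1 e2 e3 le_rfl le_rfl
      (by simp) hq m A B hA hB _ hPs
    rw [← Fp_eq96 a ha W hW μ hμ, ← Fp_eq96 a ha W hW μ hμ] at hcf
    have h6 : (trace (rp (1 / a) (ud W fun i => μ i ^ (2 * a)))).re = ∑ i, μ i ^ 2 := by
      rw [rp_ud _ W hW, LibSchTw.trace_ud_re W hW]
      refine Finset.sum_congr rfl fun i _ => ?_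
      rw [← Real.rpow_mul (hμ i), show 2 * a * (1 / a) = 2 by field_simp,
        Real.rpow_two]
    rw [h6, hV] at hcf
    have h7 : cE W (fun i => μ i ^ (2 * a)) A B =
      (trace ((fromRows A B)ᴴ * (ud W fun i => μ i ^ (2 * a)) * fromRows A B)).re := rfl
    rw [← h7] at hcf
    have h8 : M * (1 / a * (1 / M) * cE W (fun i => μ i ^ (2 * a)) A B) ≤
        M * (∑ i, μ i ^ 2 - cp / M * Fp a W μ t - cm / M * Fp a W μ (-t) +
          (1 / a - 1) * (1 / M) * (X ^ 2 * e₁ ^ (2 * a) + Z ^ 2 * e₂ ^ (2 * a))) := by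
      calc M * (1 / a * (1 / M) * cE W (fun i => μ i ^ (2 * a)) A B)
          = 1 / a * cE W (fun i => μ i ^ (2 * a)) A B := by field_simp
        _ ≤ _ := hcf
        _ = _ := by field_simp
    exact le_of_mul_le_mul_left h8 hM

end Pool.Agent.LibRest
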