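import Mathlib

/-! **T1.**  The telescoping lemma (real numbers only). -/

open Filter Topology

namespace Pool.Agent.LibRest

/-- second order expansion with vanishing second derivative -/
theorem phi_small (s : ℝ) (hs : 1 < s) (η : ℝ) (hη : 0 < η) :
    ∃ δ : ℝ, 0 < δ ∧ ∀ y : ℝ, |y| ≤ δ →
      |((1 + y) ^ ((s - 1) / s) - 1 + 1 / (2 * (s - 1)) * ((1 + y) ^ ((s - 1) / s) +
        (1 + y) ^ (-((s - 1) / s)) - 2)) - (s - 1) / s * y| ≤ η * y ^ 2 := by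
  set b : ℝ := (s - 1) / s with hb
  set κ : ℝ := 1 / (2 * (s - 1)) with hκ
  have hs1 : 0 < s - 1 := by linarith
  have hs0 : 0 < s := by linarith
  set ψ : ℝ → ℝ := fun y => ((1 + y) ^ b - 1 + κ * ((1 + y) ^ b + (1 + y) ^ (-b) - 2)) - b * y
    with hψ
  set ψ' : ℝ → ℝ := fun y => b * (1 + y) ^ (b - 1) +
    κ * (b * (1 + y) ^ (b - 1) + -b * (1 + y) ^ (-b - 1)) - b with hψ'
  have hd1 : ∀ (c : ℝ) (y : ℝ), -1 < y →
      HasDerivAt (fun y : ℝ => (1 + y) ^ c) (c * (1 + y) ^ (c - 1)) y := by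
    intro c y hy
    have h1 : HasDerivAt (fun y : ℝ => 1 + y) 1 y := by
      simpa using (hasDerivAt_id y).const_add 1
    have h2 := h1.rpow_const (p := c) (Or.inl (by linarith : (1 + y) ≠ 0))
    convert h2 using 1
    ring
  have hψd : ∀ y : ℝ, -1 < y → HasDerivAt ψ (ψ' y) y := by
    intro y hy
    have h1 := hd1 b y hy
    have h2 := hd1 (-b) y hy
    have h3 := ((h1.sub_const 1).add (((h1.add h2).sub_const 2).const_mul κ)).sub
      ((hasDerivAt_id y).const_mul b)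
    rw [mul_one] at h3
    exact h3
  have hψ'd : HasDerivAt ψ' 0 0 := by
    have h1 := hd1 (b - 1) 0 (by norm_num)
    have h2 := hd1 (-b - 1) 0 (by norm_num)
    have h3 := ((h1.const_mul b).add (((h1.const_mul b).add (h2.const_mul (-b))).const_mul κ)).sub_const b
    have e : b * ((b - 1) * (1 + (0 : ℝ)) ^ (b - 1 - 1)) +
        κ * (b * ((b - 1) * (1 + (0 : ℝ)) ^ (b - 1 - 1)) +
          -b * ((-b - 1) * (1 + (0 : ℝ)) ^ (-b - 1 - 1))) = 0 := by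
      simp only [add_zero, Real.one_rpow, mul_one]
      rw [hκ, hb]
      field_simp
      ring
    exact h3.congr_deriv e
  have h0 : ψ' 0 = 0 := by
    simp only [hψ', add_zero, Real.one_rpow, mul_one]
    ring
  have h00 : ψ 0 = 0 := by
    simp only [hψ, add_zero, Real.one_rpow, mul_zero]
    ring
  have hlit : ∀ᶠ y : ℝ in 𝓝 0, |ψ' y| ≤ η * |y| := by
    rw [hasDerivAt_iff_isLittleO, Asymptotics.isLittleO_iff] at hψ'd
    filter_upwards [hψ'd hη] with y hy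
    simpa [h0] using hy
  obtain ⟨ε, hε, hball⟩ := Metric.eventually_nhds_iff.1 hlit
  refine ⟨min (ε / 2) (1 / 2), by positivity, fun y hy => ?_⟩
  have hy1 : |y| ≤ ε / 2 := hy.trans (min_le_left _ _)
  have hy2 : |y| ≤ 1 / 2 := hy.trans (min_le_right _ _)
  have hmv := Convex.norm_image_sub_le_of_norm_hasDerivWithin_le (𝕜 := ℝ)
    (f := ψ) (f' := ψ') (C := η * |y|) (s := Set.Icc (-|y|) |y|) (x := 0) (y := y)
    (fun z hz => (hψd z (by linarith [hz.1])).hasDerivWithinAt)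
    (fun z hz => by
      have hz1 : |z| ≤ |y| := abs_le.2 ⟨hz.1, hz.2⟩
      rw [Real.norm_eq_abs]
      refine (hball (y := z) (by rw [Real.dist_eq, sub_zero]; linarith)).trans ?_
      exact mul_le_mul_of_nonneg_left hz1 hη.le)
    (convex_Icc _ _) ⟨by simp, by simp⟩ ⟨neg_abs_le y, le_abs_self y⟩
  rw [h00, sub_zero, sub_zero, Real.norm_eq_abs, Real.norm_eq_abs, mul_assoc, abs_mul_abs_self,
    ← sq] at hmv
  exact hmv

theorem pow_small (u : ℝ) (η : ℝ) (hη : 0 < η) :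
    ∃ δ : ℝ, 0 < δ ∧ ∀ y : ℝ, |y| ≤ δ → |(1 + y) ^ u - 1 - u * y| ≤ η * |y| := by
  have h1 : HasDerivAt (fun y : ℝ => 1 + y) 1 0 := by
    simpa using (hasDerivAt_id (0 : ℝ)).const_add 1
  have h2 := h1.rpow_const (p := u) (Or.inl (by norm_num : (1 + (0 : ℝ)) ≠ 0))
  rw [hasDerivAt_iff_isLittleO, Asymptotics.isLittleO_iff] at h2
  obtain ⟨ε, hε, hball⟩ := Metric.eventually_nhds_iff.1 (h2 hη)
  refine ⟨ε / 2, by positivity, fun y hy => ?_⟩
  have := hball (y := y) (by rw [Real.dist_eq, sub_zero]; linarith)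
  simp only [add_zero, Real.one_rpow, sub_zero, one_mul, mul_one, smul_eq_mul,
    Real.norm_eq_abs] at this
  rw [mul_comm u y]
  exact this

section tel

variable {n : Type} [Fintype n]

/-- the linear path -/
def XT (x0 x1 : n → ℝ) (t : ℝ) (i : n) : ℝ := (1 - t) * x0 i + t * x1 i

omit [Fintype n] in
theorem XT_pos (x0 x1 : n → ℝ) (h0 : ∀ i, 0 < x0 i) (h1 : ∀ i, 0 < x1 i) (t : ℝ) (ht : 0 ≤ t)
    (ht' : t ≤ 1) (i : n) : min (x0 i) (x1 i) ≤ XT x0 x1 t i ∧ 0 < XT x0 x1 t i := by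
  have hm : min (x0 i) (x1 i) ≤ XT x0 x1 t i := by
    unfold XT
    have e : min (x0 i) (x1 i) = (1 - t) * min (x0 i) (x1 i) + t * min (x0 i) (x1 i) := by ring
    rw [e]
    have h3 : 0 ≤ 1 - t := by linarith
    gcongr
    · exact min_le_left _ _
    · exact min_le_right _ _
  exact ⟨hm, (lt_min (h0 i) (h1 i)).trans_le hm⟩

/-- bound of the logarithmic derivative -/
theorem w_bound (x0 x1 : n → ℝ) (h0 : ∀ i, 0 < x0 i) (h1 : ∀ i, 0 < x1 i) :
    ∃ W : ℝ, 0 ≤ W ∧ ∀ t : ℝ, 0 ≤ t → t ≤ 1 → ∀ i, |(x1 i - x0 i) / XT x0 x1 t i| ≤ W := by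
  have hp : ∀ i, 0 ≤ |x1 i - x0 i| / min (x0 i) (x1 i) := fun i =>
    div_nonneg (abs_nonneg _) (lt_min (h0 i) (h1 i)).le
  refine ⟨∑ i, |x1 i - x0 i| / min (x0 i) (x1 i), Finset.sum_nonneg fun i _ => hp i,
    fun t ht ht' i => ?_⟩
  obtain ⟨hm, hpos⟩ := XT_pos x0 x1 h0 h1 t ht ht' i
  rw [abs_div, abs_of_pos hpos]
  calc |x1 i - x0 i| / XT x0 x1 t i ≤ |x1 i - x0 i| / min (x0 i) (x1 i) :=
        div_le_div_of_nonneg_left (abs_nonneg _) (lt_min (h0 i) (h1 i)) hm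
    _ ≤ _ := Finset.single_le_sum (f := fun i => |x1 i - x0 i| / min (x0 i) (x1 i))
        (fun i _ => hp i) (Finset.mem_univ i)

omit [Fintype n] in
/-- ratio of two points of the path -/
theorem ratio_eq (x0 x1 : n → ℝ) (t τ : ℝ) (i : n) (h : 0 < XT x0 x1 t i) :
    XT x0 x1 τ i / XT x0 x1 t i = 1 + (τ - t) * ((x1 i - x0 i) / XT x0 x1 t i) := by
  have h2 : XT x0 x1 τ i = XT x0 x1 t i + (τ - t) * (x1 i - x0 i) := by
    unfold XT; ring
  rw [h2, add_div, div_self h.ne', mul_div_assoc]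

/-- **one step**: the two estimates, `h = τ - t` small -/
theorem tel_step (s : ℝ) (hs : 1 < s) (x0 x1 : n → ℝ) (h0 : ∀ i, 0 < x0 i) (h1 : ∀ i, 0 < x1 i)
    (M : ℝ → n → n → ℝ) (C : ℝ) (hM : ∀ t : ℝ, 0 ≤ t → t ≤ 1 → ∀ i j, |M t i j| ≤ C)
    (hsym : ∀ t : ℝ, 0 ≤ t → t ≤ 1 → ∀ i j, M t i j = M t j i)
    (hFI : ∀ t τ : ℝ, 0 ≤ t → t ≤ 1 → 0 ≤ τ → τ ≤ 1 →
      ∑ i, ∑ j, M t i j + ∑ i, ∑ j, M τ i j ≤
        ∑ i, ((XT x0 x1 t i / XT x0 x1 τ i) ^ ((s - 1) / (2 * s))) ^ 2 * ∑ j, M τ i j +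
        ∑ i, ((XT x0 x1 τ i / XT x0 x1 t i) ^ ((s - 1) / (2 * s))) ^ 2 * ∑ j, M t i j +
        1 / (2 * (s - 1)) * ∑ i, ((XT x0 x1 τ i / XT x0 x1 t i) ^ ((s - 1) / (2 * s)) -
          (XT x0 x1 t i / XT x0 x1 τ i) ^ ((s - 1) / (2 * s))) ^ 2 *
          (∑ j, M τ i j + ∑ j, M t i j))
    (hopt : ∀ t τ : ℝ, 0 ≤ t → t ≤ 1 → 0 ≤ τ → τ ≤ 1 →
      s * ∑ i, ∑ j, (XT x0 x1 t i / XT x0 x1 τ i) ^ ((s - 1) / (2 * s)) *
        (XT x0 x1 t j / XT x0 x1 τ j) ^ ((s - 1) / (2 * s)) * M τ i j ≤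
        (s - 1) * ∑ i, ∑ j, M t i j + ∑ i, ∑ j, M τ i j) :
    ∃ K : ℝ, 0 ≤ K ∧ ∀ η : ℝ, 0 < η → η ≤ 1 → ∃ h₀ : ℝ, 0 < h₀ ∧ ∀ t τ : ℝ, 0 ≤ t → t < τ → τ ≤ 1 →
      τ - t ≤ h₀ →
      (∑ i, (x1 i - x0 i) / XT x0 x1 τ i * ∑ j, M τ i j ≤
        ∑ i, (x1 i - x0 i) / XT x0 x1 t i * ∑ j, M t i j + K * η * (τ - t)) ∧
      (∑ i, ∑ j, M τ i j ≤ ∑ i, ∑ j, M t i j +
        (τ - t) * ∑ i, (x1 i - x0 i) / XT x0 x1 τ i * ∑ j, M τ i j + K * η * (τ - t)) := by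
  have hs1 : 0 < s - 1 := by linarith
  have hs0 : 0 < s := by linarith
  obtain ⟨W, hW, hw⟩ := w_bound x0 x1 h0 h1
  set m : ℝ := (Fintype.card n : ℝ) with hm
  have hm0 : 0 ≤ m := Nat.cast_nonneg _
  set C₀ : ℝ := |C| with hC₀
  have hC0 : 0 ≤ C₀ := abs_nonneg _
  have hM' : ∀ t : ℝ, 0 ≤ t → t ≤ 1 → ∀ i j, |M t i j| ≤ C₀ := fun t a b i j =>
    (hM t a b i j).trans (le_abs_self _)
  have hR : ∀ t : ℝ, 0 ≤ t → t ≤ 1 → ∀ i, |∑ j, M t i j| ≤ m * C₀ := by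
    intro t a b i
    calc |∑ j, M t i j| ≤ ∑ j, |M t i j| := Finset.abs_sum_le_sum_abs _ _
      _ ≤ ∑ _j : n, C₀ := Finset.sum_le_sum fun j _ => hM' t a b i j
      _ = _ := by rw [Finset.sum_const, Finset.card_univ, nsmul_eq_mul]
  set b : ℝ := (s - 1) / s with hb
  set u : ℝ := (s - 1) / (2 * s) with hu
  have hbu : b = u + u := by rw [hb, hu]; field_simp; ring
  have hu0 : 0 < u := by rw [hu]; positivity
  have hu1 : u ≤ 1 := by
    rw [hu, div_le_one (by positivity)]; linarith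
  have hb0 : 0 < b := by rw [hb]; positivity
  have hus : s * (2 * u) = s - 1 := by rw [hu]; field_simp
  set K1 : ℝ := 2 * W ^ 2 * m ^ 2 * C₀ / b with hK1
  set K2 : ℝ := s * m ^ 2 * C₀ * (2 * W + 4 * W ^ 2) / (s - 1) with hK2
  have hK1' : 0 ≤ K1 := by positivity
  have hK2' : 0 ≤ K2 := by positivity
  refine ⟨K1 + K2, by positivity, fun η hη hη1 => ?_⟩
  obtain ⟨δ1, hδ1, hφ⟩ := phi_small s hs η hη
  obtain ⟨δ2, hδ2, hg⟩ := pow_small u η hη
  rw [← hb] at hφ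
  have hWp : 0 < W + 1 := by linarith
  refine ⟨min (min (δ1 / (W + 1)) (δ2 / (W + 1))) η, by positivity, fun t τ ht htτ hτ hh => ?_⟩
  set h : ℝ := τ - t with hhd
  have hh0 : 0 < h := by rw [hhd]; linarith
  have hhδ1 : h * W ≤ δ1 := by
    have : h ≤ δ1 / (W + 1) := hh.trans ((min_le_left _ _).trans (min_le_left _ _))
    rw [le_div_iff₀ hWp] at this
    nlinarith
  have hhδ2 : h * W ≤ δ2 := by
    have : h ≤ δ2 / (W + 1) := hh.trans ((min_le_left _ _).trans (min_le_right _ _))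
    rw [le_div_iff₀ hWp] at this
    nlinarith
  have hhη : h ≤ η := hh.trans (min_le_right _ _)
  have ht1 : t ≤ 1 := by linarith
  have hτ0 : 0 ≤ τ := by linarith
  set wt : n → ℝ := fun i => (x1 i - x0 i) / XT x0 x1 t i with hwt
  set wτ : n → ℝ := fun i => (x1 i - x0 i) / XT x0 x1 τ i with hwτ
  have hwt' : ∀ i, |wt i| ≤ W := hw t ht ht1
  have hwτ' : ∀ i, |wτ i| ≤ W := hw τ hτ0 hτ
  have hXt : ∀ i, 0 < XT x0 x1 t i := fun i => (XT_pos x0 x1 h0 h1 t ht ht1 i).2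
  have hXτ : ∀ i, 0 < XT x0 x1 τ i := fun i => (XT_pos x0 x1 h0 h1 τ hτ0 hτ i).2
  have er1 : ∀ i, XT x0 x1 τ i / XT x0 x1 t i = 1 + h * wt i := fun i =>
    ratio_eq x0 x1 t τ i (hXt i)
  have er2 : ∀ i, XT x0 x1 t i / XT x0 x1 τ i = 1 + -(h * wτ i) := fun i => by
    rw [ratio_eq x0 x1 τ t i (hXτ i), hhd]
    ring
  have hz1 : ∀ i, |h * wt i| ≤ h * W := fun i => by
    rw [abs_mul, abs_of_pos hh0]
    exact mul_le_mul_of_nonneg_left (hwt' i) hh0.le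
  have hz2 : ∀ i, |-(h * wτ i)| ≤ h * W := fun i => by
    rw [abs_neg, abs_mul, abs_of_pos hh0]
    exact mul_le_mul_of_nonneg_left (hwτ' i) hh0.le
  have hsq : ∀ x : ℝ, 0 < x → (x ^ u) ^ 2 = x ^ b := fun x hx => by
    rw [hbu, Real.rpow_add hx, sq]
  have hsq2 : ∀ x : ℝ, 0 < x → (x ^ u - (x⁻¹) ^ u) ^ 2 = x ^ b + x ^ (-b) - 2 := fun x hx => by
    have e1 : (x⁻¹) ^ u = (x ^ u)⁻¹ := Real.inv_rpow hx.le u
    have e2 : x ^ u ≠ 0 := (Real.rpow_pos_of_pos hx u).ne'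
    have e3 : x ^ (-b) = ((x ^ u) ^ 2)⁻¹ := by rw [Real.rpow_neg hx.le, hsq x hx]
    rw [e1, e3, ← hsq x hx]
    field_simp
    ring
  constructor
  · have hfi := hFI t τ ht ht1 hτ0 hτ
    have e1 : ∀ i, ((XT x0 x1 t i / XT x0 x1 τ i) ^ u) ^ 2 * ∑ j, M τ i j +
        ((XT x0 x1 τ i / XT x0 x1 t i) ^ u) ^ 2 * ∑ j, M t i j +
        1 / (2 * (s - 1)) * (((XT x0 x1 τ i / XT x0 x1 t i) ^ u -
          (XT x0 x1 t i / XT x0 x1 τ i) ^ u) ^ 2 * (∑ j, M τ i j + ∑ j, M t i j)) -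
        ∑ j, M t i j - ∑ j, M τ i j =
        ((1 + -(h * wτ i)) ^ b - 1 + 1 / (2 * (s - 1)) * ((1 + -(h * wτ i)) ^ b +
          (1 + -(h * wτ i)) ^ (-b) - 2)) * ∑ j, M τ i j +
        ((1 + h * wt i) ^ b - 1 + 1 / (2 * (s - 1)) * ((1 + h * wt i) ^ b +
          (1 + h * wt i) ^ (-b) - 2)) * ∑ j, M t i j := by
      intro i
      have q1 : 0 < XT x0 x1 t i / XT x0 x1 τ i := div_pos (hXt i) (hXτ i)
      have q2 : 0 < XT x0 x1 τ i / XT x0 x1 t i := div_pos (hXτ i) (hXt i)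
      have i1 := hsq2 _ q2
      have i2 := hsq2 _ q1
      rw [inv_div] at i1 i2
      have i3 : ((XT x0 x1 τ i / XT x0 x1 t i) ^ u - (XT x0 x1 t i / XT x0 x1 τ i) ^ u) ^ 2 =
          ((XT x0 x1 t i / XT x0 x1 τ i) ^ u - (XT x0 x1 τ i / XT x0 x1 t i) ^ u) ^ 2 := by ring
      have i4 : 1 / (2 * (s - 1)) * (((XT x0 x1 τ i / XT x0 x1 t i) ^ u -
          (XT x0 x1 t i / XT x0 x1 τ i) ^ u) ^ 2 * (∑ j, M τ i j + ∑ j, M t i j)) =
          1 / (2 * (s - 1)) * (((XT x0 x1 t i / XT x0 x1 τ i) ^ u -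
          (XT x0 x1 τ i / XT x0 x1 t i) ^ u) ^ 2 * (∑ j, M τ i j) +
          ((XT x0 x1 τ i / XT x0 x1 t i) ^ u -
          (XT x0 x1 t i / XT x0 x1 τ i) ^ u) ^ 2 * ∑ j, M t i j) := by
        rw [← i3]; ring
      rw [i4, i1, i2, hsq _ q1, hsq _ q2, er1 i, er2 i]
      ring
    have e2 : 0 ≤ ∑ i, (((1 + -(h * wτ i)) ^ b - 1 + 1 / (2 * (s - 1)) *
        ((1 + -(h * wτ i)) ^ b + (1 + -(h * wτ i)) ^ (-b) - 2)) * ∑ j, M τ i j +
        ((1 + h * wt i) ^ b - 1 + 1 / (2 * (s - 1)) * ((1 + h * wt i) ^ b +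
          (1 + h * wt i) ^ (-b) - 2)) * ∑ j, M t i j) := by
      rw [← Finset.sum_congr rfl fun i _ => e1 i]
      simp only [Finset.sum_sub_distrib, Finset.sum_add_distrib, ← Finset.mul_sum]
      linarith
    have e3 : ∀ i, ((1 + -(h * wτ i)) ^ b - 1 + 1 / (2 * (s - 1)) *
        ((1 + -(h * wτ i)) ^ b + (1 + -(h * wτ i)) ^ (-b) - 2)) * ∑ j, M τ i j +
        ((1 + h * wt i) ^ b - 1 + 1 / (2 * (s - 1)) * ((1 + h * wt i) ^ b +
          (1 + h * wt i) ^ (-b) - 2)) * ∑ j, M t i j ≤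
        b * h * (wt i * ∑ j, M t i j) - b * h * (wτ i * ∑ j, M τ i j) +
          2 * (η * (h * W) ^ 2 * (m * C₀)) := by
      intro i
      have j1 := hφ (-(h * wτ i)) ((hz2 i).trans hhδ1)
      have j2 := hφ (h * wt i) ((hz1 i).trans hhδ1)
      have l1 : η * (-(h * wτ i)) ^ 2 ≤ η * (h * W) ^ 2 := by
        refine mul_le_mul_of_nonneg_left ?_ hη.le
        rw [← sq_abs]
        exact pow_le_pow_left₀ (abs_nonneg _) (hz2 i) 2
      have l2 : η * (h * wt i) ^ 2 ≤ η * (h * W) ^ 2 := by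
        refine mul_le_mul_of_nonneg_left ?_ hη.le
        rw [← sq_abs]
        exact pow_le_pow_left₀ (abs_nonneg _) (hz1 i) 2
      set A1 := ((1 + -(h * wτ i)) ^ b - 1 + 1 / (2 * (s - 1)) *
        ((1 + -(h * wτ i)) ^ b + (1 + -(h * wτ i)) ^ (-b) - 2)) with hA1
      set A2 := ((1 + h * wt i) ^ b - 1 + 1 / (2 * (s - 1)) * ((1 + h * wt i) ^ b +
          (1 + h * wt i) ^ (-b) - 2)) with hA2
      set R1 := ∑ j, M τ i j with hR1
      set R2 := ∑ j, M t i j with hR2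
      have r1 : |R1| ≤ m * C₀ := hR τ hτ0 hτ i
      have r2 : |R2| ≤ m * C₀ := hR t ht ht1 i
      have m1 : (A1 - b * (-(h * wτ i))) * R1 ≤ η * (h * W) ^ 2 * (m * C₀) := by
        calc (A1 - b * (-(h * wτ i))) * R1 ≤ |(A1 - b * (-(h * wτ i))) * R1| := le_abs_self _
          _ = |A1 - b * (-(h * wτ i))| * |R1| := abs_mul _ _
          _ ≤ _ := mul_le_mul (j1.trans l1) r1 (abs_nonneg _) (by positivity)
      have m2 : (A2 - b * (h * wt i)) * R2 ≤ η * (h * W) ^ 2 * (m * C₀) := by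
        calc (A2 - b * (h * wt i)) * R2 ≤ |(A2 - b * (h * wt i)) * R2| := le_abs_self _
          _ = |A2 - b * (h * wt i)| * |R2| := abs_mul _ _
          _ ≤ _ := mul_le_mul (j2.trans l2) r2 (abs_nonneg _) (by positivity)
      linarith
    have e4 := e2.trans (Finset.sum_le_sum fun i _ => e3 i)
    rw [Finset.sum_add_distrib, Finset.sum_sub_distrib, ← Finset.mul_sum, ← Finset.mul_sum,
      Finset.sum_const, Finset.card_univ, nsmul_eq_mul, ← hm] at e4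
    have e5 : ∑ i, wτ i * ∑ j, M τ i j ≤ ∑ i, wt i * ∑ j, M t i j + K1 * η * h := by
      have e6 : b * h * ∑ i, wτ i * ∑ j, M τ i j ≤
          b * h * (∑ i, wt i * ∑ j, M t i j + K1 * η * h) := by
        have e7 : b * h * (K1 * η * h) = m * (2 * (η * (h * W) ^ 2 * (m * C₀))) := by
          rw [hK1]
          field_simp
        rw [mul_add, e7]
        linarith
      exact le_of_mul_le_mul_left e6 (mul_pos hb0 hh0)
    have e8 : K1 * η * h ≤ (K1 + K2) * η * h := by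
      have : 0 ≤ K2 * η * h := by positivity
      nlinarith
    exact e5.trans (by linarith)
  · have ho := hopt t τ ht ht1 hτ0 hτ
    set e : n → ℝ := fun i => (XT x0 x1 t i / XT x0 x1 τ i) ^ u - 1 with he
    have he1 : ∀ i, |e i + u * (h * wτ i)| ≤ η * (h * W) := by
      intro i
      have j1 := hg (-(h * wτ i)) ((hz2 i).trans hhδ2)
      have : e i + u * (h * wτ i) = (1 + -(h * wτ i)) ^ u - 1 - u * (-(h * wτ i)) := by
        simp only [he]
        rw [er2 i]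
        ring
      rw [this]
      exact j1.trans (mul_le_mul_of_nonneg_left (hz2 i) hη.le)
    have he2 : ∀ i, |e i| ≤ 2 * (h * W) := by
      intro i
      have j1 := he1 i
      have j2 : |u * (h * wτ i)| ≤ h * W := by
        rw [abs_mul, abs_of_pos hu0]
        have := hz2 i
        rw [abs_neg] at this
        calc u * |h * wτ i| ≤ 1 * |h * wτ i| := mul_le_mul_of_nonneg_right hu1 (abs_nonneg _)
          _ ≤ _ := by rw [one_mul]; exact this
      have j3 : |e i| ≤ |e i + u * (h * wτ i)| + |u * (h * wτ i)| := by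
        have : e i = (e i + u * (h * wτ i)) - u * (h * wτ i) := by ring
        calc |e i| = |(e i + u * (h * wτ i)) - u * (h * wτ i)| := by rw [← this]
          _ ≤ _ := abs_sub _ _
      have j4 : η * (h * W) ≤ h * W := by
        have : 0 ≤ h * W := by positivity
        nlinarith
      linarith
    have hexp : ∑ i, ∑ j, (XT x0 x1 t i / XT x0 x1 τ i) ^ u * (XT x0 x1 t j / XT x0 x1 τ j) ^ u *
        M τ i j = ∑ i, ∑ j, M τ i j + 2 * ∑ i, e i * ∑ j, M τ i j +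
        ∑ i, ∑ j, e i * e j * M τ i j := by
      have h1' : ∀ i j, (XT x0 x1 t i / XT x0 x1 τ i) ^ u * (XT x0 x1 t j / XT x0 x1 τ j) ^ u *
          M τ i j = M τ i j + (e i * M τ i j + e j * M τ i j) + e i * e j * M τ i j := by
        intro i j
        simp only [he]
        ring
      have h2' : ∑ i, ∑ j, e j * M τ i j = ∑ i, e i * ∑ j, M τ i j := by
        rw [Finset.sum_comm]
        refine Finset.sum_congr rfl fun i _ => ?_
        rw [Finset.mul_sum]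
        refine Finset.sum_congr rfl fun j _ => ?_
        rw [hsym τ hτ0 hτ]
      have h3' : ∑ i, ∑ j, e i * M τ i j = ∑ i, e i * ∑ j, M τ i j :=
        Finset.sum_congr rfl fun i _ => (Finset.mul_sum _ _ _).symm
      simp only [h1', Finset.sum_add_distrib]
      rw [h2', h3']
      ring
    have hl1 : -(u * h * ∑ i, wτ i * ∑ j, M τ i j) - m * (η * (h * W) * (m * C₀)) ≤
        ∑ i, e i * ∑ j, M τ i j := by
      have : ∀ i, -(u * h * (wτ i * ∑ j, M τ i j)) - η * (h * W) * (m * C₀) ≤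
          e i * ∑ j, M τ i j := by
        intro i
        set R1 := ∑ j, M τ i j with hR1
        have r1 : |R1| ≤ m * C₀ := hR τ hτ0 hτ i
        have m1 : -((e i + u * (h * wτ i)) * R1) ≤ η * (h * W) * (m * C₀) := by
          calc -((e i + u * (h * wτ i)) * R1) ≤ |(e i + u * (h * wτ i)) * R1| := neg_le_abs _
            _ = |e i + u * (h * wτ i)| * |R1| := abs_mul _ _
            _ ≤ _ := mul_le_mul (he1 i) r1 (abs_nonneg _) (by positivity)
        linarith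
      have h5 := Finset.sum_le_sum fun i (_ : i ∈ Finset.univ) => this i
      rw [Finset.sum_sub_distrib, Finset.sum_neg_distrib, ← Finset.mul_sum, Finset.sum_const,
        Finset.card_univ, nsmul_eq_mul, ← hm] at h5
      exact h5
    have hl2 : -(m * (m * (4 * (h * W) ^ 2 * C₀))) ≤ ∑ i, ∑ j, e i * e j * M τ i j := by
      have : ∀ i j, -(4 * (h * W) ^ 2 * C₀) ≤ e i * e j * M τ i j := by
        intro i j
        have h6 : |e i * e j * M τ i j| ≤ 4 * (h * W) ^ 2 * C₀ := by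
          rw [abs_mul, abs_mul]
          calc |e i| * |e j| * |M τ i j| ≤ (2 * (h * W)) * (2 * (h * W)) * C₀ :=
                mul_le_mul (mul_le_mul (he2 i) (he2 j) (abs_nonneg _) (by positivity))
                  (hM' τ hτ0 hτ i j) (abs_nonneg _) (by positivity)
            _ = _ := by ring
        linarith [neg_abs_le (e i * e j * M τ i j)]
      have h5 := Finset.sum_le_sum fun i (_ : i ∈ Finset.univ) =>
        Finset.sum_le_sum fun j (_ : j ∈ Finset.univ) => this i j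
      simp only [Finset.sum_const, Finset.card_univ, nsmul_eq_mul, ← hm] at h5
      linarith
    rw [hexp] at ho
    set F1 := ∑ i, ∑ j, M τ i j with hF1
    set F0 := ∑ i, ∑ j, M t i j with hF0
    set S1 := ∑ i, e i * ∑ j, M τ i j with hS1
    set S2 := ∑ i, ∑ j, e i * e j * M τ i j with hS2
    set Dτ := ∑ i, wτ i * ∑ j, M τ i j with hDτ
    have h7 : s * (F1 + 2 * (-(u * h * Dτ) - m * (η * (h * W) * (m * C₀))) +
        -(m * (m * (4 * (h * W) ^ 2 * C₀)))) ≤ (s - 1) * F0 + F1 := by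
      refine le_trans (mul_le_mul_of_nonneg_left ?_ hs0.le) ho
      linarith
    have h8 : m * (m * (4 * (h * W) ^ 2 * C₀)) ≤ m * (m * (4 * (η * h * W ^ 2) * C₀)) := by
      have : (h * W) ^ 2 ≤ η * h * W ^ 2 := by
        have : h * h ≤ η * h := mul_le_mul_of_nonneg_right hhη hh0.le
        nlinarith [sq_nonneg W]
      gcongr
    have h9 : (s - 1) * F1 ≤ (s - 1) * (F0 + h * Dτ + K2 * η * h) := by
      have e7 : (s - 1) * (K2 * η * h) = s * (2 * (m * (η * (h * W) * (m * C₀))) +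
          m * (m * (4 * (η * h * W ^ 2) * C₀))) := by
        rw [hK2]
        field_simp
      have e8 : s * (2 * (u * h * Dτ)) = (s - 1) * (h * Dτ) := by rw [← hus]; ring
      have e9 : s * (m * (m * (4 * (h * W) ^ 2 * C₀))) ≤
          s * (m * (m * (4 * (η * h * W ^ 2) * C₀))) := mul_le_mul_of_nonneg_left h8 hs0.le
      rw [mul_add, e7, mul_add]
      nlinarith [h7, e8, e9]
    have h10 : F1 ≤ F0 + h * Dτ + K2 * η * h := le_of_mul_le_mul_left h9 hs1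
    have h11 : K2 * η * h ≤ (K1 + K2) * η * h := by
      have : 0 ≤ K1 * η * h := by positivity
      nlinarith
    linarith

/-- **the telescoping lemma** -/
theorem tel (s : ℝ) (hs : 1 < s) (x0 x1 : n → ℝ) (h0 : ∀ i, 0 < x0 i) (h1 : ∀ i, 0 < x1 i)
    (M : ℝ → n → n → ℝ) (C : ℝ) (hM : ∀ t : ℝ, 0 ≤ t → t ≤ 1 → ∀ i j, |M t i j| ≤ C)
    (hsym : ∀ t : ℝ, 0 ≤ t → t ≤ 1 → ∀ i j, M t i j = M t j i)
    (hFI : ∀ t τ : ℝ, 0 ≤ t → t ≤ 1 → 0 ≤ τ → τ ≤ 1 →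
      ∑ i, ∑ j, M t i j + ∑ i, ∑ j, M τ i j ≤
        ∑ i, ((XT x0 x1 t i / XT x0 x1 τ i) ^ ((s - 1) / (2 * s))) ^ 2 * ∑ j, M τ i j +
        ∑ i, ((XT x0 x1 τ i / XT x0 x1 t i) ^ ((s - 1) / (2 * s))) ^ 2 * ∑ j, M t i j +
        1 / (2 * (s - 1)) * ∑ i, ((XT x0 x1 τ i / XT x0 x1 t i) ^ ((s - 1) / (2 * s)) -
          (XT x0 x1 t i / XT x0 x1 τ i) ^ ((s - 1) / (2 * s))) ^ 2 *
          (∑ j, M τ i j + ∑ j, M t i j))
    (hopt : ∀ t τ : ℝ, 0 ≤ t → t ≤ 1 → 0 ≤ τ → τ ≤ 1 →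
      s * ∑ i, ∑ j, (XT x0 x1 t i / XT x0 x1 τ i) ^ ((s - 1) / (2 * s)) *
        (XT x0 x1 t j / XT x0 x1 τ j) ^ ((s - 1) / (2 * s)) * M τ i j ≤
        (s - 1) * ∑ i, ∑ j, M t i j + ∑ i, ∑ j, M τ i j) :
    ∑ i, ∑ j, M 1 i j ≤ ∑ i, ∑ j, M 0 i j + ∑ i, (x1 i - x0 i) / x0 i * ∑ j, M 0 i j := by
  obtain ⟨K, hK, hstep⟩ := tel_step s hs x0 x1 h0 h1 M C hM hsym hFI hopt
  refine le_of_forall_pos_le_add fun ε hε => ?_
  set η : ℝ := min 1 (ε / (2 * K + 1)) with hη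
  have hη0 : 0 < η := lt_min one_pos (by positivity)
  have hη2 : 2 * K * η ≤ ε := by
    have h2 : η ≤ ε / (2 * K + 1) := min_le_right _ _
    rw [le_div_iff₀ (by positivity)] at h2
    nlinarith
  obtain ⟨h₀, hh₀, hst⟩ := hstep η hη0 (min_le_left _ _)
  obtain ⟨N, hN⟩ := exists_nat_gt (1 / h₀)
  have hN0 : 0 < (N : ℝ) := lt_trans (by positivity) hN
  have hNh : 1 / (N : ℝ) ≤ h₀ := by
    rw [div_le_iff₀ hN0]
    rw [div_lt_iff₀ hh₀] at hN
    nlinarith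
  set D : ℝ → ℝ := fun t => ∑ i, (x1 i - x0 i) / XT x0 x1 t i * ∑ j, M t i j with hD
  set f : ℝ → ℝ := fun t => ∑ i, ∑ j, M t i j with hf
  have hst' : ∀ t τ : ℝ, 0 ≤ t → t < τ → τ ≤ 1 → τ - t ≤ h₀ →
      D τ ≤ D t + K * η * (τ - t) ∧ f τ ≤ f t + (τ - t) * D τ + K * η * (τ - t) := hst
  have key : ∀ k : ℕ, k ≤ N → D (k / N) ≤ D 0 + K * η * (k / N) ∧
      f (k / N) ≤ f 0 + (k / N) * (D 0 + K * η) + K * η * (k / N) := by
    intro k
    induction k with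
    | zero =>
      intro _
      simp
    | succ k ih =>
      intro hk
      obtain ⟨i1, i2⟩ := ih (by omega)
      have hk1 : ((k + 1 : ℕ) : ℝ) ≤ N := by exact_mod_cast hk
      have e1 : (((k + 1 : ℕ) : ℝ) / N) - k / N = 1 / N := by
        push_cast
        field_simp
        ring
      have hle1 : ((k + 1 : ℕ) : ℝ) / N ≤ 1 := by
        rw [div_le_one hN0]; exact hk1
      obtain ⟨s1, s2⟩ := hst' (k / N) (((k + 1 : ℕ) : ℝ) / N) (by positivity)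
        (by
          have : 0 < 1 / (N : ℝ) := by positivity
          linarith) hle1 (by rw [e1]; exact hNh)
      rw [e1] at s1 s2
      have e2 : ((k + 1 : ℕ) : ℝ) / N = k / N + 1 / N := by linarith
      have hpos : 0 < 1 / (N : ℝ) := by positivity
      have hKη : 0 ≤ K * η := by positivity
      have d1 : D (((k + 1 : ℕ) : ℝ) / N) ≤ D 0 + K * η * (((k + 1 : ℕ) : ℝ) / N) := by
        rw [e2, mul_add]
        rw [e2] at s1
        linarith
      refine ⟨d1, ?_⟩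
      have d2 : D (((k + 1 : ℕ) : ℝ) / N) ≤ D 0 + K * η :=
        d1.trans (by nlinarith)
      have d3 : 1 / (N : ℝ) * D (((k + 1 : ℕ) : ℝ) / N) ≤ 1 / (N : ℝ) * (D 0 + K * η) :=
        mul_le_mul_of_nonneg_left d2 hpos.le
      rw [e2] at s2 d3 ⊢
      nlinarith [s2, d3, i2]
  obtain ⟨_, k2⟩ := key N le_rfl
  rw [div_self hN0.ne'] at k2
  have hD0 : D 0 = ∑ i, (x1 i - x0 i) / x0 i * ∑ j, M 0 i j := by
    simp only [hD]
    refine Finset.sum_congr rfl fun i _ => ?_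
    unfold XT
    simp
  have : f 1 ≤ f 0 + D 0 + ε := by linarith
  rw [hD0] at this
  exact this

end tel

end Pool.Agent.LibRest
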