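import Pool.Agent.LibRest.A2
import Pool.Agent.LibRest.T1

/-! **T2.**  `rest_path` from FI, CO and coercivity. -/

open Matrix Filter Topology
open scoped ComplexOrder

namespace Pool.Agent.LibRest

open Pool.Agent.LibSchP

variable {n : Type} [Fintype n] [DecidableEq n] {ι : Type} [Fintype ι]

/-- a positive definite critical point is a maximiser (CO) -/
theorem crit_max (s : ℝ) (hs : 2 ≤ s) (d : ι → n → ℝ)
    (hCO : ∀ P0 P1 : Matrix n n ℂ, P0.PosDef → P1.PosDef → (YD s d P0).PosSemidef →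
      (YD s d P1).PosSemidef →
      s * (trace (P1 * YD s d P0)).re ≤ FD s d P1 + (s - 1) * FD s d P0)
    (c : ℝ) (hc : 0 < c)
    (hco : ∀ P : Matrix n n ℂ, P.PosSemidef → c * (trace (rp s P)).re ≤ FD s d P)
    (P0 : Matrix n n ℂ) (hP0 : P0.PosDef) (hB : (YD s d P0).PosDef) (P : Matrix n n ℂ)
    (hP : P.PosSemidef) :
    s * (trace (P * YD s d P0)).re - FD s d P ≤ (s - 1) * FD s d P0 := by
  obtain ⟨P1, hP1, hY1, hmax⟩ := exists_max_crit s hs d c hc hco (YD s d P0) hB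
  have h1 := hCO P0 P1 hP0 hP1 hB.posSemidef (by rw [hY1]; exact hB.posSemidef)
  have h2 := hmax P hP
  linarith

/-- the entries `Re P_ij B_ji` -/
noncomputable def MM' (P B : Matrix n n ℂ) (i j : n) : ℝ := (P i j * B j i).re

theorem sum_MM (P B : Matrix n n ℂ) : ∑ i, ∑ j, MM' P B i j = (trace (P * B)).re := by
  unfold MM' trace
  simp only [Matrix.diag_apply, Matrix.mul_apply, Complex.re_sum]

theorem MM_symm (P B : Matrix n n ℂ) (hP : P.IsHermitian) (hB : B.IsHermitian) (i j : n) :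
    MM' P B i j = MM' P B j i := by
  unfold MM'
  rw [← hP.apply i j, ← hB.apply j i, ← Complex.conj_re]
  simp

theorem MM_bound (P B : Matrix n n ℂ) (i j : n) : |MM' P B i j| ≤ nf P * nf B := by
  unfold MM'
  calc |(P i j * B j i).re| ≤ ‖P i j * B j i‖ := Complex.abs_re_le_norm _
    _ = ‖P i j‖ * ‖B j i‖ := norm_mul _ _
    _ ≤ _ := mul_le_mul (norm_entry_le_nf P i j) (norm_entry_le_nf B j i) (norm_nonneg _)
        (nf_nonneg _)

theorem cj_apply (d : n → ℝ) (P : Matrix n n ℂ) (i j : n) :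
    cj d P i j = (d i : ℂ) * P i j * (d j : ℂ) := by
  unfold cj dg
  rw [Matrix.mul_diagonal, Matrix.diagonal_mul]

theorem trace_cj_re (g : n → ℝ) (P B : Matrix n n ℂ) :
    (trace (P * cj g B)).re = ∑ i, ∑ j, g i * g j * MM' P B i j := by
  unfold trace MM'
  simp only [Matrix.diag_apply, Matrix.mul_apply, Complex.re_sum, cj_apply]
  refine Finset.sum_congr rfl fun i _ => Finset.sum_congr rfl fun j _ => ?_
  rw [← Complex.re_ofReal_mul]
  congr 1
  push_cast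
  ring

theorem trace_dg_re (g : n → ℝ) (P B : Matrix n n ℂ) :
    (trace (dg g * (P * B))).re = ∑ i, g i * ∑ j, MM' P B i j := by
  unfold trace MM'
  simp only [Matrix.diag_apply]
  rw [Complex.re_sum]
  refine Finset.sum_congr rfl fun i _ => ?_
  rw [dg, Matrix.diagonal_mul, Complex.re_ofReal_mul, Matrix.mul_apply, Complex.re_sum]

theorem cj_nf_le (d : n → ℝ) (D : ℝ) (hD : ∀ i, |d i| ≤ D) (P : Matrix n n ℂ) :
    nf (cj d P) ≤ D ^ 2 * nf P := by
  by_cases hn : Nonempty n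
  · have hD0 : 0 ≤ D := (abs_nonneg _).trans (hD (Classical.arbitrary n))
    refine abs_le_of_sq_le_sq' ?_ (by have := nf_nonneg P; positivity) |>.2
    rw [mul_pow, nf_sq, nf_sq]
    unfold fr
    rw [Finset.mul_sum]
    refine Finset.sum_le_sum fun i _ => ?_
    rw [Finset.mul_sum]
    refine Finset.sum_le_sum fun j _ => ?_
    rw [cj_apply, norm_mul, norm_mul, Complex.norm_real, Complex.norm_real, Real.norm_eq_abs,
      Real.norm_eq_abs, ← mul_pow]
    refine pow_le_pow_left₀ (by positivity) ?_ 2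
    calc |d i| * ‖P i j‖ * |d j| = (|d i| * |d j|) * ‖P i j‖ := by ring
      _ ≤ (D * D) * ‖P i j‖ := mul_le_mul_of_nonneg_right
          (mul_le_mul (hD i) (hD j) (abs_nonneg _) hD0) (norm_nonneg _)
      _ = _ := by ring
  · have : IsEmpty n := not_nonempty_iff.1 hn
    have e : nf (cj d P) = 0 := by
      unfold nf fr
      simp
    rw [e]
    have := nf_nonneg P
    positivity

/-- **rest_path**, with FI, CO and coercivity as hypotheses -/
theorem rest_path' (s : ℝ) (hs : 2 ≤ s) (d : ι → n → ℝ)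
    (hFI : ∀ P0 P1 : Matrix n n ℂ, P0.PosDef → P1.PosDef → (YD s d P0).PosSemidef →
      (YD s d P1).PosSemidef → ∀ g h : n → ℝ,
      (trace (P0 * cj g (YD s d P1))).re + (trace (P1 * cj h (YD s d P0))).re ≤
        (trace (dg (fun i => g i ^ 2) * (P1 * YD s d P1))).re +
        (trace (dg (fun i => h i ^ 2) * (P0 * YD s d P0))).re +
        1 / (2 * (s - 1)) * (trace (dg (fun i => (h i - g i) ^ 2) *
          (P1 * YD s d P1 + P0 * YD s d P0))).re)
    (hCO : ∀ P0 P1 : Matrix n n ℂ, P0.PosDef → P1.PosDef → (YD s d P0).PosSemidef →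
      (YD s d P1).PosSemidef →
      s * (trace (P1 * YD s d P0)).re ≤ FD s d P1 + (s - 1) * FD s d P0)
    (c : ℝ) (hc : 0 < c)
    (hco : ∀ P : Matrix n n ℂ, P.PosSemidef → c * (trace (rp s P)).re ≤ FD s d P)
    (E : Matrix n n ℂ) (hE : E.PosDef) (x0 x1 : n → ℝ) (hx0 : ∀ i, 0 < x0 i)
    (hx1 : ∀ i, 0 < x1 i) (P0 : Matrix n n ℂ) (hP0 : P0.PosDef)
    (hY : YD s d P0 = cj (fun i => x0 i ^ ((s - 1) / (2 * s))) E)
    (hsl : ∑ i, (x1 i - x0 i) / x0 i * ((P0 * YD s d P0) i i).re ≤ 0)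
    (P : Matrix n n ℂ) (hP : P.PosSemidef) :
    s * (trace (P * cj (fun i => x1 i ^ ((s - 1) / (2 * s))) E)).re - FD s d P ≤
      (s - 1) * FD s d P0 := by
  have hs1 : 1 < s := by linarith
  set u : ℝ := (s - 1) / (2 * s) with hu
  set B : ℝ → Matrix n n ℂ := fun t => cj (fun i => XT x0 x1 t i ^ u) E with hB
  have hBpd : ∀ t : ℝ, 0 ≤ t → t ≤ 1 → (B t).PosDef := fun t ht ht' =>
    cj_pd _ (fun i => Real.rpow_pos_of_pos (XT_pos x0 x1 hx0 hx1 t ht ht' i).2 _) E hE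
  have hX0 : ∀ i, XT x0 x1 0 i = x0 i := fun i => by unfold XT; ring
  have hX1 : ∀ i, XT x0 x1 1 i = x1 i := fun i => by unfold XT; ring
  have hB0 : B 0 = YD s d P0 := by
    rw [hY]
    simp only [hB, hX0]
  have hex : ∀ t : ℝ, 0 ≤ t → t ≤ 1 → ∃ Q : Matrix n n ℂ, Q.PosDef ∧ YD s d Q = B t ∧
      (∀ Q' : Matrix n n ℂ, Q'.PosSemidef →
        s * (trace (Q' * B t)).re - FD s d Q' ≤ (s - 1) * (trace (Q * B t)).re) ∧
      (t = 0 → Q = P0) := by
    intro t ht ht'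
    by_cases h0 : t = 0
    · subst h0
      refine ⟨P0, hP0, hB0.symm, fun Q' hQ' => ?_, fun _ => rfl⟩
      have h1 := crit_max s hs d hCO c hc hco P0 hP0 (by rw [← hB0]; exact hBpd 0 ht ht') Q' hQ'
      have h2 := trace_mul_YD s hs1 d P0 hP0.posSemidef
      rw [← hB0] at h1 h2
      rw [h2]
      exact h1
    · obtain ⟨Q, hQ, hYQ, hmax⟩ := exists_max_crit s hs d c hc hco (B t) (hBpd t ht ht')
      refine ⟨Q, hQ, hYQ, fun Q' hQ' => ?_, fun h => absurd h h0⟩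
      have h1 := hmax Q' hQ'
      have h2 := trace_mul_YD s hs1 d Q hQ.posSemidef
      rw [hYQ] at h2
      linarith
  choose! Q hQ hYQ hmaxQ hQ0 using hex
  -- uniform bounds
  obtain ⟨D, hD⟩ : ∃ D : ℝ, ∀ t : ℝ, 0 ≤ t → t ≤ 1 → ∀ i, |XT x0 x1 t i ^ u| ≤ D := by
    have hu0 : 0 ≤ u := by rw [hu]; apply div_nonneg <;> linarith
    refine ⟨∑ i, (x0 i + x1 i) ^ u, fun t ht ht' i => ?_⟩
    have hX := (XT_pos x0 x1 hx0 hx1 t ht ht' i).2
    rw [abs_of_nonneg (Real.rpow_nonneg hX.le _)]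
    have h1 : XT x0 x1 t i ≤ x0 i + x1 i := by
      unfold XT
      nlinarith [hx0 i, hx1 i]
    calc XT x0 x1 t i ^ u ≤ (x0 i + x1 i) ^ u := Real.rpow_le_rpow hX.le h1 hu0
      _ ≤ _ := Finset.single_le_sum (f := fun i => (x0 i + x1 i) ^ u)
          (fun j _ => Real.rpow_nonneg (by linarith [hx0 j, hx1 j]) _) (Finset.mem_univ i)
  have hBb : ∀ t : ℝ, 0 ≤ t → t ≤ 1 → nf (B t) ≤ D ^ 2 * nf E := fun t ht ht' =>
    cj_nf_le _ D (hD t ht ht') E
  have hβ : 0 ≤ D ^ 2 * nf E := mul_nonneg (sq_nonneg _) (nf_nonneg _)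
  obtain ⟨R, hR, hRb⟩ := coercive_bound (n := n) s hs1 c (D ^ 2 * nf E) hc hβ
  have hQb : ∀ t : ℝ, 0 ≤ t → t ≤ 1 → nf (Q t) ≤ R := by
    intro t ht ht'
    refine hRb (Q t) (B t) (hQ t ht ht').posSemidef (hBb t ht ht') ?_
    have h1 := hco (Q t) (hQ t ht ht').posSemidef
    have h2 := trace_mul_YD s hs1 d (Q t) (hQ t ht ht').posSemidef
    rw [hYQ t ht ht'] at h2
    have h3 : 0 ≤ (trace (rp s (Q t))).re := by
      have := (rp_posSemidef s (Q t) (hQ t ht ht').posSemidef).trace_nonneg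
      exact (Complex.le_def.1 this).1
    have h4 : 0 ≤ (trace (Q t * B t)).re := by
      rw [h2]; exact (mul_nonneg hc.le h3).trans h1
    nlinarith
  have hcjB : ∀ t τ : ℝ, 0 ≤ t → t ≤ 1 → 0 ≤ τ → τ ≤ 1 →
      cj (fun i => (XT x0 x1 t i / XT x0 x1 τ i) ^ u) (B τ) = B t := by
    intro t τ ht ht' hτ hτ'
    simp only [hB]
    rw [cj_cj]
    congr 1
    funext i
    have h1 := (XT_pos x0 x1 hx0 hx1 t ht ht' i).2
    have h2 := (XT_pos x0 x1 hx0 hx1 τ hτ hτ' i).2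
    rw [← Real.mul_rpow (div_nonneg h1.le h2.le) h2.le, div_mul_cancel₀ _ h2.ne']
  have htel := tel s hs1 x0 x1 hx0 hx1 (fun t => MM' (Q t) (B t)) (R * (D ^ 2 * nf E))
    (fun t ht ht' i j => (MM_bound (Q t) (B t) i j).trans
      (mul_le_mul (hQb t ht ht') (hBb t ht ht') (nf_nonneg _) hR))
    (fun t ht ht' i j => MM_symm (Q t) (B t) (hQ t ht ht').isHermitian
      (hBpd t ht ht').isHermitian i j)
    (by
      intro t τ ht ht' hτ hτ'
      have h := hFI (Q t) (Q τ) (hQ t ht ht') (hQ τ hτ hτ')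
        (by rw [hYQ t ht ht']; exact (hBpd t ht ht').posSemidef)
        (by rw [hYQ τ hτ hτ']; exact (hBpd τ hτ hτ').posSemidef)
        (fun i => (XT x0 x1 t i / XT x0 x1 τ i) ^ u)
        (fun i => (XT x0 x1 τ i / XT x0 x1 t i) ^ u)
      rw [hYQ t ht ht', hYQ τ hτ hτ', hcjB t τ ht ht' hτ hτ', hcjB τ t hτ hτ' ht ht',
        Matrix.mul_add, trace_add, Complex.add_re, trace_dg_re, trace_dg_re, trace_dg_re,
        trace_dg_re, ← sum_MM, ← sum_MM] at h
      refine h.trans (le_of_eq ?_)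
      congr 1
      rw [← Finset.sum_add_distrib]
      congr 1
      exact Finset.sum_congr rfl fun i _ => (mul_add _ _ _).symm)
    (by
      intro t τ ht ht' hτ hτ'
      have h := hmaxQ t ht ht' (Q τ) (hQ τ hτ hτ').posSemidef
      have h2 := trace_mul_YD s hs1 d (Q τ) (hQ τ hτ hτ').posSemidef
      rw [hYQ τ hτ hτ'] at h2
      rw [← hcjB t τ ht ht' hτ hτ', trace_cj_re, hcjB t τ ht ht' hτ hτ', ← h2, ← sum_MM,
        ← sum_MM] at h
      linarith)
  -- conclusion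
  have hQ00 : Q 0 = P0 := hQ0 0 le_rfl zero_le_one rfl
  have e1 : ∑ i, (x1 i - x0 i) / x0 i * ∑ j, MM' (Q 0) (B 0) i j =
      ∑ i, (x1 i - x0 i) / x0 i * ((P0 * YD s d P0) i i).re := by
    refine Finset.sum_congr rfl fun i _ => ?_
    rw [hQ00, hB0]
    congr 1
    unfold MM'
    rw [← Complex.re_sum, Matrix.mul_apply]
  have h1 := hmaxQ 1 zero_le_one le_rfl P hP
  have h2 := trace_mul_YD s hs1 d P0 hP0.posSemidef
  have hB1 : B 1 = cj (fun i => x1 i ^ u) E := by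
    simp only [hB, hX1]
  rw [e1, sum_MM, sum_MM, hQ00, hB0, h2] at htel
  rw [hB1] at h1 htel
  have h3 : (s - 1) * (trace (Q 1 * cj (fun i => x1 i ^ u) E)).re ≤ (s - 1) * FD s d P0 :=
    mul_le_mul_of_nonneg_left (by linarith) (by linarith)
  linarith

end Pool.Agent.LibRest
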