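import Pool.Agent.LibRest.FI
import Pool.Agent.LibRest.CE
import Pool.Agent.LibRest.T2
import Pool.Agent.LibRest.R5e
import Pool.Agent.LibRest.S6

open Matrix Filter Topology
open scoped ComplexOrder

namespace Pool.Agent.LibRest

open Pool.Agent.LibSchP

/-- `rest_path` for every number of weights -/
theorem rest_path96 {n : Type} [Fintype n] [DecidableEq n] {ι : Type} [Fintype ι] (s : ℝ)
    (hs : 2 ≤ s) (d : ι → n → ℝ) (hd : ∀ k i, 0 < d k i)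
    (E : Matrix n n ℂ) (hE : E.PosDef) (x0 x1 : n → ℝ) (hx0 : ∀ i, 0 < x0 i)
    (hx1 : ∀ i, 0 < x1 i) (P0 : Matrix n n ℂ) (hP0 : P0.PosDef)
    (hY : YD s d P0 = cj (fun i => x0 i ^ ((s - 1) / (2 * s))) E)
    (hsl : ∑ i, (x1 i - x0 i) / x0 i * ((P0 * YD s d P0) i i).re ≤ 0)
    (P : Matrix n n ℂ) (hP : P.PosSemidef) :
    s * (trace (P * cj (fun i => x1 i ^ ((s - 1) / (2 * s))) E)).re - FD s d P ≤
      (s - 1) * FD s d P0 := by
  have hYp : (YD s d P0).PosDef := by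
    rw [hY]
    exact cj_pd _ (fun i => Real.rpow_pos_of_pos (hx0 i) _) E hE
  obtain ⟨c, hc, hco⟩ := coercive s hs (fun d hd P₀ P₁ h0 h1 h2 h3 => CO s hs d hd P₀ P₁ h0 h1 h2 h3)
    d hd P0 hP0 hYp
  exact rest_path' s hs d (fun P0 P1 h0 h1 h2 h3 g h => FI s hs d hd P0 P1 h0 h1 h2 h3 g h)
    (fun P0 P1 h0 h1 h2 h3 => CO s hs d hd P0 P1 h0 h1 h2 h3) c hc hco E hE x0 x1 hx0 hx1 P0 hP0 hY
    hsl P hP

theorem restPath96 (s : ℝ) (hs : 2 ≤ s) : RestPath s := by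
  intro n _ _ d hd E hE x0 x1 hx0 hx1 P0 hP0 hY hsl P hP
  exact rest_path96 s hs d hd E hE x0 x1 hx0 hx1 P0 hP0 hY hsl P hP

theorem rst_all {a : ℝ} (ha : 0 < a) (ha2 : 2 * a < 1) : Rst96 a :=
  rst96 ha ha2 (restPath96 (1 / a) (by rw [le_div_iff₀ ha]; linarith))


end Pool.Agent.LibRest
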